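import Mathlib

/-!
Linear algebra: tensor directions, closed subspaces, and the transfinite construction of a
generic subspace.
-/

namespace Pool.Agent.Lib.MP_1684af_al

open Submodule

variable {k : Type} [Field k] {L : Type} [AddCommGroup L] [Module k L]

/-- The tuple `(μ j • x)`. -/
def tn {ω : Type} (μ : ω → k) (x : L) : ω → L := fun j => μ j • x

/-- The combination `∑ μ j • x j`. -/
def dt {ω : Type} [Fintype ω] (μ : ω → k) (x : ω → L) : L := ∑ j, μ j • x j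

section basic

variable {ω : Type}

theorem tn_add_left (μ ν : ω → k) (x : L) : tn (μ + ν) x = tn μ x + tn ν x := by
  ext j; simp [tn, add_smul]

theorem tn_smul_left (c : k) (μ : ω → k) (x : L) : tn (c • μ) x = c • tn μ x := by
  ext j; simp [tn, mul_smul]

theorem tn_add (μ : ω → k) (x y : L) : tn μ (x + y) = tn μ x + tn μ y := by
  ext j; simp [tn]

theorem tn_sub (μ : ω → k) (x y : L) : tn μ (x - y) = tn μ x - tn μ y := by
  ext j; simp [tn, smul_sub]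

theorem tn_smul (c : k) (μ : ω → k) (x : L) : tn μ (c • x) = c • tn μ x := by
  ext j; simp [tn, smul_comm c]

@[simp] theorem tn_zero (μ : ω → k) : tn μ (0 : L) = 0 := by
  ext j; simp [tn]

@[simp] theorem tn_zero_left (x : L) : tn (0 : ω → k) x = 0 := by
  ext j; simp [tn]

/-- `tn μ` as a linear map. -/
def tnL (μ : ω → k) : L →ₗ[k] (ω → L) where
  toFun := tn μ
  map_add' := tn_add μ
  map_smul' c x := tn_smul c μ x

@[simp] theorem tnL_apply (μ : ω → k) (x : L) : tnL μ x = tn μ x := rfl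

variable [Fintype ω]

theorem dt_add (μ : ω → k) (x y : ω → L) : dt μ (x + y) = dt μ x + dt μ y := by
  simp [dt, Finset.sum_add_distrib]

theorem dt_sub (μ : ω → k) (x y : ω → L) : dt μ (x - y) = dt μ x - dt μ y := by
  simp [dt, smul_sub]

theorem dt_smul (c : k) (μ : ω → k) (x : ω → L) : dt μ (c • x) = c • dt μ x := by
  simp [dt, Finset.smul_sum, smul_comm c]

@[simp] theorem dt_zero (μ : ω → k) : dt μ (0 : ω → L) = 0 := by simp [dt]

@[simp] theorem dt_zero_left (x : ω → L) : dt (0 : ω → k) x = 0 := by simp [dt]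

theorem dt_add_left (μ ν : ω → k) (x : ω → L) : dt (μ + ν) x = dt μ x + dt ν x := by
  simp [dt, add_smul, Finset.sum_add_distrib]

theorem dt_smul_left (c : k) (μ : ω → k) (x : ω → L) : dt (c • μ) x = c • dt μ x := by
  simp [dt, Finset.smul_sum, mul_smul]

theorem dt_tn (a μ : ω → k) (x : L) : dt a (tn μ x) = dt a μ • x := by
  simp [dt, tn, Finset.sum_smul, mul_smul]

theorem dt_mem {P : Submodule k L} (a : ω → k) {x : ω → L} (h : ∀ j, x j ∈ P) : dt a x ∈ P :=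
  sum_mem fun j _ => smul_mem _ _ (h j)

/-- `dt a` as a linear map. -/
def dtL (a : ω → k) : (ω → L) →ₗ[k] L where
  toFun := dt a
  map_add' := dt_add a
  map_smul' c x := dt_smul c a x

@[simp] theorem dtL_apply (a : ω → k) (x : ω → L) : dtL a x = dt a x := rfl

theorem dt_comm (a μ : ω → k) : dt a μ = dt μ a := by
  simp [dt, mul_comm]

/-- Duality: a functional outside a subspace is detected by a vector killed by the subspace. -/
theorem exists_perp {W : Submodule k (ω → k)} {a : ω → k} (h : a ∉ W) :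
    ∃ μ : ω → k, dt a μ ≠ 0 ∧ ∀ b ∈ W, dt b μ = 0 := by
  classical
  obtain ⟨f, h1, h2⟩ := W.exists_dual_map_eq_bot_of_notMem h inferInstance
  have e : ∀ b : ω → k, dt b (fun j => f fun i => if j = i then 1 else 0) = f b := by
    intro b
    rw [LinearMap.pi_apply_eq_sum_univ f b]
    rfl
  refine ⟨_, by rwa [e], fun b hb => ?_⟩
  rw [e]
  have : f b ∈ W.map f := mem_map_of_mem hb
  rwa [h2, mem_bot] at this

theorem dt_span {Φ : Set (ω → k)} {x : ω → L} (h : ∀ b ∈ Φ, dt b x = 0) {a : ω → k}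
    (ha : a ∈ span k Φ) : dt a x = 0 := by
  induction ha using span_induction with
  | mem b hb => exact h b hb
  | zero => simp
  | add a b _ _ h1 h2 => rw [dt_add_left, h1, h2, add_zero]
  | smul c a _ h1 => rw [dt_smul_left, h1, smul_zero]

theorem dt_eq_zero_of_perp {Φ : Set (ω → k)} {x : ω → L} (h : ∀ b ∈ Φ, dt b x = 0) {a : ω → k}
    (ha : ∀ μ : ω → k, (∀ b ∈ Φ, dt b μ = 0) → dt a μ = 0) : dt a x = 0 := by
  refine dt_span h ?_
  by_contra hc
  obtain ⟨μ, h1, h2⟩ := exists_perp hc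
  exact h1 (ha μ fun b hb => h2 b (subset_span hb))

end basic

/-- Directions `μ` with `μ ⊗ P ≤ K`. -/
def Wsp {ω : Type} (K : Submodule k (ω → L)) (P : Submodule k L) : Submodule k (ω → k) where
  carrier := {μ | ∀ x ∈ P, tn μ x ∈ K}
  add_mem' := fun {a b} ha hb x hx => by rw [tn_add_left]; exact K.add_mem (ha x hx) (hb x hx)
  zero_mem' := fun x _ => by simp
  smul_mem' := fun c a ha x hx => by rw [tn_smul_left]; exact K.smul_mem c (ha x hx)

theorem mem_Wsp {ω : Type} {K : Submodule k (ω → L)} {P : Submodule k L} {μ : ω → k} :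
    μ ∈ Wsp K P ↔ ∀ x ∈ P, tn μ x ∈ K := Iff.rfl

theorem Wsp_mono {ω : Type} {K K' : Submodule k (ω → L)} {P P' : Submodule k L} (h : K ≤ K')
    (h' : P' ≤ P) : Wsp K P ≤ Wsp K' P' := fun _ hμ x hx => h (hμ x (h' hx))

/-- `a` kills `W`. -/
def Perp {ω : Type} [Fintype ω] (a : ω → k) (W : Submodule k (ω → k)) : Prop :=
  ∀ μ ∈ W, dt a μ = 0

/-- The data of an extension step. -/
structure Dat (k L : Type) [Field k] [AddCommGroup L] [Module k L] where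
  D : ℕ → Submodule k L
  Y : Bool → Submodule k L

namespace Dat

variable (d : Dat k L)

def Closed {ω : Type} (K : Submodule k (ω → L)) : Prop :=
  ∀ i m, Wsp K (d.Y i ⊓ d.D m) ≤ Wsp K (d.D m)

def Str : Prop :=
  Antitone d.D ∧ (d.Y true = d.Y false ∨
    ∀ i n, d.Y i ⊓ d.D n ≤ d.D (n + 1) ⊔ d.Y (!i) → d.D n = ⊥)

def Fn (G : Submodule k L) : Prop :=
  (∀ i, ∀ x ∈ G, x ∈ d.Y i → x = 0) ∧ ∀ i m, ∀ x ∈ G, x ∈ d.D m ⊔ d.Y i → x ∈ d.D m

def X3 {ω : Type} [Fintype ω] (G : Submodule k L) (K : Submodule k (ω → L)) : Prop :=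
  ∀ x ∈ K, (∀ j, x j ∈ G) → ∀ a : ω → k,
    (∀ m, (∀ m' < m, Perp a (Wsp K (d.D m'))) → dt a x ∈ d.D m) ∧
      ((∀ m', Perp a (Wsp K (d.D m'))) → dt a x = 0)

def Cov (X : Submodule k L) : Prop :=
  ∀ i m, ∀ x ∈ d.D m, ∃ y ∈ d.Y i ⊓ d.D m, x - y ∈ X

end Dat

section avoid

variable {Λ : Type} [LinearOrder Λ] [WellFoundedLT Λ]

/-- The hypotheses of the construction. -/
structure Env (d : Dat k L) (r : Λ → L →ₗ[k] L)
    (𝒦 : ∀ (ω : Type) [Fintype ω], Submodule k (ω → L) → Prop) : Prop where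
  str : d.Str
  fix : ∀ s s', s ≤ s' → ∀ x, r s x = x → r s' x = x
  idem : ∀ s x, r s (r s x) = r s x
  rD : ∀ s m, ∀ x ∈ d.D m, r s x ∈ d.D m
  rY : ∀ s i, ∀ x ∈ d.Y i, r s x ∈ d.Y i
  rK : ∀ s ω [Fintype ω] K, 𝒦 ω K → ∀ x ∈ K, (fun j => r s (x j)) ∈ K
  sat : ∀ i (l : ℕ → ℕ), Monotone l → ∀ a : ℕ → L,
    (∀ m, a (m + 1) - a m ∈ d.Y i ⊓ d.D (l m)) → ∃ t, ∀ m, t - a m ∈ d.Y i ⊓ d.D (l m)
  gen : ∀ s i (l : ℕ → ℕ), Monotone l → ∃ z, (∀ m, z ∈ d.Y i ⊓ d.D (l m)) ∧ r s z = 0 ∧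
    (∀ s' > s, r s' z = z) ∧
    (∀ ω [Fintype ω] K, 𝒦 ω K → ∀ μ, tn μ z ∈ K → ∃ m, μ ∈ Wsp K (d.Y i ⊓ d.D (l m))) ∧
    (∀ j m, z ∈ d.D m ⊔ d.Y j → ∃ m', d.Y i ⊓ d.D (l m') ≤ d.D m ⊔ d.Y j) ∧
    ∀ j, z ∈ d.Y j → ∃ m', d.Y i ⊓ d.D (l m') ≤ d.Y j
  task : ∃ e : Λ → L × Bool, ∀ x i, ∃ s, e s = (x, i) ∧ r s x = x

variable {d : Dat k L} {r : Λ → L →ₗ[k] L}
  {𝒦 : ∀ (ω : Type) [Fintype ω], Submodule k (ω → L) → Prop}

/-- The invariant. -/
structure Inv (d : Dat k L) (r : Λ → L →ₗ[k] L)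
    (𝒦 : ∀ (ω : Type) [Fintype ω], Submodule k (ω → L) → Prop) (G₀ G : Submodule k L) : Prop where
  le : G₀ ≤ G
  fn : d.Fn G
  x3 : ∀ ω [Fintype ω] K, 𝒦 ω K → d.Closed K → d.X3 G K
  rem : ∀ ω [Fintype ω] K, 𝒦 ω K → d.Closed K → ∀ a : ω → L,
    (∀ s, (a - fun j => r s (a j)) ∈ K) → ∀ x : ω → L, (∀ j, x j ∈ G) → x - a ∈ K →
      ∃ x₀ : ω → L, (∀ j, x₀ j ∈ G₀) ∧ x - x₀ ∈ K

omit [LinearOrder Λ] [WellFoundedLT Λ] in
theorem Inv.sup {G₀ : Submodule k L} (h0 : Inv d r 𝒦 G₀ G₀) {ι : Type} {f : ι → Submodule k L}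
    (hf : ∀ a, Inv d r 𝒦 G₀ (f a)) (hc : ∀ a b, f a ≤ f b ∨ f b ≤ f a) :
    Inv d r 𝒦 G₀ (G₀ ⊔ ⨆ a, f a) := by
  let g : Option ι → Submodule k L := fun o => o.elim G₀ f
  have hg : ∀ o, Inv d r 𝒦 G₀ (g o) := by
    rintro (_ | a)
    exacts [h0, hf a]
  have hd : Directed (· ≤ ·) g := by
    rintro (_ | a) (_ | b)
    · exact ⟨none, le_rfl, le_rfl⟩
    · exact ⟨some b, (hf b).le, le_rfl⟩
    · exact ⟨some a, le_rfl, (hf a).le⟩
    · rcases hc a b with h | h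
      exacts [⟨some b, h, le_rfl⟩, ⟨some a, le_rfl, h⟩]
  have e : G₀ ⊔ ⨆ a, f a = ⨆ o, g o := by rw [iSup_option]; rfl
  have one : ∀ x ∈ ⨆ o, g o, ∃ o, x ∈ g o := fun x hx => (mem_iSup_of_directed _ hd).1 hx
  have many : ∀ ω [Fintype ω] (x : ω → L), (∀ j, x j ∈ ⨆ o, g o) → ∃ o, ∀ j, x j ∈ g o := by
    intro ω _ x hx
    choose o ho using fun j => one _ (hx j)
    obtain ⟨o', h'⟩ := hd.finite_le o
    exact ⟨o', fun j => h' j (ho j)⟩
  rw [e]
  refine ⟨le_iSup g none, ⟨fun i x hx => ?_, fun i m x hx => ?_⟩, fun ω _ K hK hc x hx hG => ?_,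
    fun ω _ K hK hc a ha x hx => ?_⟩
  · obtain ⟨o, ho⟩ := one x hx
    exact (hg o).fn.1 i x ho
  · obtain ⟨o, ho⟩ := one x hx
    exact (hg o).fn.2 i m x ho
  · obtain ⟨o, ho⟩ := many ω x hG
    exact (hg o).x3 ω K hK hc x hx ho
  · obtain ⟨o, ho⟩ := many ω x hx
    exact (hg o).rem ω K hK hc a ha x ho

theorem exists_tn {ω : Type} {G : Submodule k L} {t : L} {x : ω → L}
    (h : ∀ j, x j ∈ G ⊔ span k {t}) : ∃ g : ω → L, (∀ j, g j ∈ G) ∧ ∃ μ : ω → k, x = g + tn μ t := by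
  have : ∀ j, ∃ g ∈ G, ∃ c : k, x j = g + c • t := by
    intro j
    obtain ⟨g, hg, y, hy, e⟩ := mem_sup.1 (h j)
    obtain ⟨c, rfl⟩ := mem_span_singleton.1 hy
    exact ⟨g, hg, c, e.symm⟩
  choose g hg μ hμ using this
  exact ⟨g, hg, μ, funext hμ⟩

omit [WellFoundedLT Λ] in
theorem Inv.step (E : Env d r 𝒦) {G₀ G : Submodule k L} (h : Inv d r 𝒦 G₀ G) {s : Λ}
    (hs : ∀ x ∈ G, r s x = x) {x₀ : L} (hx₀ : x₀ ∈ d.D 0) (hr : r s x₀ = x₀) (i : Bool) :
    ∃ G', G ≤ G' ∧ Inv d r 𝒦 G₀ G' ∧ (∀ s' > s, ∀ x ∈ G', r s' x = x) ∧ x₀ ∈ G' ⊔ d.Y i := by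
  classical
  by_cases hc : x₀ ∈ G ⊔ d.Y i
  · exact ⟨G, le_rfl, h, fun s' h' x hx => E.fix s s' h'.le x (hs x hx), hc⟩
  let p : ℕ → Prop := fun m => x₀ ∈ G ⊔ d.Y i ⊔ d.D m
  let l : ℕ → ℕ := fun m => Nat.findGreatest p m
  have hl : Monotone l := fun a b hab => Nat.findGreatest_mono_right p hab
  have hp : ∀ m, p (l m) := fun m =>
    Nat.findGreatest_spec (Nat.zero_le m) (mem_sup_right hx₀ : p 0)
  have hlm : ∀ m, p m → l m = m := fun m hm => Nat.findGreatest_eq hm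
  have : ∀ m, ∃ γ ∈ G, ∃ y ∈ d.Y i, x₀ - y - γ ∈ d.D (l m) := by
    intro m
    obtain ⟨u, hu, δ, hδ, e⟩ := mem_sup.1 (hp m)
    obtain ⟨γ, hγ, y, hy, rfl⟩ := mem_sup.1 hu
    refine ⟨γ, hγ, y, hy, ?_⟩
    have : x₀ - y - γ = δ := by rw [← e]; abel
    rwa [this]
  choose γ hγ y hy hδ using this
  obtain ⟨t₀, ht₀⟩ := E.sat i l hl (fun m => x₀ - y m) fun m => by
    have h1 : x₀ - y (m + 1) - (x₀ - y m) ∈ d.Y i := by
      have : x₀ - y (m + 1) - (x₀ - y m) = y m - y (m + 1) := by abel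
      rw [this]; exact sub_mem (hy _) (hy _)
    have h2 : x₀ - y (m + 1) - γ (m + 1) - (x₀ - y m - γ m) ∈ d.D (l m) :=
      sub_mem (E.str.1 (hl (Nat.le_succ m)) (hδ _)) (hδ _)
    have h3 : γ (m + 1) - γ m ∈ d.D (l m) := by
      refine h.fn.2 i _ _ (sub_mem (hγ _) (hγ _)) ?_
      have : γ (m + 1) - γ m = -(x₀ - y (m + 1) - γ (m + 1) - (x₀ - y m - γ m)) +
        (x₀ - y (m + 1) - (x₀ - y m)) := by abel
      rw [this]
      exact add_mem (mem_sup_left (neg_mem h2)) (mem_sup_right h1)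
    refine ⟨h1, ?_⟩
    have : x₀ - y (m + 1) - (x₀ - y m) = (x₀ - y (m + 1) - γ (m + 1) - (x₀ - y m - γ m)) +
      (γ (m + 1) - γ m) := by abel
    rw [this]
    exact add_mem h2 h3
  obtain ⟨z, z1, z2, z3, z4, z5, z6⟩ := E.gen s i l hl
  obtain ⟨t, ht⟩ : ∃ t, t = r s t₀ + z := ⟨_, rfl⟩
  have t1 : t - x₀ ∈ d.Y i := by
    have : t - x₀ = r s (t₀ - (x₀ - y 0) - y 0) + z := by
      have : t₀ - (x₀ - y 0) - y 0 = t₀ - x₀ := by abel
      rw [this, map_sub, hr, ht]; abel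
    rw [this]
    exact add_mem (E.rY s i _ (sub_mem (ht₀ 0).1 (hy 0))) (z1 0).1
  have t2 : ∀ m, t - γ m ∈ d.D (l m) := by
    intro m
    have : t - γ m = r s (t₀ - (x₀ - y m) + (x₀ - y m - γ m)) + z := by
      have : t₀ - (x₀ - y m) + (x₀ - y m - γ m) = t₀ - γ m := by abel
      rw [this, map_sub, hs _ (hγ m), ht]; abel
    rw [this]
    exact add_mem (E.rD s _ _ (add_mem (ht₀ m).2 (hδ m))) (z1 m).2
  have t3 : r s t = r s t₀ := by rw [ht, map_add, E.idem, z2, add_zero]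
  have t4 : ∀ g ∈ G, (g + t) - r s (g + t) = z := by
    intro g hg
    rw [map_add, hs g hg, t3, ht]; abel
  have tG : t ∈ G ⊔ span k {t} := mem_sup_right (mem_span_singleton_self t)
  have norm : ∀ (P Q : Submodule k L), (∀ g ∈ G, g ∈ P → g ∈ Q) →
      (∀ g ∈ G, g + t ∈ P → g + t ∈ Q) → ∀ x ∈ G ⊔ span k {t}, x ∈ P → x ∈ Q := by
    intro P Q h1 h2 x hx hP
    obtain ⟨g, hg, u, hu, rfl⟩ := mem_sup.1 hx
    obtain ⟨c, rfl⟩ := mem_span_singleton.1 hu
    by_cases hc : c = 0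
    · subst hc
      rw [zero_smul, add_zero] at hP ⊢
      exact h1 g hg hP
    · have e : g + c • t = c • (c⁻¹ • g + t) := by
        rw [smul_add, smul_smul, mul_inv_cancel₀ hc, one_smul]
      rw [e] at hP ⊢
      exact Q.smul_mem c (h2 _ (G.smul_mem _ hg) ((P.smul_mem_iff hc).1 hP))
  have notY : ∀ g ∈ G, g + t ∉ d.Y i := by
    intro g hg hY
    apply hc
    have : x₀ = -g + (g + t - (t - x₀)) := by abel
    rw [this]
    exact add_mem (mem_sup_left (neg_mem hg)) (mem_sup_right (sub_mem hY t1))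
  have notbot : ∀ m, d.D (l m) ≠ ⊥ := by
    intro m hb
    have := t2 m
    rw [hb, mem_bot] at this
    refine notY (-γ m) (neg_mem (hγ m)) ?_
    rw [neg_add_eq_sub, this]
    exact zero_mem _
  have side : ∀ j, d.Y j = d.Y i ∨ (j = !i ∧
      ∀ n, d.Y i ⊓ d.D n ≤ d.D (n + 1) ⊔ d.Y (!i) → d.D n = ⊥) := by
    intro j
    rcases E.str.2 with h1 | h1
    · left
      have : ∀ b, d.Y b = d.Y false := by
        rintro (_ | _)
        exacts [rfl, h1]
      rw [this i, this j]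
    · by_cases hj : j = i
      · exact Or.inl (by rw [hj])
      · exact Or.inr ⟨Bool.eq_not.2 hj, h1 i⟩
  have deep : ∀ j m m', m ≤ l m' → ∀ g ∈ G, g + t ∈ d.D m ⊔ d.Y j → g + t ∈ d.D m := by
    intro j m m' hm g hg hP
    have h1 : t - γ m' ∈ d.D m := E.str.1 hm (t2 m')
    have h2 : g + γ m' ∈ d.D m := by
      refine h.fn.2 j m _ (add_mem hg (hγ m')) ?_
      have : g + γ m' = g + t - (t - γ m') := by abel
      rw [this]
      exact sub_mem hP (mem_sup_left h1)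
    have : g + t = g + γ m' + (t - γ m') := by abel
    rw [this]
    exact add_mem h2 h1
  have rsup : ∀ j m, ∀ x ∈ d.D m ⊔ d.Y j, r s x ∈ d.D m ⊔ d.Y j := by
    intro j m x hx
    obtain ⟨a, ha, b, hb, rfl⟩ := mem_sup.1 hx
    rw [map_add]
    exact add_mem (mem_sup_left (E.rD s m a ha)) (mem_sup_right (E.rY s j b hb))
  have key : ∀ ω [Fintype ω] K, 𝒦 ω K → d.Closed K → ∀ a : ω → L,
      (a - fun j => r s (a j)) ∈ K → ∀ (g : ω → L) (μ : ω → k), (∀ j, g j ∈ G) →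
        g + tn μ t - a ∈ K → ∃ m, μ ∈ Wsp K (d.D (l m)) := by
    intro ω _ K hK hcl a ha g μ hg hx
    have h1 := E.rK s ω K hK _ hx
    have h2 : tn μ z ∈ K := by
      have : tn μ z = (g + tn μ t - a) - (fun j => r s ((g + tn μ t - a) j)) +
          (a - fun j => r s (a j)) := by
        ext j
        have : z = t - r s t₀ := by rw [ht]; abel
        simp only [tn, Pi.add_apply, Pi.sub_apply, map_sub, map_add, map_smul, hs _ (hg j), t3,
          this, smul_sub]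
        abel
      rw [this]
      exact add_mem (sub_mem hx h1) ha
    obtain ⟨m, hm⟩ := z4 ω K hK μ h2
    exact ⟨m, hcl i _ hm⟩
  refine ⟨G ⊔ span k {t}, le_sup_left, ⟨h.le.trans le_sup_left, ⟨fun j x hx hY => ?_,
    fun j m => norm _ _ (h.fn.2 j m) fun g hg hP => ?_⟩, fun ω _ K hK hcl x hx hG a => ?_,
    fun ω _ K hK hcl a ha x hG hx => ?_⟩, fun s' h' x hx => ?_, ?_⟩
  · refine (mem_bot k).1 (norm (d.Y j) ⊥ (fun g hg hP => (mem_bot k).2 (h.fn.1 j g hg hP))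
      (fun g hg hP => ?_) x hx hY)
    exfalso
    rcases side j with h1 | ⟨rfl, h1⟩
    · exact notY g hg (h1 ▸ hP)
    · obtain ⟨m', hm'⟩ := z6 (!i) (t4 g hg ▸ sub_mem hP (E.rY s _ _ hP))
      exact notbot m' (h1 _ (hm'.trans le_sup_right))
  · rcases side j with h1 | ⟨rfl, h1⟩
    · refine deep j m m (hlm m ?_).ge g hg hP
      change x₀ ∈ G ⊔ d.Y i ⊔ d.D m
      rw [h1] at hP
      obtain ⟨a, ha, b, hb, e⟩ := mem_sup.1 hP
      have : x₀ = -g + (b - (t - x₀)) + a := by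
        have : a = g + t - b := by rw [← e]; abel
        rw [this]; abel
      rw [this]
      exact add_mem (mem_sup_left (add_mem (mem_sup_left (neg_mem hg))
        (mem_sup_right (sub_mem hb t1)))) (mem_sup_right ha)
    · obtain ⟨m', hm'⟩ := z5 (!i) m (t4 g hg ▸ sub_mem hP (rsup _ _ _ hP))
      by_cases hm : m ≤ l m'
      · exact deep _ m m' hm g hg hP
      · exact (notbot m' (h1 _ (hm'.trans (sup_le_sup_right (E.str.1 (by omega)) _)))).elim
  · obtain ⟨g, hg, μ, rfl⟩ := exists_tn hG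
    obtain ⟨m, hm⟩ := key ω K hK hcl 0 (by
      have : ((0 : ω → L) - fun j => r s ((0 : ω → L) j)) = 0 := by ext j; simp
      rw [this]; exact zero_mem _) g μ hg (by simpa using hx)
    have e : g + tn μ t = (g + tn μ (γ m)) + tn μ (t - γ m) := by rw [tn_sub]; abel
    have h1 : g + tn μ (γ m) ∈ K := by
      have : g + tn μ (γ m) = g + tn μ t - tn μ (t - γ m) := by rw [e]; abel
      rw [this]
      exact sub_mem hx (hm _ (t2 m))
    have h2 := h.x3 ω K hK hcl _ h1 (fun j => add_mem (hg j) (G.smul_mem _ (hγ m))) a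
    rw [e, dt_add, dt_tn]
    refine ⟨fun n hn => add_mem (h2.1 n hn) ?_, fun hn => ?_⟩
    · by_cases hm' : l m < n
      · rw [hn _ hm' μ hm, zero_smul]; exact zero_mem _
      · exact smul_mem _ _ (E.str.1 (not_lt.1 hm') (t2 m))
    · rw [h2.2 hn, hn _ μ hm, zero_smul, add_zero]
  · obtain ⟨g, hg, μ, rfl⟩ := exists_tn hG
    obtain ⟨m, hm⟩ := key ω K hK hcl a (ha s) g μ hg hx
    have h0 := hm _ (t2 m)
    have e : g + tn μ t = (g + tn μ (γ m)) + tn μ (t - γ m) := by rw [tn_sub]; abel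
    obtain ⟨x', h1, h2⟩ := h.rem ω K hK hcl a ha (g + tn μ (γ m))
      (fun j => add_mem (hg j) (G.smul_mem _ (hγ m))) (by
        have : g + tn μ (γ m) - a = g + tn μ t - a - tn μ (t - γ m) := by rw [e]; abel
        rw [this]
        exact sub_mem hx h0)
    refine ⟨x', h1, ?_⟩
    have : g + tn μ t - x' = g + tn μ (γ m) - x' + tn μ (t - γ m) := by rw [e]; abel
    rw [this]
    exact add_mem h2 h0
  · obtain ⟨g, hg, u, hu, rfl⟩ := mem_sup.1 hx
    obtain ⟨c, rfl⟩ := mem_span_singleton.1 hu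
    rw [map_add, map_smul, E.fix s s' h'.le g (hs g hg), ht, map_add, z3 s' h',
      E.fix s s' h'.le _ (E.idem s t₀)]
  · have : x₀ = t - (t - x₀) := by abel
    rw [this]
    exact sub_mem (mem_sup_left tG) (mem_sup_right t1)

theorem Env.exists_generic (E : Env d r 𝒦) {G₀ : Submodule k L} (h0 : Inv d r 𝒦 G₀ G₀)
    (hr : ∀ s, ∀ x ∈ G₀, r s x = x) : ∃ X, Inv d r 𝒦 G₀ X ∧ d.Cov X := by
  classical
  obtain ⟨e, he⟩ := E.task
  have : ∀ (s : Λ) (G : Submodule k L), ∃ G', G ≤ G' ∧ (Inv d r 𝒦 G₀ G → (∀ x ∈ G, r s x = x) →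
      Inv d r 𝒦 G₀ G' ∧ (∀ s' > s, ∀ x ∈ G', r s' x = x) ∧
        ((e s).1 ∈ d.D 0 → r s (e s).1 = (e s).1 → (e s).1 ∈ G' ⊔ d.Y (e s).2)) := by
    intro s G
    by_cases h : Inv d r 𝒦 G₀ G ∧ (∀ x ∈ G, r s x = x) ∧ (e s).1 ∈ d.D 0 ∧ r s (e s).1 = (e s).1
    · obtain ⟨G', a1, a2, a3, a4⟩ := h.1.step E h.2.1 h.2.2.1 h.2.2.2 (e s).2
      exact ⟨G', a1, fun _ _ => ⟨a2, a3, fun _ _ => a4⟩⟩
    · exact ⟨G, le_rfl, fun h1 h2 => ⟨h1, fun s' h' x hx => E.fix s s' h'.le x (h2 x hx),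
        fun h3 h4 => (h ⟨h1, h2, h3, h4⟩).elim⟩⟩
  choose St s1 s2 using this
  let H : Λ → Submodule k L := (wellFounded_lt (α := Λ)).fix fun s H =>
    St s (G₀ ⊔ ⨆ s' : {s' // s' < s}, H s'.1 s'.2)
  have hH : ∀ s, H s = St s (G₀ ⊔ ⨆ s' : {s' // s' < s}, H s'.1) := fun s =>
    (wellFounded_lt (α := Λ)).fix_eq _ s
  have mono : ∀ a b, a < b → H a ≤ H b := by
    intro a b hab
    rw [hH b]
    exact (le_sup_of_le_right (le_iSup (fun s' : {s' // s' < b} => H s'.1) ⟨a, hab⟩)).trans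
      (s1 _ _)
  have chain : ∀ a b, H a ≤ H b ∨ H b ≤ H a := by
    intro a b
    rcases lt_trichotomy a b with h | rfl | h
    exacts [Or.inl (mono _ _ h), Or.inl le_rfl, Or.inr (mono _ _ h)]
  have main : ∀ s, Inv d r 𝒦 G₀ (H s) ∧ (∀ s' > s, ∀ x ∈ H s, r s' x = x) ∧
      ((e s).1 ∈ d.D 0 → r s (e s).1 = (e s).1 → (e s).1 ∈ H s ⊔ d.Y (e s).2) := by
    intro s
    induction s using WellFoundedLT.induction with
    | ind s ih =>
      rw [hH s]
      refine s2 s _ (h0.sup (fun a => (ih a.1 a.2).1) fun a b => chain _ _) ?_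
      have : (G₀ ⊔ ⨆ s' : {s' // s' < s}, H s'.1) ≤ LinearMap.ker (r s - LinearMap.id) := by
        refine sup_le (fun x hx => ?_) (iSup_le fun a x hx => ?_)
        · simpa [sub_eq_zero] using hr s x hx
        · simpa [sub_eq_zero] using (ih a.1 a.2).2.1 s a.2 x hx
      intro x hx
      simpa [sub_eq_zero] using this hx
  have hX := h0.sup (fun s => (main s).1) chain
  refine ⟨_, hX, fun i m x hx => ?_⟩
  obtain ⟨s, e1, e2⟩ := he x i
  have := (main s).2.2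
  rw [e1] at this
  obtain ⟨g, hg, y, hy, e⟩ := mem_sup.1 (this (E.str.1 (Nat.zero_le m) hx) e2)
  change g + y = x at e
  have hg' : g ∈ G₀ ⊔ ⨆ s, H s := mem_sup_right (mem_iSup_of_mem s hg)
  have h1 : g ∈ d.D m := by
    refine hX.fn.2 i m g hg' ?_
    have : g = x - y := by rw [← e]; abel
    rw [this]
    exact sub_mem (mem_sup_left hx) (mem_sup_right hy)
  have e2 : y = x - g := by rw [← e]; abel
  refine ⟨y, ⟨hy, e2 ▸ sub_mem hx h1⟩, ?_⟩
  have : x - y = g := by rw [← e]; abel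
  rwa [this]

end avoid

/-- A nonempty set of monotone sequences in a Noetherian order has a maximal member. -/
theorem exists_max_seq {α β : Type*} [PartialOrder α] [WellFoundedGT α] [Preorder β]
    (P : β → Prop) (f : β → ℕ → α) (hf : ∀ b, Monotone (f b))
    (hm : ∀ b b', b ≤ b' → ∀ m, f b m ≤ f b' m) {b₀ : β} (h0 : P b₀) :
    ∃ b, P b ∧ ∀ b', P b' → b ≤ b' → ∀ m, f b' m = f b m := by
  have ev : ∀ b, ∃ n, ∀ m, n ≤ m → f b n = f b m := fun b =>
    WellFoundedGT.monotone_chain_condition ⟨f b, hf b⟩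
  choose n hn using ev
  obtain ⟨_, ⟨b₁, h1, rfl⟩, h2⟩ := (wellFounded_gt (α := α)).has_min
    {a | ∃ b, P b ∧ a = f b (n b)} ⟨_, b₀, h0, rfl⟩
  have : WellFoundedGT (Fin (n b₁) → α) :=
    ⟨(inferInstance : WellFoundedLT (Fin (n b₁) → αᵒᵈ)).wf⟩
  obtain ⟨_, ⟨b₂, h3, h4, rfl⟩, h5⟩ := (wellFounded_gt (α := Fin (n b₁) → α)).has_min
    {a | ∃ b, P b ∧ b₁ ≤ b ∧ a = fun j : Fin (n b₁) => f b j} ⟨_, b₁, h1, le_rfl, rfl⟩
  refine ⟨b₂, h3, fun b' h6 h7 m => ?_⟩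
  by_cases hm' : m < n b₁
  · have h8 : (fun j : Fin (n b₁) => f b₂ j) ≤ fun j : Fin (n b₁) => f b' j :=
      fun j => hm _ _ h7 j
    have := h8.eq_of_not_lt (h5 _ ⟨b', h6, h4.trans h7, rfl⟩)
    exact (congrFun this ⟨m, hm'⟩).symm
  · have top : ∀ b m, f b m ≤ f b (n b) := by
      intro b m
      rcases le_total m (n b) with h | h
      exacts [hf b h, (hn b m h).ge]
    have h8 : f b₁ (n b₁) ≤ f b' (n b') := (hm _ _ (h4.trans h7) _).trans (top _ _)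
    have h9 := h8.eq_of_not_lt (h2 _ ⟨b', h6, rfl⟩)
    refine le_antisymm ?_ (hm _ _ h7 m)
    calc f b' m ≤ f b' (n b') := top _ _
      _ = f b₁ (n b₁) := h9.symm
      _ ≤ f b₁ m := hf _ (not_lt.1 hm')
      _ ≤ f b₂ m := hm _ _ h4 m

theorem exists_proj {ω : Type} [Fintype ω] (W : Submodule k (ω → k)) (y : ω → L) :
    ∃ p : ω → ω → k, (∀ j, p j ∈ W) ∧
      ∀ i, ∃ a, Perp a W ∧ (y - ∑ j, tn (p j) (y j)) i = dt a y := by
  classical
  obtain ⟨W', hW'⟩ := W.exists_isCompl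
  let q : (ω → k) →ₗ[k] (ω → k) := W.subtype.comp (W.projectionOnto W' hW')
  refine ⟨fun j => q (Pi.single j 1), fun j => (W.projectionOnto W' hW' _).2, fun i =>
    ⟨fun j => (Pi.single j 1 - q (Pi.single j 1) : ω → k) i, fun μ hμ => ?_, ?_⟩⟩
  · have e : μ = ∑ j, μ j • (Pi.single j 1 : ω → k) := pi_eq_sum_univ' μ
    have e2 : q μ = μ := by
      simp only [q, LinearMap.comp_apply]
      rw [show μ = ((⟨μ, hμ⟩ : W) : ω → k) from rfl, projectionOnto_apply_left]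
      rfl
    have e3 : (μ - q μ) i = 0 := by rw [e2, sub_self]; rfl
    rw [← e3]
    conv_rhs => rw [e, map_sum, ← Finset.sum_sub_distrib, Finset.sum_apply]
    refine Finset.sum_congr rfl fun j _ => ?_
    simp [mul_sub, mul_comm]
  · simp only [dt, Pi.sub_apply, Finset.sum_apply, tn, sub_smul, Finset.sum_sub_distrib]
    congr 1
    simp [Pi.single_apply]

theorem mem_of_perp {ω : Type} [Fintype ω] {K : Submodule k (ω → L)} {P : Submodule k L}
    {Φ : Set (ω → k)} {x : ω → L} (hx : ∀ j, x j ∈ P) (h : ∀ a ∈ Φ, dt a x = 0)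
    (h' : ∀ μ : ω → k, (∀ a ∈ Φ, dt a μ = 0) → μ ∈ Wsp K P) : x ∈ K := by
  obtain ⟨p, p1, p2⟩ := exists_proj (⨅ a ∈ Φ, LinearMap.ker (dtL a)) x
  have : x - ∑ j, tn (p j) (x j) = 0 := by
    ext i
    obtain ⟨a, a1, a2⟩ := p2 i
    rw [a2]
    exact dt_eq_zero_of_perp h fun μ hμ => a1 μ (by simpa using hμ)
  rw [sub_eq_zero] at this
  rw [this]
  exact sum_mem fun j _ => h' _ (by simpa using p1 j) _ (hx j)

/-- From the functional form of genericity to a decomposition. -/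
theorem Dat.X3.decomp {d : Dat k L} (hD : Antitone d.D) {ω : Type} [Fintype ω]
    {X : Submodule k L} {K C : Submodule k (ω → L)} (h : d.X3 X K) {x : ω → L} (hx : x ∈ K)
    (hX : ∀ j, x j ∈ X) :
    (∀ N, (∀ m < N, Wsp K (d.D m) ≤ Wsp C (d.D m)) →
      ∃ c ∈ C, ∀ j, (x - c) j ∈ X ⊓ d.D N) ∧
    ((∀ m, Wsp K (d.D m) ≤ Wsp C (d.D m)) → x ∈ C) := by
  classical
  have hW : Monotone fun m => Wsp K (d.D m) := fun a b hab => Wsp_mono le_rfl (hD hab)
  have proj := exists_proj (k := k) (L := L) (ω := ω)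
  have main : ∀ N, (∀ m < N, Wsp K (d.D m) ≤ Wsp C (d.D m)) → ∃ c ∈ C,
      (∀ a, (∀ m < N, Perp a (Wsp K (d.D m))) → dt a c = 0) ∧ ∀ j, (x - c) j ∈ X ⊓ d.D N := by
    intro N
    induction N with
    | zero =>
      refine fun _ => ⟨0, zero_mem _, fun a _ => by simp, fun j => ⟨by simpa using hX j, ?_⟩⟩
      have := (h x hx hX (Pi.single j 1)).1 0 (by simp)
      simpa [dt, Pi.single_apply] using this
    | succ N ih =>
      intro hN
      obtain ⟨c, c1, c2, c3⟩ := ih fun m hm => hN m (by omega)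
      obtain ⟨p, p1, p2⟩ := proj (Wsp K (d.D N)) (x - c)
      refine ⟨c + ∑ j, tn (p j) ((x - c) j), add_mem c1 (sum_mem fun j _ =>
        hN N (by omega) (p1 j) _ (c3 j).2), fun a ha => ?_, fun i => ?_⟩
      · rw [dt_add, c2 a fun m hm => ha m (by omega), zero_add, ← dtL_apply, map_sum]
        refine Finset.sum_eq_zero fun j _ => ?_
        rw [dtL_apply, dt_tn, ha N (by omega) _ (p1 j), zero_smul]
      · obtain ⟨a, a1, a2⟩ := p2 i
        have a3 : ∀ m < N + 1, Perp a (Wsp K (d.D m)) := fun m hm μ hμ =>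
          a1 μ (hW (by omega : m ≤ N) hμ)
        rw [← sub_sub, a2]
        refine ⟨dt_mem a fun j => (c3 j).1, ?_⟩
        rw [dt_sub, c2 a fun m hm => a3 m (by omega), sub_zero]
        exact (h x hx hX a).1 _ a3
  refine ⟨fun N hN => (main N hN).imp fun c hc => ⟨hc.1, hc.2.2⟩, fun hN => ?_⟩
  obtain ⟨N, hN'⟩ := WellFoundedGT.monotone_chain_condition ⟨_, hW⟩
  obtain ⟨c, c1, c2, c3⟩ := main N fun m _ => hN m
  obtain ⟨p, p1, p2⟩ := proj (Wsp K (d.D N)) (x - c)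
  have : x - c - ∑ j, tn (p j) ((x - c) j) = 0 := by
    ext i
    obtain ⟨a, a1, a2⟩ := p2 i
    have a3 : ∀ m, Perp a (Wsp K (d.D m)) := by
      intro m μ hμ
      rcases le_total m N with h | h
      · exact a1 μ (hW h hμ)
      · exact a1 μ ((hN' m h).ge hμ)
    rw [a2, dt_sub, c2 a fun m _ => a3 m, sub_zero]
    exact (h x hx hX a).2 a3
  rw [sub_sub, sub_eq_zero] at this
  rw [this]
  exact add_mem c1 (sum_mem fun j _ => hN N (p1 j) _ (c3 j).2)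

end Pool.Agent.Lib.MP_1684af_al
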