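import Mathlib
import Pool.Agent.Lib.MP_1684af_al.Avoid

/-!
Positive primitive formulas over vector spaces with named subspaces, reduced products,
Horn classes and their generators.
-/

namespace Pool.Agent.Lib.MP_1684af_al

open Submodule Filter

/-- Formulas with symbols `σ` and coefficient matrices `μ`. -/
inductive Fm (σ μ : Type) : Type
  | gen (x : σ)
  | top (n : ℕ)
  | pp (n R : ℕ) (A B C : μ) (a b : Fm σ μ)
  deriving Countable

namespace Fm

variable {σ σ' μ : Type}

@[reducible] def ar : Fm σ μ → ℕ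
  | gen _ => 3
  | top n => n
  | pp n _ _ _ _ _ _ => n

def supp : Fm σ μ → Set σ
  | gen x => {x}
  | top _ => ∅
  | pp _ _ _ _ _ a b => a.supp ∪ b.supp

def map (f : σ → σ') : Fm σ μ → Fm σ' μ
  | gen x => gen (f x)
  | top n => top n
  | pp n R A B C a b => pp n R A B C (a.map f) (b.map f)

theorem supp_finite (φ : Fm σ μ) : φ.supp.Finite := by
  induction φ with
  | gen x => exact Set.finite_singleton x
  | top n => exact Set.finite_empty
  | pp n R A B C a b h1 h2 => exact h1.union h2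

theorem exists_map (f : σ → σ') (φ : Fm σ' μ) (h : φ.supp ⊆ Set.range f) :
    ∃ ψ : Fm σ μ, ψ.map f = φ := by
  induction φ with
  | gen x =>
    obtain ⟨y, rfl⟩ := h (Set.mem_singleton x)
    exact ⟨gen y, rfl⟩
  | top n => exact ⟨top n, rfl⟩
  | pp n R A B C a b h1 h2 =>
    obtain ⟨a', rfl⟩ := h1 (Set.subset_union_left.trans h)
    obtain ⟨b', rfl⟩ := h2 (Set.subset_union_right.trans h)
    exact ⟨pp n R A B C a' b', rfl⟩

theorem supp_map (f : σ → σ') (φ : Fm σ μ) : (φ.map f).supp ⊆ Set.range f := by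
  induction φ with
  | gen x => exact Set.singleton_subset_iff.2 ⟨x, rfl⟩
  | top n => exact Set.empty_subset _
  | pp n R A B C a b h1 h2 => exact Set.union_subset h1 h2

theorem countable_supp [Countable μ] {c : Set σ} (hc : c.Countable) :
    {φ : Fm σ μ | φ.supp ⊆ c}.Countable := by
  have : Countable c := hc
  refine (Set.countable_range (map (Subtype.val : c → σ) : Fm c μ → Fm σ μ)).mono fun φ h => ?_
  exact exists_map _ φ (by rwa [Subtype.range_coe])

end Fm

variable {σ k : Type} [Field k]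

/-- A vector space with named subspaces of its cube. -/
structure Str (σ k : Type) [Field k] : Type 1 where
  E : Type
  [acg : AddCommGroup E]
  [mod : Module k E]
  X : σ → Submodule k (Fin 3 → E)

attribute [instance] Str.acg Str.mod

/-- The action of a matrix on tuples. -/
def mx {L : Type} [AddCommGroup L] [Module k L] {ι κ : Type} [Fintype κ] (A : ι → κ → k) :
    (κ → L) →ₗ[k] (ι → L) := LinearMap.pi fun i => dtL (A i)

@[simp] theorem mx_apply {L : Type} [AddCommGroup L] [Module k L] {ι κ : Type} [Fintype κ]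
    (A : ι → κ → k) (v : κ → L) (i : ι) : mx A v i = dt (A i) v := rfl

abbrev Fo (σ k : Type) [Field k] : Type := Fm σ (ℕ × ℕ →₀ k)

/-- Evaluation of a formula. -/
def Str.ev (S : Str σ k) : (φ : Fo σ k) → Submodule k (Fin φ.ar → S.E)
  | .gen x => S.X x
  | .top _ => ⊤
  | .pp n R A B C a b => Submodule.comap (mx fun (r : Fin R) (j : Fin n) => A (r, j))
      (Submodule.map (mx fun (r : Fin R) (j : Fin a.ar) => B (r, j)) (S.ev a) ⊔
        Submodule.map (mx fun (r : Fin R) (j : Fin b.ar) => C (r, j)) (S.ev b))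

theorem Str.mem_pp (S : Str σ k) {n R : ℕ} {A B C : ℕ × ℕ →₀ k} {a b : Fo σ k}
    {v : Fin n → S.E} : v ∈ S.ev (.pp n R A B C a b) ↔ ∃ x ∈ S.ev a, ∃ y ∈ S.ev b, ∀ r : Fin R,
      dt (fun j : Fin a.ar => B (r, j)) x + dt (fun j : Fin b.ar => C (r, j)) y =
        dt (fun j : Fin n => A (r, j)) v := by
  change _ ∈ Submodule.comap _ _ ↔ _
  rw [Submodule.mem_comap, Submodule.mem_sup]
  constructor
  · rintro ⟨_, ⟨x, hx, rfl⟩, _, ⟨y, hy, rfl⟩, e⟩
    exact ⟨x, hx, y, hy, fun r => congrFun e r⟩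
  · rintro ⟨x, hx, y, hy, e⟩
    exact ⟨_, ⟨x, hx, rfl⟩, _, ⟨y, hy, rfl⟩, funext e⟩

open Classical in
/-- Reinterpret one symbol. -/
@[reducible] noncomputable def Str.upd (S : Str σ k) (x : σ) (X : Submodule k (Fin 3 → S.E)) : Str σ k :=
  { E := S.E, X := Function.update S.X x X }

theorem Str.upd_self (S : Str σ k) (x : σ) (X : Submodule k (Fin 3 → S.E)) :
    (S.upd x X).X x = X := by
  classical
  exact Function.update_self x X S.X

theorem Str.ev_upd (S : Str σ k) (x : σ) (X : Submodule k (Fin 3 → S.E)) (φ : Fo σ k)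
    (h : x ∉ φ.supp) (v : Fin φ.ar → S.E) : v ∈ (S.upd x X).ev φ ↔ v ∈ S.ev φ := by
  classical
  induction φ with
  | gen y =>
    have : y ≠ x := fun e => h (e ▸ rfl)
    change v ∈ Function.update S.X x X y ↔ v ∈ S.X y
    rw [Function.update_of_ne this]
  | top n => exact Iff.rfl
  | pp n R A B C a b h1 h2 =>
    refine (Str.mem_pp _).trans (Iff.trans ?_ (Str.mem_pp _).symm)
    refine exists_congr fun x => and_congr (h1 (fun h' => h (Or.inl h')) x) ?_
    exact exists_congr fun y => and_congr (h2 (fun h' => h (Or.inr h')) y) Iff.rfl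

/-- Uniformly definable predicates with symbols from `c`. -/
def UP (c : Set σ) (ι : Type) (p : ∀ S : Str σ k, (ι → S.E) → Prop) : Prop :=
  ∃ (φ : Fo σ k) (e : Fin φ.ar ≃ ι), φ.supp ⊆ c ∧ ∀ S v, p S v ↔ (fun i => v (e i)) ∈ S.ev φ

/-- Uniform linear terms. -/
def UT (ι : Type) [Fintype ι] (t : ∀ S : Str σ k, (ι → S.E) → S.E) : Prop :=
  ∃ a : ι → k, ∀ S v, t S v = dt a v

section UT

variable {ι : Type} [Fintype ι] {t t' : ∀ S : Str σ k, (ι → S.E) → S.E}

theorem UT.var (i : ι) : UT ι fun (_ : Str σ k) v => v i := by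
  classical
  exact ⟨Pi.single i 1, fun S v => by simp [dt, Pi.single_apply]⟩

theorem UT.zero : UT ι fun (S : Str σ k) _ => (0 : S.E) := ⟨0, fun _ _ => by simp⟩

theorem UT.add (h : UT ι t) (h' : UT ι t') : UT ι fun S v => t S v + t' S v := by
  obtain ⟨a, h⟩ := h
  obtain ⟨b, h'⟩ := h'
  exact ⟨a + b, fun S v => by rw [dt_add_left, ← h, ← h']⟩

theorem UT.smul (c : k) (h : UT ι t) : UT ι fun S v => c • t S v := by
  obtain ⟨a, h⟩ := h
  exact ⟨c • a, fun S v => by rw [dt_smul_left, ← h]⟩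

theorem UT.sub (h : UT ι t) (h' : UT ι t') : UT ι fun S v => t S v - t' S v := by
  obtain ⟨a, h⟩ := h.add (h'.smul (-1))
  exact ⟨a, fun S v => by rw [← h]; simp [sub_eq_add_neg]⟩

theorem UT.sum {κ : Type} (s : Finset κ) {t : κ → ∀ S : Str σ k, (ι → S.E) → S.E}
    (h : ∀ j, UT ι (t j)) : UT ι fun S v => ∑ j ∈ s, t j S v := by
  classical
  induction s using Finset.induction_on with
  | empty => simpa using UT.zero
  | insert a s ha ih => simpa [Finset.sum_insert ha] using (h a).add ih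

theorem UT.dt {κ : Type} [Fintype κ] (a : κ → k) {t : ∀ S : Str σ k, (ι → S.E) → κ → S.E}
    (h : ∀ j, UT ι fun S v => t S v j) : UT ι fun S v => dt a (t S v) :=
  UT.sum Finset.univ fun j => (h j).smul (a j)

theorem UT.ite (b : Prop) [Decidable b] (h : UT ι t) (h' : UT ι t') :
    UT ι fun S v => if b then t S v else t' S v := by
  split_ifs
  exacts [h, h']

end UT

theorem exists_finsupp {m n : ℕ} (M : Fin m → Fin n → k) :
    ∃ A : ℕ × ℕ →₀ k, ∀ (r : Fin m) (j : Fin n), A (r, j) = M r j := by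
  classical
  let f : Fin m × Fin n ↪ ℕ × ℕ :=
    ⟨fun x => (x.1, x.2), fun x y h => by
      simp only [Prod.mk.injEq] at h
      exact Prod.ext (Fin.ext h.1) (Fin.ext h.2)⟩
  refine ⟨(Finsupp.equivFunOnFinite.symm fun x => M x.1 x.2).embDomain f, fun r j => ?_⟩
  exact Finsupp.embDomain_apply_self f _ (r, j)

theorem dt_equiv {L : Type} [AddCommGroup L] [Module k L] {ι κ : Type} [Fintype ι] [Fintype κ]
    (e : ι ≃ κ) (a : κ → k) (v : κ → L) : dt (fun i => a (e i)) (fun i => v (e i)) = dt a v :=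
  e.sum_comp fun j => a j • v j

section UP

variable {c : Set σ} {ι κ κ' : Type}

theorem UP.congr {p q : ∀ S : Str σ k, (ι → S.E) → Prop} (h : UP c ι p)
    (e : ∀ S v, q S v ↔ p S v) : UP c ι q := by
  obtain ⟨φ, f, h1, h2⟩ := h
  exact ⟨φ, f, h1, fun S v => (e S v).trans (h2 S v)⟩

theorem UP.mono {p : ∀ S : Str σ k, (ι → S.E) → Prop} (h : UP c ι p) {c' : Set σ} (hc : c ⊆ c') :
    UP c' ι p := by
  obtain ⟨φ, f, h1, h2⟩ := h
  exact ⟨φ, f, h1.trans hc, h2⟩

theorem UP.gen {x : σ} (h : x ∈ c) : UP c (Fin 3) fun (S : Str σ k) v => v ∈ S.X x :=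
  ⟨.gen x, Equiv.refl _, Set.singleton_subset_iff.2 h, fun _ _ => Iff.rfl⟩

theorem UP.fm (φ : Fo σ k) (h : φ.supp ⊆ c) : UP c (Fin φ.ar) fun S v => v ∈ S.ev φ :=
  ⟨φ, Equiv.refl _, h, fun _ _ => Iff.rfl⟩

theorem UP.true [Fintype ι] : UP c ι fun (_ : Str σ k) _ => True :=
  ⟨.top _, (Fintype.equivFin ι).symm, Set.empty_subset _, fun _ _ => ⟨fun _ => trivial,
    fun _ => trivial⟩⟩

theorem UP.pp [Fintype ι] [Fintype κ] [Fintype κ'] {ρ : Type} [Fintype ρ]
    {p : ∀ S : Str σ k, (κ → S.E) → Prop} {q : ∀ S : Str σ k, (κ' → S.E) → Prop}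
    (hp : UP c κ p) (hq : UP c κ' q) (A : ρ → ι → k) (B : ρ → κ → k) (C : ρ → κ' → k) :
    UP c ι fun S v => ∃ x, p S x ∧ ∃ y, q S y ∧ ∀ r, dt (B r) x + dt (C r) y = dt (A r) v := by
  obtain ⟨φ, e, h1, h2⟩ := hp
  obtain ⟨ψ, f, h3, h4⟩ := hq
  let g := (Fintype.equivFin ι).symm
  let g' := (Fintype.equivFin ρ).symm
  obtain ⟨A', hA⟩ := exists_finsupp fun r j => A (g' r) (g j)
  obtain ⟨B', hB⟩ := exists_finsupp fun r j => B (g' r) (e j)
  obtain ⟨C', hC⟩ := exists_finsupp fun r j => C (g' r) (f j)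
  refine ⟨.pp _ (Fintype.card ρ) A' B' C' φ ψ, g, Set.union_subset h1 h3, fun S v => ?_⟩
  refine Iff.trans ?_ (Str.mem_pp _).symm
  simp only [hA, hB, hC]
  constructor
  · rintro ⟨x, hx, y, hy, h⟩
    refine ⟨_, (h2 S x).1 hx, _, (h4 S y).1 hy, fun r => ?_⟩
    rw [dt_equiv, dt_equiv]
    exact (h _).trans (dt_equiv g _ v).symm
  · rintro ⟨x, hx, y, hy, h⟩
    refine ⟨fun j => x (e.symm j), (h2 S _).2 (by simpa using hx), fun j => y (f.symm j),
      (h4 S _).2 (by simpa using hy), fun r => ?_⟩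
    have := h (g'.symm r)
    rw [← dt_equiv e, ← dt_equiv f, ← dt_equiv g]
    simpa using this

theorem UP.subst [Fintype ι] [Fintype κ] {p : ∀ S : Str σ k, (κ → S.E) → Prop} (hp : UP c κ p)
    {f : ∀ S : Str σ k, (ι → S.E) → κ → S.E} (hf : ∀ j, UT ι fun S v => f S v j) :
    UP c ι fun S v => p S (f S v) := by
  classical
  choose A hA using hf
  replace hA : ∀ j S v, f S v j = dt (A j) v := hA
  refine (hp.pp (UP.true (ι := Empty)) A (fun r => Pi.single r 1) 0).congr fun S v => ?_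
  have e : ∀ (x : κ → S.E) r, dt (Pi.single r (1 : k)) x = x r := by
    intro x r
    simp [dt, Pi.single_apply]
  constructor
  · exact fun h => ⟨_, h, 0, trivial, fun r => by rw [e, dt_zero, add_zero, hA]⟩
  · rintro ⟨x, hx, y, -, h⟩
    have : f S v = x := by
      ext r
      have := h r
      rw [e] at this
      rw [hA, ← this]
      simp
    rwa [this]

theorem UP.and [Fintype ι] {p q : ∀ S : Str σ k, (ι → S.E) → Prop} (hp : UP c ι p)
    (hq : UP c ι q) : UP c ι fun S v => p S v ∧ q S v := by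
  classical
  refine (hp.pp hq (ρ := ι ⊕ ι) (fun r => Pi.single (r.elim id id) 1)
    (fun r => r.elim (fun i => Pi.single i 1) 0)
    (fun r => r.elim 0 (fun i => Pi.single i 1))).congr fun S v => ?_
  have e : ∀ (x : ι → S.E) r, dt (Pi.single r (1 : k)) x = x r := by
    intro x r
    simp [dt, Pi.single_apply]
  constructor
  · rintro ⟨h1, h2⟩
    refine ⟨v, h1, v, h2, ?_⟩
    rintro (r | r) <;> simp [e]
  · rintro ⟨x, hx, y, hy, h⟩
    have h1 : x = v := funext fun r => by simpa [e] using h (.inl r)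
    have h2 : y = v := funext fun r => by simpa [e] using h (.inr r)
    exact ⟨h1 ▸ hx, h2 ▸ hy⟩

theorem UP.ex [Fintype ι] [Fintype κ] {p : ∀ S : Str σ k, (ι → S.E) → (κ → S.E) → Prop}
    (hp : UP c (ι ⊕ κ) fun S w => p S (fun i => w (.inl i)) fun j => w (.inr j)) :
    UP c ι fun S v => ∃ u, p S v u := by
  classical
  refine (hp.pp (UP.true (ι := Empty)) (ρ := ι) (fun r => Pi.single r 1)
    (fun r => Pi.single (.inl r) 1) 0).congr fun S v => ?_
  have e : ∀ (x : ι → S.E) r, dt (Pi.single r (1 : k)) x = x r := by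
    intro x r
    simp [dt, Pi.single_apply]
  have e' : ∀ (x : ι ⊕ κ → S.E) r, dt (Pi.single r (1 : k)) x = x r := by
    intro x r
    simp [dt, Pi.single_apply]
  constructor
  · rintro ⟨u, h⟩
    exact ⟨Sum.elim v u, h, 0, trivial, fun r => by simp [e, e']⟩
  · rintro ⟨x, hx, y, -, h⟩
    have h1 : (fun i => x (.inl i)) = v := funext fun r => by simpa [e, e'] using h r
    exact ⟨_, h1 ▸ hx⟩

theorem UP.ex1 [Fintype ι] {p : ∀ S : Str σ k, (ι → S.E) → S.E → Prop}
    (hp : UP c (ι ⊕ Unit) fun S w => p S (fun i => w (.inl i)) (w (.inr ()))) :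
    UP c ι fun S v => ∃ u, p S v u :=
  (UP.ex (κ := Unit) (p := fun S v u => p S v (u ())) hp).congr fun _ _ =>
    ⟨fun ⟨u, h⟩ => ⟨fun _ => u, h⟩, fun ⟨u, h⟩ => ⟨u (), h⟩⟩

theorem UP.eq [Fintype ι] {t t' : ∀ S : Str σ k, (ι → S.E) → S.E} (h : UT ι t) (h' : UT ι t') :
    UP c ι fun S v => t S v = t' S v := by
  obtain ⟨a, h⟩ := h.sub h'
  refine ((UP.true (ι := Empty)).pp (UP.true (ι := Empty)) (ρ := Unit) (fun _ => a) 0 0).congr
    fun S v => ?_
  simp [← h, eq_comm (a := (0 : S.E)), sub_eq_zero]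

theorem UP.all [Fintype ι] {ρ : Type} [Finite ρ] {p : ρ → ∀ S : Str σ k, (ι → S.E) → Prop}
    (h : ∀ r, UP c ι (p r)) : UP c ι fun S v => ∀ r, p r S v := by
  classical
  have := Fintype.ofFinite ρ
  have : ∀ s : Finset ρ, UP c ι fun S v => ∀ r ∈ s, p r S v := by
    intro s
    induction s using Finset.induction_on with
    | empty => exact UP.true.congr fun S v => by simp
    | insert a s ha ih => exact ((h a).and ih).congr fun S v => by simp
  exact (this Finset.univ).congr fun S v => by simp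

theorem UP.ball [Fintype ι] {ρ : Type} (s : Finset ρ) {p : ρ → ∀ S : Str σ k, (ι → S.E) → Prop}
    (h : ∀ r, UP c ι (p r)) : UP c ι fun S v => ∀ r ∈ s, p r S v :=
  (UP.all (ρ := s) fun r => h r).congr fun S v => by simp

theorem UP.sub {p : ∀ S : Str σ k, (ι → S.E) → Prop} (h : UP c ι p) :
    ∃ F : ∀ S : Str σ k, Submodule k (ι → S.E), ∀ S v, v ∈ F S ↔ p S v := by
  obtain ⟨φ, e, -, h⟩ := h
  exact ⟨fun S => Submodule.comap (LinearMap.funLeft k S.E e) (S.ev φ), fun S v => (h S v).symm⟩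

theorem UP.zero {p : ∀ S : Str σ k, (ι → S.E) → Prop} (h : UP c ι p) (S : Str σ k) : p S 0 := by
  obtain ⟨F, hF⟩ := h.sub
  exact (hF S 0).1 (zero_mem _)

theorem UP.upd {p : ∀ S : Str σ k, (ι → S.E) → Prop} (h : UP c ι p) {x : σ} (hx : x ∉ c)
    (S : Str σ k) (X : Submodule k (Fin 3 → S.E)) (v : ι → S.E) : p (S.upd x X) v ↔ p S v := by
  obtain ⟨φ, e, h1, h⟩ := h
  rw [h, h]
  exact S.ev_upd x X φ (fun h' => hx (h1 h')) _

theorem UP.finite {p : ∀ S : Str σ k, (ι → S.E) → Prop} (h : UP c ι p) :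
    ∃ c' ⊆ c, c'.Finite ∧ UP c' ι p := by
  obtain ⟨φ, e, h1, h⟩ := h
  exact ⟨_, h1, φ.supp_finite, φ, e, subset_rfl, h⟩

end UP

section RP

variable {J : Type} (B F : Filter J) (S : J → Str σ k)

/-- Families vanishing on a set of the filter `B`. -/
def RB : Submodule k (∀ j, (S j).E) where
  carrier := {x | ∀ᶠ j in B, x j = 0}
  add_mem' := fun ha hb => (ha.and hb).mono fun j h => by simp [h.1, h.2]
  zero_mem' := Eventually.of_forall fun _ => rfl
  smul_mem' := fun c _ ha => ha.mono fun j h => by simp [h]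

/-- The families vanishing on a set of the filter `F`. -/
def RN : Submodule k (RB B S) := Submodule.comap (RB B S).subtype (RB F S)

/-- Tuples lying in the named subspace on a set of the filter `F`. -/
def RX (x : σ) : Submodule k (Fin 3 → RB B S) where
  carrier := {v | ∀ᶠ j in F, (fun i => (v i).1 j) ∈ (S j).X x}
  add_mem' := fun ha hb => (ha.and hb).mono fun j h => ((S j).X x).add_mem h.1 h.2
  zero_mem' := Eventually.of_forall fun j => ((S j).X x).zero_mem
  smul_mem' := fun c _ ha => ha.mono fun j h => ((S j).X x).smul_mem c h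

/-- Reduced products with restricted supports. -/
def RP : Str σ k where
  E := RB B S ⧸ RN B F S
  X x := Submodule.map ((RN B F S).mkQ.compLeft (Fin 3)) (RX B F S x)

/-- The quotient map. -/
def rmk : RB B S →ₗ[k] (RP B F S).E := (RN B F S).mkQ

variable {B F S}

theorem mem_RB_bot (x : ∀ j, (S j).E) : x ∈ RB ⊥ S :=
  eventually_bot (p := fun j => x j = 0)

theorem rmk_surj : Function.Surjective (rmk B F S) := (RN B F S).mkQ_surjective

theorem rmk_eq {x y : RB B S} : rmk B F S x = rmk B F S y ↔ ∀ᶠ j in F, x.1 j = y.1 j := by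
  refine (Submodule.Quotient.eq _).trans ?_
  change (∀ᶠ j in F, (x.1 - y.1) j = 0) ↔ _
  simp [sub_eq_zero]

theorem exists_rmk {ι : Type} (v : ι → (RP B F S).E) :
    ∃ x : ι → RB B S, v = fun i => rmk B F S (x i) := by
  choose x hx using fun i => rmk_surj (v i)
  exact ⟨x, funext fun i => (hx i).symm⟩

theorem dt_rmk {ι : Type} [Fintype ι] (a : ι → k) (x : ι → RB B S) :
    dt a (fun i => rmk B F S (x i)) = rmk B F S (dt a x) := by
  simp [dt]

theorem dt_val {ι : Type} [Fintype ι] (a : ι → k) (x : ι → RB B S) (j : J) :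
    (dt a x).1 j = dt a fun i => (x i).1 j := by
  simp [dt]

theorem los_ev (φ : Fo σ k) : ∀ x : Fin φ.ar → RB B S,
    (fun i => rmk B F S (x i)) ∈ (RP B F S).ev φ ↔
      ∀ᶠ j in F, (fun i => (x i).1 j) ∈ (S j).ev φ := by
  classical
  induction φ with
  | gen y =>
    intro x
    constructor
    · rintro ⟨x', h1, h2⟩
      have h3 : ∀ᶠ j in F, ∀ i, (x' i).1 j = (x i).1 j :=
        eventually_all.2 fun i => rmk_eq.1 (congrFun h2 i)
      refine (h3.and h1).mono fun j h => ?_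
      have : (fun i => (x i).1 j) = fun i => (x' i).1 j := funext fun i => (h.1 i).symm
      rw [this]
      exact h.2
    · exact fun h => ⟨x, h, rfl⟩
  | top n => exact fun x => ⟨fun _ => Eventually.of_forall fun _ => trivial, fun _ => trivial⟩
  | pp n R A B' C a b h1 h2 =>
    intro x
    refine (Str.mem_pp _).trans ?_
    constructor
    · rintro ⟨u, hu, w, hw, h⟩
      obtain ⟨u, rfl⟩ := exists_rmk u
      obtain ⟨w, rfl⟩ := exists_rmk w
      simp only [dt_rmk, ← map_add, rmk_eq] at h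
      refine (((h1 u).1 hu).and (((h2 w).1 hw).and (eventually_all.2 h))).mono fun j h => ?_
      refine (S j).mem_pp.2 ⟨_, h.1, _, h.2.1, fun r => ?_⟩
      have := h.2.2 r
      rwa [coe_add, Pi.add_apply, dt_val, dt_val, dt_val] at this
    · intro h
      have : ∀ j, ∃ (u : Fin a.ar → (S j).E) (w : Fin b.ar → (S j).E),
          ((∀ i, (x i).1 j = 0) → u = 0 ∧ w = 0) ∧
          ((fun i => (x i).1 j) ∈ (S j).ev (.pp n R A B' C a b) → u ∈ (S j).ev a ∧
            w ∈ (S j).ev b ∧ ∀ r : Fin R, dt (fun j : Fin a.ar => B' (r, j)) u +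
              dt (fun j : Fin b.ar => C (r, j)) w =
                dt (fun j : Fin n => A (r, j)) fun i => (x i).1 j) := by
        intro j
        by_cases h0 : ∀ i, (x i).1 j = 0
        · refine ⟨0, 0, fun _ => ⟨rfl, rfl⟩, fun _ => ⟨zero_mem _, zero_mem _, fun r => ?_⟩⟩
          simp [dt, h0]
        · by_cases h3 : (fun i => (x i).1 j) ∈ (S j).ev (.pp n R A B' C a b)
          · obtain ⟨u, hu, w, hw, e⟩ := (S j).mem_pp.1 h3
            exact ⟨u, w, fun h => (h0 h).elim, fun _ => ⟨hu, hw, e⟩⟩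
          · exact ⟨0, 0, fun h => (h0 h).elim, fun h => (h3 h).elim⟩
      choose u w h3 h4 using this
      have h0 : ∀ᶠ j in B, ∀ i, (x i).1 j = 0 := eventually_all.2 fun i => (x i).2
      let u' : Fin a.ar → RB B S := fun i =>
        ⟨fun j => u j i, h0.mono fun j h => congrFun (h3 j h).1 i⟩
      let w' : Fin b.ar → RB B S := fun i =>
        ⟨fun j => w j i, h0.mono fun j h => congrFun (h3 j h).2 i⟩
      refine ⟨_, (h1 u').2 (h.mono fun j h => (h4 j h).1), _,
        (h2 w').2 (h.mono fun j h => (h4 j h).2.1), fun r => ?_⟩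
      rw [dt_rmk, dt_rmk, ← map_add]
      refine Eq.trans ?_ (dt_rmk _ x).symm
      refine rmk_eq.2 (h.mono fun j h => ?_)
      rw [coe_add, Pi.add_apply, dt_val, dt_val, dt_val]
      exact (h4 j h).2.2 r

theorem UP.los {c : Set σ} {ι : Type} {p : ∀ S : Str σ k, (ι → S.E) → Prop} (h : UP c ι p)
    (x : ι → RB B S) :
    p (RP B F S) (fun i => rmk B F S (x i)) ↔ ∀ᶠ j in F, p (S j) fun i => (x i).1 j := by
  obtain ⟨φ, e, -, h⟩ := h
  simp only [h]
  exact los_ev φ fun i => x (e i)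

end RP

/-- Classes closed under reduced products which depend only on the symbols in `c`. -/
structure Horn (c : Set σ) (P : Str σ k → Prop) : Prop where
  rp : ∀ (J : Type) (B F : Filter J) (S : J → Str σ k), (∀ᶠ j in F, P (S j)) → P (RP B F S)
  loc : ∀ S x X, x ∉ c → P S → P (S.upd x X)

theorem Horn.imp {c : Set σ} {ι : Type} {p q : ∀ S : Str σ k, (ι → S.E) → Prop} (hp : UP c ι p)
    (hq : UP c ι q) : Horn c fun S => ∀ v, p S v → q S v where
  rp J B F S h v hv := by
    obtain ⟨x, rfl⟩ := exists_rmk v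
    rw [hp.los] at hv
    rw [hq.los]
    exact (h.and hv).mono fun j h => h.1 _ h.2
  loc S x X hx h v hv := (hq.upd hx S X v).2 (h v ((hp.upd hx S X v).1 hv))

theorem Horn.all {c : Set σ} {α : Sort*} {P : α → Str σ k → Prop} (h : ∀ a, Horn c (P a)) :
    Horn c fun S => ∀ a, P a S where
  rp J B F S hS a := (h a).rp J B F S (hS.mono fun _ h => h a)
  loc S x X hx hS a := (h a).loc S x X hx (hS a)

theorem Horn.and {c : Set σ} {P Q : Str σ k → Prop} (h : Horn c P) (h' : Horn c Q) :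
    Horn c fun S => P S ∧ Q S where
  rp J B F S hS := ⟨h.rp J B F S (hS.mono fun _ h => h.1), h'.rp J B F S (hS.mono fun _ h => h.2)⟩
  loc S x X hx hS := ⟨h.loc S x X hx hS.1, h'.loc S x X hx hS.2⟩

theorem Horn.congr {c : Set σ} {P Q : Str σ k → Prop} (h : Horn c P) (e : ∀ S, Q S ↔ P S) :
    Horn c Q := by
  have : Q = P := funext fun S => propext (e S)
  rwa [this]

theorem Horn.mono {c c' : Set σ} {P : Str σ k → Prop} (h : Horn c P) (hc : c ⊆ c') : Horn c' P :=
  ⟨h.rp, fun S x X hx => h.loc S x X fun h' => hx (hc h')⟩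

/-- `g` belongs to the class `P` and satisfies only the inclusions valid in `P`. -/
def IsGen (c : Set σ) (P : Str σ k → Prop) (g : Str σ k) : Prop :=
  P g ∧ ∀ (ι : Type) (p q : ∀ S : Str σ k, (ι → S.E) → Prop), UP c ι p → UP c ι q →
    (∀ v, p g v → q g v) → ∀ S, P S → ∀ v, p S v → q S v

theorem exists_gen (P : Str σ k → Prop) :
    ∃ g, ∀ c, Horn c P → IsGen Set.univ P g := by
  classical
  let J : Type := {x : Σ φ ψ : Fo σ k, Fin ψ.ar → Fin φ.ar //
    ∃ S, P S ∧ ∃ v ∈ S.ev x.1, (fun i => v (x.2.2 i)) ∉ S.ev x.2.1}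
  choose T h1 w h2 h3 using fun j : J => j.2
  refine ⟨RP ⊥ ⊤ T, fun c hP => ⟨hP.rp J ⊥ ⊤ T (Eventually.of_forall h1), ?_⟩⟩
  rintro ι p q ⟨φ, e, -, hp⟩ ⟨ψ, f, -, hq⟩ h S hS v hv
  by_contra hc
  let j : J := ⟨⟨φ, ψ, fun i => e.symm (f i)⟩, S, hS, _, (hp S v).1 hv, by
    simpa [hq] using hc⟩
  let x : ι → RB ⊥ T := fun i => ⟨Pi.single j (w j (e.symm i)), mem_RB_bot _⟩
  have a1 : p (RP ⊥ ⊤ T) fun i => rmk ⊥ ⊤ T (x i) := by
    rw [hp, los_ev]
    refine Eventually.of_forall fun j' => ?_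
    by_cases hj : j' = j
    · subst hj
      simpa [x] using h2 j
    · have : (fun i => (x (e i)).1 j') = 0 := funext fun i => Pi.single_eq_of_ne hj _
      rw [this]
      exact zero_mem _
  have a2 := h _ a1
  rw [hq, los_ev, eventually_top] at a2
  refine h3 j ?_
  simpa [x] using a2 j

end Pool.Agent.Lib.MP_1684af_al
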