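import Mathlib
import Pool.Agent.Lib.MP_1684af_al.Syn

/-!
Every member of a Horn class embeds purely into a member carrying a generic subspace.
-/

namespace Pool.Agent.Lib.MP_1684af_al

open Submodule Filter

/-- Countably branching well-founded trees. -/
inductive WT (A : Type) : Type
  | leaf
  | node (a : A) (ch : ℕ → WT A)

namespace WT

variable {A : Type}

def Ch (x y : WT A) : Prop := ∃ a ch n, y = node a ch ∧ x = ch n

instance : IsWellFounded (WT A) Ch := ⟨⟨fun y => by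
  induction y with
  | leaf => exact ⟨_, fun x ⟨_, _, _, h, _⟩ => by cases h⟩
  | node a ch ih =>
    refine ⟨_, ?_⟩
    rintro x ⟨_, _, n, h, rfl⟩
    cases h
    exact ih n⟩⟩

noncomputable instance : LinearOrder (WT A) := IsWellFounded.wellOrderExtension Ch

instance : WellFoundedLT (WT A) := IsWellFounded.wellOrderExtension.isWellFounded_lt Ch

theorem ch_lt (a : A) (ch : ℕ → WT A) (n : ℕ) : ch n < node a ch :=
  Prod.Lex.left _ _ (IsWellFounded.rank_lt_of_rel (r := Ch) ⟨a, ch, n, rfl, rfl⟩)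

theorem exists_range {s : Set (WT A)} (h : s.Countable) : ∃ ch : ℕ → WT A, s ⊆ Set.range ch := by
  obtain ⟨f, hf⟩ := (h.insert leaf).exists_eq_range ⟨_, Set.mem_insert _ _⟩
  exact ⟨f, hf ▸ Set.subset_insert _ _⟩

end WT

variable {σ k : Type} [Field k] {c : Set σ}

theorem UP.zero' {ι : Type} {p : ∀ S : Str σ k, (ι → S.E) → Prop} (h : UP c ι p) (S : Str σ k) :
    p S fun _ => 0 := h.zero S

theorem UP.sup {ι : Type} [Fintype ι] {F F' : ∀ S : Str σ k, Submodule k (ι → S.E)}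
    (h : UP c ι fun S v => v ∈ F S) (h' : UP c ι fun S v => v ∈ F' S) :
    UP c ι fun S v => v ∈ F S ⊔ F' S := by
  refine (UP.ex (κ := ι) (p := fun S v u => u ∈ F S ∧ v - u ∈ F' S)
    ((h.subst fun j => UT.var _).and (h'.subst fun j => (UT.var _).sub (UT.var _)))).congr
      fun S v => ?_
  rw [Submodule.mem_sup]
  constructor
  · rintro ⟨a, ha, b, hb, rfl⟩
    exact ⟨a, ha, by simpa using hb⟩
  · rintro ⟨a, ha, hb⟩
    exact ⟨a, ha, _, hb, by simp⟩

/-- Two structures satisfying the same inclusions. -/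
def Eqv (c : Set σ) (S S' : Str σ k) : Prop :=
  ∀ (ι : Type) (p q : ∀ S : Str σ k, (ι → S.E) → Prop), UP c ι p → UP c ι q →
    ((∀ v, p S v → q S v) ↔ ∀ v, p S' v → q S' v)

theorem Eqv.symm {S S' : Str σ k} (h : Eqv c S S') : Eqv c S' S :=
  fun ι p q hp hq => (h ι p q hp hq).symm

theorem Eqv.mono {S S' : Str σ k} (h : Eqv c S S') {c' : Set σ} (hc : c' ⊆ c) : Eqv c' S S' :=
  fun ι p q hp hq => h ι p q (hp.mono hc) (hq.mono hc)

theorem IsGen.eqv {P : Str σ k → Prop} {S S' : Str σ k} (h : IsGen c P S) (h' : IsGen c P S') :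
    Eqv c S S' := fun ι p q hp hq =>
  ⟨fun a => h.2 ι p q hp hq a S' h'.1, fun a => h'.2 ι p q hp hq a S h.1⟩

/-- Uniformly definable step data. -/
structure UDat (c : Set σ) (d : ∀ S : Str σ k, Dat k (Fin 3 → S.E)) : Prop where
  D : ∀ m, UP c (Fin 3) fun S v => v ∈ (d S).D m
  Y : ∀ i, UP c (Fin 3) fun S v => v ∈ (d S).Y i

/-- Uniformly definable sets of tuples of triples. -/
def UK (c : Set σ) (ω : Type) (K : ∀ S : Str σ k, Submodule k (ω → Fin 3 → S.E)) : Prop :=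
  UP c (ω × Fin 3) fun S w => (fun j i => w (j, i)) ∈ K S

theorem UK.mem {ω ι : Type} [Fintype ω] [Fintype ι]
    {K : ∀ S : Str σ k, Submodule k (ω → Fin 3 → S.E)} (h : UK c ω K)
    {f : ∀ S : Str σ k, (ι → S.E) → ω → Fin 3 → S.E} (hf : ∀ j i, UT ι fun S v => f S v j i) :
    UP c ι fun S v => f S v ∈ K S :=
  UP.subst (f := fun S v x => f S v x.1 x.2) h fun x => hf x.1 x.2

theorem Eqv.wsp {S S' : Str σ k} (h : Eqv c S S') {ω : Type} [Fintype ω]
    {K : ∀ S : Str σ k, Submodule k (ω → Fin 3 → S.E)} (hK : UK c ω K)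
    {F : ∀ S : Str σ k, Submodule k (Fin 3 → S.E)} (hF : UP c (Fin 3) fun S v => v ∈ F S) :
    Wsp (K S) (F S) = Wsp (K S') (F S') := by
  ext μ
  exact h _ _ (fun S v => tn μ v ∈ K S) hF (hK.mem fun j i => (UT.var i).smul (μ j))

theorem Eqv.closed {S S' : Str σ k} (h : Eqv c S S') {d : ∀ S : Str σ k, Dat k (Fin 3 → S.E)}
    (hd : UDat c d) {ω : Type} [Fintype ω]
    {K : ∀ S : Str σ k, Submodule k (ω → Fin 3 → S.E)} (hK : UK c ω K)
    (hc : (d S).Closed (K S)) : (d S').Closed (K S') := by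
  intro i m
  rw [← h.wsp hK (hd.D m), ← h.wsp hK (F := fun S => (d S).Y i ⊓ (d S).D m) ((hd.Y i).and (hd.D m))]
  exact hc i m

theorem Eqv.str {S S' : Str σ k} (h : Eqv c S S') {d : ∀ S : Str σ k, Dat k (Fin 3 → S.E)}
    (hd : UDat c d) (hs : (d S).Str) : (d S').Str := by
  refine ⟨fun a b hab => (h _ _ _ (hd.D b) (hd.D a)).1 (hs.1 hab), hs.2.imp (fun e => ?_)
    fun e i n hn => ?_⟩
  · exact le_antisymm ((h _ _ _ (hd.Y _) (hd.Y _)).1 e.le) ((h _ _ _ (hd.Y _) (hd.Y _)).1 e.ge)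
  · have h1 := e i n ((h _ _ _ ((hd.Y i).and (hd.D n)) ((hd.D _).sup (hd.Y _))).2 hn)
    have h2 := (h _ _ (fun S v => ∀ i, v i = 0) (hd.D n)
      (UP.all fun i => UP.eq (UT.var i) UT.zero)).1 fun v hv => by
        rw [h1, Submodule.mem_bot] at hv
        exact congrFun hv
    exact (Submodule.eq_bot_iff _).2 fun v hv => funext (h2 v hv)

/-- Genericity with directions computed in `g`. -/
def X3g (d : ∀ S : Str σ k, Dat k (Fin 3 → S.E)) (g : Str σ k) {ω : Type} [Fintype ω]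
    (K : ∀ S : Str σ k, Submodule k (ω → Fin 3 → S.E)) (S : Str σ k)
    (X : Submodule k (Fin 3 → S.E)) : Prop :=
  ∀ x ∈ K S, (∀ j, x j ∈ X) → ∀ a : ω → k,
    (∀ m, (∀ m' < m, Perp a (Wsp (K g) ((d g).D m'))) → dt a x ∈ (d S).D m) ∧
      ((∀ m', Perp a (Wsp (K g) ((d g).D m'))) → dt a x = 0)

theorem Eqv.x3g {S g : Str σ k} (h : Eqv c g S) {d : ∀ S : Str σ k, Dat k (Fin 3 → S.E)}
    (hd : UDat c d) {ω : Type} [Fintype ω]
    {K : ∀ S : Str σ k, Submodule k (ω → Fin 3 → S.E)} (hK : UK c ω K)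
    {X : Submodule k (Fin 3 → S.E)} : X3g d g K S X ↔ (d S).X3 X (K S) := by
  simp only [X3g, Dat.X3, h.wsp hK (hd.D _)]

/-- The axioms of a generic subspace. -/
def Ax (c : Set σ) (d : ∀ S : Str σ k, Dat k (Fin 3 → S.E)) (g S : Str σ k)
    (X : Submodule k (Fin 3 → S.E)) : Prop :=
  (d S).Fn X ∧ (d S).Cov X ∧ ∀ (ω : Type) [Fintype ω]
    (K : ∀ S : Str σ k, Submodule k (ω → Fin 3 → S.E)), UK c ω K → (d g).Closed (K g) →
      X3g d g K S X

section omega

open Classical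

variable {J : Type} (T : J → Str σ k)

abbrev Lab : Type := Bool × (Fin 3 → ℕ → Option ℕ → ∀ o, (T o).E)

abbrev Ix : Type := ℕ × WithBot (WT (Lab T)) × J

noncomputable def Bf : Filter (Ix T) := comap (fun j => j.2.1) cocountable

noncomputable def Ff : Filter (Ix T) := comap Prod.fst atTop

abbrev Sx (j : Ix T) : Str σ k := T j.2.2

/-- The ambient structure. -/
noncomputable abbrev Om : Str σ k := RP (Bf T) (Ff T) (Sx T)

noncomputable abbrev OB := RB (Bf T) (Sx T)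

variable {T}

theorem evF {p : Ix T → Prop} : (∀ᶠ j in Ff T, p j) ↔ ∃ N, ∀ j : Ix T, N ≤ j.1 → p j := by
  rw [Ff, eventually_comap, eventually_atTop]
  exact exists_congr fun N => ⟨fun h j hj => h _ hj j rfl, fun h n hn j e => h j (e ▸ hn)⟩

theorem memB {x : ∀ j : Ix T, (Sx T j).E} :
    x ∈ OB T ↔ ∃ A : Set (WithBot (WT (Lab T))), A.Countable ∧ ∀ j : Ix T, j.2.1 ∉ A → x j = 0 := by
  change (∀ᶠ j in Bf T, x j = 0) ↔ _
  rw [Bf, eventually_comap]
  constructor
  · intro h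
    refine ⟨_, mem_cocountable.1 h, fun j hj => ?_⟩
    simp only [Set.mem_compl_iff, Set.mem_ofPred_eq, not_not] at hj
    exact hj j rfl
  · rintro ⟨A, h1, h2⟩
    refine mem_cocountable.2 (h1.mono fun s hs => ?_)
    by_contra hc
    exact hs fun j e => h2 j (e ▸ hc)

/-- Restriction to the coordinates below `s`. -/
noncomputable def res (s : WT (Lab T)) : OB T →ₗ[k] OB T where
  toFun x := ⟨fun j => if j.2.1 < (s : WithBot _) then x.1 j else 0,
    Eventually.mono (p := fun j => x.1 j = 0) (f := Bf T) x.2 fun j h => by simp [h]⟩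
  map_add' x y := by
    ext j
    by_cases h : j.2.1 < (s : WithBot _) <;> simp [h]
  map_smul' a x := by
    ext j
    by_cases h : j.2.1 < (s : WithBot _) <;> simp [h]

theorem res_val (s : WT (Lab T)) (x : OB T) (j : Ix T) :
    (res s x).1 j = if j.2.1 < (s : WithBot _) then x.1 j else 0 := rfl

noncomputable def r0 (s : WT (Lab T)) : (Om T).E →ₗ[k] (Om T).E :=
  (RN _ (Ff T) _).mapQ (RN _ (Ff T) _) (res s) fun x hx =>
    Eventually.mono (p := fun j => x.1 j = 0) (f := Ff T) hx fun j h => by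
      change (res s x).1 j = 0
      simp [res_val, h]

theorem r0_mk (s : WT (Lab T)) (x : OB T) : r0 s (rmk _ _ _ x) = rmk _ _ _ (res s x) := rfl

theorem UP.r0 {ι : Type} {p : ∀ S : Str σ k, (ι → S.E) → Prop} (h : UP c ι p) (s : WT (Lab T))
    {v : ι → (Om T).E} (hv : p _ v) : p _ fun i => r0 s (v i) := by
  obtain ⟨x, rfl⟩ := exists_rmk v
  simp only [r0_mk]
  rw [h.los] at hv ⊢
  refine hv.mono fun j hj => ?_
  by_cases h' : j.2.1 < (s : WithBot _)
  · simpa [res_val, h'] using hj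
  · simpa [res_val, h'] using h.zero' _

/-- The embedding of a factor. -/
noncomputable def emb0 (o : J) : (T o).E →ₗ[k] OB T where
  toFun x := ⟨fun j => if j.2.1 = ⊥ then (Pi.single o x : ∀ o, (T o).E) j.2.2 else 0,
    memB.2 ⟨{⊥}, Set.countable_singleton _, fun j hj => if_neg hj⟩⟩
  map_add' x y := by
    ext j
    by_cases h : j.2.1 = ⊥ <;> simp [h, Pi.single_add]
  map_smul' a x := by
    ext j
    by_cases h : j.2.1 = ⊥ <;> simp [h, Pi.single_smul]

theorem emb0_val (o : J) (x : (T o).E) (j : Ix T) : (emb0 o x).1 j =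
    if j.2.1 = ⊥ then (Pi.single o x : ∀ o, (T o).E) j.2.2 else 0 := rfl

noncomputable def emb (o : J) : (T o).E →ₗ[k] (Om T).E := (rmk _ _ _).comp (emb0 o)

theorem r0_emb (s : WT (Lab T)) (o : J) (x : (T o).E) : r0 s (emb o x) = emb o x := by
  change rmk _ _ _ (res s (emb0 o x)) = rmk _ _ _ _
  congr 1
  ext j
  by_cases h : j.2.1 = ⊥ <;> simp [res_val, emb0_val, h]

theorem UP.emb {ι : Type} {p : ∀ S : Str σ k, (ι → S.E) → Prop} (h : UP c ι p) (o : J)
    (v : ι → (T o).E) : p _ (fun i => emb o (v i)) ↔ p _ v := by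
  refine (h.los fun i => emb0 o (v i)).trans (evF.trans ⟨fun ⟨N, hN⟩ => ?_, fun hv => ?_⟩)
  · simpa [emb0_val] using hN (N, ⊥, o) le_rfl
  · refine ⟨0, ?_⟩
    rintro ⟨n, s, o'⟩ -
    by_cases hs : s = ⊥
    · by_cases ho : o' = o
      · subst ho
        simpa [emb0_val, hs] using hv
      · simpa [emb0_val, hs, ho] using h.zero' _
    · simpa [emb0_val, hs] using h.zero' _

theorem om_sat {H : ℕ → ∀ S : Str σ k, Submodule k (Fin 3 → S.E)}
    (hH : ∀ m, UP c (Fin 3) fun S v => v ∈ H m S) (ha : ∀ o, Antitone fun m => H m (T o))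
    (a : ℕ → Fin 3 → (Om T).E) (h : ∀ m, a (m + 1) - a m ∈ H m _) :
    ∃ t, ∀ m, t - a m ∈ H m _ := by
  choose x hx using fun m => exists_rmk (a m)
  have : ∀ m, ∃ N, ∀ j : Ix T, N ≤ j.1 →
      ((fun i => (x (m + 1) i).1 j) - fun i => (x m i).1 j) ∈ H m (Sx T j) := by
    intro m
    have h1 := h m
    have : a (m + 1) - a m = fun i => rmk _ _ _ (x (m + 1) i - x m i) := by
      ext i
      simp [hx]
    rw [this] at h1
    exact evF.1 (((hH m).los _).1 h1)
  choose N hN using this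
  let μ : ℕ → ℕ := fun n => Nat.findGreatest (fun m => ∀ j < m, N j ≤ n) n
  choose A hA1 hA2 using fun m i => memB.1 (x m i).2
  let b : Fin 3 → OB T := fun i => ⟨fun j => (x (μ j.1) i).1 j, memB.2
    ⟨⋃ m, A m i, Set.countable_iUnion fun m => hA1 m i, fun j hj =>
      hA2 _ i j fun h => hj (Set.mem_iUnion.2 ⟨_, h⟩)⟩⟩
  refine ⟨fun i => rmk _ _ _ (b i), fun m => ?_⟩
  have : (fun i => rmk _ (Ff T) _ (b i)) - a m = fun i => rmk _ _ _ (b i - x m i) := by
    ext i
    simp [hx]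
  rw [this]
  refine ((hH m).los _).2 (evF.2 ⟨max m ((Finset.range m).sup N), fun j hj => ?_⟩)
  have h1 : m ≤ μ j.1 := Nat.le_findGreatest ((le_max_left _ _).trans hj) fun i hi =>
    ((Finset.le_sup (f := N) (Finset.mem_range.2 hi)).trans (le_max_right _ _)).trans hj
  have h2 : ∀ i < μ j.1, N i ≤ j.1 :=
    Nat.findGreatest_spec (P := fun m => ∀ i < m, N i ≤ j.1) (Nat.zero_le _) (by simp)
  have h3 : ∀ m', m ≤ m' → m' ≤ μ j.1 →
      ((fun i => (x m' i).1 j) - fun i => (x m i).1 j) ∈ H m (Sx T j) := by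
    intro m' hm
    induction hm with
    | refl => simp
    | @step m' hm ih =>
      intro h4
      have := add_mem (ha j.2.2 hm (hN m' j (h2 m' h4))) (ih (by omega))
      rwa [sub_add_sub_cancel] at this
  exact h3 _ h1 le_rfl

theorem om_task : ∃ e : WT (Lab T) → (Fin 3 → (Om T).E) × Bool,
    ∀ x i, ∃ s, e s = (x, i) ∧ ∀ j, r0 s (x j) = x j := by
  let dec : (Fin 3 → ℕ → Option ℕ → ∀ o, (T o).E) → (ℕ → WT (Lab T)) → Fin 3 → OB T :=
    fun a ch i => ⟨fun j => if h : ∃ m : Option ℕ, Option.map ch m = j.2.1 then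
      a i j.1 h.choose j.2.2 else 0, memB.2 ⟨_, Set.countable_range (Option.map ch),
        fun j hj => dif_neg hj⟩⟩
  refine ⟨fun s => match s with
    | .leaf => (0, true)
    | .node a ch => (fun i => rmk _ _ _ (dec a.2 ch i), a.1), fun x b => ?_⟩
  obtain ⟨x, rfl⟩ := exists_rmk x
  choose A hA1 hA2 using fun i => memB.1 (x i).2
  obtain ⟨ch, hch⟩ := WT.exists_range ((Set.countable_iUnion hA1).preimage
    (WithBot.coe_injective (α := WT (Lab T))))
  have h0 : ∀ i (j : Ix T), (¬ ∃ m : Option ℕ, Option.map ch m = j.2.1) → (x i).1 j = 0 := by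
    intro i j hj
    refine hA2 i j fun h => hj ?_
    obtain ⟨n, s, o⟩ := j
    induction s using WithBot.recBotCoe with
    | bot => exact ⟨none, rfl⟩
    | coe s =>
      obtain ⟨m, rfl⟩ := hch (Set.mem_iUnion.2 ⟨i, h⟩)
      exact ⟨some m, rfl⟩
  refine ⟨.node (b, fun i n m o => (x i).1 (n, Option.map ch m, o)) ch, ?_, fun i => ?_⟩
  · refine Prod.ext (funext fun i => congrArg _ (Subtype.ext (funext fun j => ?_))) rfl
    by_cases h : ∃ m : Option ℕ, Option.map ch m = j.2.1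
    · refine (dif_pos h).trans ?_
      obtain ⟨n, s, o⟩ := j
      have : ∀ s s', s = s' → (x i).1 (n, s, o) = (x i).1 (n, s', o) := by
        rintro _ _ rfl
        rfl
      exact this _ _ h.choose_spec
    · exact (dif_neg h).trans (h0 i j h).symm
  · rw [r0_mk]
    congr 1
    ext j
    rw [res_val]
    split_ifs with h
    · rfl
    · refine (h0 i j ?_).symm
      rintro ⟨_ | m, e⟩
      · exact h (e ▸ WithBot.bot_lt_coe _)
      · exact h (e ▸ WithBot.coe_lt_coe.2 (WT.ch_lt _ _ _))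

theorem om_gen (s : WT (Lab T)) (zz : ℕ → ∀ o, Fin 3 → (T o).E) : ∃ z : Fin 3 → (Om T).E,
    (∀ i, r0 s (z i) = 0) ∧ (∀ s' > s, ∀ i, r0 s' (z i) = z i) ∧
      ∀ q : ∀ S : Str σ k, (Fin 3 → S.E) → Prop, UP c (Fin 3) q →
        (q _ z ↔ ∃ N, ∀ n ≥ N, ∀ o, q _ (zz n o)) := by
  let z : Fin 3 → OB T := fun i => ⟨fun j => if j.2.1 = (s : WithBot _) then zz j.1 j.2.2 i else 0,
    memB.2 ⟨{(s : WithBot _)}, Set.countable_singleton _, fun j hj => if_neg hj⟩⟩
  refine ⟨fun i => rmk _ _ _ (z i), fun i => ?_, fun s' h i => ?_, fun q hq => ?_⟩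
  · rw [r0_mk, ← map_zero (rmk _ _ _)]
    congr 1
    ext j
    rw [res_val]
    split_ifs with h
    · exact if_neg h.ne
    · rfl
  · rw [r0_mk]
    congr 1
    ext j
    rw [res_val]
    split_ifs with h'
    · rfl
    · exact (if_neg fun e : j.2.1 = (s : WithBot _) => h' (e ▸ WithBot.coe_lt_coe.2 h)).symm
  · refine (hq.los z).trans (evF.trans (exists_congr fun N => ⟨fun h n hn o => ?_, fun h j hj => ?_⟩))
    · simpa [z] using h (n, s, o) hn
    · by_cases h' : j.2.1 = (s : WithBot _)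
      · simpa [z, h'] using h j.1 hj j.2.2
      · simpa [z, h'] using hq.zero' _

end omega

theorem exists_ext {P : Str σ k → Prop} (hP : Horn c P) {g : Str σ k} (hg : IsGen c P g)
    {d : ∀ S : Str σ k, Dat k (Fin 3 → S.E)} (hd : UDat c d) (hs : (d g).Str) {S₀ : Str σ k}
    (h0 : P S₀) {G₀ : Submodule k (Fin 3 → S₀.E)} (hfn : (d S₀).Fn G₀)
    (h3 : ∀ (ω : Type) [Fintype ω] (K : ∀ S : Str σ k, Submodule k (ω → Fin 3 → S.E)),
      UK c ω K → (d g).Closed (K g) → X3g d g K S₀ G₀) :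
    ∃ S, P S ∧ ∃ X, Ax c d g S X ∧ ∃ e : S₀.E →ₗ[k] S.E,
      (∀ (ι : Type) (p : ∀ S : Str σ k, (ι → S.E) → Prop), UP c ι p →
        ∀ v, p S (fun i => e (v i)) ↔ p S₀ v) ∧ (∀ x ∈ G₀, (fun i => e (x i)) ∈ X) ∧
      ∀ (ι ω : Type) [Fintype ι] [Fintype ω]
        (q : ∀ S : Str σ k, (ι → S.E) → (ω → Fin 3 → S.E) → Prop)
        (K : ∀ S : Str σ k, Submodule k (ω → Fin 3 → S.E)),
        (UP c (ι ⊕ ω × Fin 3) fun S w => q S (fun i => w (.inl i)) fun j i => w (.inr (j, i))) →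
        (∀ S x, x ∈ K S ↔ q S 0 x) → (d g).Closed (K g) → ∀ v x, (∀ j, x j ∈ X) →
          q S (fun i => e (v i)) x → ∃ x₀, (∀ j, x₀ j ∈ G₀) ∧ q S₀ v x₀ := by
  classical
  let T : Option (Fin 3 → g.E) → Str σ k := fun o => match o with
    | none => S₀
    | some _ => g
  have hT : ∀ o, P (T o) := by
    rintro (_ | _)
    exacts [h0, hg.1]
  have hO : P (Om T) := hP.rp _ _ _ _ (Eventually.of_forall fun j => hT _)
  have hO' : IsGen c P (Om T) := ⟨hO, fun ι p q hp hq h => hg.2 ι p q hp hq fun v hv =>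
    (hq.emb (T := T) (some 0) v).1 (h _ ((hp.emb (T := T) (some 0) v).2 hv))⟩
  have ev := hg.eqv hO'
  have hY : ∀ i m, UP c (Fin 3) fun S v => v ∈ (d S).Y i ⊓ (d S).D m :=
    fun i m => (hd.Y i).and (hd.D m)
  have anti : ∀ S, P S → Antitone (d S).D := fun S hS a b hab =>
    hg.2 _ _ _ (hd.D b) (hd.D a) (hs.1 hab) S hS
  let r : WT (Lab T) → (Fin 3 → (Om T).E) →ₗ[k] (Fin 3 → (Om T).E) :=
    fun s => (r0 s).compLeft (Fin 3)
  have E : Env (d (Om T)) r fun ω _ K' => ∃ K, UK c ω K ∧ K' = K (Om T) := by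
    refine ⟨ev.str hd hs, fun s s' h x hx => ?_, fun s x => ?_, fun s m x hx => (hd.D m).r0 s hx,
      fun s i x hx => (hd.Y i).r0 s hx, ?_, fun i l hl a ha => ?_, fun s i l hl => ?_, ?_⟩
    · obtain ⟨x, rfl⟩ := exists_rmk x
      ext i
      have := rmk_eq.1 (congrFun hx i)
      refine rmk_eq.2 (this.mono fun j hj => ?_)
      rw [res_val] at hj ⊢
      split_ifs with h1
      · rfl
      · rw [if_neg fun h2 => h1 (h2.trans_le (WithBot.coe_le_coe.2 h))] at hj
        exact hj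
    · obtain ⟨x, rfl⟩ := exists_rmk x
      ext i
      refine rmk_eq.2 (Eventually.of_forall fun j => ?_)
      rw [res_val]
      split_ifs with h1
      · rfl
      · rw [res_val, if_neg h1]
    · rintro s ω _ _ ⟨K, hK, rfl⟩ x hx
      exact UP.r0 (v := fun y => x y.1 y.2) hK s hx
    · exact om_sat (H := fun m S => (d S).Y i ⊓ (d S).D (l m)) (fun m => hY i _)
        (fun o a b hab => inf_le_inf_left _ (anti _ (hT o) (hl hab))) a ha
    · obtain ⟨z, z1, z2, z3⟩ := om_gen (c := c) s fun n o => match o with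
        | none => 0
        | some y => if y ∈ (d g).Y i ⊓ (d g).D (l n) then y else 0
      have key : ∀ q : ∀ S : Str σ k, (Fin 3 → S.E) → Prop, UP c (Fin 3) q → q _ z →
          ∃ m, ∀ y ∈ (d (Om T)).Y i ⊓ (d (Om T)).D (l m), q _ y := by
        intro q hq h
        obtain ⟨N, hN⟩ := (z3 q hq).1 h
        refine ⟨N, (ev _ _ _ (hY i _) hq).1 fun y hy => ?_⟩
        have := hN N le_rfl (some y)
        simp only [if_pos hy] at this
        exact this
      refine ⟨z, fun m => (z3 _ (hY i (l m))).2 ⟨m, ?_⟩, funext z1, fun s' h => funext (z2 s' h),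
        ?_, fun j m h => key _ ((hd.D m).sup (hd.Y j)) h, fun j h => key _ (hd.Y j) h⟩
      · rintro n hn (_ | y)
        · exact zero_mem _
        · by_cases hy : y ∈ (d g).Y i ⊓ (d g).D (l n)
          · simp only [if_pos hy]
            exact ⟨hy.1, hs.1 (hl hn) hy.2⟩
          · simp only [if_neg hy]
            exact zero_mem _
      · rintro ω _ _ ⟨K, hK, rfl⟩ μ h
        exact key (fun S v => tn μ v ∈ K S) (hK.mem fun j i => (UT.var i).smul (μ j)) h
    · obtain ⟨e, he⟩ := om_task (T := T)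
      refine ⟨e, fun x i => ?_⟩
      obtain ⟨s, h1, h2⟩ := he x i
      exact ⟨s, h1, funext h2⟩
  let e : S₀.E →ₗ[k] (Om T).E := emb (T := T) none
  have pure : ∀ (ι : Type) (p : ∀ S : Str σ k, (ι → S.E) → Prop), UP c ι p →
      ∀ v, p (Om T) (fun i => e (v i)) ↔ p S₀ v := fun ι p hp v => hp.emb (T := T) none v
  have lift : ∀ (ω : Type) (x : ω → Fin 3 → (Om T).E),
      (∀ j, x j ∈ G₀.map (e.compLeft (Fin 3))) →
      ∃ x₀ : ω → Fin 3 → S₀.E, (∀ j, x₀ j ∈ G₀) ∧ x = fun j i => e (x₀ j i) := by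
    intro ω x hx
    choose x₀ h1 h2 using hx
    exact ⟨x₀, h1, funext fun j => (h2 j).symm⟩
  have inv0 : Inv (d (Om T)) r (fun ω _ K' => ∃ K, UK c ω K ∧ K' = K (Om T))
      (G₀.map (e.compLeft (Fin 3))) (G₀.map (e.compLeft (Fin 3))) := by
    refine ⟨le_rfl, ⟨?_, ?_⟩, ?_, fun ω _ K _ _ a _ x hx _ => ⟨x, hx, by simp⟩⟩
    · rintro i _ ⟨x, hx, rfl⟩ h
      rw [hfn.1 i x hx ((pure _ _ (hd.Y i) x).1 h), map_zero]
    · rintro i m _ ⟨x, hx, rfl⟩ h
      exact (pure _ _ (hd.D m) x).2 (hfn.2 i m x hx ((pure _ _ ((hd.D m).sup (hd.Y i)) x).1 h))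
    · rintro ω _ _ ⟨K, hK, rfl⟩ hc
      refine (ev.x3g hd hK).1 fun x hx hG a => ?_
      obtain ⟨x₀, h1, rfl⟩ := lift ω x hG
      have h2 := h3 ω K hK (ev.symm.closed hd hK hc) x₀
        ((pure _ _ hK fun y => x₀ y.1 y.2).1 hx) h1 a
      have h4 : (dt a fun j i => e (x₀ j i)) = fun i => e (dt a x₀ i) := by
        ext i
        simp [dt]
      rw [h4]
      exact ⟨fun m hm => (pure _ _ (hd.D m) _).2 (h2.1 m hm), fun hm => by
        rw [h2.2 hm]; ext i; simp⟩
  have fix0 : ∀ s, ∀ x ∈ G₀.map (e.compLeft (Fin 3)), r s x = x := by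
    rintro s _ ⟨x, -, rfl⟩
    exact funext fun i => r0_emb s _ _
  obtain ⟨X, hX, hcov⟩ := E.exists_generic inv0 fix0
  refine ⟨Om T, hO, X, ⟨hX.fn, hcov, fun ω _ K hK hc => (ev.x3g hd hK).2
    (hX.x3 ω _ ⟨K, hK, rfl⟩ (ev.closed hd hK hc))⟩, e, pure,
    fun x hx => hX.le ⟨x, hx, rfl⟩, fun ι ω _ _ q K hq hK hc v x hx h => ?_⟩
  have hK' : UK c ω K := (hq.subst (f := fun S w => Sum.elim 0 w) (by
    rintro (i | i)
    exacts [UT.zero, UT.var _])).congr fun S w => hK S _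
  obtain ⟨F, hF⟩ := hq.sub
  have hF' : ∀ (S : Str σ k) (v : ι → S.E) (x : ω → Fin 3 → S.E),
      q S v x ↔ Sum.elim v (fun y : ω × Fin 3 => x y.1 y.2) ∈ F S := fun S v x =>
    (hF S (Sum.elim v fun y : ω × Fin 3 => x y.1 y.2)).symm
  have hsub : ∀ (v v' : ι → (Om T).E) (x x' : ω → Fin 3 → (Om T).E), q _ v x → q _ v' x' →
      q _ (v - v') (x - x') := by
    intro v v' x x' h h'
    rw [hF'] at h h' ⊢
    convert sub_mem h h' using 1
    ext (i | i) <;> rfl
  obtain ⟨x', h1, h2⟩ := hX.rem ω _ ⟨K, hK', rfl⟩ (ev.closed hd hK' hc) x (fun s => by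
    have h1 := hq.r0 s (v := Sum.elim (fun i => e (v i)) fun y => x y.1 y.2) h
    have h2 : (fun i => r0 s (e (v i))) = fun i => e (v i) := funext fun i => r0_emb s _ _
    have h3 := hsub _ _ _ _ h h1
    simp only [Sum.elim_inl, h2, sub_self] at h3
    exact (hK _ _).2 h3) x hx (by simp)
  obtain ⟨x₀, h3, rfl⟩ := lift ω x' h1
  refine ⟨x₀, h3, (pure _ _ hq (Sum.elim v fun y => x₀ y.1 y.2)).1 ?_⟩
  have := hsub _ _ _ _ h ((hK _ _).1 h2)
  rw [sub_zero, sub_sub_cancel] at this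
  exact this

end Pool.Agent.Lib.MP_1684af_al
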