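import Mathlib
import Pool.Agent.Lib.MP_1684af_al.Ext

/-!
Definable subspaces and definable maps in one structure.
-/

namespace Pool.Agent.Lib.MP_1684af_al

open Submodule

variable {σ k : Type} [Field k]

/-- Spaces of tuples over the structure `S`. -/
class Tp (S : Str σ k) (M : Type) [AddCommGroup M] [Module k M] where
  ι : Type
  [fin : Fintype ι]
  e : M ≃ₗ[k] (ι → S.E)

attribute [instance_reducible, instance] Tp.fin

variable {S : Str σ k}

noncomputable instance Tp.base : Tp S S.E where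
  ι := Unit
  e := (LinearEquiv.funUnique Unit k S.E).symm

noncomputable instance Tp.prod {M N : Type} [AddCommGroup M] [Module k M] [AddCommGroup N]
    [Module k N] [Tp S M] [Tp S N] : Tp S (M × N) where
  ι := Tp.ι S M ⊕ Tp.ι S N
  e := ((Tp.e (S := S)).prodCongr (Tp.e (S := S))).trans
    (LinearEquiv.sumArrowLequivProdArrow _ _ k S.E).symm

noncomputable instance Tp.pi {κ M : Type} [Fintype κ] [AddCommGroup M] [Module k M] [Tp S M] :
    Tp S (κ → M) where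
  ι := κ × Tp.ι S M
  e := (LinearEquiv.piCongrRight fun _ => Tp.e (S := S)).trans (LinearEquiv.curry k S.E κ _).symm

variable {M N P : Type} [AddCommGroup M] [Module k M] [Tp S M] [AddCommGroup N] [Module k N]
  [Tp S N] [AddCommGroup P] [Module k P] [Tp S P]

variable (S) in
/-- Linear combinations of coordinates. -/
def CF (φ : M → S.E) : Prop := ∃ a : Tp.ι S M → k, ∀ x, φ x = dt a (Tp.e x)

theorem CF.co (j : Tp.ι S M) : CF S fun x : M => Tp.e x j := by
  classical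
  exact ⟨Pi.single j 1, fun x => by simp [dt, Pi.single_apply]⟩

theorem CF.dt {κ : Type} [Fintype κ] (a : κ → k) {φ : M → κ → S.E} (h : ∀ j, CF S fun x => φ x j) :
    CF S fun x => dt a (φ x) := by
  choose b hb using h
  refine ⟨fun i => ∑ j, a j * b j i, fun x => ?_⟩
  replace hb : ∀ j, φ x j = _ := fun j => hb j x
  simp only [MP_1684af_al.dt, hb, Finset.smul_sum, Finset.sum_smul, mul_smul]
  exact Finset.sum_comm

variable (S) in
/-- Maps given by matrices of scalars. -/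
@[fun_prop] def LM (f : M → N) : Prop := ∀ j, CF S fun x => Tp.e (f x) j

@[fun_prop] theorem LM.id : LM S fun x : M => x := CF.co

@[fun_prop] theorem LM.comp {f : N → P} {g : M → N} (hf : LM S f) (hg : LM S g) :
    LM S fun x => f (g x) := by
  intro j
  obtain ⟨a, ha⟩ := hf j
  replace ha : ∀ x, Tp.e (f x) j = dt a (Tp.e x) := ha
  simp only [ha]
  exact CF.dt a hg

@[fun_prop] theorem LM.fst : LM S fun x : M × N => x.1 := 
  fun j => (CF.co (S := S) (M := M × N) (Sum.inl j : Tp.ι S M ⊕ Tp.ι S N) :)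

@[fun_prop] theorem LM.snd : LM S fun x : M × N => x.2 := 
  fun j => (CF.co (S := S) (M := M × N) (Sum.inr j : Tp.ι S M ⊕ Tp.ι S N) :)

@[fun_prop] theorem LM.pair {f : M → N} {g : M → P} (hf : LM S f) (hg : LM S g) :
    LM S fun x => (f x, g x) := by
  rintro (j | j)
  exacts [hf j, hg j]

@[fun_prop] theorem LM.pi {κ : Type} [Fintype κ] {f : M → κ → N} (h : ∀ i, LM S fun x => f x i) :
    LM S fun x i => f x i := fun j => h j.1 j.2

@[fun_prop] theorem LM.apply {κ : Type} [Fintype κ] (i : κ) : LM S fun x : κ → M => x i :=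
  fun j => (CF.co (S := S) (M := κ → M) ((i, j) : κ × Tp.ι S M) :)

theorem LM.dt {κ : Type} [Fintype κ] (a : κ → k) : LM S fun x : κ → M => dt a x := by
  intro j
  have : ∀ x : κ → M, Tp.e (S := S) (MP_1684af_al.dt a x) j =
      MP_1684af_al.dt a fun i => Tp.e (x i) j := by
    intro x
    simp [MP_1684af_al.dt]
  simp only [this]
  exact CF.dt a fun i => (CF.co (S := S) (M := κ → M) ((i, j) : κ × Tp.ι S M) :)

theorem LM.zero : LM S fun _ : M => (0 : N) := by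
  have := (LM.dt (S := S) (M := N) (0 : Empty → k)).comp
    (LM.pi (S := S) (M := M) (f := fun _ i => i.elim) fun i => i.elim)
  simpa using this

theorem LM.smul (a : k) : LM S fun x : M => a • x := by
  have := (LM.dt (S := S) (M := M) fun _ : Unit => a).comp (LM.pi fun _ => LM.id)
  simpa [MP_1684af_al.dt] using this

theorem LM.add : LM S fun x : M × M => x.1 + x.2 := by
  have := (LM.dt (S := S) (M := M) fun _ : Bool => 1).comp
    (LM.pi (M := M × M) (f := fun x b => cond b x.1 x.2) (by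
      rintro (_ | _)
      exacts [LM.snd, LM.fst]))
  simpa [MP_1684af_al.dt] using this

variable (S) in
/-- Definable predicates. -/
@[fun_prop] def Dp (c : Set σ) (p : M → Prop) : Prop :=
  ∃ q, UP c (Tp.ι S M) q ∧ ∀ x, p x ↔ q S (Tp.e x)

variable {c : Set σ}

theorem Dp.congr {p q : M → Prop} (h : Dp S c p) (e : ∀ x, q x ↔ p x) : Dp S c q := by
  obtain ⟨r, h1, h2⟩ := h
  exact ⟨r, h1, fun x => (e x).trans (h2 x)⟩

theorem Dp.mono {p : M → Prop} (h : Dp S c p) {c' : Set σ} (hc : c ⊆ c') : Dp S c' p := by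
  obtain ⟨r, h1, h2⟩ := h
  exact ⟨r, h1.mono hc, h2⟩

theorem Dp.finite {p : M → Prop} (h : Dp S c p) : ∃ c' ⊆ c, c'.Finite ∧ Dp S c' p := by
  obtain ⟨r, h1, h2⟩ := h
  obtain ⟨c', h3, h4, h5⟩ := h1.finite
  exact ⟨c', h3, h4, r, h5, h2⟩

theorem Dp.lm {p : N → Prop} (h : Dp S c p) {f : M → N} (hf : LM S f) :
    Dp S c fun x => p (f x) := by
  obtain ⟨r, h1, h2⟩ := h
  choose a ha using hf
  refine ⟨_, h1.subst (f := fun S v j => dt (a j) v) fun j => ⟨a j, fun _ _ => rfl⟩, fun x => ?_⟩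
  exact (h2 _).trans (iff_of_eq (congrArg _ (funext fun j => ha j x)))

@[fun_prop] theorem Dp.and {p q : M → Prop} (h : Dp S c p) (h' : Dp S c q) :
    Dp S c fun x => p x ∧ q x := by
  obtain ⟨r, h1, h2⟩ := h
  obtain ⟨r', h3, h4⟩ := h'
  exact ⟨_, h1.and h3, fun x => and_congr (h2 x) (h4 x)⟩

@[fun_prop] theorem Dp.ex {p : M → N → Prop} (h : Dp S c fun z : M × N => p z.1 z.2) :
    Dp S c fun x => ∃ y, p x y := by
  obtain ⟨r, h1, h2⟩ := h
  refine ⟨_, UP.ex (κ := Tp.ι S N) (p := fun S v u => r S (Sum.elim v u)) (h1.congr fun S w => ?_),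
    fun x => ⟨fun ⟨y, h⟩ => ⟨Tp.e y, (h2 (x, y)).1 h⟩, fun ⟨u, h⟩ => ⟨Tp.e.symm u, ?_⟩⟩⟩
  · exact iff_of_eq (congrArg _ (by ext (i | i) <;> rfl))
  · refine (h2 (x, Tp.e.symm u)).2 ?_
    convert h using 1
    ext (i | i)
    · rfl
    · exact congrFun (Tp.e.apply_symm_apply u) i

theorem Dp.all {κ : Type} [Finite κ] {p : κ → M → Prop} (h : ∀ i, Dp S c (p i)) :
    Dp S c fun x => ∀ i, p i x := by
  choose r h1 h2 using h
  exact ⟨_, UP.all h1, fun x => forall_congr' fun i => h2 i x⟩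

theorem Dp.ball {κ : Type} (s : Finset κ) {p : κ → M → Prop} (h : ∀ i, Dp S c (p i)) :
    Dp S c fun x => ∀ i ∈ s, p i x :=
  (Dp.all (κ := s) fun i => h i).congr fun x => by simp

theorem Dp.zero : Dp S c fun x : M => x = 0 :=
  ⟨_, UP.all fun i => UP.eq (UT.var i) UT.zero, fun _ =>
    (Tp.e (S := S)).map_eq_zero_iff.symm.trans funext_iff⟩

theorem Dp.true : Dp S c fun _ : M => True := ⟨_, UP.true, fun _ => Iff.rfl⟩

variable (S) in
/-- Definable maps. -/
@[fun_prop] def DM (c : Set σ) (f : M → N) : Prop := Dp S c fun z : M × N => f z.1 = z.2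

theorem LM.dm {f : M → N} (h : LM S f) : DM S c f := by
  have h1 : LM S fun z : M × N => f z.1 + (-1 : k) • z.2 :=
    LM.add.comp ((h.comp LM.fst).pair ((LM.smul _).comp LM.snd))
  exact (Dp.zero.lm h1).congr fun z => by simp [add_neg_eq_zero]

@[fun_prop] theorem Dp.comp {p : N → Prop} {f : M → N} (h : Dp S c p) (hf : DM S c f) :
    Dp S c fun x => p (f x) :=
  (Dp.ex (p := fun x y => f x = y ∧ p y) (Dp.and hf (h.lm LM.snd))).congr fun x => by simp

theorem DM.mono {f : M → N} (h : DM S c f) {c' : Set σ} (hc : c ⊆ c') : DM S c' f := Dp.mono h hc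

@[fun_prop] theorem DM.id : DM S c fun x : M => x := LM.id.dm

@[fun_prop] theorem DM.comp {f : N → P} {g : M → N} (hf : DM S c f) (hg : DM S c g) :
    DM S c fun x => f (g x) :=
  (Dp.ex (p := fun (z : M × P) y => g z.1 = y ∧ f y = z.2)
    (Dp.and (Dp.lm hg (f := fun w : (M × P) × N => (w.1.1, w.2)) (by fun_prop))
      (Dp.lm hf (f := fun w : (M × P) × N => (w.2, w.1.2)) (by fun_prop)))).congr
    fun x => by simp

@[fun_prop] theorem DM.fst : DM S c fun x : M × N => x.1 := LM.fst.dm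

@[fun_prop] theorem DM.snd : DM S c fun x : M × N => x.2 := LM.snd.dm

@[fun_prop] theorem DM.pair {f : M → N} {g : M → P} (hf : DM S c f) (hg : DM S c g) :
    DM S c fun x => (f x, g x) :=
  (Dp.and (Dp.lm hf (f := fun w : M × N × P => (w.1, w.2.1)) (by fun_prop))
    (Dp.lm hg (f := fun w : M × N × P => (w.1, w.2.2)) (by fun_prop))).congr
    fun x => Prod.ext_iff

@[fun_prop] theorem DM.pi {κ : Type} [Fintype κ] {f : M → κ → N}
    (h : ∀ i, DM S c fun x => f x i) : DM S c fun x i => f x i :=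
  (Dp.all fun i => Dp.lm (h i) (f := fun w : M × (κ → N) => (w.1, w.2 i)) (by fun_prop)).congr
    fun x => funext_iff

@[fun_prop] theorem DM.apply {κ : Type} [Fintype κ] (i : κ) : DM S c fun x : κ → M => x i :=
  (LM.apply i).dm

@[fun_prop] theorem DM.const {y : N} (h : y = 0) : DM S c fun _ : M => y := h ▸ LM.zero.dm

@[fun_prop] theorem DM.add {f g : M → N} (hf : DM S c f) (hg : DM S c g) :
    DM S c fun x => f x + g x := LM.add.dm.comp (hf.pair hg)

@[fun_prop] theorem DM.smul (a : k) {f : M → N} (hf : DM S c f) :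
    DM S c fun x => a • f x := (LM.smul a).dm.comp hf

@[fun_prop] theorem DM.neg {f : M → N} (hf : DM S c f) : DM S c fun x => -f x := by
  simpa using hf.smul (-1)

@[fun_prop] theorem DM.sub {f g : M → N} (hf : DM S c f) (hg : DM S c g) :
    DM S c fun x => f x - g x := by
  simpa [sub_eq_add_neg] using hf.add hg.neg

@[fun_prop] theorem DM.dt {κ : Type} [Fintype κ] (a : κ → k) {f : M → κ → N} (hf : DM S c f) :
    DM S c fun x => dt a (f x) := (LM.dt a).dm.comp hf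

@[fun_prop] theorem DM.tn {κ : Type} [Fintype κ] (a : κ → k) {f : M → N} (hf : DM S c f) :
    DM S c fun x => tn a (f x) := DM.pi fun i => hf.smul (a i)

@[fun_prop] theorem DM.ite (b : Prop) [Decidable b] {f g : M → N} (hf : DM S c f)
    (hg : DM S c g) : DM S c fun x => if b then f x else g x := by
  split_ifs
  exacts [hf, hg]

@[fun_prop] theorem DM.single {κ : Type} [Fintype κ] [DecidableEq κ] (i : κ) {f : M → N}
    (hf : DM S c f) : DM S c fun x => (Pi.single i (f x) : κ → N) :=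
  DM.pi fun j => by
    simp only [Pi.single_apply]
    exact DM.ite _ hf (DM.const rfl)

@[fun_prop] theorem DM.elim {κ κ' : Type} [Fintype κ] [Fintype κ'] {f : M → κ → N}
    {g : M → κ' → N} (hf : DM S c f) (hg : DM S c g) : DM S c fun x => Sum.elim (f x) (g x) :=
  DM.pi (by
    rintro (j | j)
    exacts [(DM.apply j).comp hf, (DM.apply j).comp hg])

@[fun_prop] theorem Dp.eq {f g : M → N} (hf : DM S c f) (hg : DM S c g) :
    Dp S c fun x => f x = g x := (Dp.zero.comp (hf.sub hg)).congr fun _ => sub_eq_zero.symm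

variable (S) in
/-- Definable subspaces. -/
class Df (c : Set σ) (H : Submodule k M) : Prop where
  dp : Dp S c fun x => x ∈ H

variable (S) in
/-- Definable linear maps. -/
class DL (c : Set σ) (r : M →ₗ[k] N) : Prop where
  dm : DM S c fun x => r x

@[fun_prop] theorem Dp.mem {H : Submodule k N} [h : Df S c H] {f : M → N} (hf : DM S c f) :
    Dp S c fun x => f x ∈ H := h.dp.comp hf

@[fun_prop] theorem DM.mor {r : N →ₗ[k] P} [h : DL S c r] {f : M → N} (hf : DM S c f) :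
    DM S c fun x => r (f x) := h.dm.comp hf

theorem Dp.sub {p : M → Prop} (h : Dp S c p) :
    ∃ H : Submodule k M, Df S c H ∧ ∀ x, x ∈ H ↔ p x := by
  obtain ⟨q, h1, h2⟩ := id h
  obtain ⟨F, hF⟩ := h1.sub
  have : ∀ x, x ∈ (F S).comap (Tp.e (S := S) (M := M)).toLinearMap ↔ p x :=
    fun x => (hF S _).trans (h2 x).symm
  exact ⟨_, ⟨h.congr this⟩, this⟩

theorem Df.mono {H : Submodule k M} (h : Df S c H) {c' : Set σ} (hc : c ⊆ c') : Df S c' H :=
  ⟨h.dp.mono hc⟩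

theorem DL.mono {r : M →ₗ[k] N} (h : DL S c r) {c' : Set σ} (hc : c ⊆ c') : DL S c' r :=
  ⟨h.dm.mono hc⟩

theorem Df.finite {H : Submodule k M} (h : Df S c H) : ∃ c' ⊆ c, c'.Finite ∧ Df S c' H := by
  obtain ⟨c', h1, h2, h3⟩ := h.dp.finite
  exact ⟨c', h1, h2, ⟨h3⟩⟩

theorem DL.finite {r : M →ₗ[k] N} (h : DL S c r) : ∃ c' ⊆ c, c'.Finite ∧ DL S c' r := by
  obtain ⟨c', h1, h2, h3⟩ := Dp.finite h.dm
  exact ⟨c', h1, h2, ⟨h3⟩⟩

instance df_ins {H : Submodule k M} [h : Df S c H] {x : σ} : Df S (insert x c) H :=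
  h.mono (Set.subset_insert _ _)

instance dl_ins {r : M →ₗ[k] N} [h : DL S c r] {x : σ} : DL S (insert x c) r :=
  h.mono (Set.subset_insert _ _)

instance df_top : Df S c (⊤ : Submodule k M) := ⟨Dp.true⟩

instance df_bot : Df S c (⊥ : Submodule k M) := ⟨Dp.zero⟩

instance df_inf {H H' : Submodule k M} [h : Df S c H] [h' : Df S c H'] : Df S c (H ⊓ H') :=
  ⟨h.dp.and h'.dp⟩

instance df_sup {H H' : Submodule k M} [Df S c H] [Df S c H'] : Df S c (H ⊔ H') :=
  ⟨Dp.congr (p := fun x => ∃ y ∈ H, ∃ z ∈ H', y + z = x) (by fun_prop) fun _ => mem_sup⟩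

instance df_comap {H : Submodule k N} [Df S c H] {r : M →ₗ[k] N} [DL S c r] :
    Df S c (H.comap r) := ⟨Dp.congr (p := fun x => r x ∈ H) (by fun_prop) fun _ => Iff.rfl⟩

instance df_map {H : Submodule k M} [Df S c H] {r : M →ₗ[k] N} [DL S c r] :
    Df S c (H.map r) :=
  ⟨Dp.congr (p := fun x => ∃ y ∈ H, r y = x) (by fun_prop) fun _ => Iff.rfl⟩

instance df_ker {r : M →ₗ[k] N} [DL S c r] : Df S c (LinearMap.ker r) :=
  df_comap (H := ⊥)

instance df_prod {H : Submodule k M} {H' : Submodule k N} [Df S c H] [Df S c H'] :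
    Df S c (H.prod H') :=
  ⟨Dp.congr (p := fun x => x.1 ∈ H ∧ x.2 ∈ H') (by fun_prop) fun _ => Iff.rfl⟩

instance df_graph {r : M →ₗ[k] N} [DL S c r] : Df S c r.graph :=
  ⟨Dp.congr (p := fun x => x.2 = r x.1) (by fun_prop) fun _ => Iff.rfl⟩

theorem DL.of_graph {r : M →ₗ[k] N} (h : Df S c r.graph) : DL S c r :=
  ⟨h.dp.congr fun _ => eq_comm⟩

/-- Tuples with all entries in `V`. -/
def bx (ι : Type) (V : Submodule k M) : Submodule k (ι → M) := Submodule.pi Set.univ fun _ => V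

omit [Tp S M] in
theorem mem_bx {ι : Type} {V : Submodule k M} {x : ι → M} : x ∈ bx ι V ↔ ∀ i, x i ∈ V := by
  simp [bx, mem_pi]

omit [Tp S M] in
theorem bx_mono {ι : Type} {V V' : Submodule k M} (h : V ≤ V') : bx ι V ≤ bx ι V' :=
  fun _ hx => mem_bx.2 fun i => h (mem_bx.1 hx i)

instance df_bx {ι : Type} [Fintype ι] {V : Submodule k M} [Df S c V] : Df S c (bx ι V) :=
  ⟨(Dp.all (p := fun i (x : ι → M) => x i ∈ V) fun i => by fun_prop).congr fun _ => mem_bx⟩

theorem Df.gen {x : σ} (h : x ∈ c) : Df S c (S.X x) :=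
  ⟨_, (UP.gen h).subst (f := fun _ v i => v (i, ())) fun _ => UT.var _, fun _ => Iff.rfl⟩

instance dl_id : DL S c (LinearMap.id : M →ₗ[k] M) := ⟨DM.id⟩

instance dl_one : DL S c (1 : Module.End k M) := ⟨DM.id⟩

instance dl_zero : DL S c (0 : M →ₗ[k] N) := ⟨DM.const rfl⟩

instance dl_comp {r : N →ₗ[k] P} {s : M →ₗ[k] N} [h : DL S c r] [h' : DL S c s] :
    DL S c (r.comp s) := ⟨h.dm.comp h'.dm⟩

instance dl_mul {r s : Module.End k M} [h : DL S c r] [h' : DL S c s] : DL S c (r * s) :=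
  ⟨h.dm.comp h'.dm⟩

instance dl_add {r s : M →ₗ[k] N} [h : DL S c r] [h' : DL S c s] : DL S c (r + s) :=
  ⟨h.dm.add h'.dm⟩

instance dl_sub {r s : M →ₗ[k] N} [h : DL S c r] [h' : DL S c s] : DL S c (r - s) :=
  ⟨h.dm.sub h'.dm⟩

instance dl_smul {r : M →ₗ[k] N} [h : DL S c r] {a : k} : DL S c (a • r) := ⟨h.dm.smul a⟩

instance dl_pow {r : Module.End k M} [DL S c r] {n : ℕ} : DL S c (r ^ n) := by
  induction n with
  | zero => rw [pow_zero]; infer_instance
  | succ n ih => rw [pow_succ]; infer_instance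

instance dl_tn {κ : Type} [Fintype κ] {a : κ → k} : DL S c (tnL a : M →ₗ[k] (κ → M)) :=
  ⟨DM.tn a DM.id⟩

instance dl_inr : DL S c (LinearMap.inr k M N) := ⟨(DM.const rfl).pair DM.id⟩

instance dl_inl : DL S c (LinearMap.inl k M N) := ⟨DM.id.pair (DM.const rfl)⟩

instance dl_fst : DL S c (LinearMap.fst k M N) := ⟨DM.fst⟩

instance dl_snd : DL S c (LinearMap.snd k M N) := ⟨DM.snd⟩

theorem countable_df [Countable k] (hc : c.Countable) :
    {H : Submodule k M | Df S c H}.Countable := by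
  have : ∀ H : {H : Submodule k M | Df S c H}, ∃ z : Σ φ : {φ : Fo σ k | φ.supp ⊆ c},
      Fin φ.1.ar → Tp.ι S M, ∀ x, x ∈ H.1 ↔ (fun i => Tp.e x (z.2 i)) ∈ S.ev z.1.1 := by
    rintro ⟨H, ⟨q, ⟨φ, e, h1, h2⟩, h3⟩⟩
    exact ⟨⟨⟨φ, h1⟩, e⟩, fun x => (h3 x).trans (h2 _ _)⟩
  choose f hf using this
  have := (Fm.countable_supp (μ := ℕ × ℕ →₀ k) hc).to_subtype
  refine Set.countable_coe_iff.1 (Function.Injective.countable (f := f) fun a b h => ?_)
  ext x
  rw [hf, hf, h]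

/-- The part of a relation over zero. -/
def z0 (θ : Submodule k (M × N)) : Submodule k N := θ.comap (LinearMap.inr k M N)

/-- The part of a relation mapping to zero. -/
def o0 (θ : Submodule k (M × N)) : Submodule k M := θ.comap (LinearMap.inl k M N)

/-- The image under a relation. -/
def im (θ : Submodule k (M × N)) (V : Submodule k M) : Submodule k N :=
  (θ ⊓ V.comap (LinearMap.fst k M N)).map (LinearMap.snd k M N)

/-- The preimage under a relation. -/
def pre (θ : Submodule k (M × N)) (V : Submodule k N) : Submodule k M :=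
  (θ ⊓ V.comap (LinearMap.snd k M N)).map (LinearMap.fst k M N)

section rel

omit [Tp S M] [Tp S N]

variable {θ θ' : Submodule k (M × N)}

theorem mem_z0 {y : N} : y ∈ z0 θ ↔ (0, y) ∈ θ := Iff.rfl

theorem mem_o0 {x : M} : x ∈ o0 θ ↔ (x, 0) ∈ θ := Iff.rfl

theorem mem_im {V : Submodule k M} {y : N} : y ∈ im θ V ↔ ∃ x ∈ V, (x, y) ∈ θ :=
  ⟨fun ⟨z, h, e⟩ => ⟨z.1, h.2, e ▸ h.1⟩, fun ⟨x, h, h'⟩ => ⟨(x, y), ⟨h', h⟩, rfl⟩⟩

theorem mem_pre {V : Submodule k N} {x : M} : x ∈ pre θ V ↔ ∃ y ∈ V, (x, y) ∈ θ :=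
  ⟨fun ⟨z, h, e⟩ => ⟨z.2, h.2, e ▸ h.1⟩, fun ⟨y, h, h'⟩ => ⟨(x, y), ⟨h', h⟩, rfl⟩⟩

theorem im_mono {V V' : Submodule k M} (h : V ≤ V') : im θ V ≤ im θ V' := fun _ hy =>
  let ⟨x, h1, h2⟩ := mem_im.1 hy
  mem_im.2 ⟨x, h h1, h2⟩

theorem pre_mono {V V' : Submodule k N} (h : V ≤ V') : pre θ V ≤ pre θ V' := fun _ hy =>
  let ⟨x, h1, h2⟩ := mem_pre.1 hy
  mem_pre.2 ⟨x, h h1, h2⟩

theorem z0_le_im {V : Submodule k M} : z0 θ ≤ im θ V := fun _ h => mem_im.2 ⟨0, zero_mem _, h⟩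

theorem sub_pair {x x' : M} {y y' : N} (h : (x, y) ∈ θ) (h' : (x', y') ∈ θ) :
    (x - x', y - y') ∈ θ := sub_mem h h'

theorem add_pair {x x' : M} {y y' : N} (h : (x, y) ∈ θ) (h' : (x', y') ∈ θ) :
    (x + x', y + y') ∈ θ := add_mem h h'

end rel

instance df_z0 {θ : Submodule k (M × N)} [Df S c θ] : Df S c (z0 θ) := df_comap

instance df_o0 {θ : Submodule k (M × N)} [Df S c θ] : Df S c (o0 θ) := df_comap

instance df_im {θ : Submodule k (M × N)} [Df S c θ] {V : Submodule k M} [Df S c V] :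
    Df S c (im θ V) := df_map

instance df_pre {θ : Submodule k (M × N)} [Df S c θ] {V : Submodule k N} [Df S c V] :
    Df S c (pre θ V) := df_map

/-- Normal form of a formula with one more symbol. -/
theorem nf_ev {ξ : σ} (φ : Fo σ k) (h : φ.supp ⊆ insert ξ c) : ∃ (ω : Type) (_ : Fintype ω)
    (θ : Submodule k ((Fin φ.ar → S.E) × (ω → Fin 3 → S.E))), Df S c θ ∧
      ∀ v, v ∈ S.ev φ ↔ v ∈ pre θ (bx ω (S.X ξ)) := by
  induction φ with
  | gen x =>
    by_cases hx : x = ξ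
    · subst hx
      obtain ⟨θ, h1, h2⟩ := Dp.sub (S := S) (c := c)
        (p := fun z : (Fin 3 → S.E) × (Unit → Fin 3 → S.E) => z.1 = z.2 ()) (by fun_prop)
      refine ⟨Unit, inferInstance, θ, h1, fun v => ⟨fun hv => mem_pre.2
        ⟨fun _ => v, mem_bx.2 fun _ => hv, (h2 _).2 rfl⟩, fun hv => ?_⟩⟩
      obtain ⟨y, h3, h4⟩ := mem_pre.1 hv
      have : v = y () := (h2 _).1 h4
      rw [this]
      exact mem_bx.1 h3 ()
    · have := Df.gen (S := S) ((h (Set.mem_singleton x)).resolve_left hx)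
      refine ⟨Empty, inferInstance, (S.X x).prod ⊤, inferInstance, fun v => ⟨fun hv => mem_pre.2
        ⟨0, zero_mem _, hv, trivial⟩, fun hv => ?_⟩⟩
      obtain ⟨y, -, h4⟩ := mem_pre.1 hv
      exact h4.1
  | top n =>
    exact ⟨Empty, inferInstance, ⊤, inferInstance, fun v => ⟨fun _ => mem_pre.2
      ⟨0, zero_mem _, trivial⟩, fun _ => trivial⟩⟩
  | pp n R A B C a b h1 h2 =>
    obtain ⟨ω, _, θ, h3, h4⟩ := h1 (Set.subset_union_left.trans h)
    obtain ⟨ω', _, θ', h5, h6⟩ := h2 (Set.subset_union_right.trans h)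
    obtain ⟨θ'', h7, h8⟩ := Dp.sub (S := S) (c := c)
      (p := fun z : (Fin n → S.E) × (ω ⊕ ω' → Fin 3 → S.E) => ∃ x, (x, fun j => z.2 (.inl j)) ∈ θ ∧
        ∃ y, (y, fun j => z.2 (.inr j)) ∈ θ' ∧ (fun r : Fin R =>
          dt (fun j : Fin a.ar => B (r, j)) x + dt (fun j : Fin b.ar => C (r, j)) y) =
            fun r : Fin R => dt (fun j : Fin n => A (r, j)) z.1) (by fun_prop)
    refine ⟨ω ⊕ ω', inferInstance, θ'', h7, fun v => S.mem_pp.trans ⟨?_, fun hv => ?_⟩⟩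
    · rintro ⟨x, hx, y, hy, e⟩
      obtain ⟨u, h9, h10⟩ := mem_pre.1 ((h4 x).1 hx)
      obtain ⟨w, h11, h12⟩ := mem_pre.1 ((h6 y).1 hy)
      refine mem_pre.2 ⟨Sum.elim u w, mem_bx.2 ?_, (h8 _).2 ⟨x, h10, y, h12, funext e⟩⟩
      rintro (j | j)
      exacts [mem_bx.1 h9 j, mem_bx.1 h11 j]
    · obtain ⟨u, h9, h10⟩ := mem_pre.1 hv
      obtain ⟨x, hx, y, hy, e⟩ := (h8 _).1 h10
      exact ⟨x, (h4 x).2 (mem_pre.2 ⟨_, mem_bx.2 fun j => mem_bx.1 h9 _, hx⟩), y,
        (h6 y).2 (mem_pre.2 ⟨_, mem_bx.2 fun j => mem_bx.1 h9 _, hy⟩), congrFun e⟩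

theorem Df.nf {ξ : σ} {H : Submodule k M} (h : Df S (insert ξ c) H) : ∃ (ω : Type) (_ : Fintype ω)
    (θ : Submodule k (M × (ω → Fin 3 → S.E))), Df S c θ ∧ H = pre θ (bx ω (S.X ξ)) := by
  obtain ⟨q, ⟨φ, e, h1, h2⟩, h3⟩ := h
  obtain ⟨ω, _, θ, h4, h5⟩ := nf_ev (S := S) φ h1
  have h6 : LM S fun (x : M) i => Tp.e (S := S) x (e i) := fun j => CF.co _
  obtain ⟨θ', h7, h8⟩ := Dp.sub (S := S) (c := c) (p := fun z : M × (ω → Fin 3 → S.E) =>
    (fun i => Tp.e (S := S) z.1 (e i), z.2) ∈ θ) (h4.dp.lm ((h6.comp LM.fst).pair LM.snd))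
  refine ⟨ω, inferInstance, θ', h7, Submodule.ext fun x => ?_⟩
  refine (h3 x).trans ((h2 _ _).trans ((h5 _).trans ?_))
  simp only [mem_pre, h8]

/-- A definable functional relation with complemented domain extends to a definable map. -/
theorem exists_dl {ρ : Submodule k (M × N)} [Df S c ρ] (hρ : z0 ρ = ⊥) {C : Submodule k M}
    [Df S c C] (hC : IsCompl (pre ρ ⊤) C) :
    ∃ r : M →ₗ[k] N, DL S c r ∧ ∀ x y, (x, y) ∈ ρ → r x = y := by
  have key : ∀ x y, (x, y) ∈ ρ ⊔ C.prod ⊥ → x = 0 → y = 0 := by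
    intro x y h hx
    obtain ⟨⟨a, b⟩, h1, ⟨a', b'⟩, ⟨h2, h3⟩, e⟩ := mem_sup.1 h
    obtain ⟨e1, e2⟩ := Prod.mk.inj e
    have h4 : b' = 0 := h3
    have h5 : a = -a' := eq_neg_of_add_eq_zero_left (e1.trans hx)
    have h6 : a = 0 := disjoint_def.1 hC.disjoint a (mem_pre.2 ⟨b, trivial, h1⟩)
      (h5 ▸ neg_mem h2)
    have h7 : b ∈ z0 ρ := mem_z0.2 (h6 ▸ h1)
    rw [hρ, mem_bot] at h7
    rw [← e2, h4, h7, add_zero]
  obtain ⟨r, hr⟩ := Submodule.exists_eq_graph (G := ρ ⊔ C.prod ⊥) ⟨fun a b h => by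
    have h1 : a.1.1 - b.1.1 = 0 := sub_eq_zero.2 h
    exact Subtype.ext (Prod.ext h (sub_eq_zero.1 (key _ _ (sub_mem a.2 b.2) h1))), fun x => by
    obtain ⟨a, ha, b, hb, rfl⟩ := mem_sup.1 (hC.sup_eq_top ▸ mem_top (x := x))
    obtain ⟨y, -, hy⟩ := mem_pre.1 ha
    exact ⟨⟨(a, y) + (b, 0), add_mem_sup hy ⟨hb, rfl⟩⟩, rfl⟩⟩
  refine ⟨r, DL.of_graph (hr ▸ inferInstance), fun x y h => ?_⟩
  have : (x, y) ∈ r.graph := hr ▸ mem_sup_left h
  exact Eq.symm this

end Pool.Agent.Lib.MP_1684af_al
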