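import Mathlib
import Pool.Agent.Lib.MP_1684af_al.Df

/-!
Germs of definable subspaces: simple germs, maps between germs.
-/

namespace Pool.Agent.Lib.MP_1684af_al

open Submodule Filter

variable {σ k : Type} [Field k] {S : Str σ k} {c : Set σ}
variable {M N : Type} [AddCommGroup M] [Module k M] [Tp S M] [AddCommGroup N] [Module k N] [Tp S N]

variable (S) in
/-- Decreasing chains of definable subspaces. -/
structure Ch (c : Set σ) (Y : ℕ → Submodule k M) : Prop where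
  df : ∀ n, Df S c (Y n)
  anti : Antitone Y

theorem Ch.mono {Y : ℕ → Submodule k M} (h : Ch S c Y) {c' : Set σ} (hc : c ⊆ c') : Ch S c' Y :=
  ⟨fun n => (h.df n).mono hc, h.anti⟩

theorem Ch.const {Y : Submodule k M} (h : Df S c Y) : Ch S c fun _ => Y :=
  ⟨fun _ => h, fun _ _ _ => le_rfl⟩

omit [Tp S M] in
theorem ev_le {Y : ℕ → Submodule k M} (h : Antitone Y) (n : ℕ) : ∀ᶠ m in atTop, Y m ≤ Y n :=
  (eventually_ge_atTop n).mono fun _ hm => h hm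

omit [Tp S M] in
theorem tn_mem_bx {ι : Type} (μ : ι → k) {V : Submodule k M} {x : M} (h : x ∈ V) :
    tn μ x ∈ bx ι V := mem_bx.2 fun _ => smul_mem _ _ h

variable (S) in
/-- Simple germs with scalar endomorphisms. -/
structure K (c : Set σ) (V : ℕ → Submodule k S.E) : Prop where
  ch : Ch S c V
  st : ∀ n, ¬ V n ≤ V (n + 1)
  rat : ∀ (ι : Type) [Fintype ι] (H : Submodule k (ι → S.E)), Df S c H →
    ∃ Φ : Finset (ι → k), ∀ᶠ n in atTop, ∀ v ∈ bx ι (V n), v ∈ H ↔ ∀ a ∈ Φ, dt a v = 0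

variable {U V V' Z : ℕ → Submodule k S.E}

theorem K.down (h : K S c V) {c' : Set σ} (hc : c' ⊆ c) (h' : Ch S c' V) : K S c' V :=
  ⟨h', h.st, fun ι _ H hH => h.rat ι H (hH.mono hc)⟩

theorem K.ne (h : K S c V) (n : ℕ) : V n ≠ ⊥ := fun e => h.st n (e ▸ bot_le)

theorem K.dich (h : K S c V) (H : Submodule k S.E) [Df S c H] :
    (∀ᶠ n in atTop, V n ≤ H) ∨ ∀ᶠ n in atTop, ∀ x ∈ V n, x ∈ H → x = 0 := by
  obtain ⟨H', h1, h2⟩ := Dp.sub (S := S) (c := c) (p := fun v : Unit → S.E => v () ∈ H)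
    (by fun_prop)
  obtain ⟨Φ, hΦ⟩ := h.rat Unit H' h1
  by_cases h3 : ∀ a ∈ Φ, a () = 0
  · refine Or.inl (hΦ.mono fun n hn x hx => (h2 fun _ => x).1
      ((hn _ (mem_bx.2 fun _ => hx)).2 fun a ha => ?_))
    simp [dt, h3 a ha]
  · push Not at h3
    obtain ⟨a, ha, h4⟩ := h3
    refine Or.inr (hΦ.mono fun n hn x hx h5 => ?_)
    simpa [dt, h4] using (hn (fun _ => x) (mem_bx.2 fun _ => hx)).1 ((h2 _).2 h5) a ha

variable (S) in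
/-- No nonzero definable maps from the germ `Y` to the germ `V`. -/
def NoMap (c : Set σ) (Y : ℕ → Submodule k M) (V : ℕ → Submodule k S.E) : Prop :=
  ∀ ρ : Submodule k (M × S.E), Df S c ρ → z0 ρ = ⊥ →
    (∀ n, ∀ᶠ m in atTop, Y m ≤ pre ρ (V n)) → ∀ᶠ m in atTop, Y m ≤ o0 ρ

variable {Y Y' : ℕ → Submodule k M}

theorem NoMap.down (h : NoMap S c Y V) {c' : Set σ} (hc : c' ⊆ c) : NoMap S c' Y V :=
  fun ρ hρ => h ρ (hρ.mono hc)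

omit [Tp S M] [Tp S N] in
theorem fn_eq {ρ : Submodule k (M × N)} (h : z0 ρ = ⊥) {x : M} {y y' : N} (h1 : (x, y) ∈ ρ)
    (h2 : (x, y') ∈ ρ) : y = y' := by
  have : y - y' ∈ z0 ρ := mem_z0.2 (by simpa using sub_pair h1 h2)
  rwa [h, Submodule.mem_bot, sub_eq_zero] at this

omit [Tp S M] [Tp S N] in
theorem inj_eq {ρ : Submodule k (M × N)} (h : o0 ρ = ⊥) {x x' : M} {y : N} (h1 : (x, y) ∈ ρ)
    (h2 : (x', y) ∈ ρ) : x = x' := by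
  have : x - x' ∈ o0 ρ := mem_o0.2 (by simpa using sub_pair h1 h2)
  rwa [h, Submodule.mem_bot, sub_eq_zero] at this

theorem K.noMap_const (h : K S c V) (Y : Submodule k M) [Df S c Y] :
    NoMap S c (fun _ => Y) V := by
  intro ρ _ h1 h2
  replace h2 : ∀ n, Y ≤ pre ρ (V n) := fun n => (h2 n).exists.choose_spec
  have h3 : ∀ n, im ρ Y ≤ V n := by
    intro n y hy
    obtain ⟨x, h4, h5⟩ := mem_im.1 hy
    obtain ⟨y', h6, h7⟩ := mem_pre.1 (h2 n h4)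
    rwa [fn_eq h1 h5 h7]
  rcases h.dich (im ρ Y) with h4 | h4
  · obtain ⟨n, hn⟩ := h4.exists
    exact (h.st n (hn.trans (h3 _))).elim
  · obtain ⟨n, hn⟩ := h4.exists
    refine Eventually.of_forall fun _ x hx => ?_
    obtain ⟨y, h6, h7⟩ := mem_pre.1 (h2 n hx)
    rwa [hn y h6 (mem_im.2 ⟨x, hx, h7⟩)] at h7

theorem noMap_of_bot (h : ∀ᶠ m in atTop, Y m = ⊥) : NoMap S c Y V :=
  fun _ _ _ _ => h.mono fun _ e => e ▸ bot_le

theorem NoMap.map (h : NoMap S c Y V) (j : M →ₗ[k] N) [DL S c j] :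
    NoMap S c (fun m => (Y m).map j) V := by
  intro ρ _ h1 h2
  obtain ⟨ρ', h3, h4⟩ := Dp.sub (S := S) (c := c) (p := fun z : M × S.E => (j z.1, z.2) ∈ ρ)
    (by fun_prop)
  refine (h ρ' h3 ((Submodule.eq_bot_iff _).2 fun y hy => ?_) fun n => (h2 n).mono fun m hm x hx => ?_).mono
    fun m hm => ?_
  · rw [← Submodule.mem_bot k, ← h1]
    simpa [mem_z0] using (h4 _).1 hy
  · obtain ⟨y, h5, h6⟩ := mem_pre.1 (hm ⟨x, hx, rfl⟩)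
    exact mem_pre.2 ⟨y, h5, (h4 _).2 h6⟩
  · rintro _ ⟨x, hx, rfl⟩
    exact (h4 _).1 (hm hx)

theorem NoMap.sup (h : NoMap S c Y V) (h' : NoMap S c Y' V) :
    NoMap S c (fun m => Y m ⊔ Y' m) V := fun ρ hρ h1 h2 =>
  ((h ρ hρ h1 fun n => (h2 n).mono fun _ hm => le_sup_left.trans hm).and
    (h' ρ hρ h1 fun n => (h2 n).mono fun _ hm => le_sup_right.trans hm)).mono
      fun _ hm => sup_le hm.1 hm.2

theorem K.nb1 (hV : K S c V) (hY : NoMap S c Y V) {ι : Type} [Fintype ι]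
    (Θ : Submodule k ((ι → S.E) × M)) [Df S c Θ]
    (h : ∀ n, ∀ᶠ m in atTop, Y m ≤ im Θ (bx ι (V n))) : ∀ᶠ m in atTop, Y m ≤ z0 Θ := by
  have := hV.ch.df
  obtain ⟨Φ, hΦ⟩ := hV.rat ι (o0 Θ) inferInstance
  obtain ⟨j, hj⟩ := hΦ.exists
  have key : ∀ a ∈ Φ, ∀ᶠ m in atTop, ∀ y ∈ Y m, ∀ v ∈ bx ι (V j), (v, y) ∈ Θ → dt a v = 0 := by
    intro a ha
    obtain ⟨ρ, h1, h2⟩ := Dp.sub (S := S) (c := c) (p := fun z : M × S.E =>
      ∃ v ∈ bx ι (V j), (v, z.1) ∈ Θ ∧ dt a v = z.2) (by fun_prop)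
    have h3 : z0 ρ = ⊥ := by
      refine (Submodule.eq_bot_iff _).2 fun w hw => ?_
      obtain ⟨v, h4, h5, h6⟩ := (h2 _).1 hw
      exact h6.symm.trans ((hj v h4).1 h5 a ha)
    refine (hY ρ h1 h3 fun n => (h (max n j)).mono fun m hm y hy => ?_).mono
      fun m hm y hy v hv h4 => fn_eq h3 ((h2 (y, _)).2 ⟨v, hv, h4, rfl⟩) (hm hy)
    obtain ⟨v, h4, h5⟩ := mem_im.1 (hm hy)
    exact mem_pre.2 ⟨_, dt_mem a (mem_bx.1 (bx_mono (hV.ch.anti (le_max_left _ _)) h4)),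
      (h2 _).2 ⟨v, bx_mono (hV.ch.anti (le_max_right _ _)) h4, h5, rfl⟩⟩
  filter_upwards [(eventually_all_finset Φ).2 key, h j] with m h1 h2 y hy
  obtain ⟨v, h4, h5⟩ := mem_im.1 (h2 hy)
  simpa [mem_z0] using sub_pair h5 ((hj v h4).2 fun a ha => h1 a ha y hy v h4 h5)

theorem K.nb2 (hV : K S c V) (hV' : K S c V') (hY : NoMap S c Y V) (hY' : NoMap S c Y V')
    {ι κ : Type} [Fintype ι] [Fintype κ] (Θ : Submodule k (((ι → S.E) × (κ → S.E)) × M))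
    [Df S c Θ] (h : ∀ n, ∀ᶠ m in atTop, Y m ≤ im Θ ((bx ι (V n)).prod (bx κ (V' n)))) :
    ∀ᶠ m in atTop, Y m ≤ z0 Θ := by
  have := hV'.ch.df
  obtain ⟨Θ₂, h1, h2⟩ := Dp.sub (S := S) (c := c) (p := fun z : (κ → S.E) × M =>
    ((0, z.1), z.2) ∈ Θ) (by fun_prop (disch := rfl))
  refine (hV'.nb1 hY' Θ₂ fun j => ?_).mono fun m hm y hy => (h2 _).1 (hm hy)
  obtain ⟨Θ₁, h3, h4⟩ := Dp.sub (S := S) (c := c) (p := fun z : (ι → S.E) × M =>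
    ∃ w ∈ bx κ (V' j), ((z.1, w), z.2) ∈ Θ) (by fun_prop)
  refine (hV.nb1 hY Θ₁ fun n => (h (max n j)).mono fun m hm y hy => ?_).mono fun m hm y hy => ?_
  · obtain ⟨v, h5, h6⟩ := mem_im.1 (hm hy)
    exact mem_im.2 ⟨v.1, bx_mono (hV.ch.anti (le_max_left _ _)) h5.1,
      (h4 _).2 ⟨v.2, bx_mono (hV'.ch.anti (le_max_right _ _)) h5.2, h6⟩⟩
  · obtain ⟨w, h5, h6⟩ := (h4 _).1 (hm hy)
    exact mem_im.2 ⟨w, h5, (h2 _).2 h6⟩

section stab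

omit [Tp S M]

variable {ω : Type} [Fintype ω]

theorem stab1 {f : ℕ → Submodule k (ω → k)} (hf : Antitone f) {B : Submodule k (ω → k)}
    (h : ∀ μ, (∀ n, μ ∈ f n) → μ ∈ B) : ∀ᶠ n in atTop, f n ≤ B := by
  obtain ⟨n, hn⟩ := WellFoundedLT.antitone_chain_condition hf
  refine (eventually_ge_atTop n).mono fun m hm μ hμ => h μ fun l => ?_
  rcases le_total l m with h1 | h1
  · exact hf h1 hμ
  · rwa [← hn l (hm.trans h1), hn m hm]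

theorem stab {Kn : ℕ → Submodule k (ω → M)} (hK : Antitone Kn) {C : Submodule k (ω → M)}
    (hY : Antitone Y) (h1 : ∀ μ, (∀ n, ∀ᶠ m in atTop, μ ∈ Wsp (Kn n) (Y m)) →
      ∀ᶠ m in atTop, μ ∈ Wsp C (Y m))
    (h2 : ∀ m μ, (∀ n, μ ∈ Wsp (Kn n) (Y m)) → μ ∈ Wsp C (Y m)) :
    ∀ᶠ n in atTop, ∀ m, Wsp (Kn n) (Y m) ≤ Wsp C (Y m) := by
  have mono : ∀ K' : Submodule k (ω → M), Monotone fun m => Wsp K' (Y m) :=
    fun K' a b h => Wsp_mono le_rfl (hY h)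
  obtain ⟨m₁, hm₁⟩ := WellFoundedGT.monotone_chain_condition ⟨_, mono C⟩
  have a1 := stab1 (f := fun n => ⨆ m, Wsp (Kn n) (Y m)) (B := Wsp C (Y m₁))
    (fun a b h => iSup_mono fun m => Wsp_mono (hK h) le_rfl) fun μ hμ => by
      have := h1 μ fun n => by
        obtain ⟨m, hm⟩ := (mem_iSup_of_directed _ (mono _).directed_le).1 (hμ n)
        exact (eventually_ge_atTop m).mono fun l hl => mono _ hl hm
      obtain ⟨m, h3, h4⟩ := (this.and (eventually_ge_atTop m₁)).exists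
      exact (hm₁ m h4).ge h3
  have a2 := (eventually_all_finset (Finset.range m₁)).2 fun m _ =>
    stab1 (f := fun n => Wsp (Kn n) (Y m)) (fun a b h => Wsp_mono (hK h) le_rfl) (h2 m)
  filter_upwards [a1, a2] with n h3 h4 m
  by_cases hm : m < m₁
  · exact h4 m (Finset.mem_range.2 hm)
  · exact ((le_iSup (fun m => Wsp (Kn n) (Y m)) m).trans h3).trans (mono C (not_lt.1 hm))

end stab

theorem K.req (hV : K S c V) (hY : Ch S c Y) (h : NoMap S c Y V) {ι ω : Type} [Fintype ι]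
    [Fintype ω] (θ : Submodule k ((ι → S.E) × (ω → M))) [Df S c θ] :
    ∀ᶠ n in atTop, ∀ m, Wsp (im θ (bx ι (V n))) (Y m) ≤ Wsp (z0 θ) (Y m) := by
  have key : ∀ (Y' : ℕ → Submodule k M), NoMap S c Y' V → ∀ μ, (∀ n, ∀ᶠ m in atTop,
      μ ∈ Wsp (im θ (bx ι (V n))) (Y' m)) → ∀ᶠ m in atTop, μ ∈ Wsp (z0 θ) (Y' m) := by
    intro Y' h' μ hμ
    obtain ⟨Θ, h1, h2⟩ := Dp.sub (S := S) (c := c) (p := fun z : (ι → S.E) × M =>
      (z.1, tn μ z.2) ∈ θ) (by fun_prop)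
    refine (hV.nb1 h' Θ fun n => (hμ n).mono fun m hm y hy => ?_).mono
      fun m hm y hy => (h2 _).1 (hm hy)
    obtain ⟨v, h3, h4⟩ := mem_im.1 (hm y hy)
    exact mem_im.2 ⟨v, h3, (h2 _).2 h4⟩
  refine stab (fun a b hab => im_mono (bx_mono (hV.ch.anti hab))) hY.anti (key Y h)
    fun m μ hμ => ?_
  have := hY.df m
  exact (key _ (hV.noMap_const (Y m)) μ fun n => Eventually.of_forall fun _ => hμ n).exists.choose_spec

theorem K.split (hV : K S c V) (hV' : K S c V') (h : NoMap S c V' V) {ι κ : Type} [Fintype ι]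
    [Fintype κ] (H : Submodule k ((ι → S.E) × (κ → S.E))) [Df S c H] :
    ∀ᶠ n in atTop, ∀ v ∈ bx ι (V n), ∀ w ∈ bx κ (V' n), (v, w) ∈ H → (0, w) ∈ H := by
  have := hV.ch.df
  obtain ⟨n₀, h1⟩ := (hV.req hV'.ch h H).exists
  obtain ⟨Φ, hΦ⟩ := hV'.rat κ (im H (bx ι (V n₀))) inferInstance
  filter_upwards [hΦ, ev_le hV.ch.anti n₀] with n h2 h3 v hv w hw h4
  refine mem_of_perp (K := z0 H) (Φ := Φ) (mem_bx.1 hw)
    ((h2 w hw).1 (mem_im.2 ⟨v, bx_mono h3 hv, h4⟩)) fun μ hμ => h1 n fun x hx => ?_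
  refine (h2 _ (tn_mem_bx μ hx)).2 fun a ha => ?_
  rw [dt_tn, hμ a ha, zero_smul]

theorem K.mid (hV : K S c V) {ι : Type} [Fintype ι] (H : Submodule k (ι → S.E)) [Df S c H] :
    ∀ᶠ m in atTop, ∀ n > m, ∀ μ, μ ∈ Wsp (H ⊔ bx ι (V n)) (V m) → μ ∈ Wsp H (V m) := by
  obtain ⟨Φ, hΦ⟩ := hV.rat ι H inferInstance
  refine hΦ.mono fun m hm n hn μ hμ x hx =>
    (hm _ (tn_mem_bx μ hx)).2 fun a ha => ?_
  have : dt a μ = 0 := by
    by_contra h0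
    refine hV.st m fun y hy => hV.ch.anti hn ?_
    obtain ⟨u, hu, g, hg, e⟩ := mem_sup.1 (hμ y hy)
    have h1 : u ∈ bx ι (V m) := by
      rw [eq_sub_of_add_eq e]
      exact sub_mem (tn_mem_bx μ hy) (bx_mono (hV.ch.anti hn.le) hg)
    have h2 := dt_mem a (mem_bx.1 hg)
    rwa [eq_sub_of_add_eq' e, dt_sub, (hm u h1).1 hu a ha, sub_zero, dt_tn,
      smul_mem_iff _ h0] at h2
  rw [dt_tn, this, zero_smul]

variable (S) in
/-- Isomorphic germs. -/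
def Rel (c : Set σ) (V Z : ℕ → Submodule k S.E) : Prop :=
  ∃ ρ : Submodule k (S.E × S.E), Df S c ρ ∧ z0 ρ = ⊥ ∧ o0 ρ = ⊥ ∧
    (∀ n, ∀ᶠ m in atTop, V m ≤ pre ρ (Z n)) ∧ ∀ n, ∀ᶠ m in atTop, Z m ≤ im ρ (V n)

theorem Rel.mono (h : Rel S c V Z) {c' : Set σ} (hc : c ⊆ c') : Rel S c' V Z :=
  let ⟨ρ, h1, h2⟩ := h
  ⟨ρ, h1.mono hc, h2⟩

theorem Rel.symm (h : Rel S c V Z) : Rel S c Z V := by
  obtain ⟨ρ, h1, h2, h3, h4, h5⟩ := h
  obtain ⟨ρ', h6, h7⟩ := Dp.sub (S := S) (c := c) (p := fun z : S.E × S.E => (z.2, z.1) ∈ ρ)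
    (by fun_prop)
  refine ⟨ρ', h6, ?_, ?_, fun n => (h5 n).mono fun m hm x hx => ?_,
    fun n => (h4 n).mono fun m hm x hx => ?_⟩
  · rw [← h3]; ext x; exact h7 _
  · rw [← h2]; ext x; exact h7 _
  · obtain ⟨y, h8, h9⟩ := mem_im.1 (hm hx)
    exact mem_pre.2 ⟨y, h8, (h7 _).2 h9⟩
  · obtain ⟨y, h8, h9⟩ := mem_pre.1 (hm hx)
    exact mem_im.2 ⟨y, h8, (h7 _).2 h9⟩

theorem exists_comp {P : Type} [AddCommGroup P] [Module k P] [Tp S P] (ρ : Submodule k (M × N))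
    (ρ' : Submodule k (N × P)) [Df S c ρ] [Df S c ρ'] : ∃ ρ'' : Submodule k (M × P), Df S c ρ'' ∧
      (∀ x z, (x, z) ∈ ρ'' ↔ ∃ y, (x, y) ∈ ρ ∧ (y, z) ∈ ρ') ∧
      (z0 ρ = ⊥ → z0 ρ' = ⊥ → z0 ρ'' = ⊥) ∧ (o0 ρ = ⊥ → o0 ρ' = ⊥ → o0 ρ'' = ⊥) ∧
      (∀ A, pre ρ (pre ρ' A) ≤ pre ρ'' A) ∧ ∀ A, im ρ' (im ρ A) ≤ im ρ'' A := by
  obtain ⟨ρ'', h1, h2⟩ := Dp.sub (S := S) (c := c)
    (p := fun z : M × P => ∃ y, (z.1, y) ∈ ρ ∧ (y, z.2) ∈ ρ') (by fun_prop)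
  refine ⟨ρ'', h1, fun x z => h2 _, fun a b => (Submodule.eq_bot_iff _).2 fun z hz => ?_,
    fun a b => (Submodule.eq_bot_iff _).2 fun z hz => ?_, fun A x hx => ?_, fun A x hx => ?_⟩
  · obtain ⟨y, h3, h4⟩ := (h2 _).1 hz
    rw [fn_eq a h3 (zero_mem ρ)] at h4
    exact fn_eq b h4 (zero_mem ρ')
  · obtain ⟨y, h3, h4⟩ := (h2 _).1 hz
    rw [inj_eq b h4 (zero_mem ρ')] at h3
    exact inj_eq a h3 (zero_mem ρ)
  · obtain ⟨y, h3, h4⟩ := mem_pre.1 hx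
    obtain ⟨z, h5, h6⟩ := mem_pre.1 h3
    exact mem_pre.2 ⟨z, h5, (h2 _).2 ⟨y, h4, h6⟩⟩
  · obtain ⟨y, h3, h4⟩ := mem_im.1 hx
    obtain ⟨z, h5, h6⟩ := mem_im.1 h3
    exact mem_im.2 ⟨z, h5, (h2 _).2 ⟨y, h6, h4⟩⟩

theorem Rel.trans (h : Rel S c U V) (h' : Rel S c V Z) : Rel S c U Z := by
  obtain ⟨ρ, h1, h2, h3, h4, h5⟩ := h
  obtain ⟨ρ', h1', h2', h3', h4', h5'⟩ := h'
  obtain ⟨ρ'', a1, -, a2, a3, a4, a5⟩ := exists_comp (S := S) (c := c) ρ ρ'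
  refine ⟨ρ'', a1, a2 h2 h2', a3 h3 h3', fun n => ?_, fun n => ?_⟩
  · obtain ⟨l, hl⟩ := (h4' n).exists
    exact (h4 l).mono fun m hm => (hm.trans (pre_mono hl)).trans (a4 _)
  · obtain ⟨l, hl⟩ := (h5 n).exists
    exact (h5' l).mono fun m hm => (hm.trans (im_mono hl)).trans (a5 _)

theorem Rel.not_noMap (h : Rel S c V Z) (hV : ∀ n, V n ≠ ⊥) : ¬ NoMap S c V Z := by
  obtain ⟨ρ, h1, h2, h3, h4, -⟩ := h
  intro h
  obtain ⟨m, hm⟩ := (h ρ h1 h2 h4).exists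
  exact hV m (le_bot_iff.1 (h3 ▸ hm))

theorem NoMap.rel (h : NoMap S c Y Z) (h' : Rel S c V Z) : NoMap S c Y V := by
  obtain ⟨ρ', h1', h2', h3', h4', -⟩ := h'
  intro ρ h1 h2 h4
  obtain ⟨ρ'', a1, a0, a2, -, a4, -⟩ := exists_comp (S := S) (c := c) ρ ρ'
  refine (h ρ'' a1 (a2 h2 h2') fun n => ?_).mono fun m hm x hx => ?_
  · obtain ⟨l, hl⟩ := (h4' n).exists
    exact (h4 l).mono fun m hm => (hm.trans (pre_mono hl)).trans (a4 _)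
  · obtain ⟨y, h5, h6⟩ := (a0 _ _).1 (hm hx)
    rwa [inj_eq h3' h6 (zero_mem ρ')] at h5

theorem K.rel (hU : K S c U) (hV : K S c V) (h : ¬ NoMap S c U V) : Rel S c U V := by
  have := hU.ch.df
  unfold NoMap at h
  push Not at h
  obtain ⟨ρ, h1, h2, h3, h4⟩ := h
  obtain ⟨l, hl⟩ := ((hU.dich (o0 ρ)).resolve_left (not_eventually.2 h4)).exists
  have key : ∀ n A, ∀ m, U m ≤ U l → U m ≤ U n → U m ≤ pre ρ A →
      ∀ x ∈ U m, ∃ y ∈ A, (x, y) ∈ ρ ⊓ (U l).prod ⊤ ∧ y ∈ im (ρ ⊓ (U l).prod ⊤) (U n) := by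
    intro n A m a1 a2 a3 x hx
    obtain ⟨y, h5, h6⟩ := mem_pre.1 (a3 hx)
    exact ⟨y, h5, ⟨h6, a1 hx, trivial⟩, mem_im.2 ⟨x, a2 hx, h6, a1 hx, trivial⟩⟩
  refine ⟨ρ ⊓ (U l).prod ⊤, inferInstance, (Submodule.eq_bot_iff _).2 fun y hy => fn_eq h2 hy.1 (zero_mem ρ),
    (Submodule.eq_bot_iff _).2 fun x hx => hl x hx.2.1 hx.1, fun n => ?_, fun n => ?_⟩
  · filter_upwards [h3 n, ev_le hU.ch.anti l] with m h5 h6 x hx
    obtain ⟨y, h7, h8, -⟩ := key m _ m h6 le_rfl h5 x hx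
    exact mem_pre.2 ⟨y, h7, h8⟩
  · refine (hV.dich _).resolve_right fun h5 => ?_
    obtain ⟨j, hj⟩ := h5.exists
    refine not_eventually.2 h4 ?_
    filter_upwards [h3 j, ev_le hU.ch.anti l, ev_le hU.ch.anti n] with m h5 h6 h7 x hx
    obtain ⟨y, h8, h9, h10⟩ := key n _ m h6 h7 h5 x hx
    rw [hj y h8 h10] at h9
    exact h9.1

theorem K.noMap_symm (hU : K S c U) (hV : K S c V) (h : NoMap S c U V) : NoMap S c V U := by
  by_contra h'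
  exact (hV.rel hU h').symm.not_noMap hU.ne h

end Pool.Agent.Lib.MP_1684af_al
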