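import Mathlib
import Pool.Agent.Lib.MP_1684af_al.Germ

/-!
Germs simple as bimodules, germs with a chain of simple sections.
-/

namespace Pool.Agent.Lib.MP_1684af_al

open Submodule Filter Polynomial

variable {σ k : Type} [Field k] {S : Str σ k} {c : Set σ}
variable {U V : ℕ → Submodule k S.E}

theorem K.of_dich (hV : Ch S c V) (st : ∀ n, ¬ V n ≤ V (n + 1))
    (h1 : ∀ H : Submodule k S.E, Df S c H →
      (∀ᶠ n in atTop, V n ≤ H) ∨ ∀ᶠ n in atTop, ∀ x ∈ V n, x ∈ H → x = 0)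
    (h2 : ∀ ρ : Submodule k (S.E × S.E), Df S c ρ → z0 ρ = ⊥ →
      (∀ n, ∀ᶠ m in atTop, V m ≤ pre ρ (V n)) →
        ∃ a : k, ∀ᶠ m in atTop, ∀ x ∈ V m, (x, a • x) ∈ ρ) : K S c V := by
  classical
  have := hV.df
  refine ⟨hV, st, fun ι _ => ?_⟩
  refine Fintype.induction_empty_option (P := fun ι _ => ∀ H : Submodule k (ι → S.E), Df S c H →
    ∃ Φ : Finset (ι → k), ∀ᶠ n in atTop, ∀ v ∈ bx ι (V n), v ∈ H ↔ ∀ a ∈ Φ, dt a v = 0)
    (fun α β _ e ih => ?_) ?_ (fun α _ ih => ?_) ι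
  · intro H _
    let _ := Fintype.ofEquiv β e.symm
    obtain ⟨H', a1, a2⟩ := Dp.sub (S := S) (c := c) (p := fun v : α → S.E =>
      (fun b => v (e.symm b)) ∈ H) (by fun_prop)
    obtain ⟨Φ, hΦ⟩ := ih H' a1
    refine ⟨Φ.image fun a b => a (e.symm b), hΦ.mono fun n hn v hv => ?_⟩
    have a3 := hn (fun i => v (e i)) (mem_bx.2 fun i => mem_bx.1 hv _)
    rw [a2] at a3
    simp only [Equiv.apply_symm_apply] at a3
    rw [a3, Finset.forall_mem_image]
    refine forall₂_congr fun a _ => ?_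
    rw [← dt_equiv e]
    simp
  · refine fun H _ => ⟨∅, Eventually.of_forall fun n v _ => ?_⟩
    rw [Subsingleton.elim v 0]
    simp
  · intro H _
    have dto : ∀ (a : Option α → k) (v : Option α → S.E),
        dt a v = a none • v none + dt (fun i => a (some i)) fun i => v (some i) := by
      intro a v
      simp [dt]
    obtain ⟨θ, a1, a2⟩ := Dp.sub (S := S) (c := c) (p := fun z : S.E × (α → S.E) =>
      (fun o : Option α => o.elim z.1 z.2) ∈ H) (Dp.mem (DM.pi (by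
        rintro (_ | i) <;> simp only [Option.elim] <;> fun_prop)))
    have a3 : ∀ v : Option α → S.E, v ∈ H ↔ (v none, fun i => v (some i)) ∈ θ := by
      intro v
      rw [a2]
      exact iff_of_eq (congrArg (· ∈ H) (by ext (_ | i) <;> rfl))
    obtain ⟨Φ, hΦ⟩ := ih (z0 θ) inferInstance
    by_cases h : ∀ n, ∀ᶠ m in atTop, V m ≤ pre θ (bx α (V n))
    · obtain ⟨j, hj⟩ := hΦ.exists
      have key : ∀ a ∈ Φ, ∃ b : k, ∀ᶠ m in atTop, ∀ x ∈ V m, ∀ v ∈ bx α (V j), (x, v) ∈ θ →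
          dt a v = b • x := by
        intro a ha
        obtain ⟨ρ, b1, b2⟩ := Dp.sub (S := S) (c := c) (p := fun z : S.E × S.E =>
          ∃ v ∈ bx α (V j), (z.1, v) ∈ θ ∧ dt a v = z.2) (by fun_prop)
        have b3 : z0 ρ = ⊥ := by
          refine (Submodule.eq_bot_iff _).2 fun w hw => ?_
          obtain ⟨v, h4, h5, h6⟩ := (b2 _).1 hw
          exact h6.symm.trans ((hj v h4).1 h5 a ha)
        obtain ⟨b, hb⟩ := h2 ρ b1 b3 fun n => (h (max n j)).mono fun m hm y hy => by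
          obtain ⟨v, h4, h5⟩ := mem_pre.1 (hm hy)
          exact mem_pre.2 ⟨_, dt_mem a (mem_bx.1 (bx_mono (hV.anti (le_max_left _ _)) h4)),
            (b2 _).2 ⟨v, bx_mono (hV.anti (le_max_right _ _)) h4, h5, rfl⟩⟩
        exact ⟨b, hb.mono fun m hm x hx v hv h4 =>
          fn_eq b3 ((b2 (x, _)).2 ⟨v, hv, h4, rfl⟩) (hm x hx)⟩
      choose! b hb using key
      refine ⟨Φ.image fun a o => o.elim (-b a) a, ?_⟩
      filter_upwards [(eventually_all_finset Φ).2 hb, h j, ev_le hV.anti j] with m b1 b2 b3 v hv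
      have b4 : (fun i => v (some i)) ∈ bx α (V j) := mem_bx.2 fun i => b3 (mem_bx.1 hv _)
      simp only [a3, Finset.forall_mem_image, dto, Option.elim, neg_smul, neg_add_eq_zero]
      refine ⟨fun b5 a ha => (b1 a ha _ (mem_bx.1 hv _) _ b4 b5).symm, fun b5 => ?_⟩
      obtain ⟨w, b6, b7⟩ := mem_pre.1 (b2 (mem_bx.1 hv none))
      have := add_pair b7 ((hj _ (sub_mem b4 b6)).2 fun a ha => by
        rw [dt_sub, ← b5 ha, b1 a ha _ (mem_bx.1 hv _) _ b6 b7, sub_self])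
      simpa using this
    · push Not at h
      obtain ⟨j, hj⟩ := h
      refine ⟨insert (fun o => o.elim 1 0) (Φ.image fun a o => o.elim 0 a), ?_⟩
      filter_upwards [(h1 _ inferInstance).resolve_left (not_eventually.2 hj), hΦ,
        ev_le hV.anti j] with m b1 b2 b3 v hv
      have b4 : (fun i => v (some i)) ∈ bx α (V m) := mem_bx.2 fun i => mem_bx.1 hv _
      have b5 : (dt (fun _ : α => (0 : k)) fun i => v (some i)) = 0 := dt_zero_left _
      simp only [a3, Finset.forall_mem_insert, Finset.forall_mem_image, dto, Option.elim,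
        Pi.zero_apply, b5, one_smul, zero_smul, zero_add, add_zero]
      constructor
      · intro b6
        have b7 := b1 _ (mem_bx.1 hv none) (mem_pre.2 ⟨_, bx_mono b3 b4, b6⟩)
        rw [b7] at b6
        exact ⟨b7, (b2 _ b4).1 b6⟩
      · rintro ⟨b6, b7⟩
        rw [b6]
        exact (b2 _ b4).2 b7

variable (S) in
/-- Germs that are simple as bimodules for the endomorphism `r` without eigenvalues. -/
structure BS (c : Set σ) (U : ℕ → Submodule k S.E) (r : Module.End k S.E) : Prop where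
  ch : Ch S c U
  dl : DL S c r
  ne : ∀ n, U n ≠ ⊥
  endo : ∀ n, ∀ᶠ m in atTop, ∀ x ∈ U m, r x ∈ U n
  inj : ∀ a : k, ∀ᶠ m in atTop, ∀ x ∈ U m, r x = a • x → x = 0
  dich : ∀ H : Submodule k S.E, Df S c H → (∀ᶠ n in atTop, U n ≤ H) ∨
    ∃ m : ℕ, ∀ᶠ n in atTop, ∀ x ∈ U n, (∀ a ≤ m, (r ^ a) x ∈ H) → x = 0

variable {r : Module.End k S.E}

theorem BS.down (h : BS S c U r) {c' : Set σ} (hc : c' ⊆ c) (h1 : Ch S c' U) (h2 : DL S c' r) :
    BS S c' U r := ⟨h1, h2, h.ne, h.endo, h.inj, fun H hH => h.dich H (hH.mono hc)⟩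

theorem BS.pow (h : BS S c U r) (a n : ℕ) : ∀ᶠ m in atTop, ∀ x ∈ U m, (r ^ a) x ∈ U n := by
  induction a generalizing n with
  | zero => exact (ev_le h.ch.anti n).mono fun m hm x hx => hm hx
  | succ a ih =>
    obtain ⟨l, hl⟩ := (h.endo n).exists
    exact (ih l).mono fun m hm x hx => by
      rw [pow_succ']
      exact hl _ (hm x hx)

theorem BS.aeval (h : BS S c U r) (p : k[X]) (n : ℕ) :
    ∀ᶠ m in atTop, ∀ x ∈ U m, aeval r p x ∈ U n := by
  induction p using Polynomial.induction_on' with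
  | add p q h1 h2 =>
    filter_upwards [h1, h2] with m a b x hx
    rw [map_add]
    exact add_mem (a x hx) (b x hx)
  | monomial a b =>
    filter_upwards [h.pow a n] with m hm x hx
    rw [aeval_monomial]
    exact smul_mem _ b (hm x hx)

theorem BS.aeval_inj [IsAlgClosed k] (h : BS S c U r) {p : k[X]} (hp : p ≠ 0) :
    ∀ᶠ m in atTop, ∀ x ∈ U m, Polynomial.aeval r p x = 0 → x = 0 := by
  have := IsAlgClosed.splits p
  induction this using Submonoid.closure_induction with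
  | mem p h1 =>
    rcases h1 with ⟨a, rfl⟩ | ⟨a, rfl⟩
    · refine Eventually.of_forall fun m x _ h2 => ?_
      have : a ≠ 0 := fun e => hp (by simp [e])
      simpa [this] using h2
    · refine (h.inj (-a)).mono fun m hm x hx h2 => hm x hx ?_
      simpa [add_eq_zero_iff_eq_neg] using h2
  | one => exact Eventually.of_forall fun m x _ h2 => by simpa using h2
  | mul p q _ _ h1 h2 =>
    obtain ⟨l, hl⟩ := (h1 (left_ne_zero_of_mul hp)).exists
    filter_upwards [h2 (right_ne_zero_of_mul hp), h.aeval q l] with m a b x hx e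
    rw [map_mul] at e
    exact a x hx (hl _ (b x hx) e)

/-- The polynomial with given coefficients. -/
theorem exists_poly {N : ℕ} (a : Fin N → k) (ha : a ≠ 0) : ∃ p : k[X], p ≠ 0 ∧
    ∀ (r : Module.End k S.E) x, Polynomial.aeval r p x = dt a fun i : Fin N => (r ^ (i : ℕ)) x := by
  refine ⟨∑ i : Fin N, monomial i (a i), fun h => ha (funext fun i => ?_), fun r x => ?_⟩
  · have := congrArg (fun p => coeff p i) h
    simpa [coeff_monomial, Fin.val_inj] using this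
  · simp [dt, aeval_monomial]

theorem aeval_pow_comm (r : Module.End k S.E) (p : k[X]) (i : ℕ) (x : S.E) :
    Polynomial.aeval r p ((r ^ i) x) = (r ^ i) (Polynomial.aeval r p x) := by
  have : Polynomial.aeval r p * r ^ i = r ^ i * Polynomial.aeval r p := by
    rw [← aeval_X_pow (R := k), ← map_mul, ← map_mul, mul_comm]
  exact LinearMap.congr_fun this x

theorem BS.noMap [IsAlgClosed k] (h : BS S c U r) (hV : K S c V) : NoMap S c U V := by
  intro ρ _ h1 h2
  have := h.ch.df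
  have := h.dl
  refine (h.dich _ inferInstance).resolve_right ?_
  rintro ⟨m, hm⟩
  obtain ⟨n, hn⟩ := hm.exists
  obtain ⟨H, a1, a2⟩ := Dp.sub (S := S) (c := c) (p := fun w : Fin (m + 2) → S.E =>
    ∃ x ∈ U n, ∀ i : Fin (m + 2), ((r ^ (i : ℕ)) x, w i) ∈ ρ)
    (Dp.ex (Dp.and (by fun_prop) (Dp.all fun i => by fun_prop)))
  obtain ⟨Φ, hΦ⟩ := hV.rat _ H a1
  obtain ⟨j, hj⟩ := hΦ.exists
  have : ∃ a ∈ Φ, a ≠ 0 := by
    by_contra hc
    push Not at hc
    obtain ⟨y, hy, hy0⟩ := (Submodule.ne_bot_iff _).1 (hV.ne j)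
    obtain ⟨x, a3, a4⟩ := (a2 _).1 ((hj _ (tn_mem_bx (Pi.single (Fin.last _) 1) hy)).2
      fun a ha => by simp [hc a ha])
    have a5 := hn x a3 fun a ha => by
      have := a4 ⟨a, by omega⟩
      rwa [tn, Pi.single_eq_of_ne (by simp [Fin.ext_iff]; omega), zero_smul] at this
    have a6 := a4 (Fin.last _)
    rw [a5, map_zero] at a6
    exact hy0 (by simpa [tn] using fn_eq h1 a6 (zero_mem ρ))
  obtain ⟨a, ha, ha0⟩ := this
  obtain ⟨p, hp, e⟩ := exists_poly (S := S) a ha0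
  obtain ⟨l, hl⟩ := (h2 j).exists
  have b1 : ∀ᶠ l' in atTop, ∀ x ∈ U l', (Polynomial.aeval r p x, 0) ∈ ρ := by
    filter_upwards [eventually_all.2 fun i : Fin (m + 2) => h.pow i l, ev_le h.ch.anti n]
      with l' b1 b2 x hx
    choose w b3 b4 using fun i => mem_pre.1 (hl (b1 i x hx))
    have b5 := (hj w (mem_bx.2 b3)).1 ((a2 w).2 ⟨x, b2 hx, b4⟩) a ha
    have b6 := dt_mem a b4
    rwa [show (dt a fun i : Fin (m + 2) => ((r ^ (i : ℕ)) x, w i)) =
      (Polynomial.aeval r p x, dt a w) by simp [e, dt, Prod.ext_iff, Prod.fst_sum, Prod.snd_sum],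
      b5] at b6
  obtain ⟨l', hl'⟩ := b1.exists
  obtain ⟨l'', b2, b3, b4⟩ := (((eventually_all_finset (Finset.range (m + 1))).2 fun i _ =>
    h.pow i l').and ((h.aeval p n).and (h.aeval_inj hp))).exists
  refine h.ne l'' ((Submodule.eq_bot_iff _).2 fun x hx => b4 x hx (hn _ (b3 x hx) fun i hi => ?_))
  have := hl' _ (b2 i (Finset.mem_range.2 (by omega)) x hx)
  rwa [aeval_pow_comm] at this

/-- Containment near `U`. -/
def Sb (U : ℕ → Submodule k S.E) (A B : Submodule k S.E) : Prop :=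
  ∀ᶠ n in atTop, ∀ x ∈ U n, x ∈ B → x ∈ A

theorem Sb.trans {A B C : Submodule k S.E} (h : Sb U A B) (h' : Sb U B C) : Sb U A C :=
  (h.and h').mono fun _ a x hx hC => a.1 x hx (a.2 x hx hC)

theorem Sb.of_le {A B : Submodule k S.E} (h : B ≤ A) : Sb U A B :=
  Eventually.of_forall fun _ _ _ hx => h hx

/-- Strict containment near `U`. -/
def Lt (U : ℕ → Submodule k S.E) (A B : Submodule k S.E) : Prop := Sb U A B ∧ ¬ Sb U B A

open LinearMap in
variable (S) in
/-- Germs with a chain of simple sections in which every definable subspace has a top. -/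
structure TV (c : Set σ) (U : ℕ → Submodule k S.E) {Λ : Type} (τ : Λ → Module.End k S.E)
    (V : Λ → ℕ → Submodule k S.E) : Prop where
  ch : Ch S c U
  dl : ∀ t, DL S c (τ t)
  tot : ∀ s t, Sb U (ker (τ s)) (ker (τ t)) ∨ Sb U (ker (τ t)) (ker (τ s))
  simple : ∀ s t, Lt U (ker (τ s)) (ker (τ t)) → K S c (V t)
  cof : ∀ s t, Lt U (ker (τ s)) (ker (τ t)) → ∀ j, ∃ s', Lt U (ker (τ s')) (ker (τ t)) ∧
    Sb U ((V t j).comap (τ t)) (ker (τ s'))
  top : ∀ H : Submodule k S.E, Df S c H → (∀ᶠ n in atTop, U n ≤ H) ∨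
    ∃ s t, Lt U (ker (τ s)) (ker (τ t)) ∧ Sb U H (ker (τ t)) ∧ Sb U (ker (τ t)) (H ⊓ ker (τ s))

variable {Λ : Type} {τ : Λ → Module.End k S.E} {W : Λ → ℕ → Submodule k S.E}

open LinearMap

theorem TV.down (h : TV S c U τ W) {c' : Set σ} (hc : c' ⊆ c) (h1 : Ch S c' U)
    (h2 : ∀ t, DL S c' (τ t)) (h3 : ∀ t, Ch S c' (W t)) : TV S c' U τ W :=
  ⟨h1, h2, h.tot, fun s t a => (h.simple s t a).down hc (h3 t), h.cof, fun H hH => h.top H (hH.mono hc)⟩

theorem TV.cof' (h : TV S c U τ W) {s t : Λ} (h1 : Lt U (ker (τ s)) (ker (τ t))) (j : ℕ) :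
    ∃ s', Lt U (ker (τ s')) (ker (τ t)) ∧ Sb U ((W t j).comap (τ t) ⊓ ker (τ s)) (ker (τ s')) := by
  obtain ⟨s', h2, h3⟩ := h.cof s t h1 j
  rcases h.tot s s' with h4 | h4
  · exact ⟨s', h2, (h3.and h4).mono fun n a x hx b => ⟨a.1 x hx b, a.2 x hx b⟩⟩
  · exact ⟨s, h1, (h3.trans h4).mono fun n a x hx b => ⟨a x hx b, b⟩⟩

theorem TV.noMap (h : TV S c U τ W)
    (h' : ∀ s t, Lt U (ker (τ s)) (ker (τ t)) → NoMap S c U (W t)) (hV : K S c V) :
    NoMap S c U V := by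
  intro ρ _ _ h2
  have := h.ch.df
  have := h.dl
  refine (h.top _ inferInstance).elim id ?_
  rintro ⟨s, t, a1, a2, a3⟩
  obtain ⟨n, a4, a5⟩ := (a2.and a3).exists
  obtain ⟨ρ', b1, b2⟩ := Dp.sub (S := S) (c := c) (p := fun z : S.E × S.E =>
    ∃ x ∈ U n, τ s x = 0 ∧ z.1 - x ∈ o0 ρ ∧ τ t x = z.2) (by fun_prop (disch := rfl))
  refine (h' s t a1 ρ' b1 ((Submodule.eq_bot_iff _).2 fun w hw => ?_) fun j => ?_).mono
    fun m hm x hx => ?_
  · obtain ⟨x, b3, b4, b5, b6⟩ := (b2 _).1 hw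
    exact b6.symm.trans (a5 x b3 ⟨by simpa using b5, b4⟩)
  · obtain ⟨s', b3, b4⟩ := h.cof' a1 j
    obtain ⟨n', b5, b6⟩ := (b4.and (ev_le h.ch.anti n)).exists
    rcases hV.dich (im ρ (U n' ⊓ ker (τ s'))) with b7 | b7
    · obtain ⟨l, hl⟩ := b7.exists
      refine (h2 l).mono fun m hm x hx => ?_
      obtain ⟨y, b8, b9⟩ := mem_pre.1 (hm hx)
      obtain ⟨x', b10, b11⟩ := mem_im.1 (hl b8)
      exact mem_pre.2 ⟨_, (b5 x' b10.1 b10.2).1, (b2 _).2 ⟨x', b6 b10.1, (b5 x' b10.1 b10.2).2,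
        by simpa [mem_o0] using sub_pair b9 b11, rfl⟩⟩
    · obtain ⟨l, hl⟩ := b7.exists
      refine (b3.2 ?_).elim
      filter_upwards [h2 l, ev_le h.ch.anti n'] with m b8 b9 x hx b10
      obtain ⟨y, b11, b12⟩ := mem_pre.1 (b8 hx)
      rw [hl y b11 (mem_im.2 ⟨x, ⟨b9 hx, b10⟩, b12⟩)] at b12
      exact a5 x (b6 (b9 hx)) ⟨b12, (b5 x (b9 hx) b10).2⟩
  · obtain ⟨x', b3, -, b5, b6⟩ := (b2 _).1 (hm hx)
    simpa using add_mem b5 (a4 x' b3 b6)

end Pool.Agent.Lib.MP_1684af_al
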