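import Mathlib
import Pool.Agent.Lib.MP_1684af_al.Germ2

/-!
Genericity in one structure: closure, transposition.
-/

namespace Pool.Agent.Lib.MP_1684af_al

open Submodule Filter

variable {σ k : Type} [Field k] {S : Str σ k} {c : Set σ}

/-- Triples. -/
abbrev Str.L (S : Str σ k) : Type := Fin 3 → S.E

variable (S) in
/-- Definable step data. -/
structure DD (c : Set σ) (d : Dat k S.L) : Prop where
  D : ∀ m, Df S c (d.D m)
  Y : ∀ i, Df S c (d.Y i)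
  anti : Antitone d.D

theorem DD.mono {d : Dat k S.L} (h : DD S c d) {c' : Set σ} (hc : c ⊆ c') : DD S c' d :=
  ⟨fun m => (h.D m).mono hc, fun i => (h.Y i).mono hc, h.anti⟩

theorem DD.ch {d : Dat k S.L} (h : DD S c d) (i : Bool) : Ch S c fun m => d.Y i ⊓ d.D m :=
  ⟨fun m => by have := h.D m; have := h.Y i; infer_instance,
    fun _ _ hab => inf_le_inf_left _ (h.anti hab)⟩

variable (S) in
def G3 (c : Set σ) (d : Dat k S.L) (X : Submodule k S.L) : Prop :=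
  ∀ (ω : Type) [Fintype ω] (K : Submodule k (ω → S.L)), Df S c K → d.Closed K → d.X3 X K

variable (S) in
def G4 (c : Set σ) (d : Dat k S.L) (X : Submodule k S.L) : Prop :=
  ∀ (M : Type) [AddCommGroup M] [Module k M] [Tp S M] (ω : Type) [Fintype ω] (P : Submodule k M)
    (Q : Submodule k (M × (ω → S.L))), Df S c P → Df S c Q → d.Closed (z0 Q) →
      P ≤ pre Q (bx ω X) → P ≤ o0 Q

variable (S) in
def G5 (b c : Set σ) (d : Dat k S.L) (X : Submodule k S.L) : Prop :=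
  ∀ (M : Type) [AddCommGroup M] [Module k M] [Tp S M] (ω ω' : Type) [Fintype ω] [Fintype ω']
    (P : Submodule k (M × (ω → S.L))) (Q : Submodule k (M × (ω' → S.L))), Df S b P → Df S c Q →
      d.Closed (z0 Q) → pre P (bx ω X) ≤ pre Q (bx ω' X) →
      ∃ P' : Submodule k (M × (ω → S.L)), Df S b P' ∧ (∀ z ∈ P, z.2 ∈ bx ω X → z ∈ P') ∧
        ∃ ν : ω' → ω → k, ∀ z ∈ P', (z.1, mx ν z.2) ∈ Q

theorem G3.down {d : Dat k S.L} {X : Submodule k S.L} (h : G3 S c d X) {c' : Set σ}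
    (hc : c' ⊆ c) : G3 S c' d X := fun ω _ K hK => h ω K (hK.mono hc)

theorem G4.down {d : Dat k S.L} {X : Submodule k S.L} (h : G4 S c d X) {c' : Set σ}
    (hc : c' ⊆ c) : G4 S c' d X := fun M _ _ _ ω _ P Q hP hQ =>
  h M ω P Q (hP.mono hc) (hQ.mono hc)

theorem G5.down {b : Set σ} {d : Dat k S.L} {X : Submodule k S.L} (h : G5 S b c d X) {c' : Set σ}
    (hc : c' ⊆ c) : G5 S b c' d X := fun M _ _ _ ω ω' _ _ P Q hP hQ =>
  h M ω ω' P Q hP (hQ.mono hc)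

theorem G5.g4 {d : Dat k S.L} {X : Submodule k S.L} (h : G5 S c c d X) : G4 S c d X := by
  intro M _ _ _ ω _ P Q hP hQ h1 h2 v hv
  obtain ⟨P', -, h3, ν, h4⟩ := h M Empty ω (P.prod ⊤) Q inferInstance hQ h1 fun x hx =>
    h2 (mem_pre.1 hx).choose_spec.2.1
  simpa [mem_o0] using h4 (v, 0) (h3 _ ⟨hv, trivial⟩ (zero_mem _))

variable (S) in
/-- A generic subspace. -/
structure Gn (c : Set σ) (d : Dat k S.L) (X : Submodule k S.L) : Prop where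
  dd : DD S c d
  fn : d.Fn X
  cov : d.Cov X
  g3 : G3 S c d X
  g4 : G4 S c d X

variable {M N : Type} [AddCommGroup M] [Module k M] [Tp S M] [AddCommGroup N] [Module k N] [Tp S N]

theorem exists_closed {d d' : Dat k S.L} (hd : DD S c d) (hd' : DD S c d') {ω ω' : Type}
    [Fintype ω] [Fintype ω'] (j : (ω → S.L) →ₗ[k] N) (j' : (ω' → S.L) →ₗ[k] N) [DL S c j]
    [DL S c j'] (P : Submodule k N → Prop)
    (h : ∀ θ i m μ, P θ → μ ∈ Wsp (θ.comap j) (d.Y i ⊓ d.D m) →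
      P (θ ⊔ ((d.D m).map (tnL μ)).map j))
    (h' : ∀ θ i m μ, P θ → μ ∈ Wsp (θ.comap j') (d'.Y i ⊓ d'.D m) →
      P (θ ⊔ ((d'.D m).map (tnL μ)).map j'))
    {θ₀ : Submodule k N} (h0 : P θ₀) (h1 : Df S c θ₀) :
    ∃ θ, P θ ∧ Df S c θ ∧ d.Closed (θ.comap j) ∧ d'.Closed (θ.comap j') := by
  have := hd.D
  have := hd'.D
  obtain ⟨θ, ⟨a1, a2⟩, a3⟩ := exists_max_seq (fun θ => P θ ∧ Df S c θ)
    (fun θ m => (Wsp (θ.comap j) (d.D m), Wsp (θ.comap j') (d'.D m)))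
    (fun θ a b hab => Prod.mk_le_mk.2 ⟨Wsp_mono le_rfl (hd.anti hab), Wsp_mono le_rfl (hd'.anti hab)⟩)
    (fun θ θ' h m => Prod.mk_le_mk.2
      ⟨Wsp_mono (comap_mono h) le_rfl, Wsp_mono (comap_mono h) le_rfl⟩) ⟨h0, h1⟩
  refine ⟨θ, a1, a2, fun i m μ hμ => ?_, fun i m μ hμ => ?_⟩
  · have := congrArg Prod.fst (a3 _ ⟨h θ i m μ a1 hμ, inferInstance⟩ le_sup_left m)
    exact this.le fun x hx => mem_sup_right ⟨_, ⟨x, hx, rfl⟩, rfl⟩
  · have := congrArg Prod.snd (a3 _ ⟨h' θ i m μ a1 hμ, inferInstance⟩ le_sup_left m)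
    exact this.le fun x hx => mem_sup_right ⟨_, ⟨x, hx, rfl⟩, rfl⟩

omit [Tp S M] in
theorem pre_add {d : Dat k S.L} {X : Submodule k S.L} (hc : d.Cov X) {ω : Type}
    {θ : Submodule k (M × (ω → S.L))} {i : Bool} {m : ℕ} {μ : ω → k}
    (h : μ ∈ Wsp (z0 θ) (d.Y i ⊓ d.D m)) :
    pre (θ ⊔ ((d.D m).map (tnL μ)).map (LinearMap.inr k M _)) (bx ω X) = pre θ (bx ω X) := by
  refine le_antisymm (fun v hv => ?_) fun v hv => ?_
  · obtain ⟨π, h1, h2⟩ := mem_pre.1 hv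
    obtain ⟨z, h3, _, ⟨_, ⟨δ, h4, rfl⟩, rfl⟩, e⟩ := mem_sup.1 h2
    obtain ⟨y, h5, h6⟩ := hc i m δ h4
    refine mem_pre.2 ⟨_, sub_mem h1 (tn_mem_bx μ h6), ?_⟩
    convert add_mem h3 (mem_z0.1 (h y h5)) using 1
    rw [eq_sub_of_add_eq e]
    ext <;> simp [tn, smul_sub, sub_add]
  · obtain ⟨π, h1, h2⟩ := mem_pre.1 hv
    exact mem_pre.2 ⟨π, h1, mem_sup_left h2⟩

theorem Df.nfc {η : σ} {d : Dat k S.L} (hd : DD S c d) (hc : d.Cov (S.X η)) {H : Submodule k M}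
    (h : Df S (insert η c) H) : ∃ (ω : Type) (_ : Fintype ω) (θ : Submodule k (M × (ω → S.L))),
      Df S c θ ∧ d.Closed (z0 θ) ∧ H = pre θ (bx ω (S.X η)) := by
  obtain ⟨ω, _, θ, h1, h2⟩ := h.nf
  have key : ∀ (θ : Submodule k (M × (ω → S.L))) i m μ, H = pre θ (bx ω (S.X η)) →
      μ ∈ Wsp (θ.comap (LinearMap.inr k M _)) (d.Y i ⊓ d.D m) →
      H = pre (θ ⊔ ((d.D m).map (tnL μ)).map (LinearMap.inr k M _)) (bx ω (S.X η)) :=
    fun θ i m μ a b => a.trans (pre_add hc b).symm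
  obtain ⟨θ', h3, h4, h5, -⟩ := exists_closed hd hd _ _ (fun θ => H = pre θ (bx ω (S.X η)))
    key key h2 h1
  exact ⟨ω, inferInstance, θ', h4, h5, h3⟩

theorem closed_of {L : Type} [AddCommGroup L] [Module k L] {d : Dat k L} {ω : Type}
    {K C : Submodule k (ω → L)} (hC : d.Closed C) (h : C ≤ K) {N : ℕ → Prop}
    (h1 : ∀ i m, N m → Wsp K (d.Y i ⊓ d.D m) ≤ Wsp C (d.Y i ⊓ d.D m))
    (h2 : ∀ m, ¬ N m → ∀ μ, μ ∈ Wsp K (d.D m)) :
    d.Closed K ∧ ∀ m, N m → Wsp K (d.D m) ≤ Wsp C (d.D m) := by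
  refine ⟨fun i m => ?_, fun m hm =>
    (Wsp_mono le_rfl inf_le_right).trans ((h1 true m hm).trans (hC _ _))⟩
  by_cases hm : N m
  · exact ((h1 i m hm).trans (hC i m)).trans (Wsp_mono h le_rfl)
  · exact fun μ _ => h2 m hm μ

section trans

variable {η ξ : σ} {d d' : Dat k S.L}

theorem joint (h : Gn S c d (S.X η)) (hd' : DD S c d') (hc : d'.Cov (S.X ξ)) {ω : Type}
    [Fintype ω] (j : (ω → S.L) →ₗ[k] N) [DL S c j] {Q : Submodule k N}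
    (hQ : Df S (insert ξ c) Q) (h1 : d.Closed (Q.comap j)) :
    ∃ (ω' : Type) (_ : Fintype ω') (θ : Submodule k (N × (ω' → S.L))), Df S c θ ∧
      Q = pre θ (bx ω' (S.X ξ)) ∧ d.Closed ((o0 θ).comap j) ∧
      d'.Closed (im θ ((bx ω (S.X η)).map j)) ∧
      ∀ m, Wsp (im θ ((bx ω (S.X η)).map j)) (d'.D m) ≤ Wsp (z0 θ) (d'.D m) := by
  obtain ⟨ω', _, θ₀, h2, h3⟩ := hQ.nf
  obtain ⟨θ, h4, h5, h6, h7⟩ := exists_closed hd' h.dd (LinearMap.inr k N (ω' → S.L))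
    ((LinearMap.inl k N (ω' → S.L)).comp j) (fun θ => Q = pre θ (bx ω' (S.X ξ)))
    (fun θ i m μ a b => a.trans (pre_add hc b).symm) (fun θ i m μ a b => by
      refine le_antisymm (fun v hv => ?_) fun v hv => ?_
      · obtain ⟨π, h4, h5⟩ := mem_pre.1 (a.le hv)
        exact mem_pre.2 ⟨π, h4, mem_sup_left h5⟩
      · obtain ⟨π, h4, h5⟩ := mem_pre.1 hv
        obtain ⟨z, h6, _, ⟨_, ⟨δ, h7, rfl⟩, rfl⟩, e⟩ := mem_sup.1 h5
        have h8 : j (tn μ δ) ∈ Q := h1 i m (fun y hy => a.ge (mem_pre.2 ⟨0, zero_mem _, b y hy⟩))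
          δ h7
        have h9 : z.1 ∈ Q := a.ge (mem_pre.2 ⟨π, h4, by
          convert h6 using 1
          rw [eq_sub_of_add_eq e]
          simp⟩)
        have h10 : z.1 + j (tn μ δ) = v := congrArg Prod.fst e
        exact h10 ▸ add_mem h9 h8) h3 h2
  have key : ∀ P : Submodule k S.L, Df S c P →
      Wsp (im θ ((bx ω (S.X η)).map j)) P ≤ Wsp (z0 θ) P := by
    intro P hP μ hμ
    obtain ⟨Q', a1, a2⟩ := Dp.sub (S := S) (c := c) (p := fun z : S.L × (ω → S.L) =>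
      (j z.2, tn μ z.1) ∈ θ) (by fun_prop)
    have a3 : z0 Q' = θ.comap ((LinearMap.inl k N (ω' → S.L)).comp j) := by
      ext x
      simp [mem_z0, a2]
    intro y hy
    have := h.g4 _ ω P Q' hP a1 (a3 ▸ h7) (fun y hy => by
      obtain ⟨_, ⟨x, a4, rfl⟩, a5⟩ := mem_im.1 (hμ y hy)
      exact mem_pre.2 ⟨x, a4, (a2 _).2 a5⟩) hy
    simpa [mem_z0] using (a2 _).1 this
  obtain ⟨a1, a2⟩ := closed_of (N := fun _ => True) h6 z0_le_im
    (fun i m _ => key _ ((hd'.ch i).df m)) fun _ h => (h trivial).elim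
  exact ⟨ω', inferInstance, θ, h5, h4, h7, a1, fun m => a2 m trivial⟩

theorem Gn.trans (h : Gn S c d (S.X η)) (hd' : DD S c d') (hc : d'.Cov (S.X ξ))
    (h3 : G3 S (insert η c) d' (S.X ξ)) (h5 : G5 S c (insert η c) d' (S.X ξ)) :
    Gn S (insert ξ c) d (S.X η) := by
  have := Df.gen (S := S) (Set.mem_insert η c)
  refine ⟨h.dd.mono (Set.subset_insert _ _), h.fn, h.cov, fun ω _ K hK h1 x hx hX a => ?_,
    fun M _ _ _ ω _ P Q hP hQ h1 h2 => ?_⟩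
  · obtain ⟨ω', _, θ, a1, rfl, a3, a4, a5⟩ := joint h hd' hc LinearMap.id hK h1
    obtain ⟨π, a6, a7⟩ := mem_pre.1 hx
    have a8 := ((h3 ω' _ inferInstance a4).decomp hd'.anti
      (mem_im.2 ⟨x, ⟨x, mem_bx.2 hX, rfl⟩, a7⟩) (mem_bx.1 a6)).2 a5
    have a9 := h.g3 ω _ inferInstance a3 x (by simpa [mem_o0] using sub_pair a7 a8) hX a
    have a10 : ∀ m, Perp a (Wsp (pre θ (bx ω' (S.X ξ))) (d.D m)) →
        Perp a (Wsp ((o0 θ).comap LinearMap.id) (d.D m)) := fun m hm μ hμ =>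
      hm μ fun y hy => mem_pre.2 ⟨0, zero_mem _, hμ y hy⟩
    exact ⟨fun m hm => a9.1 m fun m' h' => a10 _ (hm m' h'), fun hm => a9.2 fun m => a10 _ (hm m)⟩
  · obtain ⟨ω', _, θ, a1, rfl, a3, a4, -⟩ := joint h hd' hc (LinearMap.inr k M _) hQ h1
    obtain ⟨ω₁, _, P₁, b1, rfl⟩ := hP.nf
    obtain ⟨Q', b2, b3⟩ := Dp.sub (S := S) (c := insert η c) (p := fun z : M × (ω' → S.L) =>
      ∃ x ∈ bx ω (S.X η), ((z.1, x), z.2) ∈ θ) (by fun_prop)
    have b4 : z0 Q' = im θ ((bx ω (S.X η)).map (LinearMap.inr k M _)) := by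
      ext π
      simp [mem_z0, b3, mem_im]
    obtain ⟨P', b5, b6, ν, b7⟩ := h5 M ω₁ ω' P₁ Q' b1 b2 (b4 ▸ a4) fun v hv => by
      obtain ⟨x, b5, b6⟩ := mem_pre.1 (h2 hv)
      obtain ⟨π, b7, b8⟩ := mem_pre.1 b6
      exact mem_pre.2 ⟨π, b7, (b3 _).2 ⟨x, b5, b8⟩⟩
    obtain ⟨Q'', b8, b9⟩ := Dp.sub (S := S) (c := c) (p := fun z : (M × (ω₁ → S.L)) × (ω → S.L) =>
      ((z.1.1, z.2), fun i => dt (ν i) z.1.2) ∈ θ) (by fun_prop)
    have b10 : z0 Q'' = (o0 θ).comap (LinearMap.inr k M _) := by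
      ext π
      simp only [mem_z0, b9, Prod.fst_zero, Prod.snd_zero, dt_zero]
      rfl
    have b11 := h.g4 _ ω P' Q'' b5 b8 (b10 ▸ a3) fun z hz => by
      obtain ⟨x, b11, b12⟩ := (b3 _).1 (b7 z hz)
      exact mem_pre.2 ⟨x, b11, (b9 _).2 b12⟩
    intro v hv
    obtain ⟨π, b12, b13⟩ := mem_pre.1 hv
    exact mem_pre.2 ⟨_, mem_bx.2 fun i => dt_mem (ν i) (mem_bx.1 b12),
      (b9 _).1 (b11 (b6 _ b13 b12))⟩

end trans

end Pool.Agent.Lib.MP_1684af_al
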