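import Mathlib
import Pool.Agent.Lib.MP_1684af_al.Step

/-!
Preservation of the properties of germs when one generic subspace is added.
-/

namespace Pool.Agent.Lib.MP_1684af_al

open Submodule Filter

variable {σ k : Type} [Field k] {S : Str σ k} {c : Set σ}
variable {M : Type} [AddCommGroup M] [Module k M] [Tp S M]
variable {d : Dat k S.L} {X : Submodule k S.L} {U V Z Z' : ℕ → Submodule k S.E} {η : σ}

variable (S) in
/-- Near `V` the new subspace defines nothing new. -/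
def LO (c : Set σ) (d : Dat k S.L) (X : Submodule k S.L) (V : ℕ → Submodule k S.E) : Prop :=
  ∀ (ι ω : Type) [Fintype ι] [Fintype ω] (θ : Submodule k ((ι → S.E) × (ω → S.L))), Df S c θ →
    d.Closed (z0 θ) → ∀ᶠ n in atTop, ∀ v ∈ bx ι (V n), v ∈ pre θ (bx ω X) → v ∈ o0 θ

theorem K.req' (hV : K S c V) (hd : DD S c d)
    (h : ∀ i, NoMap S c (fun m => d.Y i ⊓ d.D m) V) {ι ω : Type} [Fintype ι]
    [Fintype ω] (θ : Submodule k ((ι → S.E) × (ω → S.L))) [Df S c θ] (hθ : d.Closed (z0 θ)) :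
    ∀ᶠ n in atTop, d.Closed (im θ (bx ι (V n))) ∧
      ∀ m, Wsp (im θ (bx ι (V n))) (d.D m) ≤ Wsp (z0 θ) (d.D m) := by
  filter_upwards [eventually_all.2 fun i => hV.req (hd.ch i) (h i) θ] with n hn
  obtain ⟨a1, a2⟩ := closed_of (N := fun _ => True) hθ z0_le_im (fun i m _ => hn i m)
    fun _ h => (h trivial).elim
  exact ⟨a1, fun m => a2 m trivial⟩

theorem Gn.lo_inf (h : Gn S c d X) (hV : K S c V)
    (h' : ∀ i, NoMap S c (fun m => d.Y i ⊓ d.D m) V) : LO S c d X V := by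
  intro ι ω _ _ θ _ hθ
  have := hV.ch.df
  filter_upwards [hV.req' h.dd h' θ hθ] with n hn v hv h1
  obtain ⟨π, h2, h3⟩ := mem_pre.1 h1
  have := ((h.g3 ω _ inferInstance hn.1).decomp h.dd.anti (mem_im.2 ⟨v, hv, h3⟩)
    (mem_bx.1 h2)).2 hn.2
  simpa [mem_o0] using sub_pair h3 this

theorem Gn.noMap_inf (h : Gn S c d (S.X η)) (hV : K S c V)
    (h' : ∀ i, NoMap S c (fun m => d.Y i ⊓ d.D m) V) {Y : ℕ → Submodule k M} (hY : Ch S c Y)
    (h1 : NoMap S c Y V) : NoMap S (insert η c) Y V := by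
  intro ρ hρ _ h2
  have := hV.ch.df
  obtain ⟨ω, _, θ, a1, a2, rfl⟩ := hρ.nfc h.dd h.cov
  obtain ⟨θ', a3, a4⟩ := Dp.sub (S := S) (c := c) (p := fun z : (Unit → S.E) × (ω → S.L) =>
    ((0, z.1 ()), z.2) ∈ θ) (by fun_prop (disch := rfl))
  obtain ⟨Θ, a5, a6⟩ := Dp.sub (S := S) (c := c) (p := fun z : (Unit → S.E) × M =>
    ((z.2, z.1 ()), 0) ∈ θ) (by fun_prop (disch := rfl))
  have a7 : z0 θ' = z0 θ := by
    ext π
    exact a4 _
  refine (hV.nb1 h1 Θ fun n₀ => ?_).mono fun m hm x hx =>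
    mem_pre.2 ⟨0, zero_mem _, (a6 _).1 (hm hx)⟩
  obtain ⟨n, b1, b2⟩ := ((hV.req' h.dd h' θ' (a7 ▸ a2)).and (ev_le hV.ch.anti n₀)).exists
  obtain ⟨Q, b3, b4⟩ := Dp.sub (S := S) (c := c) (p := fun z : M × (ω → S.L) =>
    ∃ w ∈ bx Unit (V n), ((z.1, w ()), z.2) ∈ θ) (by fun_prop)
  have b5 : z0 Q = im θ' (bx Unit (V n)) := by
    ext π
    simp only [mem_z0, b4, mem_im, a4]
  refine (h2 n).mono fun m hm x hx => ?_
  obtain ⟨w, b6, b7⟩ := (b4 _).1 (h.g4 M ω (Y m) Q (hY.df m) b3 (b5 ▸ b1.1) (fun x hx => by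
    obtain ⟨w, b6, b7⟩ := mem_pre.1 (hm hx)
    obtain ⟨π, b8, b9⟩ := mem_pre.1 b7
    exact mem_pre.2 ⟨π, b8, (b4 _).2 ⟨fun _ => w, mem_bx.2 fun _ => b6, b9⟩⟩) hx)
  exact mem_im.2 ⟨w, bx_mono b2 b6, (a6 _).2 b7⟩

variable (S) in
/-- Data linking two germs. -/
structure BD (c : Set σ) (d : Dat k S.L) (β : Bool) (Z Z' : ℕ → Submodule k S.E)
    (j j' : S.E →ₗ[k] S.L) : Prop where
  dl : DL S c j
  dl' : DL S c j'
  D : ∀ n, d.D n = (Z n).map j ⊔ (Z' n).map j'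
  Y : ∀ n, d.Y β ⊓ d.D n = (Z n).map j
  Y' : ∀ n, d.Y (!β) ⊓ d.D n = (Z' n).map j'
  k : K S c Z
  k' : K S c Z'
  nm : NoMap S c Z' Z

variable {β : Bool} {j j' : S.E →ₗ[k] S.L}

theorem BD.dec (h : BD S c d β Z Z' j j') {ω : Type} {n : ℕ} {δ : ω → S.L}
    (hδ : δ ∈ bx ω (d.D n)) : ∃ z ∈ bx ω (Z n), ∃ a ∈ bx ω (Z' n),
      δ = fun i => j (z i) + j' (a i) := by
  have : ∀ i, ∃ z ∈ Z n, ∃ a ∈ Z' n, δ i = j z + j' a := by
    intro i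
    obtain ⟨_, ⟨z, h1, rfl⟩, _, ⟨a, h2, rfl⟩, e⟩ := mem_sup.1 (h.D n ▸ mem_bx.1 hδ i)
    exact ⟨z, h1, a, h2, e.symm⟩
  choose z h1 a h2 h3 using this
  exact ⟨z, mem_bx.2 h1, a, mem_bx.2 h2, funext h3⟩

omit [Tp S M] in
theorem elim_mem_bx {ι κ : Type} {P : Submodule k M} {v : ι → M} {w : κ → M} (h : v ∈ bx ι P)
    (h' : w ∈ bx κ P) : Sum.elim v w ∈ bx (ι ⊕ κ) P := by
  refine mem_bx.2 ?_
  rintro (i | i)
  exacts [mem_bx.1 h i, mem_bx.1 h' i]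

theorem BD.lift (h : BD S c d β Z Z' j j') {ι ω : Type} [Fintype ι] [Fintype ω]
    (θ : Submodule k ((ι → S.E) × (ω → S.L))) [Df S c θ] :
    ∃ H : Submodule k ((ι ⊕ ω → S.E) × (ω → S.E)), Df S c H ∧
      ∀ v z a, (Sum.elim v z, a) ∈ H ↔ (v, fun i => j (z i) + j' (a i)) ∈ θ := by
  have := h.dl
  have := h.dl'
  obtain ⟨H, a1, a2⟩ := Dp.sub (S := S) (c := c) (p := fun z : (ι ⊕ ω → S.E) × (ω → S.E) =>
    (fun i => z.1 (.inl i), fun i => j (z.1 (.inr i)) + j' (z.2 i)) ∈ θ) (by fun_prop)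
  exact ⟨H, a1, fun v z a => a2 _⟩

theorem BD.req (h : BD S c d β Z Z' j j') (hd : DD S c d) {ι ω : Type} [Fintype ι] [Fintype ω]
    (θ : Submodule k ((ι → S.E) × (ω → S.L))) [Df S c θ] (hθ : d.Closed (z0 θ)) :
    ∀ᶠ n in atTop, d.Closed (im θ (bx ι (Z n)) ⊔ bx ω (d.D n)) ∧
      ∀ m < n, Wsp (im θ (bx ι (Z n)) ⊔ bx ω (d.D n)) (d.D m) ≤ Wsp (z0 θ) (d.D m) := by
  have := h.dl
  have := h.dl'
  obtain ⟨H, a1, a2⟩ := h.lift θ
  have dec : ∀ n π, π ∈ im θ (bx ι (Z n)) ⊔ bx ω (d.D n) → ∃ v ∈ bx ι (Z n), ∃ z ∈ bx ω (Z n),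
      ∃ a ∈ bx ω (Z' n), (v, π - fun i => j (z i) + j' (a i)) ∈ θ := by
    intro n π hπ
    obtain ⟨u, h1, δ, h2, rfl⟩ := mem_sup.1 hπ
    obtain ⟨v, h3, h4⟩ := mem_im.1 h1
    obtain ⟨z, h5, a, h6, rfl⟩ := h.dec h2
    exact ⟨v, h3, z, h5, a, h6, by simpa using h4⟩
  have small : ∀ i m, ∀ᶠ n in atTop, Wsp (im θ (bx ι (Z n)) ⊔ bx ω (d.D n)) (d.Y i ⊓ d.D m) ≤
      Wsp (z0 θ) (d.Y i ⊓ d.D m) := by
    intro i m
    have := (hd.ch i).df m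
    refine stab1 (fun a b hab => Wsp_mono (sup_le_sup (im_mono (bx_mono (h.k.ch.anti hab)))
      (bx_mono (hd.anti hab))) le_rfl) fun μ hμ => ?_
    obtain ⟨Θ, b1, b2⟩ := Dp.sub (S := S) (c := c)
      (p := fun z : ((ι ⊕ ω → S.E) × (ω → S.E)) × S.L => (fun i => z.1.1 (.inl i),
        tn μ z.2 - fun i => j (z.1.1 (.inr i)) + j' (z.1.2 i)) ∈ θ) (by fun_prop)
    obtain ⟨_, b3⟩ := (h.k.nb2 h.k' (h.k.noMap_const (d.Y i ⊓ d.D m)) (h.k'.noMap_const _) Θ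
      fun n => Eventually.of_forall fun _ y hy => by
        obtain ⟨v, h1, z, h2, a, h3, h4⟩ := dec n _ (hμ n y hy)
        exact mem_im.2 ⟨(Sum.elim v z, a), ⟨elim_mem_bx h1 h2, h3⟩, (b2 _).2 h4⟩).exists
    intro y hy
    simpa [mem_z0, ← Pi.zero_def] using (b2 _).1 (b3 hy)
  have mid : ∀ᶠ m in atTop, ∀ n > m, ∀ i, Wsp (im θ (bx ι (Z n)) ⊔ bx ω (d.D n))
      (d.Y i ⊓ d.D m) ≤ Wsp (z0 θ) (d.Y i ⊓ d.D m) := by
    filter_upwards [h.k.split h.k' h.nm H, h.k.mid (o0 H), h.k'.mid (z0 H)]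
      with m b1 b2 b3 n hn i μ hμ
    have b4 := h.k.ch.anti hn.le
    have b5 := h.k'.ch.anti hn.le
    by_cases hi : i = β
    · subst hi
      rw [h.Y] at hμ ⊢
      have b6 := b2 n hn (Sum.elim 0 μ) fun y hy => by
        obtain ⟨v, h1, z, h2, a, h3, h4⟩ := dec n _ (hμ _ ⟨y, hy, rfl⟩)
        have h5 : (Sum.elim v (tn μ y - z), -a) ∈ H := (a2 _ _ _).2 (by
          convert h4 using 2
          ext1 i
          simp [tn]
          abel)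
        have h6 := sub_pair h5 (b1 _ (elim_mem_bx (bx_mono b4 h1)
          (sub_mem (tn_mem_bx μ hy) (bx_mono b4 h2))) _ (neg_mem (bx_mono b5 h3)) h5)
        rw [sub_self, sub_zero] at h6
        convert add_mem_sup (mem_o0.2 h6) (elim_mem_bx (neg_mem h1) h2) using 1
        ext (i | i) <;> simp [tn]
      rintro _ ⟨y, hy, rfl⟩
      have b7 : (Sum.elim (0 : ι → S.E) (tn μ y), 0) ∈ H := by
        convert mem_o0.1 (b6 y hy) using 2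
        ext (i | i) <;> simp [tn]
      convert mem_z0.2 ((a2 _ _ _).1 b7) using 1
      ext1 i
      simp [tn]
    · obtain rfl := Bool.eq_not.2 hi
      rw [h.Y'] at hμ ⊢
      have b6 := b3 n hn μ fun y hy => by
        obtain ⟨v, h1, z, h2, a, h3, h4⟩ := dec n _ (hμ _ ⟨y, hy, rfl⟩)
        have h5 : (Sum.elim v (-z), tn μ y - a) ∈ H := (a2 _ _ _).2 (by
          convert h4 using 2
          ext1 i
          simp [tn]
          abel)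
        have h6 := b1 _ (elim_mem_bx (bx_mono b4 h1) (neg_mem (bx_mono b4 h2))) _
          (sub_mem (tn_mem_bx μ hy) (bx_mono b5 h3)) h5
        simpa using add_mem_sup (mem_z0.2 h6) h3
      rintro _ ⟨y, hy, rfl⟩
      have b7 : (Sum.elim (0 : ι → S.E) (0 : ω → S.E), tn μ y) ∈ H := by simpa [mem_z0] using b6 y hy
      convert mem_z0.2 ((a2 _ _ _).1 b7) using 1
      ext1 i
      simp [tn]
  obtain ⟨N, hN⟩ := eventually_atTop.1 mid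
  filter_upwards [(eventually_all_finset (Finset.range N)).2 fun m _ =>
    eventually_all.2 fun i => small i m] with n hn
  refine closed_of (N := fun m => m < n) hθ (le_sup_of_le_left z0_le_im) (fun i m hm => ?_)
    fun m hm μ x hx => mem_sup_right (tn_mem_bx μ (hd.anti (not_lt.1 hm) hx))
  by_cases h1 : m < N
  exacts [hn m (Finset.mem_range.2 h1) i, hN m (not_lt.1 h1) n hm i]

theorem Gn.lo_fin (h : Gn S c d X) (hB : BD S c d β Z Z' j j') : LO S c d X Z := by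
  intro ι ω _ _ θ _ hθ
  have := hB.k.ch.df
  have := h.dd.D
  obtain ⟨H, a1, a2⟩ := hB.lift θ
  obtain ⟨Φ, hΦ⟩ := hB.k'.rat ω (z0 H) inferInstance
  filter_upwards [hB.req h.dd θ hθ, hB.k.split hB.k' hB.nm H, hΦ] with n b1 b2 b3 v hv h1
  obtain ⟨π, h2, h3⟩ := mem_pre.1 h1
  obtain ⟨u, h4, h5⟩ := ((h.g3 ω _ inferInstance b1.1).decomp h.dd.anti
    (mem_sup_left (mem_im.2 ⟨v, hv, h3⟩)) (mem_bx.1 h2)).1 n b1.2
  obtain ⟨z, h6, a, h7, e⟩ := hB.dec (mem_bx.2 fun i => (h5 i).2)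
  have h8 := sub_pair h3 (mem_z0.1 h4)
  rw [sub_zero] at h8
  have h9 := (b3 a h7).1 (b2 _ (elim_mem_bx hv h6) a h7 ((a2 _ _ _).2 (e ▸ h8)))
  have h10 : π - u ∈ z0 θ := by
    refine mem_of_perp (Φ := Φ) (fun i => (h5 i).2) (fun l hl => ?_) fun μ hμ => hθ (!β) n ?_
    · refine h.fn.1 β _ (dt_mem l fun i => (h5 i).1) ?_
      have : dt l (π - u) = j (dt l z) + j' (dt l a) := by
        rw [e]
        simp [dt, Finset.sum_add_distrib]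
      rw [this, h9 l hl, map_zero, add_zero]
      exact ((hB.Y n).ge ⟨_, dt_mem l (mem_bx.1 h6), rfl⟩).1
    · rw [hB.Y']
      rintro _ ⟨y, hy, rfl⟩
      have b7 : (Sum.elim (0 : ι → S.E) (0 : ω → S.E), tn μ y) ∈ H := by
        simpa [mem_z0] using (b3 _ (tn_mem_bx μ hy)).2 fun a ha => by
          rw [dt_tn, hμ a ha, zero_smul]
      convert mem_z0.2 ((a2 _ _ _).1 b7) using 1
      ext1 i
      simp [tn]
  simpa [mem_o0] using sub_pair h8 h10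

theorem Gn.noMap_fin (h : Gn S c d (S.X η)) (hB : BD S c d β Z Z' j j') {Y : ℕ → Submodule k M}
    (hY : Ch S c Y) (h1 : NoMap S c Y Z) (h1' : NoMap S c Y Z') : NoMap S (insert η c) Y Z := by
  intro ρ hρ _ h2
  have := hB.k.ch.df
  have := h.dd.D
  have := hB.dl
  have := hB.dl'
  obtain ⟨ω, _, θ, a1, a2, rfl⟩ := hρ.nfc h.dd h.cov
  obtain ⟨θ', a3, a4⟩ := Dp.sub (S := S) (c := c) (p := fun z : (Unit → S.E) × (ω → S.L) =>
    ((0, z.1 ()), z.2) ∈ θ) (by fun_prop (disch := rfl))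
  obtain ⟨Θ, a5, a6⟩ := Dp.sub (S := S) (c := c)
    (p := fun z : ((Unit ⊕ ω → S.E) × (ω → S.E)) × M => ((z.2, z.1.1 (.inl ())),
      fun i => j (z.1.1 (.inr i)) + j' (z.1.2 i)) ∈ θ) (by fun_prop)
  have a7 : z0 θ' = z0 θ := by
    ext π
    exact a4 _
  refine (hB.k.nb2 hB.k' h1 h1' Θ fun n₀ => ?_).mono fun m hm x hx =>
    mem_pre.2 ⟨0, zero_mem _, by simpa [← Pi.zero_def] using (a6 _).1 (hm hx)⟩
  obtain ⟨n, b1, b2, b2'⟩ := ((hB.req h.dd θ' (a7 ▸ a2)).and ((ev_le hB.k.ch.anti n₀).and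
    (ev_le hB.k'.ch.anti n₀))).exists
  obtain ⟨Q, b3, b4⟩ := Dp.sub (S := S) (c := c) (p := fun z : M × (ω → S.L) =>
    ∃ w ∈ bx Unit (Z n), ∃ δ ∈ bx ω (d.D n), ((z.1, w ()), z.2 + δ) ∈ θ) (by fun_prop)
  have b5 : z0 Q = im θ' (bx Unit (Z n)) ⊔ bx ω (d.D n) := by
    ext π
    simp only [mem_z0, b4, mem_im, a4, Submodule.mem_sup]
    constructor
    · rintro ⟨w, h3, δ, h4, h5⟩
      exact ⟨_, ⟨w, h3, h5⟩, -δ, neg_mem h4, by simp⟩
    · rintro ⟨u, ⟨w, h3, h5⟩, δ, h4, rfl⟩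
      exact ⟨w, h3, -δ, neg_mem h4, by simpa using h5⟩
  refine (h2 n).mono fun m hm x hx => ?_
  obtain ⟨w, b6, δ, b7, b8⟩ := (b4 _).1 (h.g4 M ω (Y m) Q (hY.df m) b3 (b5 ▸ b1.1) (fun x hx => by
    obtain ⟨w, b6, b7⟩ := mem_pre.1 (hm hx)
    obtain ⟨π, b8, b9⟩ := mem_pre.1 b7
    exact mem_pre.2 ⟨π, b8, (b4 _).2 ⟨fun _ => w, mem_bx.2 fun _ => b6, 0, zero_mem _,
      by simpa using b9⟩⟩) hx)
  obtain ⟨z, h6, a, h7, rfl⟩ := hB.dec b7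
  exact mem_im.2 ⟨(Sum.elim w z, a), ⟨bx_mono b2 (elim_mem_bx b6 h6), bx_mono b2' h7⟩,
    (a6 _).2 (by simpa using b8)⟩

theorem LO.rel (h : LO S c d X Z) (h' : Rel S c V Z) : LO S c d X V := by
  intro ι ω _ _ θ _ hθ
  obtain ⟨ρ, a1, a2, a3, a4, -⟩ := h'
  obtain ⟨θ', b1, b2⟩ := Dp.sub (S := S) (c := c) (p := fun z : (ι → S.E) × (ω → S.L) =>
    ∃ v : ι → S.E, (fun i => (v i, z.1 i)) ∈ bx ι ρ ∧ (v, z.2) ∈ θ) (by fun_prop)
  have b3 : z0 θ' = z0 θ := by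
    ext π
    rw [mem_z0, b2]
    refine ⟨fun ⟨v, h1, h2⟩ => ?_, fun h1 => ⟨0, mem_bx.2 fun i => zero_mem ρ, h1⟩⟩
    rwa [show v = 0 from funext fun i => inj_eq a3 (mem_bx.1 h1 i) (zero_mem ρ)] at h2
  obtain ⟨n, hn⟩ := (h ι ω θ' b1 (b3 ▸ hθ)).exists
  refine (a4 n).mono fun m hm v hv h1 => ?_
  obtain ⟨π, h2, h3⟩ := mem_pre.1 h1
  choose w h4 h5 using fun i => mem_pre.1 (hm (mem_bx.1 hv i))
  obtain ⟨v', h6, h7⟩ := (b2 _).1 (hn w (mem_bx.2 h4)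
    (mem_pre.2 ⟨π, h2, (b2 _).2 ⟨v, mem_bx.2 h5, h3⟩⟩))
  rwa [show v' = v from funext fun i => inj_eq a3 (mem_bx.1 h6 i) (h5 i)] at h7

theorem Gn.simple (h : Gn S c d (S.X η)) (hV : K S c V) (h' : LO S c d (S.X η) V) :
    K S (insert η c) V := by
  refine ⟨hV.ch.mono (Set.subset_insert _ _), hV.st, fun ι _ H hH => ?_⟩
  obtain ⟨ω, _, θ, a1, a2, rfl⟩ := hH.nfc h.dd h.cov
  obtain ⟨Φ, hΦ⟩ := hV.rat ι (o0 θ) inferInstance
  refine ⟨Φ, ?_⟩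
  filter_upwards [hΦ, h' ι ω θ a1 a2] with n h1 h2 v hv
  rw [← h1 v hv]
  exact ⟨h2 v hv, fun h3 => mem_pre.2 ⟨0, zero_mem _, h3⟩⟩

open LinearMap in
theorem Gn.tv (h : Gn S c d (S.X η)) {Λ : Type} {τ : Λ → Module.End k S.E}
    {W : Λ → ℕ → Submodule k S.E} (hU : TV S c U τ W)
    (h' : ∀ V, K S c V → LO S c d (S.X η) V) : TV S (insert η c) U τ W := by
  have := hU.dl
  have := hU.ch.df
  refine ⟨hU.ch.mono (Set.subset_insert _ _), inferInstance, hU.tot,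
    fun s t a => h.simple (hU.simple s t a) (h' _ (hU.simple s t a)), hU.cof, fun H hH => ?_⟩
  obtain ⟨ω, _, θ, a1, a2, rfl⟩ := hH.nfc h.dd h.cov
  have old : o0 θ ≤ pre θ (bx ω (S.X η)) := fun x hx => mem_pre.2 ⟨0, zero_mem _, hx⟩
  refine (hU.top (o0 θ) inferInstance).imp (fun a => a.mono fun n hn => hn.trans old) ?_
  rintro ⟨s, t, a3, a4, a5⟩
  obtain ⟨n, a6, a7⟩ := (a4.and a5).exists
  obtain ⟨θ', b1, b2⟩ := Dp.sub (S := S) (c := c) (p := fun z : (Unit → S.E) × (ω → S.L) =>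
    ∃ v ∈ U n, τ s v = 0 ∧ τ t v = z.1 () ∧ (v, z.2) ∈ θ) (by fun_prop (disch := rfl))
  have b3 : z0 θ' = z0 θ := by
    ext π
    rw [mem_z0, b2]
    refine ⟨fun ⟨v, h1, _, h2, h3⟩ => ?_, fun h1 => ⟨0, zero_mem _, map_zero _, map_zero _, h1⟩⟩
    simpa [mem_z0] using sub_pair h3 (a6 v h1 h2)
  obtain ⟨l, hl⟩ := (h' _ (hU.simple s t a3) Unit ω θ' b1 (b3 ▸ a2)).exists
  obtain ⟨s', b4, b5⟩ := hU.cof' a3 l
  refine ⟨s', t, b4, a4.mono fun m hm x hx h1 => old (hm x hx h1), ?_⟩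
  filter_upwards [b5, ev_le hU.ch.anti n] with m b6 b7 x hx h1
  obtain ⟨π, h2, h3⟩ := mem_pre.1 h1.1
  have h4 := b6 x hx h1.2
  obtain ⟨v, h5, h6, h7, h8⟩ := (b2 _).1 (hl (fun _ => τ t x) (mem_bx.2 fun _ => h4.1)
    (mem_pre.2 ⟨π, h2, (b2 _).2 ⟨x, b7 hx, h4.2, rfl, h3⟩⟩))
  exact h7.symm.trans (a7 v h5 ⟨h8, h6⟩)

theorem Gn.bs [IsAlgClosed k] (h : Gn S c d (S.X η)) {r : Module.End k S.E} (hU : BS S c U r) :
    BS S (insert η c) U r := by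
  have := hU.dl
  have := hU.ch.df
  refine ⟨hU.ch.mono (Set.subset_insert _ _), inferInstance, hU.ne, hU.endo, hU.inj,
    fun H hH => ?_⟩
  obtain ⟨ω, _, θ, a1, a2, rfl⟩ := hH.nfc h.dd h.cov
  refine (hU.dich (o0 θ) inferInstance).imp
    (fun a => a.mono fun n hn x hx => mem_pre.2 ⟨0, zero_mem _, hn hx⟩) ?_
  rintro ⟨m, hm⟩
  obtain ⟨n₀, hn₀⟩ := hm.exists
  obtain ⟨N, hN⟩ : ∃ N, Fintype.card (Fin (m + 1) × ω) < N := ⟨_, Nat.lt_succ_self _⟩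
  refine ⟨N + m, ?_⟩
  obtain ⟨θ', b1, b2⟩ := Dp.sub (S := S) (c := c)
    (p := fun z : S.E × (Fin (N + m + 1) × ω → S.L) =>
      ∀ a : Fin (N + m + 1), ((r ^ (a : ℕ)) z.1, fun i => z.2 (a, i)) ∈ θ)
    (Dp.all fun a => by fun_prop)
  have b3 : d.Closed (z0 θ') := fun i l μ hμ x hx => (b2 _).2 fun a => by
    have h1 : (fun i => μ (a, i)) ∈ Wsp (z0 θ) (d.Y i ⊓ d.D l) := fun y hy => by
      have := (b2 _).1 (mem_z0.1 (hμ y hy)) a
      rwa [map_zero] at this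
    have := mem_z0.1 (a2 i l h1 x hx)
    rwa [← map_zero (r ^ (a : ℕ))] at this
  have key : ∀ μ : Fin (N + m + 1) × ω → k, ∀ᶠ n in atTop, ∀ y,
      tn μ y ∈ im θ' (U n) → tn μ y ∈ z0 θ' := by
    intro μ
    obtain ⟨g, h1, i₀, h2⟩ := Fintype.not_linearIndependent_iff.1
      (mt (LinearIndependent.fintype_card_le_finrank (R := k) (b := fun (a : Fin N)
        (x : Fin (m + 1) × ω) => μ (⟨a + x.1, by omega⟩, x.2))) (by simpa using hN))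
    obtain ⟨p, hp, e⟩ := exists_poly (S := S) g fun e => h2 (congrFun e _)
    filter_upwards [hU.aeval p n₀, hU.aeval_inj hp] with n h3 h4 y hy
    obtain ⟨v, h5, h6⟩ := mem_im.1 hy
    suffices v = 0 by rwa [this] at h6
    refine h4 v h5 (hn₀ _ (h3 v h5) fun a ha => ?_)
    have h7 := dt_mem g fun b : Fin N => (b2 _).1 h6 ⟨b + a, by omega⟩
    rw [mem_o0, ← aeval_pow_comm, e]
    convert h7 using 1
    refine Prod.ext ?_ (funext fun i => ?_)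
    · simp [dt, Prod.fst_sum, pow_add]
    · have := congrFun h1 (⟨a, by omega⟩, i)
      simp only [Finset.sum_apply, Pi.smul_apply, smul_eq_mul, Pi.zero_apply] at this
      simp [dt, Prod.snd_sum, tn, smul_smul, ← Finset.sum_smul, this]
  have b4 := fun i => stab (Kn := fun n => im θ' (U n)) (C := z0 θ')
    (fun a b hab => im_mono (hU.ch.anti hab)) (h.dd.ch i).anti
    (fun μ hμ => by
      obtain ⟨n, hn⟩ := (key μ).exists
      exact (hμ n).mono fun l hl y hy => hn y (hl y hy))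
    (fun l μ hμ y hy => by
      obtain ⟨n, hn⟩ := (key μ).exists
      exact hn y (hμ n y hy))
  filter_upwards [eventually_all.2 b4, ev_le hU.ch.anti n₀] with n b5 b6 x hx b7
  obtain ⟨b8, b9⟩ := closed_of (N := fun _ => True) b3 z0_le_im (fun i m _ => b5 i m)
    fun _ h => (h trivial).elim
  choose π h1 h2 using fun a : Fin (N + m + 1) => mem_pre.1 (b7 a (by omega))
  have h3 : (x, fun z : Fin (N + m + 1) × ω => π z.1 z.2) ∈ θ' := (b2 _).2 h2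
  have h4 := ((h.g3 _ _ inferInstance b8).decomp h.dd.anti (mem_im.2 ⟨x, hx, h3⟩)
    fun z => mem_bx.1 (h1 z.1) z.2).2 fun m => b9 m trivial
  have h5 := sub_pair h3 (mem_z0.1 h4)
  rw [sub_zero, sub_self] at h5
  exact hn₀ x (b6 hx) fun a ha => (b2 _).1 h5 ⟨a, by omega⟩

end Pool.Agent.Lib.MP_1684af_al
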