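import Mathlib
import Pool.Agent.Lib.MP_1684af_al.Step2

/-!
Transfer of the properties of germs between structures satisfying the same inclusions.
-/

namespace Pool.Agent.Lib.MP_1684af_al

open Submodule Filter

variable {σ k : Type} [Field k] {S S' : Str σ k} {c : Set σ}

/-- Uniform unary families. -/
def U1 (c : Set σ) (F : ∀ S : Str σ k, Submodule k S.E) : Prop :=
  UP c Unit fun S v => v () ∈ F S

/-- Uniform binary families. -/
def U2 (c : Set σ) (F : ∀ S : Str σ k, Submodule k (S.E × S.E)) : Prop :=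
  UP c (Unit ⊕ Unit) fun S v => (v (.inl ()), v (.inr ())) ∈ F S

theorem U1.mem {F : ∀ S : Str σ k, Submodule k S.E} (h : U1 c F) {ι : Type} [Fintype ι]
    {t : ∀ S : Str σ k, (ι → S.E) → S.E} (ht : UT ι t) : UP c ι fun S v => t S v ∈ F S :=
  UP.subst (f := fun S v _ => t S v) h fun _ => ht

theorem U2.mem {F : ∀ S : Str σ k, Submodule k (S.E × S.E)} (h : U2 c F) {ι : Type} [Fintype ι]
    {t t' : ∀ S : Str σ k, (ι → S.E) → S.E} (ht : UT ι t) (ht' : UT ι t') :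
    UP c ι fun S v => (t S v, t' S v) ∈ F S :=
  UP.subst (f := fun S v => Sum.elim (fun _ => t S v) fun _ => t' S v) h (by
    rintro (_ | _)
    exacts [ht, ht'])

theorem U1.df {F : ∀ S : Str σ k, Submodule k S.E} (h : U1 c F) : Df S c (F S) :=
  ⟨_, h, fun _ => Iff.rfl⟩

theorem U2.df {F : ∀ S : Str σ k, Submodule k (S.E × S.E)} (h : U2 c F) : Df S c (F S) :=
  ⟨_, h, fun _ => Iff.rfl⟩

/-- Corresponding subspaces. -/
def C1 (c : Set σ) (H : Submodule k S.E) (H' : Submodule k S'.E) : Prop :=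
  ∃ F, U1 c F ∧ F S = H ∧ F S' = H'

/-- Corresponding relations. -/
def C2 (c : Set σ) (H : Submodule k (S.E × S.E)) (H' : Submodule k (S'.E × S'.E)) : Prop :=
  ∃ F, U2 c F ∧ F S = H ∧ F S' = H'

variable {A B : Submodule k S.E} {A' B' : Submodule k S'.E}
  {ρ : Submodule k (S.E × S.E)} {ρ' : Submodule k (S'.E × S'.E)}

theorem C1.mono (h : C1 c A A') {c' : Set σ} (hc : c ⊆ c') : C1 c' A A' :=
  let ⟨F, h1, h2⟩ := h
  ⟨F, UP.mono h1 hc, h2⟩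

theorem C2.mono (h : C2 c ρ ρ') {c' : Set σ} (hc : c ⊆ c') : C2 c' ρ ρ' :=
  let ⟨F, h1, h2⟩ := h
  ⟨F, UP.mono h1 hc, h2⟩

theorem C1.df (h : C1 c A A') : Df S c A ∧ Df S' c A' := by
  obtain ⟨F, h1, rfl, rfl⟩ := h
  exact ⟨h1.df, h1.df⟩

theorem C2.df (h : C2 c ρ ρ') : Df S c ρ ∧ Df S' c ρ' := by
  obtain ⟨F, h1, rfl, rfl⟩ := h
  exact ⟨h1.df, h1.df⟩

theorem C1.symm (h : C1 c A A') : C1 c A' A :=
  let ⟨F, h1, h2, h3⟩ := h
  ⟨F, h1, h3, h2⟩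

theorem C2.symm (h : C2 c ρ ρ') : C2 c ρ' ρ :=
  let ⟨F, h1, h2, h3⟩ := h
  ⟨F, h1, h3, h2⟩

variable (S') in
theorem Df.c1 (h : Df S c A) : ∃ A' : Submodule k S'.E, C1 c A A' := by
  obtain ⟨q, h1, h2⟩ := h
  obtain ⟨F, hF⟩ := h1.sub
  exact ⟨_, fun S => (F S).comap (Tp.e (S := S) (M := S.E)).toLinearMap,
    h1.congr fun S v => hF S v, Submodule.ext fun x => (hF S _).trans (h2 x).symm, rfl⟩

variable (S') in
theorem Df.c2 (h : Df S c ρ) : ∃ ρ' : Submodule k (S'.E × S'.E), C2 c ρ ρ' := by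
  obtain ⟨q, h1, h2⟩ := h
  obtain ⟨F, hF⟩ := h1.sub
  refine ⟨_, fun S => (F S).comap (Tp.e (S := S) (M := S.E × S.E)).toLinearMap,
    h1.congr fun S v => (hF S _).trans (iff_of_eq (congrArg _ ?_)),
    Submodule.ext fun x => (hF S _).trans (h2 x).symm, rfl⟩
  ext (i | i) <;> rfl

theorem C1.le (e : Eqv c S S') (h : C1 c A A') (h' : C1 c B B') : A ≤ B ↔ A' ≤ B' := by
  obtain ⟨F, h1, rfl, rfl⟩ := h
  obtain ⟨G, h2, rfl, rfl⟩ := h'
  have : ∀ S, F S ≤ G S ↔ ∀ v : Unit → S.E, v () ∈ F S → v () ∈ G S := fun S =>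
    ⟨fun h v hv => h hv, fun h x hx => h (fun _ => x) hx⟩
  rw [this, this]
  exact e _ _ _ h1 h2

theorem C1.top : C1 c (⊤ : Submodule k S.E) (⊤ : Submodule k S'.E) :=
  ⟨fun _ => ⊤, UP.true, rfl, rfl⟩

theorem C1.bot : C1 c (⊥ : Submodule k S.E) (⊥ : Submodule k S'.E) :=
  ⟨fun _ => ⊥, UP.eq (UT.var ()) UT.zero, rfl, rfl⟩

theorem C1.inf (h : C1 c A A') (h' : C1 c B B') : C1 c (A ⊓ B) (A' ⊓ B') := by
  obtain ⟨F, h1, rfl, rfl⟩ := h
  obtain ⟨G, h2, rfl, rfl⟩ := h'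
  exact ⟨fun S => F S ⊓ G S, UP.and h1 h2, rfl, rfl⟩

theorem C2.pre (h : C2 c ρ ρ') (h' : C1 c A A') : C1 c (pre ρ A) (pre ρ' A') := by
  obtain ⟨F, h1, rfl, rfl⟩ := h
  obtain ⟨G, h2, rfl, rfl⟩ := h'
  exact ⟨fun S => MP_1684af_al.pre (F S) (G S), (UP.ex1 (p := fun S v y => y ∈ G S ∧
    (v (), y) ∈ F S) ((h2.mem (UT.var _)).and (h1.mem (UT.var _) (UT.var _)))).congr
      fun S v => mem_pre, rfl, rfl⟩

theorem C2.o0 (h : C2 c ρ ρ') : C1 c (o0 ρ) (o0 ρ') := by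
  obtain ⟨F, h1, rfl, rfl⟩ := h
  exact ⟨fun S => MP_1684af_al.o0 (F S), h1.mem (UT.var _) UT.zero, rfl, rfl⟩

theorem C2.z0 (h : C2 c ρ ρ') : C1 c (z0 ρ) (z0 ρ') := by
  obtain ⟨F, h1, rfl, rfl⟩ := h
  exact ⟨fun S => MP_1684af_al.z0 (F S), h1.mem UT.zero (UT.var _), rfl, rfl⟩

theorem C2.diag (h : C2 c ρ ρ') (a : k) :
    C1 c (ρ.comap (LinearMap.prod LinearMap.id (a • LinearMap.id)))
      (ρ'.comap (LinearMap.prod LinearMap.id (a • LinearMap.id))) := by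
  obtain ⟨F, h1, rfl, rfl⟩ := h
  exact ⟨fun S => (F S).comap (LinearMap.prod LinearMap.id (a • LinearMap.id)),
    h1.mem (UT.var _) ((UT.var _).smul a), rfl, rfl⟩

variable {r : Module.End k S.E} {r' : Module.End k S'.E}

theorem C2.comap (h : C2 c r.graph r'.graph) (h' : C1 c A A') :
    C1 c (A.comap r) (A'.comap r') := by
  have : ∀ {S : Str σ k} (r : Module.End k S.E) (A : Submodule k S.E),
      A.comap r = MP_1684af_al.pre r.graph A := fun r A => by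
    ext x
    simp [mem_pre]
  rw [this, this]
  exact h.pre h'

theorem DL.c2 (e : Eqv c S S') (h : DL S c r) :
    ∃ r' : Module.End k S'.E, C2 c r.graph r'.graph := by
  obtain ⟨ρ', h1⟩ := Df.c2 S' (df_graph (S := S) (c := c) (r := r))
  have := h1.df.2
  have h2 : pre ρ' ⊤ = ⊤ := top_le_iff.1 ((C1.top.le e (h1.pre C1.top)).1 fun x _ =>
    mem_pre.2 ⟨r x, trivial, rfl⟩)
  have h3 : z0 ρ' = ⊥ := le_bot_iff.1 ((h1.z0.le e C1.bot).1 fun x hx => by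
    simpa [mem_z0] using hx)
  obtain ⟨r', -, h4⟩ := exists_dl (S := S') (c := c) (C := ⊥) h3 (by
    rw [h2]; exact isCompl_top_bot)
  refine ⟨r', ?_⟩
  convert h1
  ext z
  refine ⟨fun hz => ?_, fun hz => (h4 _ _ hz).symm⟩
  obtain ⟨y, -, hy⟩ := mem_pre.1 (h2.ge (mem_top (x := z.1)))
  rwa [← h4 _ _ hy, ← (LinearMap.mem_graph_iff _ _).1 hz] at hy

theorem C1.imp (e : Eqv c S S') (h : C1 c A A') (h' : C1 c B B') {C : Submodule k S.E}
    {C' : Submodule k S'.E} (h'' : C1 c C C') :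
    (∀ x ∈ A, x ∈ B → x ∈ C) ↔ ∀ x ∈ A', x ∈ B' → x ∈ C' :=
  ⟨fun a _ hx hy => ((h.inf h').le e h'').1 (fun x hx => a x hx.1 hx.2) ⟨hx, hy⟩,
    fun a _ hx hy => ((h.inf h').le e h'').2 (fun x hx => a x hx.1 hx.2) ⟨hx, hy⟩⟩

variable {U V : ℕ → Submodule k S.E} {U' V' : ℕ → Submodule k S'.E}

theorem Ch.cor (e : Eqv c S S') (h : ∀ n, C1 c (U n) (U' n)) (h1 : Antitone U) : Ch S' c U' :=
  ⟨fun n => (h n).df.2, fun a b hab => ((h b).le e (h a)).1 (h1 hab)⟩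

theorem K.cor (e : Eqv c S S') (h : ∀ n, C1 c (V n) (V' n)) (hV : K S c V) : K S' c V' := by
  refine ⟨Ch.cor e h hV.ch.anti, fun n a => hV.st n (((h _).le e (h _)).2 a), fun ι _ H' hH => ?_⟩
  obtain ⟨q, h1, h2⟩ := hH
  have h3 : UP c ι fun S v => q S fun x => v x.1 := h1.subst fun _ => UT.var _
  obtain ⟨F, hF⟩ := h3.sub
  obtain ⟨Φ, hΦ⟩ := hV.rat ι (F S) ⟨_, h1, fun x => hF S x⟩
  refine ⟨Φ, hΦ.mono fun n hn v hv => ?_⟩
  obtain ⟨G, h4, h5, h6⟩ := h n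
  have h7 : UP c ι fun S v => ∀ i, v i ∈ G S := UP.all fun i => h4.mem (UT.var i)
  have h8 : UP c ι fun (S : Str σ k) v => ∀ a ∈ Φ, dt a v = 0 :=
    UP.ball Φ fun a => UP.eq (UT.dt a fun i => UT.var i) UT.zero
  rw [← h5] at hn
  rw [← h6, mem_bx] at hv
  exact ⟨fun a => (e _ _ _ (h7.and h3) h8).1
      (fun v b => (hn v (mem_bx.2 b.1)).1 ((hF _ _).2 b.2)) v ⟨hv, (h2 v).1 a⟩,
    fun a => (h2 v).2 ((e _ _ _ (h7.and h8) h3).1
      (fun v b => (hF _ _).1 ((hn v (mem_bx.2 b.1)).2 b.2)) v ⟨hv, a⟩)⟩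

theorem NoMap.cor (e : Eqv c S S') (h : ∀ n, C1 c (U n) (U' n)) (h' : ∀ n, C1 c (V n) (V' n))
    (h0 : NoMap S c U V) : NoMap S' c U' V' := by
  intro ρ' h1 h2 h3
  obtain ⟨ρ, h4⟩ := h1.c2 S
  replace h4 := h4.symm
  exact (h0 ρ h4.df.1 (le_bot_iff.1 ((h4.z0.le e C1.bot).2 h2.le)) fun n => (h3 n).mono
    fun m hm => ((h m).le e (h4.pre (h' n))).2 hm).mono fun m hm => ((h m).le e h4.o0).1 hm

theorem BS.cor (e : Eqv c S S') (h : ∀ n, C1 c (U n) (U' n)) (hr : C2 c r.graph r'.graph)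
    (h0 : BS S c U r) : BS S' c U' r' := by
  refine ⟨Ch.cor e h h0.ch.anti, DL.of_graph hr.df.2, fun n a => h0.ne n
    (le_bot_iff.1 (((h n).le e C1.bot).2 a.le)), fun n => (h0.endo n).mono fun m hm =>
      ((h m).le e (hr.comap (h n))).1 hm, fun a => (h0.inj a).mono fun m hm x hx h1 =>
        ((h m).imp e (hr.diag a) C1.bot).1 (fun x hx h2 => hm x hx (Eq.symm h2)) x hx h1.symm,
    fun H' hH => ?_⟩
  obtain ⟨H, h1⟩ := hH.c1 S
  replace h1 := h1.symm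
  refine (h0.dich H h1.df.1).imp (fun a => a.mono fun n hn => ((h n).le e h1).1 hn) ?_
  have h2 : ∀ a : ℕ, C1 c (H.comap (r ^ a)) (H'.comap (r' ^ a)) := by
    intro a
    induction a with
    | zero => exact h1
    | succ a ih =>
      rw [pow_succ, pow_succ]
      exact hr.comap ih
  have h3 : ∀ m : ℕ, C1 c (⨅ a ≤ m, H.comap (r ^ a)) (⨅ a ≤ m, H'.comap (r' ^ a)) := by
    intro m
    induction m with
    | zero => simpa using h2 0
    | succ m ih =>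
      rw [Nat.iInf_le_succ, Nat.iInf_le_succ]
      exact ih.inf (h2 _)
  rintro ⟨m, hm⟩
  exact ⟨m, hm.mono fun n hn x hx h4 => ((h n).imp e (h3 m) C1.bot).1
    (fun x hx h5 => hn x hx (by simpa using h5)) x hx (by simpa using h4)⟩

theorem Sb.cor (e : Eqv c S S') (h : ∀ n, C1 c (U n) (U' n)) (hA : C1 c A A') (hB : C1 c B B') :
    Sb U A B ↔ Sb U' A' B' :=
  eventually_congr (Eventually.of_forall fun n => (h n).imp e hB hA)

theorem Lt.cor (e : Eqv c S S') (h : ∀ n, C1 c (U n) (U' n)) (hA : C1 c A A') (hB : C1 c B B') :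
    Lt U A B ↔ Lt U' A' B' := and_congr (Sb.cor e h hA hB) (Sb.cor e h hB hA).not

theorem TV.cor (e : Eqv c S S') (h : ∀ n, C1 c (U n) (U' n)) {Λ : Type}
    {τ : Λ → Module.End k S.E} {τ' : Λ → Module.End k S'.E} {W : Λ → ℕ → Submodule k S.E}
    {W' : Λ → ℕ → Submodule k S'.E} (hτ : ∀ t, C2 c (τ t).graph (τ' t).graph)
    (hW : ∀ t n, C1 c (W t n) (W' t n)) (h0 : TV S c U τ W) : TV S' c U' τ' W' := by
  have hk : ∀ t, C1 c (LinearMap.ker (τ t)) (LinearMap.ker (τ' t)) := fun t => (hτ t).comap C1.bot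
  refine ⟨Ch.cor e h h0.ch.anti, fun t => DL.of_graph (hτ t).df.2, fun s t => (h0.tot s t).imp
    (Sb.cor e h (hk s) (hk t)).1 (Sb.cor e h (hk t) (hk s)).1, fun s t a =>
      (h0.simple s t ((Lt.cor e h (hk s) (hk t)).2 a)).cor e (hW t), fun s t a j => ?_,
    fun H' hH => ?_⟩
  · obtain ⟨s', h1, h2⟩ := h0.cof s t ((Lt.cor e h (hk s) (hk t)).2 a) j
    exact ⟨s', (Lt.cor e h (hk s') (hk t)).1 h1,
      (Sb.cor e h ((hτ t).comap (hW t j)) (hk s')).1 h2⟩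
  · obtain ⟨H, h1⟩ := hH.c1 S
    replace h1 := h1.symm
    refine (h0.top H h1.df.1).imp (fun a => a.mono fun n hn => ((h n).le e h1).1 hn) ?_
    rintro ⟨s, t, h2, h3, h4⟩
    exact ⟨s, t, (Lt.cor e h (hk s) (hk t)).1 h2, (Sb.cor e h h1 (hk t)).1 h3,
      (Sb.cor e h (hk t) (h1.inf (hk s))).1 h4⟩

variable (S) in
/-- The hypothesis for splitting a germ. -/
def HyA (b c : Set σ) (U : ℕ → Submodule k S.E) : Prop :=
  (∀ n, ¬ U n ≤ U (n + 1)) ∧ ((∃ r, DL S b r ∧ BS S c U r) ∨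
    ∃ (Λ : Type) (τ : Λ → Module.End k S.E) (W : Λ → ℕ → Submodule k S.E), (∀ t, DL S b (τ t)) ∧
      (∀ t, Ch S b (W t)) ∧ TV S c U τ W ∧
        ∀ s t, Lt U (LinearMap.ker (τ s)) (LinearMap.ker (τ t)) → NoMap S c U (W t))

theorem HyA.ch {b : Set σ} (h : HyA S b c U) : Ch S c U := by
  rcases h.2 with ⟨r, -, h⟩ | ⟨Λ, τ, W, -, -, h, -⟩
  exacts [h.ch, h.ch]

theorem HyA.down {b : Set σ} (h : HyA S b c U) (h1 : Ch S b U) {c' : Set σ} (h2 : b ⊆ c')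
    (h3 : c' ⊆ c) : HyA S b c' U := by
  refine ⟨h.1, h.2.imp ?_ ?_⟩
  · rintro ⟨r, a1, a2⟩
    exact ⟨r, a1, a2.down h3 (h1.mono h2) (a1.mono h2)⟩
  · rintro ⟨Λ, τ, W, a1, a2, a3, a4⟩
    exact ⟨Λ, τ, W, a1, a2, a3.down h3 (h1.mono h2) (fun t => (a1 t).mono h2)
      fun t => (a2 t).mono h2, fun s t a => (a4 s t a).down h3⟩

theorem HyA.noMap [IsAlgClosed k] {b : Set σ} (h : HyA S b c U) (hV : K S c V) :
    NoMap S c U V := by
  rcases h.2 with ⟨r, -, h⟩ | ⟨Λ, τ, W, -, -, h, h'⟩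
  exacts [h.noMap hV, h.noMap h' hV]

theorem HyA.cor {b : Set σ} (hb : b ⊆ c) (e : Eqv c S S') (h : ∀ n, C1 c (U n) (U' n))
    (h0 : HyA S b c U) : HyA S' b c U' := by
  refine ⟨fun n a => h0.1 n (((h _).le e (h _)).2 a), h0.2.imp ?_ ?_⟩
  · rintro ⟨r, a1, a2⟩
    obtain ⟨r', a3⟩ := a1.c2 (e.mono hb)
    exact ⟨r', DL.of_graph a3.df.2, a2.cor e h (a3.mono hb)⟩
  · rintro ⟨Λ, τ, W, a1, a2, a3, a4⟩
    choose τ' a5 using fun t => (a1 t).c2 (e.mono hb)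
    choose W' a6 using fun t n => ((a2 t).df n).c1 S'
    have hk : ∀ t, C1 c (LinearMap.ker (τ t)) (LinearMap.ker (τ' t)) :=
      fun t => ((a5 t).mono hb).comap C1.bot
    exact ⟨Λ, τ', W', fun t => DL.of_graph (a5 t).df.2,
      fun t => Ch.cor (e.mono hb) (a6 t) (a2 t).anti,
      a3.cor e h (fun t => (a5 t).mono hb) fun t n => (a6 t n).mono hb, fun s t a =>
        (a4 s t ((Lt.cor e h (hk s) (hk t)).2 a)).cor e h fun n => (a6 t n).mono hb⟩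

end Pool.Agent.Lib.MP_1684af_al
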