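import Mathlib

/-!
Positive primitive formulas and minimal pairs. Modules are left modules; right `R`-modules are
left modules over the opposite ring.
-/

universe v

namespace Pool.Agent.Lib.MP_1684af_al

/-- A pp formula `∃ y, A x + B y = 0` in `n` free variables `x`, with `m` bound variables `y` and
`r` equations, with coefficients in `S`. -/
structure PP (S : Type) (n : ℕ) where
  m : ℕ
  r : ℕ
  A : Fin r → Fin n → S
  B : Fin r → Fin m → S

/-- The solution set `φ(M) ⊆ M ^ n` of a pp formula. -/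
def PP.ev {S : Type} [Ring S] {n : ℕ} (φ : PP S n) (M : Type v) [AddCommGroup M] [Module S M] :
    Set (Fin n → M) :=
  {x | ∃ y : Fin φ.m → M, ∀ i, ∑ j, φ.A i j • x j + ∑ l, φ.B i l • y l = 0}

/-- `φ / ψ` is `M`-minimal: `ψ(M) < φ(M)` and no pp-definable subgroup lies strictly between. -/
def IsMinimalFor {S : Type} [Ring S] {n : ℕ} (M : Type v) [AddCommGroup M] [Module S M]
    (φ ψ : PP S n) : Prop :=
  ψ.ev M ⊂ φ.ev M ∧ ¬ ∃ θ : PP S n, ψ.ev M ⊂ θ.ev M ∧ θ.ev M ⊂ φ.ev M

end Pool.Agent.Lib.MP_1684af_al
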