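import Mathlib
import Pool.Agent.Lib.MP_1684af_al.Cor

/-!
The system of tasks and its generic model.
-/

namespace Pool.Agent.Lib.MP_1684af_al

open Submodule Filter

section tasks

variable {σ k : Type} [Field k]

/-- The unary subspace named by a formula. -/
def un (φ : Fo σ k) (S : Str σ k) : Submodule k S.E :=
  (S.ev φ).comap (LinearMap.pi fun _ => LinearMap.id)

theorem un_u1 {c : Set σ} {φ : Fo σ k} (h : φ.supp ⊆ c) : U1 c (un φ) :=
  (UP.fm φ h).subst (f := fun _ v _ => v ()) fun _ => UT.var _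

theorem Df.exists_un {c : Set σ} {S : Str σ k} {H : Submodule k S.E} (h : Df S c H) :
    ∃ φ : Fo σ k, φ.supp ⊆ c ∧ un φ S = H := by
  obtain ⟨q, ⟨φ, e, h1, h2⟩, h3⟩ := h
  exact ⟨φ, h1, Submodule.ext fun x => ((h3 x).trans (h2 _ _)).symm⟩

variable {E : Type} [AddCommGroup E] [Module k E]

/-- Boxes of triples. -/
def b3 (A B C : Submodule k E) : Submodule k (Fin 3 → E) := Submodule.pi Set.univ ![A, B, C]

theorem mem_b3 {A B C : Submodule k E} {x : Fin 3 → E} :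
    x ∈ b3 A B C ↔ x 0 ∈ A ∧ x 1 ∈ B ∧ x 2 ∈ C := by
  simp [b3, Fin.forall_fin_succ]

theorem b3_up {c : Set σ} {A B C : ∀ S : Str σ k, Submodule k S.E} (hA : U1 c A) (hB : U1 c B)
    (hC : U1 c C) : UP c (Fin 3) fun S v => v ∈ b3 (A S) (B S) (C S) :=
  ((hA.mem (UT.var 0)).and ((hB.mem (UT.var 1)).and (hC.mem (UT.var 2)))).congr fun _ _ => mem_b3

/-- Kinds of tasks. -/
inductive Kd | R | I | A | B | O

/-- The data of a task. -/
def dat : Kd → (ℕ → Submodule k E) → (ℕ → Submodule k E) → Dat k (Fin 3 → E)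
  | .R, a, _ => ⟨fun m => b3 (if m = 0 then ⊤ else ⊥) ⊥ ⊥, fun _ => b3 (a 0) ⊥ ⊥⟩
  | .I, a, _ => ⟨fun m => b3 (if m = 0 then a 0 else ⊥) (if m = 0 then ⊤ else ⊥)
      (if m = 0 then ⊤ else ⊥), fun i => cond i (b3 ⊥ ⊤ ⊤) (b3 ⊤ ⊥ ⊥)⟩
  | .A, a, _ => ⟨fun m => b3 (a m) (a m) (a m), fun i => cond i (b3 ⊥ ⊤ ⊤) (b3 ⊤ ⊥ ⊥)⟩
  | .B, a, z => ⟨fun m => b3 (a m) (z m) ⊥, fun i => cond i (b3 ⊥ ⊤ ⊤) (b3 ⊤ ⊥ ⊥)⟩
  | .O, _, _ => ⟨fun _ => b3 ⊥ ⊥ ⊥, fun _ => b3 ⊥ ⊥ ⊥⟩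

theorem udat {c : Set σ} (t : Kd) {a z : ℕ → ∀ S : Str σ k, Submodule k S.E}
    (ha : ∀ n, U1 c (a n)) (hz : ∀ n, U1 c (z n)) :
    UDat c fun S => dat t (fun n => a n S) fun n => z n S := by
  have top : U1 c fun S : Str σ k => (⊤ : Submodule k S.E) := UP.true
  have bot : U1 c fun S : Str σ k => (⊥ : Submodule k S.E) := UP.eq (UT.var ()) UT.zero
  have ite : ∀ (m : ℕ) (F : ∀ S : Str σ k, Submodule k S.E), U1 c F →
      U1 c fun S => if m = 0 then F S else ⊥ := by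
    intro m F hF
    split_ifs
    exacts [hF, bot]
  have Y : ∀ i : Bool, UP c (Fin 3) fun (S : Str σ k) v =>
      v ∈ cond i (b3 (k := k) ⊥ ⊤ ⊤) (b3 ⊤ ⊥ ⊥) := by
    rintro (_ | _)
    exacts [b3_up top bot bot, b3_up bot top top]
  cases t
  · exact ⟨fun m => b3_up (ite m _ top) bot bot, fun _ => b3_up (ha 0) bot bot⟩
  · exact ⟨fun m => b3_up (ite m _ (ha 0)) (ite m _ top) (ite m _ top), Y⟩
  · exact ⟨fun m => b3_up (ha m) (ha m) (ha m), Y⟩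
  · exact ⟨fun m => b3_up (ha m) (hz m) bot, Y⟩
  · exact ⟨fun _ => b3_up bot bot bot, fun _ => b3_up bot bot bot⟩

/-- The hypothesis under which a task is carried out. -/
def Hy (S : Str σ k) (b c : Set σ) : Kd → (ℕ → Submodule k S.E) → (ℕ → Submodule k S.E) → Prop
  | .I, a, _ => a 0 ≠ ⊥
  | .A, a, _ => HyA S b c a
  | .B, a, z => K S c a ∧ K S c z ∧ NoMap S c a z
  | _, _, _ => True

theorem Hy.cor {S S' : Str σ k} {b c : Set σ} (hb : b ⊆ c) (e : Eqv c S S') {t : Kd}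
    {a z : ℕ → Submodule k S.E} {a' z' : ℕ → Submodule k S'.E} (ha : ∀ n, C1 c (a n) (a' n))
    (hz : ∀ n, C1 c (z n) (z' n)) (h : Hy S b c t a z) : Hy S' b c t a' z' := by
  cases t
  · trivial
  · exact fun h' => h (le_bot_iff.1 (((ha 0).le e C1.bot).2 h'.le))
  · exact HyA.cor hb e ha h
  · exact ⟨h.1.cor e ha, h.2.1.cor e hz, h.2.2.cor e ha hz⟩
  · trivial

theorem b3_mono {A B C A' B' C' : Submodule k E} (h1 : A ≤ A') (h2 : B ≤ B') (h3 : C ≤ C') :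
    b3 A B C ≤ b3 A' B' C' := fun _ hx =>
  mem_b3.2 ⟨h1 (mem_b3.1 hx).1, h2 (mem_b3.1 hx).2.1, h3 (mem_b3.1 hx).2.2⟩

theorem str_b3 {A B C : ℕ → Submodule k E} (hA : Antitone A) (hB : Antitone B) (hC : Antitone C)
    (h1 : ∀ n, A n ≤ A (n + 1) → A n = ⊥ ∧ B n = ⊥ ∧ C n = ⊥)
    (h2 : ∀ n, B n ≤ B (n + 1) → A n = ⊥ ∧ B n = ⊥ ∧ C n = ⊥) :
    Dat.Str ⟨fun m => b3 (A m) (B m) (C m), fun i => cond i (b3 ⊥ ⊤ ⊤) (b3 ⊤ ⊥ ⊥)⟩ := by
  refine ⟨fun a b h => b3_mono (hA h) (hB h) (hC h), Or.inr fun i n h => ?_⟩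
  have : A n = ⊥ ∧ B n = ⊥ ∧ C n = ⊥ := by
    cases i
    · refine h1 n fun x hx => ?_
      obtain ⟨u, hu, w, hw, e⟩ := mem_sup.1 (h (x := ![x, 0, 0]) ⟨mem_b3.2 (by simp),
        mem_b3.2 (by simpa using hx)⟩)
      have h3 : w 0 = 0 := (mem_b3.1 hw).1
      have h4 : u 0 = x := by simpa [h3] using congrFun e 0
      exact h4 ▸ (mem_b3.1 hu).1
    · refine h2 n fun x hx => ?_
      obtain ⟨u, hu, w, hw, e⟩ := mem_sup.1 (h (x := ![0, x, 0]) ⟨mem_b3.2 (by simp),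
        mem_b3.2 (by simpa using hx)⟩)
      have h3 : w 1 = 0 := (mem_b3.1 hw).2.1
      have h4 : u 1 = x := by simpa [h3] using congrFun e 1
      exact h4 ▸ (mem_b3.1 hu).2.1
  refine (Submodule.eq_bot_iff _).2 fun x hx => ?_
  obtain ⟨h3, h4, h5⟩ := mem_b3.1 hx
  rw [this.1] at h3
  rw [this.2.1] at h4
  rw [this.2.2] at h5
  ext i
  fin_cases i
  exacts [h3, h4, h5]

theorem Hy.str {S : Str σ k} {b c : Set σ} {t : Kd} {a z : ℕ → Submodule k S.E}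
    (h : Hy S b c t a z) : (dat t a z).Str := by
  have anti : ∀ A : Submodule k S.E, Antitone fun m : ℕ => if m = 0 then A else ⊥ := by
    intro A a b hab
    by_cases hb : b = 0
    · simp [hb, show a = 0 by omega]
    · simp [hb]
  cases t
  · exact ⟨fun a b h => b3_mono (anti _ h) le_rfl le_rfl, Or.inl rfl⟩
  · refine str_b3 (anti _) (anti _) (anti _) ?_ ?_
    · rintro (_ | n) h1
      · exact (h (by simpa using h1)).elim
      · simp
    · rintro (_ | n) h1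
      · exact (h (le_bot_iff.1 (le_top.trans (by simpa using h1)))).elim
      · simp
  · exact str_b3 (HyA.ch h).anti (HyA.ch h).anti (HyA.ch h).anti (fun n h1 => (h.1 n h1).elim)
      fun n h1 => (h.1 n h1).elim
  · exact str_b3 h.1.ch.anti h.2.1.ch.anti (fun _ _ _ => le_rfl) (fun n h1 => (h.1.st n h1).elim)
      fun n h1 => (h.2.1.st n h1).elim
  · exact ⟨fun _ _ _ => le_rfl, Or.inl rfl⟩

theorem exists_uk {c : Set σ} {ω : Type} {p : ∀ S : Str σ k, (ω → Fin 3 → S.E) → Prop}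
    (h : UP c (ω × Fin 3) fun S w => p S fun j i => w (j, i)) :
    ∃ K, UK c ω K ∧ ∀ S x, x ∈ K S ↔ p S x := by
  obtain ⟨F, hF⟩ := h.sub
  have : ∀ (S : Str σ k) x, x ∈ (F S).comap (LinearEquiv.curry k S.E ω (Fin 3)).symm.toLinearMap ↔
      p S x := fun S x => hF S _
  exact ⟨_, h.congr fun S w => this S _, this⟩

theorem UK.df {c : Set σ} {ω : Type} [Fintype ω] {K : ∀ S : Str σ k, Submodule k (ω → S.L)}
    (h : UK c ω K) (S : Str σ k) : Df S c (K S) :=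
  ⟨_, h.mem (f := fun _ v j i => v (j, i, ())) fun _ _ => UT.var _, fun _ => Iff.rfl⟩

theorem UP.df3 {c : Set σ} {F : ∀ S : Str σ k, Submodule k S.L}
    (h : UP c (Fin 3) fun S v => v ∈ F S) (S : Str σ k) : Df S c (F S) :=
  ⟨_, h.subst (f := fun _ v i => v (i, ())) fun _ => UT.var _, fun _ => Iff.rfl⟩

theorem Df.uk {c : Set σ} {ω : Type} [Fintype ω] {S : Str σ k} {K : Submodule k (ω → S.L)}
    (h : Df S c K) : ∃ K', UK c ω K' ∧ K' S = K := by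
  obtain ⟨q, h1, h2⟩ := h
  obtain ⟨K', h3, h4⟩ := exists_uk (p := fun S x => q S fun y => x y.1 y.2.1)
    (h1.subst fun _ => UT.var _)
  exact ⟨K', h3, Submodule.ext fun x => (h4 _ _).trans (h2 x).symm⟩

theorem Df.uq {c : Set σ} {ω : Type} [Fintype ω] {S : Str σ k} {M : Type} [AddCommGroup M]
    [Module k M] [Tp S M] {Q : Submodule k (M × (ω → S.L))} (h : Df S c Q) :
    ∃ q : ∀ S' : Str σ k, (Tp.ι S M → S'.E) → (ω → S'.L) → Prop,
      (UP c (Tp.ι S M ⊕ ω × Fin 3) fun S' w => q S' (fun i => w (.inl i))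
        fun j i => w (.inr (j, i))) ∧ ∀ z, z ∈ Q ↔ q S (Tp.e z.1) z.2 := by
  obtain ⟨q, h1, h2⟩ := h
  refine ⟨fun S' v x => q S' (Sum.elim v fun y => x y.1 y.2.1), h1.subst ?_, fun z =>
    (h2 z).trans (iff_of_eq (congrArg _ ?_))⟩
  · rintro (_ | _) <;> exact UT.var _
  · ext (_ | _) <;> rfl

theorem Ax.upd {c : Set σ} {d : ∀ S : Str σ k, Dat k S.L} (hd : UDat c d) {g S : Str σ k}
    {X : Submodule k S.L} (h : Ax c d g S X) {x : σ} (hx : x ∉ c) (X' : Submodule k S.L) :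
    Ax c d g (S.upd x X') X := by
  have e : d (S.upd x X') = d S := by
    have h1 : (d (S.upd x X')).D = (d S).D :=
      funext fun m => Submodule.ext fun v => (hd.D m).upd hx S X' v
    have h2 : (d (S.upd x X')).Y = (d S).Y :=
      funext fun m => Submodule.ext fun v => (hd.Y m).upd hx S X' v
    generalize d (S.upd x X') = a at h1 h2
    generalize d S = b at h1 h2
    cases a
    cases b
    congr
  refine ⟨e ▸ h.1, e ▸ h.2.1, fun ω _ K hK hc y hy => ?_⟩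
  rw [e]
  exact h.2.2 ω K hK hc y ((UP.upd hK hx S X' fun z => y z.1 z.2).1 hy)

theorem horn_ax {c : Set σ} {d : ∀ S : Str σ k, Dat k S.L} (hd : UDat c d) (g : Str σ k)
    (x : σ) : Horn (insert x c) fun S => Ax c d g S (S.X x) := by
  have hc := Set.subset_insert x c
  have hX : UP (insert x c) (Fin 3) fun (S : Str σ k) v => v ∈ S.X x := UP.gen (Set.mem_insert _ _)
  have h0 : UP (insert x c) (Fin 3) fun (S : Str σ k) v => v = 0 :=
    (UP.all fun i => UP.eq (UT.var i) UT.zero).congr fun _ _ => funext_iff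
  have hD := fun m => (hd.D m).mono hc
  have hY := fun m => (hd.Y m).mono hc
  refine Horn.and (Horn.and (Horn.all fun i => (Horn.imp (hX.and (hY i)) h0).congr
    fun _ => by simp) (Horn.all fun i => Horn.all fun m =>
      (Horn.imp (hX.and ((hD m).sup (hY i))) (hD m)).congr fun _ => by simp)) (Horn.and
    (Horn.all fun i => Horn.all fun m => Horn.imp (hD m) (UP.ex (κ := Fin 3)
      (p := fun S v y => y ∈ (d S).Y i ⊓ (d S).D m ∧ v - y ∈ S.X x)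
      ((((hY i).and (hD m)).subst fun j => UT.var _).and
        (hX.subst fun j => (UT.var _).sub (UT.var _)))))
    (Horn.all fun ω => Horn.all fun _ => Horn.all fun K => Horn.all fun hK => Horn.all fun _ => ?_))
  have h1 : UP (insert x c) (ω × Fin 3) fun (S : Str σ k) w =>
      (fun j i => w (j, i)) ∈ K S ∧ ∀ j, (fun i => w (j, i)) ∈ S.X x :=
    (UP.mono hK hc).and (UP.all fun j => hX.subst fun _ => UT.var _)
  have h2 : ∀ (a : ω → k) i, UT (ω × Fin 3) fun (S : Str σ k) w =>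
      dt a (fun j i => w (j, i)) i := fun a i => by
    simpa [dt] using UT.dt (t := fun (S : Str σ k) w j => w (j, i)) a fun j => UT.var _
  refine (Horn.all fun a : ω → k => Horn.and (Horn.all fun m => Horn.all
    fun _ : ∀ m' < m, Perp a (Wsp (K g) ((d g).D m')) => Horn.imp h1 ((hD m).subst (h2 a)))
    (Horn.all fun _ : ∀ m', Perp a (Wsp (K g) ((d g).D m')) =>
      Horn.imp h1 (h0.subst (h2 a)))).congr fun S => ⟨fun h a => ⟨fun m hm w hw =>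
        (h _ hw.1 hw.2 a).1 m hm, fun hm w hw => (h _ hw.1 hw.2 a).2 hm⟩, fun h y h3 h4 a =>
      ⟨fun m hm => (h a).1 m hm (fun z => y z.1 z.2) ⟨h3, h4⟩,
        fun hm => (h a).2 hm (fun z => y z.1 z.2) ⟨h3, h4⟩⟩⟩

end tasks

variable (k : Type) [Field k]

/-- The symbols. -/
abbrev Xi : Type := WT (Kd × (ℕ → Fo ℕ k) × (ℕ → Fo ℕ k))

variable {k}

namespace Xi

def supp : Xi k → Set (Xi k)
  | .leaf => ∅
  | .node _ ch => Set.range ch

def kd : Xi k → Kd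
  | .leaf => .O
  | .node t _ => t.1

def fa : Xi k → ℕ → Fo (Xi k) k
  | .leaf => fun _ => .top 0
  | .node t ch => fun n => (t.2.1 n).map ch

def fz : Xi k → ℕ → Fo (Xi k) k
  | .leaf => fun _ => .top 0
  | .node t ch => fun n => (t.2.2 n).map ch

theorem supp_lt (ξ : Xi k) : ξ.supp ⊆ Set.Iio ξ := by
  cases ξ with
  | leaf => exact Set.empty_subset _
  | node t ch =>
    rintro _ ⟨n, rfl⟩
    exact WT.ch_lt _ _ _

theorem supp_countable (ξ : Xi k) : ξ.supp.Countable := by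
  cases ξ with
  | leaf => exact Set.countable_empty
  | node t ch => exact Set.countable_range _

theorem fa_u1 (ξ : Xi k) (n : ℕ) : U1 ξ.supp (un (ξ.fa n)) := by
  cases ξ with
  | leaf => exact un_u1 subset_rfl
  | node t ch => exact un_u1 (Fm.supp_map _ _)

theorem fz_u1 (ξ : Xi k) (n : ℕ) : U1 ξ.supp (un (ξ.fz n)) := by
  cases ξ with
  | leaf => exact un_u1 subset_rfl
  | node t ch => exact un_u1 (Fm.supp_map _ _)

/-- The hypothesis of the task `ξ`. -/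
def Gd (ξ : Xi k) (c : Set (Xi k)) (S : Str (Xi k) k) : Prop :=
  Hy S ξ.supp c ξ.kd (fun n => un (ξ.fa n) S) fun n => un (ξ.fz n) S

open Classical in
noncomputable def kg (ξ : Xi k) (g : Str (Xi k) k) : Kd := if ξ.Gd (Set.Iio ξ) g then ξ.kd else .O

noncomputable def dg (ξ : Xi k) (g S : Str (Xi k) k) : Dat k S.L :=
  dat (ξ.kg g) (fun n => un (ξ.fa n) S) fun n => un (ξ.fz n) S

noncomputable def gen (P : Str (Xi k) k → Prop) : Str (Xi k) k := (exists_gen P).choose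

/-- The axioms for the symbol `ξ`. -/
def Mod : Xi k → Str (Xi k) k → Prop := (wellFounded_lt (α := Xi k)).fix fun ξ M S =>
  Ax (Set.Iio ξ) (ξ.dg (gen fun S => ∀ η (h : η < ξ), M η h S))
    (gen fun S => ∀ η (h : η < ξ), M η h S) S (S.X ξ)

/-- Models of the axioms for the symbols in `c`. -/
def PB (c : Set (Xi k)) (S : Str (Xi k) k) : Prop := ∀ η ∈ c, Mod η S

noncomputable def g (ξ : Xi k) : Str (Xi k) k := gen (PB (Set.Iio ξ))

noncomputable def d (ξ : Xi k) : ∀ S : Str (Xi k) k, Dat k S.L := ξ.dg ξ.g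

theorem mod_iff (ξ : Xi k) (S : Str (Xi k) k) :
    Mod ξ S ↔ Ax (Set.Iio ξ) ξ.d ξ.g S (S.X ξ) := by
  rw [Mod, WellFounded.fix_eq]
  rfl

theorem ud (ξ : Xi k) : UDat ξ.supp ξ.d := udat _ ξ.fa_u1 ξ.fz_u1

theorem ud' (ξ : Xi k) : UDat (Set.Iio ξ) ξ.d :=
  ⟨fun m => (ξ.ud.D m).mono ξ.supp_lt, fun m => (ξ.ud.Y m).mono ξ.supp_lt⟩

theorem str (ξ : Xi k) : (ξ.d ξ.g).Str := by
  unfold d dg kg
  split_ifs with h
  · exact Hy.str h
  · exact Hy.str (b := ∅) (c := ∅) trivial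

theorem horn_mod (ξ : Xi k) : Horn (Set.Iic ξ) (Mod ξ) :=
  ((horn_ax ξ.ud' ξ.g ξ).congr (mod_iff ξ)).mono Set.Iio_insert.le

theorem horn_pb {c : Set (Xi k)} (hc : IsLowerSet c) : Horn c (PB c) :=
  Horn.all fun ξ => Horn.all fun h => ξ.horn_mod.mono fun _ h' => hc h' h

theorem gen_spec {c : Set (Xi k)} (hc : IsLowerSet c) : IsGen c (PB c) (gen (PB c)) :=
  have h := (exists_gen (PB c)).choose_spec c (horn_pb hc)
  ⟨h.1, fun ι p q hp hq => h.2 ι p q (hp.mono (Set.subset_univ _)) (hq.mono (Set.subset_univ _))⟩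

theorem pb_upd {ξ : Xi k} {S : Str (Xi k) k} (h : PB (Set.Iio ξ) S) {X : Submodule k S.L}
    (h' : Ax (Set.Iio ξ) ξ.d ξ.g S X) : PB (Set.Iic ξ) (S.upd ξ X) := by
  intro η hη
  rcases (show η ≤ ξ from hη).eq_or_lt with rfl | h1
  · rw [mod_iff, S.upd_self]
    exact h'.upd η.ud' (lt_irrefl η) X
  · exact (horn_pb (isLowerSet_Iio ξ)).loc S ξ X (lt_irrefl ξ) h η h1

/-- Pure embeddings. -/
def Pure (c : Set (Xi k)) (S₀ S : Str (Xi k) k) : Prop :=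
  ∃ e : S₀.E →ₗ[k] S.E, ∀ (ι : Type) (p : ∀ S : Str (Xi k) k, (ι → S.E) → Prop), UP c ι p →
    ∀ v, p S (fun i => e (v i)) ↔ p S₀ v

theorem limit {c s : Set (Xi k)} {S₀ : Str (Xi k) k} (h0 : PB c S₀)
    (h : ∀ η ∈ s, ∃ S, PB (c ∪ Set.Iic η) S ∧ Pure c S₀ S) :
    ∃ S, PB (c ∪ s) S ∧ Pure c S₀ S := by
  have : ∀ j : WithBot s, ∃ S, (∀ η, η ∈ c ∨ (∃ η' : s, j = η' ∧ η ≤ η') → Mod η S) ∧
      Pure c S₀ S := by
    intro j
    induction j using WithBot.recBotCoe with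
    | bot => exact ⟨S₀, fun η h => h0 η (by simpa using h), LinearMap.id, fun _ _ _ _ => Iff.rfl⟩
    | coe η =>
      obtain ⟨S, h1, h2⟩ := h η η.2
      refine ⟨S, fun η' h3 => h1 η' (h3.imp id ?_), h2⟩
      rintro ⟨η'', h4, h5⟩
      rwa [← WithBot.coe_inj.1 h4] at h5
  choose T h1 e h2 using this
  refine ⟨RP ⊥ atTop T, fun η hη => η.horn_mod.rp _ _ _ _ ?_, (rmk ⊥ atTop T).comp
    ((LinearMap.pi e).codRestrict _ fun _ => mem_RB_bot _), fun ι p hp v => ?_⟩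
  · rcases hη with hη | hη
    · exact Eventually.of_forall fun j => h1 j η (Or.inl hη)
    · refine (eventually_ge_atTop ((⟨η, hη⟩ : s) : WithBot s)).mono fun j hj => h1 j η (Or.inr ?_)
      obtain ⟨η', rfl, h3⟩ := WithBot.coe_le_iff.1 hj
      exact ⟨η', rfl, h3⟩
  · refine (hp.los _).trans ?_
    exact (eventually_congr (Eventually.of_forall fun j => h2 j ι p hp v)).trans eventually_const

theorem conserv {c : Set (Xi k)} (hc : IsLowerSet c) {S₀ : Str (Xi k) k} (h0 : PB c S₀) :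
    ∃ S, PB Set.univ S ∧ Pure c S₀ S := by
  have : ∀ η, ∃ S, PB (c ∪ Set.Iic η) S ∧ Pure c S₀ S := by
    intro η
    induction η using WellFoundedLT.induction with
    | ind η ih =>
      obtain ⟨S, h1, e, h2⟩ := limit (s := Set.Iio η) h0 ih
      by_cases hη : η ∈ c
      · exact ⟨S, fun η' h => h1 η' (Or.inl (h.elim id fun h' => hc h' hη)), e, h2⟩
      · have h3 : c ⊆ Set.Iio η := fun x hx => lt_of_not_ge fun h => hη (hc h hx)
        obtain ⟨S', a1, X, a2, e', a3, -⟩ := exists_ext (horn_pb (isLowerSet_Iio η))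
          (gen_spec (isLowerSet_Iio η)) η.ud' η.str (S₀ := S) (fun η' h => h1 η' (Or.inr h))
          (G₀ := ⊥) ⟨fun _ _ h _ => h, fun _ _ x h _ => by rw [(mem_bot k).1 h]; exact zero_mem _⟩
          fun ω _ K _ _ x _ h a => by
            rw [show x = 0 from funext h, dt_zero]
            exact ⟨fun _ _ => zero_mem _, fun _ => rfl⟩
        refine ⟨S'.upd η X, fun η' h => pb_upd a1 a2 η' (h.elim (fun h => Set.Iio_subset_Iic_self (h3 h)) id),
          e'.comp e, fun ι p hp v => ?_⟩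
        exact (hp.upd hη S' X _).trans ((a3 ι p (hp.mono h3) _).trans (h2 ι p hp v))
  obtain ⟨S, h1, h2⟩ := limit (s := Set.univ) h0 fun η _ => this η
  exact ⟨S, fun η _ => h1 η (Or.inr trivial), h2⟩

end Xi

open Xi

variable (k) in
/-- The generic model. -/
noncomputable def Einf : Str (Xi k) k := gen (PB Set.univ)

theorem einf_gen {c : Set (Xi k)} (hc : IsLowerSet c) : IsGen c (PB c) (Einf k) := by
  have h := gen_spec (k := k) isLowerSet_univ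
  refine ⟨fun η _ => h.1 η trivial, fun ι p q hp hq h1 S hS v hv => ?_⟩
  obtain ⟨S', h2, e, h3⟩ := conserv hc hS
  exact (h3 ι q hq v).1 (h.2 ι p q (hp.mono (Set.subset_univ _)) (hq.mono (Set.subset_univ _)) h1
    S' h2 _ ((h3 ι p hp v).2 hv))

theorem einf_eqv (ξ : Xi k) : Eqv (Set.Iio ξ) ξ.g (Einf k) :=
  (gen_spec (isLowerSet_Iio ξ)).eqv (einf_gen (isLowerSet_Iio ξ))

instance : Nontrivial (Einf k).E := by
  by_contra h
  rw [not_nontrivial_iff_subsingleton] at h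
  exact one_ne_zero ((einf_gen (k := k) isLowerSet_empty).2 Unit _ (fun _ v => v () = 0) UP.true
    (UP.eq (UT.var _) UT.zero) (fun _ _ => Subsingleton.elim _ _) ⟨k, fun _ => ⊥⟩
    (fun _ h => h.elim) (fun _ => (1 : k)) trivial)

theorem einf_ax (ξ : Xi k) : Ax (Set.Iio ξ) ξ.d ξ.g (Einf k) ((Einf k).X ξ) :=
  (mod_iff ξ _).1 ((einf_gen isLowerSet_univ).1 ξ trivial)

theorem einf_dd (ξ : Xi k) : DD (Einf k) ξ.supp (ξ.d (Einf k)) :=
  ⟨fun m => (ξ.ud.D m).df3 _, fun m => (ξ.ud.Y m).df3 _, ((einf_eqv ξ).str ξ.ud' ξ.str).1⟩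

theorem einf_g3 (ξ : Xi k) : G3 (Einf k) (Set.Iio ξ) (ξ.d (Einf k)) ((Einf k).X ξ) := by
  intro ω _ K hK h
  obtain ⟨K, h1, rfl⟩ := hK.uk
  exact ((einf_eqv ξ).x3g ξ.ud' h1).1
    ((einf_ax ξ).2.2 ω K h1 ((einf_eqv ξ).symm.closed ξ.ud' h1 h))

theorem einf_gd (ξ : Xi k) : ξ.Gd (Set.Iio ξ) ξ.g ↔ ξ.Gd (Set.Iio ξ) (Einf k) :=
  ⟨Hy.cor ξ.supp_lt (einf_eqv ξ) (fun n => ⟨_, UP.mono (ξ.fa_u1 n) ξ.supp_lt, rfl, rfl⟩)
      fun n => ⟨_, UP.mono (ξ.fz_u1 n) ξ.supp_lt, rfl, rfl⟩,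
    Hy.cor ξ.supp_lt (einf_eqv ξ).symm (fun n => ⟨_, UP.mono (ξ.fa_u1 n) ξ.supp_lt, rfl, rfl⟩)
      fun n => ⟨_, UP.mono (ξ.fz_u1 n) ξ.supp_lt, rfl, rfl⟩⟩

theorem einf_g5 (ξ : Xi k) {b : Set (Xi k)} (hb : ξ.supp ⊆ b) (hb' : b ⊆ Set.Iio ξ) :
    G5 (Einf k) b (Set.Iio ξ) (ξ.d (Einf k)) ((Einf k).X ξ) := by
  intro M _ _ _ ω ω' _ _ P Q hP hQ hc h
  have hdd := (einf_dd ξ).mono hb
  have := hdd.D
  have := hdd.Y
  let F : Filter (M × (ω → (Einf k).L)) :=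
    { sets := {A | ∃ P' : Submodule k (M × (ω → (Einf k).L)), Df (Einf k) b P' ∧
        (∀ z ∈ P, z.2 ∈ bx ω ((Einf k).X ξ) → z ∈ P') ∧ ∀ z ∈ P', z ∈ A}
      univ_sets := ⟨⊤, inferInstance, fun _ _ _ => trivial, fun _ _ => trivial⟩
      sets_of_superset := fun ⟨P', a1, a2, a3⟩ h => ⟨P', a1, a2, fun z hz => h (a3 z hz)⟩
      inter_sets := fun ⟨P', a1, a2, a3⟩ ⟨P'', a4, a5, a6⟩ => ⟨P' ⊓ P'', inferInstance,
        fun z h1 h2 => ⟨a2 z h1 h2, a5 z h1 h2⟩, fun z hz => ⟨a3 z hz.1, a6 z hz.2⟩⟩ }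
  have up : ∀ p, Dp (Einf k) b p → (∀ z ∈ P, z.2 ∈ bx ω ((Einf k).X ξ) → p z) →
      ∀ᶠ z in F, p z := by
    intro p hp h
    obtain ⟨P', a1, a2⟩ := hp.sub
    exact ⟨P', a1, fun z h1 h2 => (a2 z).2 (h z h1 h2), fun z hz => (a2 z).1 hz⟩
  have dn : ∀ {p : M × (ω → (Einf k).L) → Prop}, (∀ᶠ z in F, p z) →
      ∀ z ∈ P, z.2 ∈ bx ω ((Einf k).X ξ) → p z :=
    fun ⟨P', _, a2, a3⟩ z h1 h2 => a3 z (a2 z h1 h2)
  let S₀ := RP ⊥ F fun _ => Einf k
  let mk : (M × (ω → (Einf k).L) → (Einf k).E) →ₗ[k] S₀.E := (rmk ⊥ F fun _ => Einf k).comp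
    (LinearMap.id.codRestrict _ fun _ => mem_RB_bot _)
  have los : ∀ {c : Set (Xi k)} {ι : Type} {p : ∀ S : Str (Xi k) k, (ι → S.E) → Prop}, UP c ι p →
      ∀ t : ι → M × (ω → (Einf k).L) → (Einf k).E,
        p S₀ (fun i => mk (t i)) ↔ ∀ᶠ z in F, p _ fun i => t i z := fun hp t => hp.los _
  let π : ω → S₀.L := fun j i => mk fun z => z.2 j i
  have hdt : ∀ {κ : Type} [Fintype κ] (a : κ → k) (t : M × (ω → (Einf k).L) → κ → (Einf k).L),
      (dt a fun j i => mk fun z => t z j i) = fun i => mk fun z => dt a (t z) i := by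
    intro κ _ a t
    ext i
    have : (fun z => dt a (t z) i) = ∑ j, a j • fun z => t z j i := by
      ext z
      simp [dt]
    rw [this]
    simp [dt]
  have hπ : ∀ a : ω → k, dt a π = fun i => mk fun z => dt a z.2 i := fun a => hdt a _
  have hG : ∀ {κ : Type} (x : κ → S₀.L), (∀ j, x j ∈ span k (Set.range π)) →
      ∃ ν : κ → ω → k, x = fun j i => mk fun z => dt (ν j) z.2 i := by
    intro κ x hx
    choose ν hν using fun j => (mem_span_range_iff_exists_fun k).1 (hx j)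
    exact ⟨ν, funext fun j => (hν j).symm.trans (hπ _)⟩
  have hG1 : ∀ x ∈ span k (Set.range π), ∃ a : ω → k, x = fun i => mk fun z => dt a z.2 i := by
    intro x hx
    obtain ⟨a, ha⟩ := (mem_span_range_iff_exists_fun k).1 hx
    exact ⟨a, ha.symm.trans (hπ _)⟩
  have h0 : UP (Set.Iio ξ) (Fin 3) fun (S : Str (Xi k) k) v => v = 0 :=
    (UP.all fun i => UP.eq (UT.var i) UT.zero).congr fun _ _ => funext_iff
  have ax := einf_ax ξ
  obtain ⟨S₁, a1, X, a2, e, a3, a4, a5⟩ := exists_ext (horn_pb (isLowerSet_Iio ξ))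
    (gen_spec (isLowerSet_Iio ξ)) ξ.ud' ξ.str (S₀ := S₀)
    ((horn_pb (isLowerSet_Iio ξ)).rp _ _ _ _
      (Eventually.of_forall fun _ => (einf_gen (isLowerSet_Iio ξ)).1))
    (G₀ := span k (Set.range π)) ⟨fun i x hx h1 => by
      obtain ⟨a, rfl⟩ := hG1 x hx
      have h2 := dn ((los (ξ.ud.Y i) _).1 h1)
      exact (los h0 _).2 (up (fun z => dt a z.2 = 0) (by fun_prop (disch := rfl)) fun z h3 h4 =>
        ax.1.1 i _ (dt_mem a (mem_bx.1 h4)) (h2 z h3 h4)), fun i m x hx h1 => by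
      obtain ⟨a, rfl⟩ := hG1 x hx
      have h2 := dn ((los ((ξ.ud.D m).sup (ξ.ud.Y i)) _).1 h1)
      exact (los (ξ.ud.D m) _).2 (up (fun z => dt a z.2 ∈ (ξ.d (Einf k)).D m) (by fun_prop)
        fun z h3 h4 => ax.1.2 i m _ (dt_mem a (mem_bx.1 h4)) (h2 z h3 h4))⟩ (by
      intro κ _ K hK hc x hx hxG a
      obtain ⟨ν, rfl⟩ := hG x hxG
      obtain ⟨P', b1, b2, b3⟩ := (los hK fun y z => dt (ν y.1) z.2 y.2).1 hx
      have hc' := (einf_eqv ξ).closed ξ.ud' hK hc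
      obtain ⟨K₀, b4, b5⟩ := Dp.sub (S := Einf k) (c := b) (p := fun y : κ → (Einf k).L =>
        ∃ z ∈ P', (fun j => dt (ν j) z.2) = y) (by fun_prop)
      have key : ∀ (θ : Submodule k (κ → (Einf k).L)) i m μ, K₀ ≤ θ ∧ θ ≤ K _ →
          μ ∈ Wsp (θ.comap LinearMap.id) ((ξ.d _).Y i ⊓ (ξ.d _).D m) →
          K₀ ≤ θ ⊔ (((ξ.d _).D m).map (tnL μ)).map LinearMap.id ∧
            θ ⊔ (((ξ.d _).D m).map (tnL μ)).map LinearMap.id ≤ K _ := by
        refine fun θ i m μ h1 h2 => ⟨le_sup_of_le_left h1.1, sup_le h1.2 ?_⟩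
        rintro _ ⟨_, ⟨y, hy, rfl⟩, rfl⟩
        exact hc' i m (Wsp_mono h1.2 le_rfl h2) y hy
      obtain ⟨K₁, ⟨b6, b7⟩, b8, b9, -⟩ := exists_closed hdd hdd LinearMap.id LinearMap.id
        (fun θ => K₀ ≤ θ ∧ θ ≤ K _) key key ⟨le_rfl, fun y hy => by
          obtain ⟨z, h1, rfl⟩ := (b5 y).1 hy
          exact b3 z h1⟩ b4
      have b10 := fun z h1 h2 => einf_g3 ξ κ K₁ (b8.mono hb') b9 _
        (b6 ((b5 _).2 ⟨z, b2 z h1 h2, rfl⟩)) (fun j => dt_mem (ν j) (mem_bx.1 h2)) a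
      have b11 : ∀ m, Perp a (Wsp (K ξ.g) ((ξ.d ξ.g).D m)) → Perp a (Wsp K₁ ((ξ.d _).D m)) := by
        intro m hm μ hμ
        rw [(einf_eqv ξ).wsp hK (ξ.ud'.D m)] at hm
        exact hm μ (Wsp_mono b7 le_rfl hμ)
      rw [hdt a fun z j => dt (ν j) z.2]
      exact ⟨fun m hm => (los (ξ.ud.D m) _).2 (up
          (fun z => dt a (fun j => dt (ν j) z.2) ∈ (ξ.d (Einf k)).D m) (by fun_prop)
          fun z h1 h2 => (b10 z h1 h2).1 m fun m' h' => b11 m' (hm m' h')),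
        fun hm => (los h0 _).2 (up (fun z => dt a (fun j => dt (ν j) z.2) = 0)
          (by fun_prop (disch := rfl)) fun z h1 h2 => (b10 z h1 h2).2 fun m' => b11 m' (hm m'))⟩)
  obtain ⟨p, c1, c2⟩ := hP.uq
  obtain ⟨q, c3, c4⟩ := hQ.uq
  obtain ⟨K, c5, c6⟩ := exists_uk (p := fun S x => q S 0 x)
    (c3.subst (f := fun S w => Sum.elim 0 w) (by
      rintro (i | i)
      exacts [UT.zero, UT.var _]))
  have c7 : K (Einf k) = z0 Q := Submodule.ext fun x => by simp [c6, mem_z0, c4]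
  have ex : ∀ {κ : Type} [Fintype κ] (r : ∀ S : Str (Xi k) k, (Tp.ι (Einf k) M → S.E) →
      (κ → S.L) → Prop), (UP (Set.Iio ξ) (Tp.ι (Einf k) M ⊕ κ × Fin 3) fun S w =>
        r S (fun i => w (.inl i)) fun j i => w (.inr (j, i))) →
      UP (Set.Iic ξ) (Tp.ι (Einf k) M) fun S v => ∃ u : κ × Fin 3 → S.E,
        (∀ j, (fun i => u (j, i)) ∈ S.X ξ) ∧ r S v fun j i => u (j, i) := fun r hr =>
    UP.ex ((UP.all fun j => (UP.gen Set.self_mem_Iic).subst fun _ => UT.var _).and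
      (hr.mono Set.Iio_subset_Iic_self))
  let v : Tp.ι (Einf k) M → S₀.E := fun i => mk fun z => Tp.e z.1 i
  obtain ⟨u, c8, c9⟩ := (einf_gen (isLowerSet_Iic ξ)).2 _ _ _ (ex p (c1.mono hb')) (ex q c3)
    (fun w ⟨u, h1, h2⟩ => by
      obtain ⟨w, rfl⟩ := (Tp.e (S := Einf k) (M := M)).surjective w
      obtain ⟨y, h3, h4⟩ := mem_pre.1 (h (mem_pre.2 ⟨_, mem_bx.2 h1, (c2 (w, _)).2 h2⟩))
      exact ⟨fun z => y z.1 z.2, mem_bx.1 h3, (c4 _).1 h4⟩) _ (pb_upd a1 a2) (fun i => e (v i))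
    ⟨fun z => e (π z.1 z.2), fun j => by
      rw [S₁.upd_self]
      exact a4 _ (subset_span ⟨j, rfl⟩), by
      have h1 : ∀ᶠ z in F, p _ (Tp.e z.1) z.2 := up _ (hP.dp.congr fun z => (c2 z).symm)
        fun z hz _ => (c2 z).1 hz
      have h2 := (los c1 (Sum.elim (fun i z => Tp.e z.1 i) fun y z => z.2 y.1 y.2)).2 h1
      have h3 := (a3 _ _ (c1.mono hb') (Sum.elim v fun y => π y.1 y.2)).2 h2
      exact ((c1.mono hb').upd (lt_irrefl ξ) S₁ X
        (Sum.elim (fun i => e (v i)) fun y => e (π y.1 y.2))).2 h3⟩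
  rw [S₁.upd_self] at c8
  obtain ⟨x₀, c10, c11⟩ := a5 _ ω' q K c3 c6 ((einf_eqv ξ).symm.closed ξ.ud' c5 (c7 ▸ hc)) v _ c8
    ((c3.upd (lt_irrefl ξ) S₁ X (Sum.elim (fun i => e (v i)) u)).1 c9)
  obtain ⟨ν, rfl⟩ := hG x₀ c10
  obtain ⟨P', c12, c13, c14⟩ :=
    (los c3 (Sum.elim (fun i z => Tp.e z.1 i) fun y z => dt (ν y.1) z.2 y.2)).1 c11
  exact ⟨P', c12, c13, ν, fun z hz => (c4 _).2 (c14 z hz)⟩

end Pool.Agent.Lib.MP_1684af_al
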