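import Mathlib
import Pool.Agent.Lib.MP_1684af_al.Sys

/-!
Properties of germs over a closed set of symbols hold over all symbols.
-/

namespace Pool.Agent.Lib.MP_1684af_al

open Submodule Filter

section fy

variable {σ k : Type} [Field k] {S : Str σ k}

/-- Properties of finite character. -/
def Fy (P : Set σ → Prop) : Prop :=
  ∀ c, (∀ F ⊆ c, F.Finite → ∃ c', F ⊆ c' ∧ c' ⊆ c ∧ P c') → P c

theorem Fy.all {α : Sort*} {P : α → Set σ → Prop} (h : ∀ a, Fy (P a)) : Fy fun c => ∀ a, P a c :=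
  fun c hc a => h a c fun F h1 h2 => (hc F h1 h2).imp fun _ h3 => ⟨h3.1, h3.2.1, h3.2.2 a⟩

theorem Fy.and {P Q : Set σ → Prop} (h : Fy P) (h' : Fy Q) : Fy fun c => P c ∧ Q c :=
  fun c hc => ⟨h c fun F h1 h2 => (hc F h1 h2).imp fun _ h3 => ⟨h3.1, h3.2.1, h3.2.2.1⟩,
    h' c fun F h1 h2 => (hc F h1 h2).imp fun _ h3 => ⟨h3.1, h3.2.1, h3.2.2.2⟩⟩

variable {M N : Type} [AddCommGroup M] [Module k M] [Tp S M] [AddCommGroup N] [Module k N] [Tp S N]

theorem get2 {P : Set σ → Prop} {c : Set σ}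
    (hc : ∀ F ⊆ c, F.Finite → ∃ c', F ⊆ c' ∧ c' ⊆ c ∧ P c') {H : Submodule k M}
    {H' : Submodule k N} (h : Df S c H) (h' : Df S c H') :
    ∃ c', P c' ∧ Df S c' H ∧ Df S c' H' := by
  obtain ⟨F, h1, h2, h3⟩ := h.finite
  obtain ⟨F', h4, h5, h6⟩ := h'.finite
  obtain ⟨c', h7, -, h8⟩ := hc _ (Set.union_subset h1 h4) (h2.union h5)
  exact ⟨c', h8, h3.mono (Set.subset_union_left.trans h7), h6.mono (Set.subset_union_right.trans h7)⟩

theorem fy_k (V : ℕ → Submodule k S.E) : Fy fun c => K S c V := fun _ hc =>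
  let ⟨_, _, h1, h2⟩ := hc ∅ (Set.empty_subset _) Set.finite_empty
  ⟨h2.ch.mono h1, h2.st, fun ι _ H hH =>
    let ⟨_, h3, h4, _⟩ := get2 hc hH hH
    h3.rat ι H h4⟩

theorem fy_noMap (Y : ℕ → Submodule k M) (V : ℕ → Submodule k S.E) :
    Fy fun c => NoMap S c Y V := fun _ hc H hH =>
  let ⟨_, h3, h4, _⟩ := get2 hc hH hH
  h3 H h4

theorem fy_bs (U : ℕ → Submodule k S.E) (r : Module.End k S.E) : Fy fun c => BS S c U r :=
  fun _ hc =>
  let ⟨_, _, h1, h2⟩ := hc ∅ (Set.empty_subset _) Set.finite_empty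
  ⟨h2.ch.mono h1, h2.dl.mono h1, h2.ne, h2.endo, h2.inj, fun H hH =>
    let ⟨_, h3, h4, _⟩ := get2 hc hH hH
    h3.dich H h4⟩

theorem fy_tv (U : ℕ → Submodule k S.E) {Λ : Type} (τ : Λ → Module.End k S.E)
    (W : Λ → ℕ → Submodule k S.E) : Fy fun c => TV S c U τ W := fun c hc =>
  let ⟨_, _, h1, h2⟩ := hc ∅ (Set.empty_subset _) Set.finite_empty
  ⟨h2.ch.mono h1, fun t => (h2.dl t).mono h1, h2.tot, fun s t a => fy_k (W t) c fun F h3 h4 =>
    (hc F h3 h4).imp fun _ h5 => ⟨h5.1, h5.2.1, h5.2.2.simple s t a⟩, h2.cof, fun H hH =>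
    let ⟨_, h3, h4, _⟩ := get2 hc hH hH
    h3.top H h4⟩

theorem fy_gn (d : Dat k S.L) (X : Submodule k S.L) : Fy fun c => Gn S c d X := fun _ hc =>
  let ⟨_, _, h1, h2⟩ := hc ∅ (Set.empty_subset _) Set.finite_empty
  ⟨h2.dd.mono h1, h2.fn, h2.cov, fun ω _ H hH =>
    let ⟨_, h3, h4, _⟩ := get2 hc hH hH
    h3.g3 ω H h4, fun M _ _ _ ω _ P Q hP hQ =>
    let ⟨_, h3, h4, h5⟩ := get2 hc hP hQ
    h3.g4 M ω P Q h4 h5⟩

theorem Fy.ind [LinearOrder σ] [WellFoundedLT σ] {P : Set σ → Prop} (h : Fy P) {b s : Set σ}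
    (h0 : P b) (st : ∀ ξ ∈ s, P (b ∪ s ∩ Set.Iio ξ) → P (insert ξ (b ∪ s ∩ Set.Iio ξ))) :
    P (b ∪ s) := by
  have aux : ∀ L : Set σ, IsLowerSet L → (∀ ξ ∈ L, P (b ∪ s ∩ Set.Iio ξ)) → P (b ∪ s ∩ L) := by
    refine fun L hL ih => h _ fun F h1 h2 => ?_
    rcases (F \ b).eq_empty_or_nonempty with h3 | h3
    · exact ⟨b, Set.sdiff_eq_empty.1 h3, Set.subset_union_left, h0⟩
    · obtain ⟨ξ, h4, h5⟩ := Set.exists_max_image (F \ b) id h2.sdiff h3
      have h6 := (h1 h4.1).resolve_left h4.2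
      refine ⟨_, fun x hx => ?_, ?_, st ξ h6.1 (ih ξ h6.2)⟩
      · by_cases hb : x ∈ b
        · exact Or.inr (Or.inl hb)
        · exact (h5 x ⟨hx, hb⟩).eq_or_lt.imp id fun h7 =>
            Or.inr ⟨((h1 hx).resolve_left hb).1, h7⟩
      · exact Set.insert_subset (Or.inr h6) (Set.union_subset_union_right _
          (Set.inter_subset_inter_right _ fun x hx => hL (le_of_lt hx) h6.2))
  have : ∀ ξ, P (b ∪ s ∩ Set.Iio ξ) := by
    intro ξ
    induction ξ using WellFoundedLT.induction with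
    | ind ξ ih => exact aux _ (isLowerSet_Iio ξ) ih
  simpa using aux _ isLowerSet_univ fun ξ _ => this ξ

end fy

section step

variable {σ k : Type} [Field k] {S : Str σ k} {b c : Set σ} {t : Kd} {η : σ}
  {a z U V : ℕ → Submodule k S.E}

/-- The coordinate embeddings. -/
abbrev sg (S : Str σ k) (i : Fin 3) : S.E →ₗ[k] S.L := LinearMap.single k (fun _ => S.E) i

instance {i : Fin 3} : DL S c (sg S i) := ⟨DM.single i DM.id⟩

theorem b3_inf (A B C A' B' C' : Submodule k S.E) :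
    b3 A B C ⊓ b3 A' B' C' = b3 (A ⊓ A') (B ⊓ B') (C ⊓ C') := by
  ext x
  simp only [mem_inf, mem_b3]
  tauto

theorem b3_eq (A B C : Submodule k S.E) :
    b3 A B C = A.map (sg S 0) ⊔ B.map (sg S 1) ⊔ C.map (sg S 2) := by
  refine le_antisymm (fun x hx => ?_) (sup_le (sup_le ?_ ?_) ?_)
  · have : x = sg S 0 (x 0) + sg S 1 (x 1) + sg S 2 (x 2) := by
      ext i
      fin_cases i <;> simp
    rw [this]
    exact add_mem_sup (add_mem_sup ⟨_, (mem_b3.1 hx).1, rfl⟩ ⟨_, (mem_b3.1 hx).2.1, rfl⟩)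
      ⟨_, (mem_b3.1 hx).2.2, rfl⟩
  all_goals
    rintro _ ⟨x, hx, rfl⟩
    simpa [mem_b3] using hx

theorem Hy.down (h : Hy S b c t a z) (ha : ∀ n, Df S b (a n)) (hz : ∀ n, Df S b (z n))
    {c' : Set σ} (h1 : b ⊆ c') (h2 : c' ⊆ c) : Hy S b c' t a z := by
  cases t
  · trivial
  · exact h
  · exact HyA.down h ⟨ha, (HyA.ch h).anti⟩ h1 h2
  · exact ⟨h.1.down h2 ⟨fun n => (ha n).mono h1, h.1.ch.anti⟩,
      h.2.1.down h2 ⟨fun n => (hz n).mono h1, h.2.1.ch.anti⟩, h.2.2.down h2⟩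
  · trivial

theorem Hy.bd (h : Hy S b c .B a z) (β : Bool) : BD S c (dat .B a z) β (cond β z a)
    (cond β a z) (sg S (cond β 1 0)) (sg S (cond β 0 1)) := by
  cases β
  · exact ⟨inferInstance, inferInstance, fun n => by simp [dat, b3_eq],
      fun n => by simp only [dat, cond, b3_inf]; simp [b3_eq],
      fun n => by simp only [dat, Bool.not_false, cond, b3_inf]; simp [b3_eq], h.1, h.2.1,
      h.1.noMap_symm h.2.1 h.2.2⟩
  · exact ⟨inferInstance, inferInstance, fun n => by simp [dat, b3_eq, sup_comm],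
      fun n => by simp only [dat, cond, b3_inf]; simp [b3_eq],
      fun n => by simp only [dat, Bool.not_true, cond, b3_inf]; simp [b3_eq], h.2.1, h.1, h.2.2⟩

theorem Hy.cases [IsAlgClosed k] (h : Hy S b c t a z) (hV : K S c V) :
    (∀ i, NoMap S c (fun m => (dat t a z).Y i ⊓ (dat t a z).D m) V) ∨
      t = .B ∧ ∃ β, Rel S c V (cond β z a) := by
  have triv : (∀ m, (dat t a z).D (m + 1) = ⊥) →
      ∀ i, NoMap S c (fun m => (dat t a z).Y i ⊓ (dat t a z).D m) V := fun h i =>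
    noMap_of_bot ((eventually_ge_atTop 1).mono fun m hm => by
      obtain ⟨m, rfl⟩ := Nat.exists_eq_add_of_le' hm
      simp [h])
  cases t
  · exact Or.inl (triv fun m => by simp [dat, b3_eq])
  · exact Or.inl (triv fun m => by simp [dat, b3_eq])
  · have h1 := HyA.noMap h hV
    refine Or.inl ?_
    rintro (_ | _)
    · convert h1.map (sg S 0) using 2
      simp only [dat, cond, b3_inf]
      simp [b3_eq]
    · convert (h1.map (sg S 1)).sup (h1.map (sg S 2)) using 2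
      simp only [dat, cond, b3_inf]
      simp [b3_eq]
  · by_cases h1 : ∀ β, NoMap S c (cond β z a) V
    · refine Or.inl fun β => ?_
      convert (h1 β).map (sg S (cond β 1 0)) using 2
      exact (h.bd β).Y _
    · push Not at h1
      obtain ⟨β, h1⟩ := h1
      exact Or.inr ⟨rfl, β, ((h.bd β).k.rel hV h1).symm⟩
  · exact Or.inl (triv fun m => by simp [dat, b3_eq])

variable [IsAlgClosed k]

theorem Gn.lo {X : Submodule k S.L} (g : Gn S c (dat t a z) X) (h : Hy S b c t a z)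
    (hV : K S c V) : LO S c (dat t a z) X V := by
  rcases h.cases hV with h1 | ⟨rfl, β, h1⟩
  exacts [g.lo_inf hV h1, (g.lo_fin (h.bd β)).rel h1]

theorem Gn.noMap (g : Gn S c (dat t a z) (S.X η)) (h : Hy S b c t a z) (hU : Ch S c U)
    (hV : K S c V) (h0 : NoMap S c U V)
    (h' : t = .B → ∀ β, Rel S c V (cond β z a) → NoMap S c U (cond β a z)) :
    NoMap S (insert η c) U V := by
  rcases h.cases hV with h1 | ⟨rfl, β, h1⟩
  · exact g.noMap_inf hV h1 hU h0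
  · exact (g.noMap_fin (h.bd β) hU (h0.rel h1.symm) (h' rfl β h1)).rel
      (h1.mono (Set.subset_insert _ _))

omit [IsAlgClosed k] in
theorem rel_of_b {X : Submodule k S.L} [Df S c X] (ha : Antitone a) (hz : Antitone z)
    (h1 : (dat .B a z).Fn X) (h2 : (dat .B a z).Cov X) : Rel S c a z := by
  obtain ⟨ρ, a1, a2⟩ := Dp.sub (S := S) (c := c) (p := fun w : S.E × S.E =>
    sg S 0 w.1 - sg S 1 w.2 ∈ X) (by fun_prop)
  refine ⟨ρ, a1, (Submodule.eq_bot_iff _).2 fun y hy => ?_,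
    (Submodule.eq_bot_iff _).2 fun y hy => ?_, fun n => (ev_le ha n).mono fun m hm x hx => ?_,
    fun n => (ev_le hz n).mono fun m hm x hx => ?_⟩
  · simpa using congrFun (h1.1 true _ ((a2 _).1 hy) (by simp [dat, mem_b3])) 1
  · simpa using congrFun (h1.1 false _ ((a2 _).1 hy) (by simp [dat, mem_b3])) 0
  · obtain ⟨y, ⟨h3, h4⟩, h5⟩ := h2 true n (sg S 0 x) (by simpa [dat, mem_b3] using hm hx)
    obtain ⟨h6, -, -⟩ := mem_b3.1 h3
    obtain ⟨-, h7, h8⟩ := mem_b3.1 h4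
    refine mem_pre.2 ⟨y 1, h7, (a2 _).2 ?_⟩
    convert h5 using 2
    ext i
    fin_cases i <;> simp_all
  · obtain ⟨y, ⟨h3, h4⟩, h5⟩ := h2 false n (sg S 1 x) (by simpa [dat, mem_b3] using hm hx)
    obtain ⟨-, h6, h8⟩ := mem_b3.1 h3
    obtain ⟨h7, -, -⟩ := mem_b3.1 h4
    refine mem_im.2 ⟨y 0, h7, (a2 _).2 ?_⟩
    convert neg_mem h5 using 1
    ext i
    fin_cases i <;> simp_all

end step

variable {k : Type} [Field k]

namespace Xi

noncomputable def kk (ξ : Xi k) : Kd := ξ.kg ξ.g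

noncomputable def a (ξ : Xi k) (n : ℕ) : Submodule k (Einf k).E := un (ξ.fa n) _

noncomputable def z (ξ : Xi k) (n : ℕ) : Submodule k (Einf k).E := un (ξ.fz n) _

/-- The symbol `ξ` is generic over `c` and its hypothesis holds over `c`. -/
structure Ok (ξ : Xi k) (c : Set (Xi k)) : Prop where
  gn : Gn (Einf k) c (dat ξ.kk ξ.a ξ.z) ((Einf k).X ξ)
  hy : Hy (Einf k) ξ.supp c ξ.kk ξ.a ξ.z

theorem kk_eq {ξ : Xi k} (h : Hy (Einf k) ξ.supp (Set.Iio ξ) ξ.kd ξ.a ξ.z) : ξ.kk = ξ.kd :=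
  if_pos ((einf_gd ξ).2 h)

theorem ok {ξ : Xi k} {c : Set (Xi k)} (h1 : ξ.supp ⊆ c) (h2 : c ⊆ Set.Iio ξ) : ξ.Ok c := by
  refine ⟨⟨(einf_dd ξ).mono h1, (einf_ax ξ).1, (einf_ax ξ).2.1, (einf_g3 ξ).down h2,
    ((einf_g5 ξ h1 h2).down h2).g4⟩, Hy.down (c := Set.Iio ξ) ?_ (fun n => (ξ.fa_u1 n).df)
      (fun n => (ξ.fz_u1 n).df) h1 h2⟩
  unfold kk kg
  split_ifs with h
  exacts [(einf_gd ξ).1 h, trivial]

variable [IsAlgClosed k]

theorem Ok.simple {ξ : Xi k} {c : Set (Xi k)} (h : ξ.Ok c) {V : ℕ → Submodule k (Einf k).E}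
    (hV : K _ c V) : K _ (insert ξ c) V := h.gn.simple hV (h.gn.lo h.hy hV)

theorem Ok.tv {ξ : Xi k} {c : Set (Xi k)} (h : ξ.Ok c) {U : ℕ → Submodule k (Einf k).E}
    {Λ : Type} {τ : Λ → Module.End k (Einf k).E} {W : Λ → ℕ → Submodule k (Einf k).E}
    (hU : TV _ c U τ W) : TV _ (insert ξ c) U τ W := h.gn.tv hU fun _ hV => h.gn.lo h.hy hV

theorem inner {s : Set (Xi k)} (hs : ∀ ξ ∈ s, ξ.supp ⊆ s) {η : Xi k} (hη : η ∉ s) :
    η.Ok (s ∪ Set.Iio η) := by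
  have key : ∀ P : Set (Xi k) → Prop, Fy P → P (Set.Iio η) → (∀ ξ c, ξ.supp ⊆ c → η.supp ⊆ c →
      insert η c ⊆ Set.Iio ξ → P c → P (insert ξ c)) → P (s ∪ Set.Iio η) := by
    intro P h1 h2 h3
    convert h1.ind (s := s ∩ Set.Ioi η) h2 fun ξ hξ => h3 ξ _ (fun x hx => ?_)
      (η.supp_lt.trans Set.subset_union_left) ?_ using 1
    · ext x
      refine ⟨fun h => ?_, fun h => h.elim Or.inr fun h => Or.inl h.1⟩
      rcases lt_trichotomy x η with h4 | rfl | h4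
      · exact Or.inl h4
      · exact (h.elim hη (lt_irrefl x)).elim
      · exact Or.inr ⟨h.resolve_right h4.not_gt, h4⟩
    · rcases lt_trichotomy x η with h4 | rfl | h4
      · exact Or.inl h4
      · exact (hη (hs ξ hξ.1 hx)).elim
      · exact Or.inr ⟨⟨hs ξ hξ.1 hx, h4⟩, ξ.supp_lt hx⟩
    · exact Set.insert_subset hξ.2 (Set.union_subset (Set.Iio_subset_Iio (le_of_lt hξ.2))
        Set.inter_subset_right)
  have sub : ∀ {ξ : Xi k} {c}, insert η c ⊆ Set.Iio ξ → c ⊆ Set.Iio ξ :=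
    fun h => (Set.subset_insert _ _).trans h
  obtain ⟨g0, h0⟩ := ok η.supp_lt subset_rfl
  refine ⟨key _ (fy_gn _ _) g0 fun ξ c h1 _ h3 h => h.trans ((einf_dd ξ).mono h1) (einf_ax ξ).2.1
    ((einf_g3 ξ).down h3) ((einf_g5 ξ h1 (sub h3)).down h3), ?_⟩
  generalize η.kk = t at g0 h0
  cases t
  · trivial
  · exact h0
  · refine ⟨h0.1, h0.2.imp ?_ ?_⟩
    · rintro ⟨r, a1, a2⟩
      exact ⟨r, a1, key _ (fy_bs _ _) a2 fun ξ c h1 _ h3 h => (ok h1 (sub h3)).gn.bs h⟩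
    · rintro ⟨Λ, τ, W, a1, a2, a3, a4⟩
      refine ⟨Λ, τ, W, a1, a2, key _ ((fy_tv _ τ W).and (Fy.all fun s => Fy.all fun t =>
        Fy.all fun _ => fy_noMap _ _)) ⟨a3, a4⟩ fun ξ c h1 _ h3 h => ?_⟩
      have o := ok h1 (sub h3)
      refine ⟨o.tv h.1, fun s t a => o.gn.noMap o.hy h.1.ch (h.1.simple s t a) (h.2 s t a)
        fun e β _ => h.1.noMap h.2 ?_⟩
      exact (Hy.bd (e ▸ o.hy) β).k'
  · refine key _ ((fy_k _).and ((fy_k _).and (fy_noMap _ _))) h0 fun ξ c h1 _ h3 h => ?_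
    have o := ok h1 (sub h3)
    refine ⟨o.simple h.1, o.simple h.2.1, o.gn.noMap o.hy h.1.ch h.2.1 h.2.2 fun e β h4 => ?_⟩
    by_contra h5
    have h6 := Hy.bd (e ▸ (ok ξ.supp_lt subset_rfl).hy) β
    have := Df.gen (S := Einf k) (h3 (Set.mem_insert η c))
    exact (((h.1.rel (Hy.bd (e ▸ o.hy) β).k' h5).mono (sub h3)).symm.trans
      ((rel_of_b h.1.ch.anti h.2.1.ch.anti g0.fn g0.cov).trans (h4.mono (sub h3)))).not_noMap
        h6.k'.ne h6.nm
  · trivial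

theorem outer {s : Set (Xi k)} (hs : ∀ ξ ∈ s, ξ.supp ⊆ s) {P : Set (Xi k) → Prop} (h1 : Fy P)
    (h2 : ∀ ξ c, ξ.Ok c → P c → P (insert ξ c)) (h3 : P s) : P Set.univ := by
  convert h1.ind (s := sᶜ) h3 fun ξ hξ => h2 ξ _ ?_ using 1
  · simp
  · convert inner hs hξ using 1
    ext x
    by_cases hx : x ∈ s <;> simp [hx]

end Xi

variable [IsAlgClosed k] {s : Set (Xi k)} (hs : ∀ ξ ∈ s, ξ.supp ⊆ s)
  {U : ℕ → Submodule k (Einf k).E}

include hs

theorem K.univ (h : K _ s U) : K _ Set.univ U := Xi.outer hs (fy_k U) (fun _ _ o => o.simple) h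

theorem BS.univ {r : Module.End k (Einf k).E} (h : BS _ s U r) : BS _ Set.univ U r :=
  Xi.outer hs (fy_bs U r) (fun _ _ o => o.gn.bs) h

theorem TV.univ {Λ : Type} {τ : Λ → Module.End k (Einf k).E} {W : Λ → ℕ → Submodule k (Einf k).E}
    (h : TV _ s U τ W) : TV _ Set.univ U τ W := Xi.outer hs (fy_tv U τ W) (fun _ _ o => o.tv) h

end Pool.Agent.Lib.MP_1684af_al
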