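import Mathlib
import Pool.Agent.Lib.MP_1684af_al.Main

/-!
Countable closed sets of symbols, and the construction of chains of simple sections.
-/

namespace Pool.Agent.Lib.MP_1684af_al

open Submodule Filter

variable {σ k : Type} [Field k] {S : Str σ k}

/-- Properties of all sets closed under a countable-valued operation. -/
def Sk (C : Set σ → Prop) : Prop := ∃ F : Set σ → Set σ, (∀ s, s.Finite → (F s).Countable) ∧
  ∀ a, (∀ s ⊆ a, s.Finite → F s ⊆ a) → C a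

theorem Sk.and {C C' : Set σ → Prop} (h : Sk C) (h' : Sk C') : Sk fun a => C a ∧ C' a := by
  obtain ⟨F, h1, h2⟩ := h
  obtain ⟨F', h3, h4⟩ := h'
  exact ⟨fun s => F s ∪ F' s, fun s hs => (h1 s hs).union (h3 s hs), fun a h =>
    ⟨h2 a fun s h5 h6 => Set.subset_union_left.trans (h s h5 h6),
      h4 a fun s h5 h6 => Set.subset_union_right.trans (h s h5 h6)⟩⟩

theorem Sk.exists {C : Set σ → Prop} (h : Sk C) {a₀ : Set σ} (h0 : a₀.Countable) :
    ∃ a, a₀ ⊆ a ∧ a.Countable ∧ C a := by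
  obtain ⟨F, h1, h2⟩ := h
  let f : ℕ → Set σ := fun n => n.rec a₀ fun _ a => a ∪ ⋃ s ∈ {s | s.Finite ∧ s ⊆ a}, F s
  have hf : Monotone f := monotone_nat_of_le_succ fun n => Set.subset_union_left
  have hc : ∀ n, (f n).Countable := by
    intro n
    induction n with
    | zero => exact h0
    | succ n ih =>
      exact ih.union ((Set.countable_ofPred_finite_subset ih).biUnion fun s hs => h1 s hs.1)
  refine ⟨⋃ n, f n, Set.subset_iUnion f 0, Set.countable_iUnion hc, h2 _ fun s h3 h4 => ?_⟩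
  obtain ⟨n, hn⟩ := hf.directed_le.exists_mem_subset_of_finset_subset_biUnion
    (s := h4.toFinset) (by simpa using h3)
  refine Set.Subset.trans ?_ (Set.subset_iUnion f (n + 1))
  exact (Set.subset_biUnion_of_mem (u := F) (s := {s | s.Finite ∧ s ⊆ f n})
    ⟨h4, by simpa using hn⟩).trans Set.subset_union_right

/-- Notions of dependence of finite character. -/
structure CD {α : Type} (D : Set σ → α → Prop) : Prop where
  mono : ∀ a a' x, a ⊆ a' → D a x → D a' x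
  fin : ∀ a x, D a x → ∃ s ⊆ a, s.Finite ∧ D s x
  cnt : ∀ s, s.Finite → {x | D s x}.Countable

theorem CD.prod {α β : Type} {D : Set σ → α → Prop} {D' : Set σ → β → Prop} (h : CD D)
    (h' : CD D') : CD fun a (x : α × β) => D a x.1 ∧ D' a x.2 := by
  refine ⟨fun a a' x h1 h2 => ⟨h.mono _ _ _ h1 h2.1, h'.mono _ _ _ h1 h2.2⟩, fun a x h1 => ?_,
    fun s hs => (h.cnt s hs).prod (h'.cnt s hs)⟩
  obtain ⟨s, h2, h3, h4⟩ := h.fin a _ h1.1
  obtain ⟨s', h5, h6, h7⟩ := h'.fin a _ h1.2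
  exact ⟨s ∪ s', Set.union_subset h2 h5, h3.union h6, h.mono _ _ _ Set.subset_union_left h4,
    h'.mono _ _ _ Set.subset_union_right h7⟩

theorem Sk.ex {α β : Type} {D : Set σ → α → Prop} {D' : Set σ → β → Prop} (h : CD D)
    (h' : CD D') (R : α → β → Prop) : Sk fun a => ∀ x, D a x → (∃ y, D' Set.univ y ∧ R x y) →
      ∃ y, D' a y ∧ R x y := by
  have : ∀ x, ∃ s : Set σ, s.Finite ∧ ((∃ y, D' Set.univ y ∧ R x y) → ∃ y, D' s y ∧ R x y) := by
    intro x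
    by_cases h1 : ∃ y, D' Set.univ y ∧ R x y
    · obtain ⟨y, h1, h2⟩ := h1
      obtain ⟨s, -, h3, h4⟩ := h'.fin _ y h1
      exact ⟨s, h3, fun _ => ⟨y, h4, h2⟩⟩
    · exact ⟨∅, Set.finite_empty, fun h => (h1 h).elim⟩
  choose G h1 h2 using this
  refine ⟨fun s => ⋃ x ∈ {x | D s x}, G x, fun s hs => (h.cnt s hs).biUnion
    fun x _ => (h1 x).countable, fun a ha x h3 h4 => ?_⟩
  obtain ⟨s, h5, h6, h7⟩ := h.fin a x h3
  obtain ⟨y, h8, h9⟩ := h2 x h4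
  exact ⟨y, h'.mono _ _ _ ((Set.subset_biUnion_of_mem (u := G) (s := {x | D s x}) h7).trans
    (ha s h5 h6)) h8, h9⟩

theorem sk_supp : Sk fun a : Set (Xi k) => ∀ ξ ∈ a, ξ.supp ⊆ a :=
  ⟨fun s => ⋃ ξ ∈ s, ξ.supp, fun _ hs => hs.countable.biUnion fun ξ _ => ξ.supp_countable,
    fun _ h ξ hξ => by simpa using h {ξ} (Set.singleton_subset_iff.2 hξ) (Set.finite_singleton _)⟩

variable [Countable k]

theorem cd_df {M : Type} [AddCommGroup M] [Module k M] [Tp S M] :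
    CD fun a (H : Submodule k M) => Df S a H :=
  ⟨fun _ _ _ h h' => h'.mono h, fun _ _ h => h.finite, fun _ h => countable_df h.countable⟩

theorem cd_dl : CD fun a (r : Module.End k S.E) => DL S a r :=
  ⟨fun _ _ _ h h' => h'.mono h, fun _ _ h => h.finite, fun _ h =>
    Set.MapsTo.countable_of_injOn (f := LinearMap.graph) (fun r (_ : DL S _ r) => df_graph (S := S))
      (fun r _ r' _ e => LinearMap.ext fun x =>
        (LinearMap.mem_graph_iff r' (x, r x)).1 (e ▸ rfl)) (countable_df h.countable)⟩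

theorem exists_chain {α : Type} [Preorder α] {A : Set α} (h1 : A.Countable) (h2 : A.Nonempty)
    (h3 : ∀ a ∈ A, ∀ b ∈ A, ∃ c ∈ A, c ≤ a ∧ c ≤ b) (h4 : ∀ a ∈ A, ∃ b ∈ A, ¬ a ≤ b) :
    ∃ U : ℕ → α, (∀ n, U n ∈ A) ∧ Antitone U ∧ (∀ n, ¬ U n ≤ U (n + 1)) ∧
      ∀ a ∈ A, ∀ᶠ n in atTop, U n ≤ a := by
  obtain ⟨f, rfl⟩ := h1.exists_eq_range h2
  have : ∀ (n : ℕ) (a : Set.range f), ∃ c : Set.range f, c.1 ≤ a ∧ c.1 ≤ f n ∧ ¬ a.1 ≤ c := by
    intro n a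
    obtain ⟨b, h5, h6⟩ := h4 a a.2
    obtain ⟨c, h7, h8, h9⟩ := h3 b h5 (f n) ⟨n, rfl⟩
    obtain ⟨e, h10, h11, h12⟩ := h3 a a.2 c h7
    exact ⟨⟨e, h10⟩, h11, h12.trans h9, fun h => h6 ((h.trans h12).trans h8)⟩
  choose g h5 h6 h7 using this
  let U : ℕ → Set.range f := fun n => n.rec ⟨f 0, 0, rfl⟩ g
  have hU : Antitone fun n => (U n).1 := antitone_nat_of_succ_le fun n => h5 n _
  refine ⟨fun n => (U n).1, fun n => (U n).2, hU, fun n => h7 n _, ?_⟩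
  rintro _ ⟨n, rfl⟩
  exact (eventually_ge_atTop (n + 1)).mono fun m hm => (hU hm).trans (h6 n _)

theorem exists_generic_set {α ι : Type} [Countable ι] [Nonempty ι] {P : Set α → Prop}
    {C₀ : Set α} (h0 : P C₀) (h : ι → Set α) (hf : ∀ i, (h i).Finite) (dn : ι → Set α → Prop)
    (ex : ∀ i C, P C → h i ⊆ C → ∃ C', C ⊆ C' ∧ P C' ∧ dn i C') :
    ∃ C : ℕ → Set α, Monotone C ∧ (∀ n, P (C n)) ∧ ∀ i, h i ⊆ ⋃ n, C n → ∃ n, dn i (C n) := by
  obtain ⟨f, hs⟩ := exists_surjective_nat ι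
  have : ∀ i (C : {C // P C}), ∃ C' : {C // P C}, C.1 ⊆ C' ∧ (h i ⊆ C → dn i C') := by
    intro i C
    by_cases h1 : h i ⊆ C
    · obtain ⟨C', h2, h3, h4⟩ := ex i C C.2 h1
      exact ⟨⟨C', h3⟩, h2, fun _ => h4⟩
    · exact ⟨C, subset_rfl, fun h2 => (h1 h2).elim⟩
  choose g h1 h2 using this
  let C : ℕ → {C // P C} := fun n => n.rec ⟨C₀, h0⟩ fun n => g (f n.unpair.1)
  have hC : Monotone fun n => (C n).1 := monotone_nat_of_le_succ fun n => h1 _ _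
  refine ⟨fun n => (C n).1, hC, fun n => (C n).2, fun i hi => ?_⟩
  obtain ⟨n, hn⟩ := hC.directed_le.exists_mem_subset_of_finset_subset_biUnion
    (s := (hf i).toFinset) (by simpa using hi)
  obtain ⟨m, rfl⟩ := hs i
  have := h2 (f (m.pair n).unpair.1) (C (m.pair n))
  rw [show (h (f (m.pair n).unpair.1)) = h (f m) by simp,
    show (dn (f (m.pair n).unpair.1)) = dn (f m) by simp] at this
  exact ⟨m.pair n + 1, this (Set.Subset.trans (by simpa using hn) (hC (Nat.right_le_pair m n)))⟩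

omit [Countable k] in
theorem exists_top {U : ℕ → Submodule k S.E} {C : Set (Submodule k S.E)} (h1 : C.Finite)
    (h2 : C.Nonempty) (h3 : ∀ A ∈ C, ∀ B ∈ C, Sb U A B ∨ Sb U B A) :
    ∃ B ∈ C, ∀ A ∈ C, Sb U A B := by
  induction C, h1 using Set.Finite.induction_on with
  | empty => exact (Set.not_nonempty_empty h2).elim
  | @insert A C _ _ ih =>
    rcases C.eq_empty_or_nonempty with rfl | h4
    · exact ⟨A, by simp, by simpa using Sb.of_le le_rfl⟩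
    · obtain ⟨B, h5, h6⟩ := ih h4 fun A h B h' => h3 A (Or.inr h) B (Or.inr h')
      rcases h3 A (Or.inl rfl) B (Or.inr h5) with h7 | h7
      · exact ⟨B, Or.inr h5, Set.forall_mem_insert.2 ⟨h7, h6⟩⟩
      · exact ⟨A, Or.inl rfl, Set.forall_mem_insert.2
          ⟨Sb.of_le le_rfl, fun B' h => (h6 B' h).trans h7⟩⟩

/-- The alternative for a relation on a section. -/
def Alt (τ : Module.End k S.E) (ρ : Submodule k (S.E × S.E)) (B : Submodule k S.E) : Prop :=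
  (∃ a : k, ∀ x ∈ B, (τ x, a • τ x) ∈ ρ) ∨ ∀ x ∈ B, ∀ y ∈ B, (τ x, τ y) ∈ ρ → τ x = 0

open LinearMap in
theorem exists_tv {a : Set σ} (ha : a.Countable) {U : ℕ → Submodule k S.E} (hU : Ch S a U)
    (hk : ∀ B : Submodule k S.E, Df S a B → ∃ τ : Module.End k S.E, DL S a τ ∧ ker τ = B)
    (atom : ∀ B : Submodule k S.E, Df S a B → B ≠ ⊥ → ∃ H, Df S a H ∧ H ≤ B ∧ H ≠ ⊥ ∧ ¬ B ≤ H)
    (ef : ∀ (τ : Module.End k S.E) s ρ, DL S a τ → Df S a s → Df S a ρ → z0 ρ = ⊥ →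
      ¬ Sb U (ker τ) s → ∃ B, Df S a B ∧ B ≤ s ∧ s ⊓ ker τ ≤ B ∧ ¬ Sb U (ker τ) B ∧ Alt τ ρ B) :
    ∃ (Λ : Type) (τ : Λ → Module.End k S.E) (W : Λ → ℕ → Submodule k S.E),
      (∀ t, Ch S a (W t)) ∧ TV S a U τ W := by
  choose! τ hτ hker using hk
  have := hU.df
  have := (countable_df (S := S) (M := S.E) ha).to_subtype
  have := (countable_df (S := S) (M := S.E × S.E) ha).to_subtype
  have : Nonempty {H : Submodule k S.E | Df S a H} := ⟨⟨⊤, df_top⟩⟩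
  obtain ⟨C, c1, c2, c3⟩ := exists_generic_set (ι := {H : Submodule k S.E | Df S a H} ⊕
      {H : Submodule k S.E | Df S a H} × {H : Submodule k S.E | Df S a H} ×
        {H : Submodule k (S.E × S.E) | Df S a H})
    (P := fun C : Set (Submodule k S.E) => C.Finite ∧ ⊤ ∈ C ∧ (∀ A ∈ C, Df S a A) ∧
      ∀ A ∈ C, ∀ B ∈ C, Sb U A B ∨ Sb U B A) (C₀ := {⊤})
    ⟨Set.finite_singleton _, rfl, by simpa using df_top, by simpa using Sb.of_le le_rfl⟩
    (Sum.elim (fun _ => ∅) fun x => {x.1.1, x.2.1.1}) (by rintro (_ | _) <;> simp)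
    (Sum.elim (fun H C => ¬ Sb U H ⊤ → ∃ s ∈ C, ∃ t ∈ C, Lt U s t ∧ Sb U H t ∧ Sb U t (H ⊓ s))
      fun x C => Lt U x.1 x.2.1 → z0 x.2.2.1 = ⊥ → ∃ B ∈ C, Lt U B x.2.1 ∧ Alt (τ x.2.1) x.2.2 B)
    (by
      have ins : ∀ (C : Set (Submodule k S.E)) B, (C.Finite ∧ ⊤ ∈ C ∧ (∀ A ∈ C, Df S a A) ∧
          ∀ A ∈ C, ∀ B ∈ C, Sb U A B ∨ Sb U B A) → Df S a B → (∀ A ∈ C, Sb U A B ∨ Sb U B A) →
          (insert B C).Finite ∧ ⊤ ∈ insert B C ∧ (∀ A ∈ insert B C, Df S a A) ∧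
          ∀ A ∈ insert B C, ∀ B' ∈ insert B C, Sb U A B' ∨ Sb U B' A :=
        fun C B h h1 h2 => ⟨h.1.insert _, Or.inr h.2.1, Set.forall_mem_insert.2 ⟨h1, h.2.2.1⟩,
          Set.forall_mem_insert.2 ⟨Set.forall_mem_insert.2 ⟨Or.inl (Sb.of_le le_rfl),
            fun A hA => (h2 A hA).symm⟩, fun A hA => Set.forall_mem_insert.2
              ⟨h2 A hA, h.2.2.2 A hA⟩⟩⟩
      rintro (⟨H, hH⟩ | ⟨⟨s, hs⟩, ⟨t, ht⟩, ρ, hρ⟩) C hC h
      · by_cases h1 : Sb U H ⊤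
        · exact ⟨C, subset_rfl, hC, fun h2 => (h2 h1).elim⟩
        obtain ⟨s, h2, h3⟩ := exists_top (U := U) (C := {B ∈ C | ¬ Sb U H B})
          (hC.1.subset fun _ h => h.1) ⟨⊤, hC.2.1, h1⟩ fun A h B h' => hC.2.2.2 A h.1 B h'.1
        have := hC.2.2.1 s h2.1
        replace hH : Df S a H := hH
        refine ⟨_, Set.subset_insert (H ⊓ s) C, ins C _ hC inferInstance fun A hA => ?_,
          fun _ => ⟨s, Or.inr h2.1, _, Or.inl rfl, ⟨Sb.of_le inf_le_right, fun h4 =>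
            h2.2 ((Sb.of_le inf_le_left).trans h4)⟩, Sb.of_le inf_le_left, Sb.of_le le_rfl⟩⟩
        by_cases h4 : Sb U H A
        · refine Or.inr ((h4.and ((hC.2.2.2 s h2.1 A hA).resolve_right fun h5 =>
            h2.2 (h4.trans h5))).mono fun n hn x hx h5 => ⟨hn.1 x hx h5, hn.2 x hx h5⟩)
        · exact Or.inl ((h3 A ⟨hA, h4⟩).trans (Sb.of_le inf_le_right))
      · by_cases h1 : Lt U s t ∧ z0 ρ = ⊥
        swap
        · exact ⟨C, subset_rfl, hC, fun h2 h3 => (h1 ⟨h2, h3⟩).elim⟩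
        obtain ⟨s', h2, h3⟩ := exists_top (U := U) (C := {B ∈ C | Lt U B t})
          (hC.1.subset fun _ h => h.1) ⟨s, h (by simp), h1.1⟩ fun A h B h' => hC.2.2.2 A h.1 B h'.1
        obtain ⟨B, b1, b2, b3, b4, b5⟩ := ef (τ t) s' ρ (hτ t ht) (hC.2.2.1 s' h2.1) hρ h1.2
          (by rw [hker t ht]; exact h2.2.2)
        rw [hker t ht] at b3 b4
        have b6 : Sb U B t := h2.2.1.mono fun n hn x hx h4 => b3 ⟨hn x hx h4, h4⟩
        refine ⟨_, Set.subset_insert B C, ins C _ hC b1 fun A hA => ?_,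
          fun _ _ => ⟨B, Or.inl rfl, ⟨b6, b4⟩, b5⟩⟩
        by_cases h4 : Sb U t A
        · exact Or.inr (b6.trans h4)
        · exact Or.inl ((h3 A ⟨hA, (hC.2.2.2 A hA t (h (by simp))).resolve_right h4, h4⟩).trans
            (Sb.of_le b2)))
  obtain ⟨G, hG⟩ : ∃ G, G = ⋃ n, C n := ⟨_, rfl⟩
  have sub : ∀ n, C n ⊆ G := fun n => hG ▸ Set.subset_iUnion C n
  have df : ∀ t ∈ G, Df S a t := by
    intro t ht
    obtain ⟨n, hn⟩ := Set.mem_iUnion.1 (hG ▸ ht)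
    exact (c2 n).2.2.1 t hn
  have tot : ∀ s ∈ G, ∀ t ∈ G, Sb U s t ∨ Sb U t s := by
    intro s hs t ht
    obtain ⟨n, hn⟩ := Set.mem_iUnion.1 (hG ▸ ht)
    obtain ⟨m, hm⟩ := Set.mem_iUnion.1 (hG ▸ hs)
    exact (c2 (max n m)).2.2.2 s (c1 (le_max_right _ _) hm) t (c1 (le_max_left _ _) hn)
  have top : ∀ H, Df S a H → ¬ Sb U H ⊤ →
      ∃ s ∈ G, ∃ t ∈ G, Lt U s t ∧ Sb U H t ∧ Sb U t (H ⊓ s) := by
    intro H hH h
    obtain ⟨n, hn⟩ := c3 (.inl ⟨H, hH⟩) (Set.empty_subset _)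
    obtain ⟨s, h1, t, h2, h3⟩ := hn h
    exact ⟨s, sub n h1, t, sub n h2, h3⟩
  have main : ∀ t ∈ G, ∃ V, Ch S a V ∧ ∀ s ∈ G, Lt U s t → K S a V ∧
      ∀ j, ∃ s' ∈ G, Lt U s' t ∧ Sb U ((V j).comap (τ t)) s' := by
    intro t ht
    by_cases hs : ∃ s ∈ G, Lt U s t
    swap
    · exact ⟨_, Ch.const df_top, fun s h1 h2 => (hs ⟨s, h1, h2⟩).elim⟩
    obtain ⟨s, hs, hst⟩ := hs
    have := hτ t (df t ht)
    have kt := hker t (df t ht)
    let A : Set (Submodule k S.E) := {A | ∃ n, ∃ s ∈ G, Lt U s t ∧ A = (U n ⊓ s).map (τ t)}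
    have dA : ∀ B ∈ A, Df S a B := by
      rintro _ ⟨n, s, h1, -, rfl⟩
      have := df s h1
      infer_instance
    have dich : ∀ H, Df S a H → ∃ B ∈ A, B ≤ H ∨ ∀ x ∈ B, x ∈ H → x = 0 := by
      intro H hH
      have one : ∀ s ∈ G, Lt U s t → Sb U (H.comap (τ t)) s → ∃ B ∈ A, B ≤ H := by
        intro s h1 h2 h3
        obtain ⟨n, hn⟩ := h3.exists
        exact ⟨_, ⟨n, s, h1, h2, rfl⟩, map_le_iff_le_comap.2 fun x hx => hn x hx.1 hx.2⟩
      by_cases h : Sb U (H.comap (τ t)) ⊤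
      · exact (one s hs hst (h.trans (Sb.of_le le_top))).imp fun B h => ⟨h.1, Or.inl h.2⟩
      obtain ⟨s', h1, t', h2, h3, h4, h5⟩ := top _ inferInstance h
      have h6 : ¬ Sb U t s' := fun h6 => h3.2 ((h5.and h6).mono fun n hn x hx h7 =>
        hn.1 x hx ⟨by
          have : τ t x = 0 := kt.ge (hn.2 x hx h7)
          simp [this], h7⟩)
      by_cases h7 : Sb U t t'
      · obtain ⟨n, hn⟩ := (h7.trans h5).exists
        refine ⟨_, ⟨n, s', h1, ⟨(tot s' h1 t ht).resolve_right h6, h6⟩, rfl⟩, Or.inr ?_⟩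
        rintro _ ⟨x, hx, rfl⟩ h8
        exact kt.ge (hn x hx.1 ⟨h8, hx.2⟩)
      · exact (one t' h2 ⟨(tot t' h2 t ht).resolve_right h7, h7⟩ h4).imp
          fun B h => ⟨h.1, Or.inl h.2⟩
    obtain ⟨V, v1, v2, v3, v4⟩ := exists_chain (A := A) ((countable_df ha).mono dA)
      ⟨_, 0, s, hs, hst, rfl⟩ (by
        have : ∀ n n' s s', s' ∈ G → Lt U s' t → Sb U s s' →
            ∃ B ∈ A, B ≤ (U n ⊓ s).map (τ t) ∧ B ≤ (U n' ⊓ s').map (τ t) := by
          intro n n' s s' h1 h2 h3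
          obtain ⟨m, h4, h5, h6⟩ := (h3.and ((ev_le hU.anti n).and (ev_le hU.anti n'))).exists
          exact ⟨_, ⟨m, s', h1, h2, rfl⟩, map_mono fun x hx => ⟨h5 hx.1, h4 x hx.1 hx.2⟩,
            map_mono (inf_le_inf_right _ h6)⟩
        rintro _ ⟨n, s, h1, h2, rfl⟩ _ ⟨n', s', h3, h4, rfl⟩
        rcases tot s h1 s' h3 with h5 | h5
        · exact this n n' s s' h3 h4 h5
        · exact (this n' n s' s h1 h2 h5).imp fun B h => ⟨h.1, h.2.symm⟩) (by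
        intro B hB
        obtain ⟨H, h1, h2, h3, h4⟩ := atom B (dA B hB) (by
          obtain ⟨n, s, -, h2, rfl⟩ := hB
          refine fun h => h2.2 ((ev_le hU.anti n).mono fun m hm x hx h3 => kt.le ?_)
          exact h.le ⟨x, ⟨hm hx, h3⟩, rfl⟩)
        obtain ⟨B', h5, h6⟩ := dich H h1
        exact ⟨B', h5, fun h7 => h6.elim (fun h8 => h4 (h7.trans h8)) fun h8 =>
          h3 ((Submodule.eq_bot_iff _).2 fun x hx => h8 x (h7 (h2 hx)) hx)⟩)
    have ch : Ch S a V := ⟨fun n => dA _ (v1 n), v2⟩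
    refine ⟨V, ch, fun _ _ _ => ⟨K.of_dich ch v3 (fun H hH => ?_) fun ρ h1 h2 h3 => ?_,
      fun j => ?_⟩⟩
    · obtain ⟨B, h5, h6⟩ := dich H hH
      exact h6.imp (fun h => (v4 B h5).mono fun n hn => hn.trans h)
        fun h => (v4 B h5).mono fun n hn x hx => h x (hn hx)
    · obtain ⟨n, hn⟩ := c3 (.inr (⟨s, df s hs⟩, ⟨t, df t ht⟩, ⟨ρ, h1⟩))
        (hG ▸ Set.pair_subset hs ht)
      obtain ⟨B, b1, b2, b3⟩ := hn hst h2
      have b4 := v4 _ ⟨0, B, sub n b1, b2, rfl⟩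
      rcases b3 with ⟨c, b3⟩ | b3
      · refine ⟨c, b4.mono fun m hm y hy => ?_⟩
        obtain ⟨x, hx, rfl⟩ := hm hy
        exact b3 x hx.2
      · obtain ⟨l, hl⟩ := b4.exists
        obtain ⟨m, b5, b6⟩ := (b4.and (h3 l)).exists
        refine (v3 m fun y hy => ?_).elim
        obtain ⟨y', b7, b8⟩ := mem_pre.1 (b6 hy)
        obtain ⟨x, hx, rfl⟩ := b5 hy
        obtain ⟨x', hx', rfl⟩ := hl b7
        rw [b3 x hx.2 x' hx'.2 b8]
        exact zero_mem _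
    · obtain ⟨n, s', h1, h2, h3⟩ := v1 j
      exact ⟨s', h1, h2, (ev_le hU.anti n).mono fun m hm x hx h4 =>
        h3 ▸ ⟨x, ⟨hm hx, h4⟩, rfl⟩⟩
  choose! W w1 w2 using main
  have e : ∀ t : G, ker (τ t) = t := fun t => hker t (df t t.2)
  refine ⟨G, fun t => τ t, fun t => W t, fun t => w1 t t.2, hU, fun t => hτ t (df t t.2),
    fun s t => ?_, fun s t h => ?_, fun s t h j => ?_, fun H hH => ?_⟩
  · rw [e, e]
    exact tot s s.2 t t.2
  · rw [e, e] at h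
    exact (w2 t t.2 s s.2 h).1
  · rw [e, e] at h
    obtain ⟨s', h1, h2⟩ := (w2 t t.2 s s.2 h).2 j
    exact ⟨⟨s', h1⟩, by rwa [e, e]⟩
  · by_cases h : Sb U H ⊤
    · exact Or.inl (h.mono fun n hn x hx => hn x hx trivial)
    · obtain ⟨s, h1, t, h2, h3⟩ := top H hH h
      exact Or.inr ⟨⟨s, h1⟩, ⟨t, h2⟩, by rwa [e, e]⟩

end Pool.Agent.Lib.MP_1684af_al
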