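import Mathlib
import Pool.Agent.Lib.MP_1684af_al.Stage

/-!
Filters of definable subspaces of the generic model.
-/

namespace Pool.Agent.Lib.MP_1684af_al

open Submodule Filter Set

variable {k : Type} [Field k]

theorem exists_task (t : Kd) {a : Set (Xi k)} (ha : a.Countable)
    {A Z : ℕ → Submodule k (Einf k).E} (hA : ∀ n, Df (Einf k) a (A n)) (hZ : ∀ n, Df (Einf k) a (Z n)) :
    ∃ ξ : Xi k, a ⊆ ξ.supp ∧ (Hy (Einf k) ξ.supp (Iio ξ) t A Z →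
      ∃ X, Df (Einf k) univ X ∧ (dat t A Z).Fn X ∧ (dat t A Z).Cov X) := by
  obtain ⟨ch, hch⟩ := WT.exists_range ha
  have : ∀ H : Submodule k (Einf k).E, Df (Einf k) a H → ∃ φ : Fo ℕ k, un (φ.map ch) _ = H := by
    intro H hH
    obtain ⟨φ, h1, rfl⟩ := hH.exists_un
    obtain ⟨ψ, rfl⟩ := φ.exists_map ch (h1.trans hch)
    exact ⟨ψ, rfl⟩
  choose f hf using fun n => this _ (hA n)
  choose g hg using fun n => this _ (hZ n)
  obtain rfl : _ = A := funext hf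
  obtain rfl : _ = Z := funext hg
  refine ⟨.node (t, f, g) ch, hch, fun h => ?_⟩
  have h1 := (Xi.ok (Xi.supp_lt (.node (t, f, g) ch)) subset_rfl).gn
  rw [Xi.kk_eq h] at h1
  exact ⟨_, Df.gen (mem_univ _), h1.fn, h1.cov⟩

theorem exists_task' (t : Kd) (H : Submodule k (Einf k).E) [h : Df (Einf k) univ H]
    (h' : ∀ b c, Hy (Einf k) b c t (fun _ => H) fun _ => H) :
    ∃ X, Df (Einf k) univ X ∧ (dat t (fun _ => H) fun _ => H).Fn X ∧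
      (dat t (fun _ => H) fun _ => H).Cov X := by
  obtain ⟨a, -, h1, h2⟩ := h.finite
  obtain ⟨ξ, -, h3⟩ := exists_task t h1.countable (fun _ => h2) fun _ => h2
  exact h3 (h' _ _)

theorem exists_compl (H : Submodule k (Einf k).E) [Df (Einf k) univ H] :
    ∃ C, Df (Einf k) univ C ∧ IsCompl H C := by
  obtain ⟨X, h1, h2, h3⟩ := exists_task' .R H fun _ _ => trivial
  refine ⟨X.comap (sg _ 0), inferInstance, disjoint_def.2 fun x h4 h5 => ?_,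
    codisjoint_iff_le_sup.2 fun x _ => ?_⟩
  · simpa using congrFun (h2.1 true _ h5 (by simpa [dat, mem_b3] using h4)) 0
  · obtain ⟨y, ⟨h4, -⟩, h5⟩ := h3 true 0 (sg _ 0 x) (by simp [dat, mem_b3])
    obtain ⟨h6, h7, h8⟩ := mem_b3.1 h4
    refine mem_sup.2 ⟨y 0, h6, x - y 0, ?_, by simp⟩
    rw [Submodule.mem_comap]
    convert h5 using 1
    ext i
    fin_cases i <;> simp_all

theorem exists_ext_dl (ρ : Submodule k ((Einf k).E × (Einf k).E)) [Df (Einf k) univ ρ] (h : z0 ρ = ⊥) :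
    ∃ r : Module.End k (Einf k).E, DL (Einf k) univ r ∧ ∀ x y, (x, y) ∈ ρ → r x = y := by
  obtain ⟨C, h1, h2⟩ := exists_compl (pre ρ ⊤)
  exact exists_dl h h2

section nu

variable {σ : Type} {S : Str σ k} {d : Dat k S.L} {X : Submodule k S.L}
  (hY : d.Y = fun i => cond i (b3 ⊥ ⊤ ⊤) (b3 ⊤ ⊥ ⊥)) (h1 : d.Fn X) (h2 : d.Cov X)
  {n : ℕ} {A B : Submodule k S.E} (hD : d.D n = b3 A B B)

include hY h2 hD in
theorem nu_up {p q : S.E} (hp : p ∈ B) (hq : q ∈ B) : ∃ u ∈ A, ![u, p, q] ∈ X := by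
  obtain ⟨y, ⟨h4, h5⟩, h6⟩ := h2 false n ![0, p, q] (by simp [hD, mem_b3, hp, hq])
  rw [hY] at h4
  rw [hD] at h5
  obtain ⟨-, h7, h8⟩ := mem_b3.1 h4
  refine ⟨-y 0, neg_mem (mem_b3.1 h5).1, ?_⟩
  convert h6 using 1
  ext i
  fin_cases i <;> simp_all

include hY h2 hD in
theorem nu_down {u : S.E} (hu : u ∈ A) : ∃ p ∈ B, ∃ q ∈ B, ![u, p, q] ∈ X := by
  obtain ⟨y, ⟨h4, h5⟩, h6⟩ := h2 true n ![u, 0, 0] (by simp [hD, mem_b3, hu])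
  rw [hY] at h4
  rw [hD] at h5
  obtain ⟨h7, -⟩ := mem_b3.1 h4
  refine ⟨-y 1, neg_mem (mem_b3.1 h5).2.1, -y 2, neg_mem (mem_b3.1 h5).2.2, ?_⟩
  convert h6 using 1
  ext i
  fin_cases i <;> simp_all

include hY h1 in
theorem nu_fn {u p q p' q' : S.E} (h : ![u, p, q] ∈ X) (h' : ![u, p', q'] ∈ X) :
    p = p' ∧ q = q' := by
  have := h1.1 true _ (sub_mem h h') (by simp [hY, mem_b3])
  exact ⟨sub_eq_zero.1 (congrFun this 1), sub_eq_zero.1 (congrFun this 2)⟩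

include hY h1 in
theorem nu_inj {u u' p q : S.E} (h : ![u, p, q] ∈ X) (h' : ![u', p, q] ∈ X) : u = u' := by
  have := h1.1 false _ (sub_mem h h') (by simp [hY, mem_b3])
  exact sub_eq_zero.1 (congrFun this 0)

theorem dm_v3 {c : Set σ} {M : Type} [AddCommGroup M] [Module k M] [Tp S M] {f g h : M → S.E}
    (hf : DM S c f) (hg : DM S c g) (hh : DM S c h) : DM S c fun x => ![f x, g x, h x] :=
  DM.pi fun i => by
    fin_cases i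
    exacts [hf, hg, hh]

include hY h1 h2 in
theorem nu {c : Set σ} [Df S c X] : ∃ H₁ H₂, Df S c H₁ ∧ Df S c H₂ ∧ ∀ n A B, d.D n = b3 A B B →
    A ≤ A ⊓ H₁ ⊔ A ⊓ H₂ ∧ (B ≠ ⊥ → ¬ A ≤ H₁ ∧ ¬ A ≤ H₂) := by
  obtain ⟨H₁, a1, a2⟩ := Dp.sub (S := S) (c := c) (p := fun u : S.E => ∃ w, ![u, 0, w] ∈ X)
    (Dp.ex (Dp.mem (dm_v3 DM.fst (DM.const rfl) DM.snd)))
  obtain ⟨H₂, a3, a4⟩ := Dp.sub (S := S) (c := c) (p := fun u : S.E => ∃ w, ![u, w, 0] ∈ X)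
    (Dp.ex (Dp.mem (dm_v3 DM.fst DM.snd (DM.const rfl))))
  refine ⟨H₁, H₂, a1, a3, fun n A B hD => ⟨fun u hu => ?_, fun hB => ?_⟩⟩
  · obtain ⟨p, hp, q, hq, h3⟩ := nu_down hY h2 hD hu
    obtain ⟨v, hv, h4⟩ := nu_up hY h2 hD hp (zero_mem B)
    refine mem_sup.2 ⟨u - v, ⟨sub_mem hu hv, (a2 _).2 ⟨q, ?_⟩⟩, v, ⟨hv, (a4 _).2 ⟨p, h4⟩⟩, by simp⟩
    simpa using sub_mem h3 h4
  · obtain ⟨p, hp, hp0⟩ := (Submodule.ne_bot_iff _).1 hB
    obtain ⟨v, hv, h4⟩ := nu_up hY h2 hD hp hp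
    exact ⟨fun h => hp0 (nu_fn hY h1 h4 ((a2 _).1 (h hv)).choose_spec).1,
      fun h => hp0 (nu_fn hY h1 h4 ((a4 _).1 (h hv)).choose_spec).2⟩

end nu

theorem exists_split (H : Submodule k (Einf k).E) [Df (Einf k) univ H] (h : H ≠ ⊥) :
    ∃ H₁ H₂, Df (Einf k) univ H₁ ∧ Df (Einf k) univ H₂ ∧ H ≤ H ⊓ H₁ ⊔ H ⊓ H₂ ∧ ¬ H ≤ H₁ ∧ ¬ H ≤ H₂ := by
  obtain ⟨X, h1, h2, h3⟩ := exists_task' .I H fun _ _ => h
  obtain ⟨H₁, H₂, h4, h5, h6⟩ := nu (c := univ) rfl h2 h3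
  obtain ⟨h7, h8⟩ := h6 0 H ⊤ rfl
  exact ⟨H₁, H₂, h4, h5, h7, h8 top_ne_bot⟩

theorem exists_atom (B : Submodule k (Einf k).E) [Df (Einf k) univ B] (h : B ≠ ⊥) :
    ∃ H, Df (Einf k) univ H ∧ H ≤ B ∧ H ≠ ⊥ ∧ ¬ B ≤ H := by
  obtain ⟨H₁, H₂, h1, h2, h3, h4, h5⟩ := exists_split B h
  refine ⟨B ⊓ H₁, inferInstance, inf_le_left, fun e => h5 ?_, fun e => h4 (e.trans inf_le_right)⟩
  rw [e, bot_sup_eq] at h3
  exact h3.trans inf_le_right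

theorem exists_j (H : Submodule k (Einf k).E) [Df (Einf k) univ H] (h : H ≠ ⊥) :
    ∃ j j' : Module.End k (Einf k).E, DL (Einf k) univ j ∧ DL (Einf k) univ j' ∧ (∀ x, j x ∈ H) ∧
      ∀ x y, j x + j' y = 0 → x = 0 ∧ y = 0 := by
  obtain ⟨X, h1, h2, h3⟩ := exists_task' .I H fun _ _ => h
  obtain ⟨ρ, a1, a2⟩ := Dp.sub (S := Einf k) (c := univ)
    (p := fun z : (Einf k).E × (Einf k).E => ![z.2, z.1, 0] ∈ X)
    (Dp.mem (dm_v3 DM.snd DM.fst (DM.const rfl)))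
  obtain ⟨ρ', a3, a4⟩ := Dp.sub (S := Einf k) (c := univ)
    (p := fun z : (Einf k).E × (Einf k).E => ![z.2, 0, z.1] ∈ X)
    (Dp.mem (dm_v3 DM.snd (DM.const rfl) DM.fst))
  have h0 : ![0, 0, 0] ∈ X := by
    convert zero_mem X
    simp
  obtain ⟨j, a5, a6⟩ := exists_ext_dl ρ ((Submodule.eq_bot_iff _).2 fun y hy =>
    nu_inj rfl h2 ((a2 _).1 hy) h0)
  obtain ⟨j', a7, a8⟩ := exists_ext_dl ρ' ((Submodule.eq_bot_iff _).2 fun y hy =>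
    nu_inj rfl h2 ((a4 _).1 hy) h0)
  have b1 : ∀ x, j x ∈ H ∧ ![j x, x, 0] ∈ X := by
    intro x
    obtain ⟨u, h4, h5⟩ := nu_up (n := 0) (A := H) (B := ⊤) rfl h3 rfl (p := x) (q := 0)
      trivial trivial
    rw [a6 x u ((a2 _).2 h5)]
    exact ⟨h4, h5⟩
  have b2 : ∀ x, ![j' x, 0, x] ∈ X := by
    intro x
    obtain ⟨u, -, h5⟩ := nu_up (n := 0) (A := H) (B := ⊤) rfl h3 rfl (p := 0) (q := x)
      trivial trivial
    rwa [a8 x u ((a4 _).2 h5)]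
  refine ⟨j, j', a5, a7, fun x => (b1 x).1, fun x y e => nu_fn (u := 0) rfl h2 ?_ h0⟩
  simpa [e] using add_mem (b1 x).2 (b2 y)

/-- Proper filters of definable subspaces. -/
structure Fil (F : Set (Submodule k (Einf k).E)) : Prop where
  df : ∀ H ∈ F, Df (Einf k) univ H
  top : ⊤ ∈ F
  up : ∀ {H H'}, H ∈ F → H ≤ H' → Df (Einf k) univ H' → H' ∈ F
  inf : ∀ {H H'}, H ∈ F → H' ∈ F → H ⊓ H' ∈ F
  ne : ⊥ ∉ F

/-- Maximal filters. -/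
def Mx (F : Set (Submodule k (Einf k).E)) : Prop :=
  ∀ H, Df (Einf k) univ H → H ∉ F → ∃ A ∈ F, ∀ x ∈ A, x ∈ H → x = 0

/-- Uniform filters. -/
def Unif (F : Set (Submodule k (Einf k).E)) : Prop :=
  ∀ A B, Df (Einf k) univ A → Df (Einf k) univ B → A ∉ F → B ∉ F → ∃ C ∈ F, C ⊓ A ⊔ C ⊓ B ∉ F

variable {F : Set (Submodule k (Einf k).E)}

theorem Fil.unif (h : Fil F) (h' : Mx F) : Unif F := by
  intro A B hA hB h1 h2
  obtain ⟨C, h3, h4⟩ := h' A hA h1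
  exact ⟨C, h3, fun h5 => h2 (h.up h5 (sup_le (fun x hx => h4 x hx.1 hx.2 ▸ zero_mem B)
    inf_le_right) hB)⟩

theorem Fil.np (h : Fil F) (h' : Unif F) (H : Submodule k (Einf k).E) (hH : H ∈ F) :
    ∃ H', Df (Einf k) univ H' ∧ H' ∈ F ∧ ¬ H ≤ H' := by
  by_contra hc
  push Not at hc
  have := h.df H hH
  obtain ⟨H₁, H₂, h1, h2, h3, h4, h5⟩ := exists_split H fun e => h.ne (e ▸ hH)
  obtain ⟨C, h6, h7⟩ := h' H₁ H₂ h1 h2 (fun a => h4 (hc _ h1 a)) fun a => h5 (hc _ h2 a)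
  have := h.df C h6
  have h8 := hc C this h6
  exact h7 (h.up hH (h3.trans (sup_le_sup (inf_le_inf_right _ h8) (inf_le_inf_right _ h8)))
    inferInstance)

theorem exists_max (h : Fil F) : ∃ G, F ⊆ G ∧ Fil G ∧ Mx G := by
  obtain ⟨G, h1, h2⟩ := zorn_subset_nonempty {G | Fil G} (fun c hc hch ⟨G₀, h0⟩ =>
    ⟨⋃₀ c, ⟨fun H ⟨G, a, b⟩ => (hc a).df H b, ⟨G₀, h0, (hc h0).top⟩,
      fun ⟨G, a, b⟩ e f => ⟨G, a, (hc a).up b e f⟩, fun ⟨G, a, b⟩ ⟨G', a', b'⟩ =>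
        (hch.total a a').elim (fun e => ⟨G', a', (hc a').inf (e b) b'⟩)
          fun e => ⟨G, a, (hc a).inf b (e b')⟩, fun ⟨G, a, b⟩ => (hc a).ne b⟩,
      fun _ => subset_sUnion_of_mem⟩) F h
  refine ⟨G, h1, h2.prop, fun H hH h3 => ?_⟩
  by_contra hc
  refine h3 (h2.le_of_ge (y := {H' | Df (Einf k) univ H' ∧ ∃ A ∈ G, A ⊓ H ≤ H'}) ⟨fun _ a => a.1,
    ⟨df_top, ⊤, h2.prop.top, le_top⟩, fun ⟨_, A, a, b⟩ e f => ⟨f, A, a, b.trans e⟩,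
    fun ⟨_, A, a, b⟩ ⟨_, A', a', b'⟩ => ⟨inferInstance, _, h2.prop.inf a a', le_inf
      ((inf_le_inf_right _ inf_le_left).trans b) ((inf_le_inf_right _ inf_le_right).trans b')⟩,
    fun ⟨_, A, a, b⟩ => hc ⟨A, a, fun x e f => b ⟨e, f⟩⟩⟩
    (fun A a => ⟨h2.prop.df A a, A, a, inf_le_left⟩) ⟨hH, ⊤, h2.prop.top, inf_le_right⟩)

variable [Countable k] [IsAlgClosed k]

omit [IsAlgClosed k] in
theorem Fil.sk (h : Fil F) (h' : Unif F) : Sk fun a => a.Countable → ∃ U, Ch (Einf k) a U ∧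
    (∀ n, ¬ U n ≤ U (n + 1)) ∧ (∀ n, U n ∈ F) ∧ ∀ H ∈ F, Df (Einf k) a H → ∀ᶠ n in atTop, U n ≤ H := by
  obtain ⟨f, h1, h2⟩ := Sk.ex (cd_df (S := Einf k)) (cd_df (S := Einf k))
    fun H H' : Submodule k (Einf k).E => H' ∈ F ∧ ¬ H ≤ H'
  refine ⟨f, h1, fun a h3 ha => ?_⟩
  obtain ⟨U, u1, u2, u3, u4⟩ := exists_chain (A := {H | Df (Einf k) a H ∧ H ∈ F})
    ((countable_df ha).mono fun _ h => h.1) ⟨⊤, df_top, h.top⟩
    (fun A ⟨_, a⟩ B ⟨_, b⟩ => ⟨_, ⟨inferInstance, h.inf a b⟩, inf_le_left, inf_le_right⟩)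
    fun A hA => (h2 a h3 A hA.1 (h.np h' A hA.2)).imp fun B b => ⟨⟨b.1, b.2.1⟩, b.2.2⟩
  exact ⟨U, ⟨fun n => (u1 n).1, u2⟩, u3, fun n => (u1 n).2, fun H a b => u4 H ⟨b, a⟩⟩

omit [Countable k] [IsAlgClosed k] in
theorem Fil.not_hyA (h : Fil F) (h' : Unif F) {a : Set (Xi k)} (ha : a.Countable)
    {U : ℕ → Submodule k (Einf k).E} (h1 : Ch (Einf k) a U) (h2 : ∀ n, U n ∈ F)
    (h3 : ∀ H ∈ F, ∃ n, U n ≤ H) : ¬ HyA (Einf k) a univ U := by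
  intro h4
  obtain ⟨ξ, a1, a2⟩ := exists_task .A ha h1.df h1.df
  obtain ⟨X, a3, a4, a5⟩ := a2 (HyA.down (c := univ) ⟨h4.1, h4.2.imp
    (fun ⟨r, b1, b2⟩ => ⟨r, b1.mono a1, b2⟩) fun ⟨Λ, τ, W, b1, b2, b3⟩ =>
      ⟨Λ, τ, W, fun t => (b1 t).mono a1, fun t => (b2 t).mono a1, b3⟩⟩ (h1.mono a1) ξ.supp_lt
    (subset_univ _))
  obtain ⟨H₁, H₂, a6, a7, a8⟩ := nu (c := univ) rfl a4 a5
  have a9 := fun n => (a8 n _ _ rfl).2 fun e => h.ne (e ▸ h2 n)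
  obtain ⟨C, b1, b2⟩ := h' H₁ H₂ a6 a7 (fun a => (h3 _ a).elim fun n => (a9 n).1)
    fun a => (h3 _ a).elim fun n => (a9 n).2
  obtain ⟨n, hn⟩ := h3 C b1
  have := h.df C b1
  exact b2 (h.up (h2 n) ((a8 n _ _ rfl).1.trans (sup_le_sup (inf_le_inf_right _ hn)
    (inf_le_inf_right _ hn))) inferInstance)

omit [IsAlgClosed k] in
theorem Fil.sk_max (h : Fil F) (h' : Mx F) : Sk fun a => a.Countable → ∃ U, Ch (Einf k) a U ∧
    (∀ n, ¬ U n ≤ U (n + 1)) ∧ (∀ n, U n ∈ F) ∧ (∀ H ∈ F, Df (Einf k) a H → ∀ᶠ n in atTop, U n ≤ H) ∧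
    ∀ H, Df (Einf k) a H → (∀ᶠ n in atTop, U n ≤ H) ∨ ∀ᶠ n in atTop, ∀ x ∈ U n, x ∈ H → x = 0 := by
  obtain ⟨f, h1, h2⟩ := (h.sk (h.unif h')).and (Sk.ex (cd_df (S := Einf k)) (cd_df (S := Einf k))
    fun H A : Submodule k (Einf k).E => A ∈ F ∧ ∀ x ∈ A, x ∈ H → x = 0)
  refine ⟨f, h1, fun a h3 ha => ?_⟩
  obtain ⟨U, u1, u2, u3, u4⟩ := (h2 a h3).1 ha
  refine ⟨U, u1, u2, u3, u4, fun H hH => ?_⟩
  by_cases h4 : H ∈ F
  · exact Or.inl (u4 H h4 hH)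
  · obtain ⟨A, a1, a2, a3⟩ := (h2 a h3).2 H hH ((h' H (hH.mono (subset_univ _)) h4).imp
      fun A b => ⟨h.df A b.1, b⟩)
    exact Or.inr ((u4 A a2 a1).mono fun n hn x hx => a3 x (hn hx))

theorem Fil.scalar (h : Fil F) (h' : Mx F) (ρ : Submodule k ((Einf k).E × (Einf k).E))
    [Df (Einf k) univ ρ] (h1 : z0 ρ = ⊥) (h2 : ∀ H ∈ F, pre ρ H ∈ F) :
    ∃ c : k, ∃ A ∈ F, ∀ x ∈ A, (x, c • x) ∈ ρ := by
  by_contra hc
  obtain ⟨r, h3, h4⟩ := exists_ext_dl ρ h1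
  have h5 : ∀ H ∈ F, H.comap r ∈ F := fun H hH => h.up (h2 H hH) (fun x hx => by
    obtain ⟨y, a, b⟩ := mem_pre.1 hx
    rwa [Submodule.mem_comap, h4 x y b]) (by have := h.df H hH; infer_instance)
  obtain ⟨a₀, -, h6, h7⟩ := h3.finite
  obtain ⟨a, a1, a2, a3, a4⟩ := (sk_supp.and (h.sk_max h')).exists h6.countable
  obtain ⟨U, u1, u2, u3, u4, u5⟩ := a4 a2
  have := h7.mono a1
  have := u1.df
  have bs : BS (Einf k) univ U r := BS.univ a3 ⟨u1, inferInstance, fun n e => h.ne (e ▸ u3 n),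
    fun n => u4 _ (h5 _ (u3 n)) inferInstance, fun c => ((u5 (LinearMap.ker (r - c • 1))
      inferInstance).resolve_left fun b => by
        obtain ⟨n, hn⟩ := b.exists
        refine hc ⟨c, _, h.inf (u3 n) (h2 _ h.top), fun x hx => ?_⟩
        obtain ⟨y, -, b2⟩ := mem_pre.1 hx.2
        have b3 : r x = c • x := by simpa [sub_eq_zero] using hn hx.1
        rwa [← b3, h4 x y b2]).mono fun n hn x hx e => hn x hx (by simp [e]),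
    fun H hH => (u5 H hH).imp id fun b => ⟨0, b.mono fun n hn x hx e => hn x hx (e 0 le_rfl)⟩⟩
  refine h.not_hyA (h.unif h') a2 u1 u3 (fun H hH => ?_) ⟨u2, Or.inl ⟨r, inferInstance, bs⟩⟩
  refine ((bs.dich H (h.df H hH)).resolve_right ?_).exists
  rintro ⟨m, hm⟩
  obtain ⟨n, hn⟩ := hm.exists
  have b1 : ∀ a : ℕ, H.comap (r ^ a) ∈ F := by
    intro a
    induction a with
    | zero => exact hH
    | succ a ih =>
      rw [pow_succ]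
      exact h5 _ ih
  have b2 : ∀ m : ℕ, (⨅ a ≤ m, H.comap (r ^ a)) ∈ F := by
    intro m
    induction m with
    | zero => simpa using b1 0
    | succ m ih =>
      rw [Nat.iInf_le_succ]
      exact h.inf ih (b1 _)
  exact h.ne (h.up (h.inf (u3 n) (b2 m)) (fun x hx => hn x hx.1 (by simpa using hx.2)) df_bot)

theorem Fil.simple (h : Fil F) (h' : Mx F) : ∃ (a : Set (Xi k)) (U : ℕ → Submodule k (Einf k).E),
    a.Countable ∧ Ch (Einf k) a U ∧ K (Einf k) univ U ∧ (∀ n, U n ∈ F) ∧ ∀ H ∈ F, ∀ᶠ n in atTop, U n ≤ H := by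
  obtain ⟨a, -, a2, a3, a4, a5⟩ := (sk_supp.and ((h.sk_max h').and
    (Sk.ex (cd_df (S := Einf k)) (cd_df (S := Einf k))
      fun (ρ : Submodule k ((Einf k).E × (Einf k).E)) (H : Submodule k (Einf k).E) =>
        H ∈ F ∧ pre ρ H ∉ F))).exists countable_empty
  obtain ⟨U, u1, u2, u3, u4, u5⟩ := a4 a2
  have hK : K (Einf k) univ U := K.univ a3 (K.of_dich u1 u2 u5 fun ρ h1 h2 h3 => by
    have := h1.mono (subset_univ _)
    obtain ⟨c, A, b1, b2⟩ := h.scalar h' ρ h2 fun H hH => by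
      by_contra b
      obtain ⟨H', b1, b2, b3⟩ := a5 ρ h1 ⟨H, h.df H hH, hH, b⟩
      obtain ⟨n, hn⟩ := (u4 H' b2 b1).exists
      obtain ⟨m, hm⟩ := (h3 n).exists
      have := h.df H' b2
      exact b3 (h.up (u3 m) (hm.trans (pre_mono hn)) inferInstance)
    obtain ⟨H, b3, b4⟩ := Dp.sub (S := Einf k) (c := a) (p := fun x : (Einf k).E =>
      (x, c • x) ∈ ρ) (by fun_prop)
    exact ⟨c, (u4 H (h.up b1 (fun x hx => (b4 x).2 (b2 x hx)) (b3.mono (subset_univ _))) b3).mono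
      fun n hn x hx => (b4 x).1 (hn hx)⟩)
  refine ⟨a, U, a2, u1, hK, u3, fun H hH => ?_⟩
  have := h.df H hH
  refine (hK.dich H).resolve_right fun b => ?_
  obtain ⟨n, hn⟩ := b.exists
  exact h.ne (h.up (h.inf (u3 n) hH) (fun x hx => hn x hx.1 hx.2) df_bot)

theorem Fil.rel {G : Set (Submodule k (Einf k).E)} (h : Fil F) (h' : Mx F) (g : Fil G)
    (g' : Mx G) : ∃ ρ : Submodule k ((Einf k).E × (Einf k).E), Df (Einf k) univ ρ ∧ z0 ρ = ⊥ ∧ o0 ρ = ⊥ ∧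
      (∀ H ∈ G, pre ρ H ∈ F) ∧ ∀ H ∈ F, im ρ H ∈ G := by
  obtain ⟨a, U, a1, a2, a3, a4, a5⟩ := h.simple h'
  obtain ⟨b, V, b1, b2, b3, b4, b5⟩ := g.simple g'
  obtain ⟨ξ, c1, c2⟩ := exists_task .B (a1.union b1) (a2.mono subset_union_left).df
    (b2.mono subset_union_right).df
  have c3 := a3.down (subset_univ _) (a2.mono (subset_union_left.trans (c1.trans ξ.supp_lt)))
  have c4 := b3.down (subset_univ _) (b2.mono (subset_union_right.trans (c1.trans ξ.supp_lt)))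
  have : Rel (Einf k) univ U V := by
    by_cases c5 : NoMap (Einf k) (Iio ξ) U V
    · obtain ⟨X, c6, c7, c8⟩ := c2 ⟨c3, c4, c5⟩
      exact rel_of_b a2.anti b2.anti c7 c8
    · exact (c3.rel c4 c5).mono (subset_univ _)
  obtain ⟨ρ, d1, d2, d3, d4, d5⟩ := this
  refine ⟨ρ, d1, d2, d3, fun H hH => ?_, fun H hH => ?_⟩
  · obtain ⟨n, hn⟩ := (b5 H hH).exists
    obtain ⟨m, hm⟩ := (d4 n).exists
    have := g.df H hH
    exact h.up (a4 m) (hm.trans (pre_mono hn)) inferInstance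
  · obtain ⟨n, hn⟩ := (a5 H hH).exists
    obtain ⟨m, hm⟩ := (d5 n).exists
    have := h.df H hH
    exact g.up (b4 m) (hm.trans (im_mono hn)) inferInstance

theorem Fil.ef (h : Fil F) (τ : Module.End k (Einf k).E) [DL (Einf k) univ τ]
    (s : Submodule k (Einf k).E) [Df (Einf k) univ s] (ρ : Submodule k ((Einf k).E × (Einf k).E))
    [Df (Einf k) univ ρ] (h1 : z0 ρ = ⊥) (h2 : ∀ A ∈ F, ¬ A ⊓ s ≤ LinearMap.ker τ) :
    ∃ B, Df (Einf k) univ B ∧ B ≤ s ∧ s ⊓ LinearMap.ker τ ≤ B ∧ (∀ A ∈ F, ¬ A ⊓ B ≤ LinearMap.ker τ) ∧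
      Alt τ ρ B := by
  obtain ⟨G, g1, g2, g3⟩ := exists_max (F := {H | Df (Einf k) univ H ∧ ∃ A ∈ F, (A ⊓ s).map τ ≤ H})
    ⟨fun _ a => a.1, ⟨df_top, ⊤, h.top, le_top⟩, fun ⟨_, A, a, b⟩ e f => ⟨f, A, a, b.trans e⟩,
      fun ⟨_, A, a, b⟩ ⟨_, A', a', b'⟩ => ⟨inferInstance, _, h.inf a a', le_inf
        ((Submodule.map_mono (inf_le_inf_right _ inf_le_left)).trans b)
        ((Submodule.map_mono (inf_le_inf_right _ inf_le_right)).trans b')⟩,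
      fun ⟨_, A, a, b⟩ => h2 A a (map_le_iff_le_comap.1 b)⟩
  suffices ∃ H ∈ G, Alt τ ρ (s ⊓ H.comap τ) by
    obtain ⟨H, a1, a2⟩ := this
    have := g2.df H a1
    refine ⟨_, inferInstance, inf_le_left, inf_le_inf_left _ (LinearMap.ker_le_comap τ),
      fun A a3 a4 => g2.ne (g2.up (g2.inf a1 (g1 ⟨?_, A, a3, le_rfl⟩)) ?_ df_bot), a2⟩
    · have := h.df A a3
      infer_instance
    · rintro _ ⟨a5, x, hx, rfl⟩
      exact a4 ⟨hx.1, hx.2, a5⟩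
  by_cases h3 : ∀ H ∈ G, pre ρ H ∈ G
  · obtain ⟨c, A, a1, a2⟩ := g2.scalar g3 ρ h1 h3
    exact ⟨A, a1, Or.inl ⟨c, fun x hx => a2 _ hx.2⟩⟩
  · push Not at h3
    obtain ⟨H, a1, a2⟩ := h3
    have := g2.df H a1
    obtain ⟨A, a3, a4⟩ := g3 _ inferInstance a2
    exact ⟨_, g2.inf a1 a3, Or.inr fun x hx y hy e => a4 _ hx.2.2 (mem_pre.2 ⟨_, hy.2.1, e⟩)⟩

omit [Countable k] [IsAlgClosed k] in
theorem exists_ker (B : Submodule k (Einf k).E) [Df (Einf k) univ B] :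
    ∃ τ : Module.End k (Einf k).E, DL (Einf k) univ τ ∧ LinearMap.ker τ = B := by
  obtain ⟨C, h1, h2⟩ := exists_compl B
  obtain ⟨ρ, a1, a2⟩ := Dp.sub (S := Einf k) (c := univ)
    (p := fun z : (Einf k).E × (Einf k).E => z.1 - z.2 ∈ B ∧ z.2 ∈ C) (by fun_prop)
  obtain ⟨τ, a3, a4⟩ := exists_ext_dl ρ ((Submodule.eq_bot_iff _).2 fun y hy =>
    disjoint_def.1 h2.disjoint y (by simpa using ((a2 _).1 hy).1) ((a2 _).1 hy).2)
  refine ⟨τ, a3, le_antisymm (fun x hx => ?_) fun x hx => a4 x 0 ((a2 _).2 (by simpa using hx))⟩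
  obtain ⟨b, hb, c, hc, rfl⟩ := mem_sup.1 (h2.sup_eq_top ▸ mem_top (x := x))
  rw [LinearMap.mem_ker, a4 _ c ((a2 _).2 ⟨by simpa using hb, hc⟩)] at hx
  simpa [hx] using hb

theorem Fil.socle (h : Fil F) (h' : Unif F) : ∃ H, Df (Einf k) univ H ∧ H ∉ F ∧
    ∀ H', Df (Einf k) univ H' → H ≤ H' → H' ∉ F → ∃ A ∈ F, A ⊓ H' ≤ H := by
  by_contra hc
  push Not at hc
  obtain ⟨a, -, a2, a3, a4, a5, a6, a7, a8⟩ := (sk_supp.and ((h.sk h').and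
    ((Sk.ex ((cd_df (S := Einf k)).prod (cd_df (S := Einf k))) (cd_df (S := Einf k))
      fun (x : Submodule k (Einf k).E × Submodule k (Einf k).E) (A : Submodule k (Einf k).E) =>
        A ∈ F ∧ A ⊓ x.2 ≤ x.1).and
    ((Sk.ex (cd_df (S := Einf k)) (cd_dl (S := Einf k)) fun B τ => LinearMap.ker τ = B).and
    ((Sk.ex (cd_df (S := Einf k)) (cd_df (S := Einf k))
      fun B H : Submodule k (Einf k).E => H ≤ B ∧ H ≠ ⊥ ∧ ¬ B ≤ H).and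
    (Sk.ex ((cd_dl (S := Einf k)).prod ((cd_df (S := Einf k) (M := (Einf k).E)).prod
      (cd_df (S := Einf k) (M := (Einf k).E × (Einf k).E)))) (cd_df (S := Einf k))
      fun x B => B ≤ x.2.1 ∧ x.2.1 ⊓ LinearMap.ker x.1 ≤ B ∧
        (∀ A ∈ F, ¬ A ⊓ B ≤ LinearMap.ker x.1) ∧ Alt x.1 x.2.2 B)))))).exists countable_empty
  obtain ⟨U, u1, u2, u3, u4⟩ := a4 a2
  have heir : ∀ A B, Df (Einf k) a A → Df (Einf k) a B → ¬ Sb U A B → ∀ C ∈ F, ¬ C ⊓ B ≤ A := by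
    intro A B hA hB b1 C b2 b3
    obtain ⟨C', b4, b5, b6⟩ := a5 (A, B) ⟨hA, hB⟩ ⟨C, h.df C b2, b2, b3⟩
    exact b1 ((u4 C' b5 b4).mono fun n hn x hx e => b6 ⟨hn hx, e⟩)
  obtain ⟨Λ, τ, W, b1, b2⟩ := exists_tv a2 u1
    (fun B hB => a6 B hB (by have := hB.mono (subset_univ _); exact exists_ker B))
    (fun B hB e => a7 B hB (by have := hB.mono (subset_univ _); exact exists_atom B e))
    fun τ s ρ b1 b2 b3 b4 b5 => by
      obtain ⟨B, b6, b7, b8, b9, b10⟩ := a8 (τ, s, ρ) ⟨b1, b2, b3⟩ (by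
        have := b1.mono (subset_univ _)
        have := b2.mono (subset_univ _)
        have := b3.mono (subset_univ _)
        exact h.ef τ s ρ b4 (heir _ _ inferInstance b2 b5))
      refine ⟨B, b6, b7, b8, fun e => ?_, b10⟩
      obtain ⟨n, hn⟩ := e.exists
      exact b9 _ (u3 n) fun x hx => hn x hx.1 hx.2
  have b3 := TV.univ a3 b2
  have := b2.dl
  have gen : ∀ H ∈ F, ∀ᶠ n in atTop, U n ≤ H := by
    intro H hH
    refine (b3.top H (h.df H hH)).resolve_right ?_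
    rintro ⟨s, t, c1, -, c2⟩
    obtain ⟨n, hn⟩ := c2.exists
    exact heir _ _ inferInstance inferInstance c1.2 _ (h.inf (u3 n) hH)
      fun x hx => hn x hx.1.1 ⟨hx.1.2, hx.2⟩
  refine h.not_hyA h' a2 u1 u3 (fun H hH => (gen H hH).exists)
    ⟨u2, Or.inr ⟨Λ, τ, W, b2.dl, b1, b3, fun s t c1 ρ _ _ c2 => gen _ ?_⟩⟩
  by_contra c3
  obtain ⟨H', c4, c5, c6, c7⟩ := hc _ inferInstance c3
  rcases (b3.simple s t c1).dich (im ρ H') with c8 | c8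
  · obtain ⟨j, hj⟩ := c8.exists
    obtain ⟨n, hn⟩ := (c2 j).exists
    refine c6 (h.up (u3 n) (fun x hx => ?_) c4)
    obtain ⟨y, d1, d2⟩ := mem_pre.1 (hn hx)
    obtain ⟨x', d3, d4⟩ := mem_im.1 (hj d1)
    simpa using add_mem (c5 (mem_o0.2 (by simpa using sub_pair d2 d4) : x - x' ∈ _)) d3
  · obtain ⟨j, hj⟩ := c8.exists
    obtain ⟨n, hn⟩ := (c2 j).exists
    refine c7 _ (u3 n) fun x hx => ?_
    obtain ⟨y, d1, d2⟩ := mem_pre.1 (hn hx.1)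
    rwa [hj y d1 (mem_im.2 ⟨x, hx.2, d2⟩)] at d2

end Pool.Agent.Lib.MP_1684af_al
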