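import Mathlib
import Pool.Agent.Lib.MP_1684af_al.Round
import Pool.Agent.Lib.MP_1684af_al.Defs
import Pool.Agent.Lib.MP_cfafa5_al.Hull

/-!
The ring of definable endomorphisms of the generic model.
-/

universe v

namespace Pool.Agent.Lib.MP_1684af_al

open Submodule Set Pool.Agent.Lib.MP_cfafa5_al

section abstract

variable {S : Type} [Ring S]

/-- Maximal left ideals. -/
def MaxL (J : Ideal S) : Prop := 1 ∉ J ∧ ∀ a ∉ J, ∃ t, 1 - t * a ∈ J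

theorem zg_unique [Nontrivial S] (h1 : ∀ a : S, ∃ x, a * x * a = a)
    (h2 : ∀ J : Ideal S, 1 ∉ J → (∀ r ∉ J, ∀ s ∉ J, ∃ r' s' : S, r' * r - s' * s ∈ J ∧ r' * r ∉ J) →
      ∃ r, ∃ J' : Ideal S, MaxL J' ∧ ∀ a, a ∈ J' ↔ a * r ∈ J)
    (h3 : ∀ J J' : Ideal S, MaxL J → MaxL J' → ∃ r, ∀ a, a ∈ J ↔ a * r ∈ J') :
    ∃ N : Zg.{v} S, ∀ N', N' = N := by
  obtain ⟨L, hL⟩ := Ideal.exists_maximal S
  obtain ⟨P, -⟩ := exists_point.{v} L (fun h => hL.ne_top ((Ideal.eq_top_iff_one L).2 h))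
    fun r hr s hs => by
      obtain ⟨t, c, hc, e⟩ := hL.exists_inv hr
      have : s * t * r - 1 * s ∈ L := by
        rw [mul_assoc, eq_sub_of_add_eq e]
        simpa [mul_sub] using L.mul_mem_left s hc
      exact ⟨s * t, 1, this, fun h => hs (by simpa using L.sub_mem h this)⟩
  have key : ∀ Q : PInj.{v} S, ∃ (x : Q.1) (J : Ideal S), MaxL J ∧ ∀ a, a ∈ J ↔ a • x = 0 := by
    intro Q
    have := Q.2.1.1
    obtain ⟨x, hx⟩ := exists_ne (0 : Q.1)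
    obtain ⟨r, J, a1, a2⟩ := h2 (LinearMap.ker (LinearMap.toSpanSingleton S Q.1 x))
      (by simpa using hx) fun r hr s hs => by
        obtain ⟨r', s', a1, a2⟩ := ess_top (baer_of_pure h1 Q.2.2) Q.2.1 (x := s • x) (y := r • x)
          hs hr
        exact ⟨r', s', by simp [sub_smul, mul_smul, a1], by simpa [mul_smul] using a2⟩
    exact ⟨r • x, J, a1, fun a => (a2 a).trans (by simp [mul_smul])⟩
  refine ⟨Quot.mk _ P, Quot.ind fun Q => Quot.sound ?_⟩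
  obtain ⟨x, J, a1, a2⟩ := key Q
  obtain ⟨y, J', a3, a4⟩ := key P
  obtain ⟨r, hr⟩ := h3 J J' a1 a3
  exact equiv_of_ann (baer_of_pure h1 Q.2.2) (baer_of_pure h1 P.2.2) Q.2.1 P.2.1 (x := x)
    (x' := r • y) (fun e => a1.1 ((a2 1).2 (by simp [e]))) fun a => by
      rw [← a2, hr, a4, mul_smul]

theorem not_minimal (h1 : ∀ a : S, ∃ x, a * x * a = a) (h2 : ∀ a : S, a ≠ 0 → ∃ b c, b * a * c = 1)
    {j j' p p' : S} (e1 : p * j = 1) (e2 : p' * j' = 1) (e3 : p * j' = 0) (e4 : p' * j = 0)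
    (M : Type v) [AddCommGroup M] [Module S M] {n : ℕ} (φ ψ : PP S n) : ¬ IsMinimalFor M φ ψ := by
  have pj : ∀ i l : ℕ, p * p' ^ i * (j' ^ l * j) = if i = l then 1 else 0 := by
    intro i
    induction i with
    | zero =>
      rintro (_ | l)
      · simpa using e1
      · simp [pow_succ', ← mul_assoc, e3]
    | succ i ih =>
      rintro (_ | l)
      · simp [pow_succ, mul_assoc, e4]
      · have : p * p' ^ (i + 1) * (j' ^ (l + 1) * j) = p * p' ^ i * (p' * j') * (j' ^ l * j) := by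
          rw [pow_succ, pow_succ']
          simp only [mul_assoc]
        simp [this, e2, ih]
  have dec : ∀ {m : ℕ} (x : Fin m → M) (i : Fin m),
      (p * p' ^ (i : ℕ)) • ∑ l : Fin m, (j' ^ (l : ℕ) * j) • x l = x i := by
    intro m x i
    simp [Finset.smul_sum, ← mul_smul, pj, Fin.val_inj]
  have cod : ∀ {m : ℕ} (g : Fin m → S) (x : Fin m → M),
      (∑ i : Fin m, g i * (p * p' ^ (i : ℕ))) • ∑ l : Fin m, (j' ^ (l : ℕ) * j) • x l =
        ∑ i, g i • x i := by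
    intro m g x
    simp only [Finset.sum_smul, mul_smul (g _), dec]
  have qe : ∀ φ : PP S n, ∃ g : Fin n → S, ∀ x, x ∈ φ.ev M ↔ ∑ i, g i • x i = 0 := by
    intro φ
    obtain ⟨β, hβ⟩ : ∃ β, β = ∑ l : Fin φ.m, (∑ i : Fin φ.r, (j' ^ (i : ℕ) * j) * φ.B i l) *
      (p * p' ^ (l : ℕ)) := ⟨_, rfl⟩
    obtain ⟨β', h3⟩ := h1 β
    have h4 : ∀ {m : ℕ} (A : Fin φ.r → Fin m → S) (x : Fin m → M),
        ∑ l, (∑ i : Fin φ.r, (j' ^ (i : ℕ) * j) * A i l) • x l =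
          ∑ i : Fin φ.r, (j' ^ (i : ℕ) * j) • ∑ l, A i l • x l := by
      intro m A x
      simp only [Finset.sum_smul, Finset.smul_sum, mul_smul _ (A _ _)]
      exact Finset.sum_comm
    refine ⟨fun l => (1 - β * β') * ∑ i : Fin φ.r, (j' ^ (i : ℕ) * j) * φ.A i l, fun x => ?_⟩
    simp only [mul_smul (1 - β * β'), ← Finset.smul_sum, h4]
    constructor
    · rintro ⟨y, hy⟩
      have := cod (fun l => ∑ i : Fin φ.r, (j' ^ (i : ℕ) * j) * φ.B i l) y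
      simp only [eq_neg_of_add_eq_zero_left (hy _), smul_neg, Finset.sum_neg_distrib]
      rw [← h4, ← this, ← hβ, ← mul_smul, sub_mul, h3, one_mul, sub_self, zero_smul, neg_zero]
    · intro h
      obtain ⟨w, hw⟩ : ∃ w, w = ∑ i : Fin φ.r, (j' ^ (i : ℕ) * j) • ∑ l, φ.A i l • x l := ⟨_, rfl⟩
      rw [← hw, sub_smul, one_smul, sub_eq_zero] at h
      refine ⟨fun l => (p * p' ^ (l : ℕ)) • -(β' • w), fun i => ?_⟩
      rw [← dec (fun i => ∑ l, φ.A i l • x l + ∑ l, φ.B i l • (p * p' ^ (l : ℕ)) • -(β' • w)) i]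
      simp only [smul_add, Finset.sum_add_distrib]
      rw [← smul_add, ← hw, ← h4]
      simp only [← mul_smul _ _ (-(β' • w))]
      rw [← Finset.sum_smul, ← hβ, smul_neg, ← mul_smul, ← h, add_neg_cancel, smul_zero]
  rintro ⟨h3, h4⟩
  obtain ⟨f, hf⟩ := qe φ
  obtain ⟨g, hg⟩ := qe ψ
  obtain ⟨x, hx, hx'⟩ := Set.exists_of_ssubset h3
  obtain ⟨f', h5⟩ := h1 (∑ i : Fin n, f i * (p * p' ^ (i : ℕ)))
  obtain ⟨a, ha⟩ : ∃ a, a = (∑ i : Fin n, g i * (p * p' ^ (i : ℕ))) *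
    (1 - f' * ∑ i : Fin n, f i * (p * p' ^ (i : ℕ))) := ⟨_, rfl⟩
  have h6 : ∀ y : M, ∃ x ∈ φ.ev M, ∑ i, g i • x i = a • y := by
    intro y
    refine ⟨fun i => (p * p' ^ (i : ℕ)) • (1 - f' * ∑ i : Fin n, f i * (p * p' ^ (i : ℕ))) • y,
      (hf _).2 ?_, ?_⟩
    · simp only [← mul_smul (f _)]
      rw [← Finset.sum_smul, ← mul_smul, mul_sub, ← mul_assoc, h5, mul_one, sub_self, zero_smul]
    · simp only [← mul_smul (g _)]
      rw [← Finset.sum_smul, ← mul_smul, ha]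
  obtain ⟨b, c, h7⟩ := h2 a (by
    rintro rfl
    refine hx' ((hg x).2 ?_)
    rw [← cod g x]
    have : (1 - f' * ∑ i : Fin n, f i * (p * p' ^ (i : ℕ))) •
        ∑ l : Fin n, (j' ^ (l : ℕ) * j) • x l = ∑ l : Fin n, (j' ^ (l : ℕ) * j) • x l := by
      rw [sub_smul, mul_smul f', cod, (hf x).1 hx, smul_zero, sub_zero, one_smul]
    rw [← this, ← mul_smul, ← ha, zero_smul])
  let θ : PP S n := ⟨1, 2, ![f, g], ![0, fun _ => -(a * c * j)]⟩
  have h8 : ∀ x, x ∈ θ.ev M ↔ x ∈ φ.ev M ∧ ∃ y : M, ∑ i, g i • x i = (a * c * j) • y := by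
    intro x
    simp only [PP.ev, θ, Fin.forall_fin_two, mem_ofPred_eq]
    refine ⟨fun ⟨y, h, h'⟩ => ⟨(hf x).2 (by simpa using h), y 0, by
      simpa [add_neg_eq_zero] using h'⟩, fun ⟨h, y, h'⟩ => ⟨fun _ => y, by
        simpa using (hf x).1 h, by simpa [add_neg_eq_zero] using h'⟩⟩
  obtain ⟨y, hy⟩ : ∃ y : M, y ≠ 0 := ⟨_, fun h => hx' ((hg x).2 h)⟩
  have h9 : ∀ z : M, b • (a • c • z) = z := fun z => by
    rw [← mul_smul, ← mul_smul, h7, one_smul]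
  refine h4 ⟨θ, ⟨fun x hx => (h8 x).2 ⟨h3.1 hx, 0, by simpa using (hg x).1 hx⟩, fun h => hy ?_⟩,
    fun x hx => ((h8 x).1 hx).1, fun h => hy ?_⟩
  · obtain ⟨x, a1, a2⟩ := h6 (c • j • y)
    rw [(hg x).1 (h ((h8 x).2 ⟨a1, y, by simp [a2, mul_smul]⟩))] at a2
    rw [← one_smul S y, ← e1, mul_smul, ← h9 (j • y), ← a2, smul_zero, smul_zero]
  · obtain ⟨x, a1, a2⟩ := h6 (c • j' • y)
    obtain ⟨y', a3⟩ := ((h8 x).1 (h a1)).2
    rw [← one_smul S y, ← e2, mul_smul, ← h9 (j' • y), ← a2, a3, mul_smul, mul_smul, h9,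
      ← mul_smul, e4, zero_smul]

end abstract

variable {k : Type} [Field k] [Countable k] [IsAlgClosed k] {S : Type} [Ring S]

theorem main (φ : S →+* Module.End k (Einf k).E) (hφ : Function.Injective φ)
    (hd : ∀ r, DL (Einf k) univ r ↔ ∃ a, φ a = r) :
    (∃ N : Zg.{v} S, ∀ N', N' = N) ∧ ∀ (M : Type v) [AddCommGroup M] [Module S M] (n : ℕ)
      (ψ ψ' : PP S n), ¬ IsMinimalFor M ψ ψ' := by
  have dl : ∀ a, DL (Einf k) univ (φ a) := fun a => (hd _).2 ⟨a, rfl⟩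
  have ext : ∀ ρ : Submodule k ((Einf k).E × (Einf k).E), Df (Einf k) univ ρ → z0 ρ = ⊥ →
      ∃ a, ∀ x y, (x, y) ∈ ρ → φ a x = y := by
    intro ρ _ h
    obtain ⟨r, h1, h2⟩ := exists_ext_dl ρ h
    obtain ⟨a, rfl⟩ := (hd r).1 h1
    exact ⟨a, h2⟩
  have gen : ∀ e f, LinearMap.ker (φ e) ≤ LinearMap.ker (φ f) → ∃ s, s * e = f := by
    intro e f h
    obtain ⟨ρ, a1, a2⟩ := Dp.sub (S := Einf k) (c := univ)
      (p := fun z : (Einf k).E × (Einf k).E => ∃ x, φ e x = z.1 ∧ φ f x = z.2) (by fun_prop)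
    obtain ⟨s, hs⟩ := ext ρ a1 ((Submodule.eq_bot_iff _).2 fun y hy => by
      obtain ⟨x, a3, a4⟩ := (a2 _).1 hy
      exact a4.symm.trans (h a3))
    exact ⟨s, hφ (LinearMap.ext fun x => by
      rw [map_mul]
      exact hs _ _ ((a2 _).2 ⟨x, rfl, rfl⟩))⟩
  have ker : ∀ H, Df (Einf k) univ H → ∃ t, LinearMap.ker (φ t) = H := by
    intro H _
    obtain ⟨r, h1, h2⟩ := exists_ker H
    obtain ⟨a, rfl⟩ := (hd r).1 h1
    exact ⟨a, h2⟩
  have reg : ∀ a : S, ∃ x, a * x * a = a := by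
    intro a
    obtain ⟨C, h1, h2⟩ := exists_compl (LinearMap.ker (φ a))
    obtain ⟨ρ, a1, a2⟩ := Dp.sub (S := Einf k) (c := univ)
      (p := fun z : (Einf k).E × (Einf k).E => z.2 ∈ C ∧ φ a z.2 = z.1) (by fun_prop)
    obtain ⟨g, hg⟩ := ext ρ a1 ((Submodule.eq_bot_iff _).2 fun y hy =>
      disjoint_def.1 h2.disjoint y ((a2 _).1 hy).2 ((a2 _).1 hy).1)
    refine ⟨g, hφ (LinearMap.ext fun x => ?_)⟩
    obtain ⟨b, hb, c, hc, rfl⟩ := mem_sup.1 (h2.sup_eq_top ▸ mem_top (x := x))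
    have : φ a (b + c) = φ a c := by rw [map_add, hb, zero_add]
    simp only [map_mul, Module.End.mul_apply, this, hg (φ a c) c ((a2 _).2 ⟨hc, rfl⟩)]
  have jj : ∀ H, Df (Einf k) univ H → H ≠ ⊥ → ∃ j j', (∀ x, φ j x ∈ H) ∧
      ∀ x y, φ j x + φ j' y = 0 → x = 0 ∧ y = 0 := by
    intro H _ h
    obtain ⟨j, j', h1, h2, h3⟩ := exists_j H h
    obtain ⟨a, rfl⟩ := (hd j).1 h1
    obtain ⟨b, rfl⟩ := (hd j').1 h2
    exact ⟨a, b, h3⟩
  obtain ⟨j, j', -, hj⟩ := jj ⊤ inferInstance top_ne_bot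
  have two : ∀ e e', LinearMap.ker (φ (j * e + j' * e')) ≤
      LinearMap.ker (φ e) ⊓ LinearMap.ker (φ e') := fun e e' x hx => hj _ _ (by simpa using hx)
  have fil : ∀ J : Ideal S, 1 ∉ J → ∃ F, Fil F ∧ (∀ a, a ∈ J ↔ LinearMap.ker (φ a) ∈ F) ∧
      ∀ H ∈ F, ∃ e ∈ J, LinearMap.ker (φ e) ≤ H := by
    refine fun J h => ⟨{H | Df (Einf k) univ H ∧ ∃ e ∈ J, LinearMap.ker (φ e) ≤ H},
      ⟨fun _ h => h.1, ⟨df_top, 0, zero_mem _, le_top⟩, fun ⟨_, e, a, b⟩ c d => ⟨d, e, a, b.trans c⟩,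
        fun ⟨_, e, a, b⟩ ⟨_, e', a', b'⟩ => ⟨inferInstance, _, J.add_mem (J.mul_mem_left j a)
          (J.mul_mem_left j' a'), (two e e').trans (inf_le_inf b b')⟩, fun ⟨_, e, a, b⟩ => ?_⟩,
      fun a => ⟨fun h => ⟨inferInstance, a, h, le_rfl⟩, fun ⟨_, e, a, b⟩ => ?_⟩, fun _ h => h.2⟩
    · obtain ⟨s, hs⟩ := gen e 1 (b.trans bot_le)
      exact h (hs ▸ J.mul_mem_left s a)
    · obtain ⟨s, rfl⟩ := gen e _ b
      exact J.mul_mem_left s a
  have mx : ∀ J : Ideal S, MaxL J → ∃ F, Fil F ∧ Mx F ∧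
      ∀ a, a ∈ J ↔ LinearMap.ker (φ a) ∈ F := by
    intro J h
    obtain ⟨F, h1, h2, -⟩ := fil J h.1
    refine ⟨F, h1, fun H hH h3 => ?_, h2⟩
    obtain ⟨t, rfl⟩ := ker H hH
    obtain ⟨s, hs⟩ := h.2 t fun h4 => h3 ((h2 t).1 h4)
    exact ⟨_, (h2 _).1 hs, fun x h4 (h5 : φ t x = 0) => by simpa [h5] using h4⟩
  have proj : ∀ j j', (∀ x y, φ j x + φ j' y = 0 → x = 0) → ∃ p, p * j = 1 ∧ p * j' = 0 := by
    intro j j' h
    obtain ⟨ρ, a1, a2⟩ := Dp.sub (S := Einf k) (c := univ)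
      (p := fun z : (Einf k).E × (Einf k).E => ∃ y, φ j z.2 + φ j' y = z.1) (by fun_prop)
    obtain ⟨p, hp⟩ := ext ρ a1 ((Submodule.eq_bot_iff _).2 fun y hy =>
      h _ _ ((a2 _).1 hy).choose_spec)
    exact ⟨p, hφ (LinearMap.ext fun x => by simpa using hp _ x ((a2 _).2 ⟨0, by simp⟩)),
      hφ (LinearMap.ext fun x => by simpa using hp _ 0 ((a2 _).2 ⟨x, by simp⟩))⟩
  have : Nontrivial S := φ.domain_nontrivial
  refine ⟨zg_unique reg (fun J h1 h2 => ?_) fun J J' h1 h2 => ?_, fun M _ _ n ψ ψ' => ?_⟩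
  · obtain ⟨F, a1, a2, a3⟩ := fil J h1
    obtain ⟨H, a4, a5, a6⟩ := a1.socle fun A B hA hB h3 h4 => by
      obtain ⟨a, rfl⟩ := ker A hA
      obtain ⟨b, rfl⟩ := ker B hB
      obtain ⟨r, s, h5, h6⟩ := h2 a (mt (a2 a).1 h3) b (mt (a2 b).1 h4)
      refine ⟨_, (a2 _).1 h5, fun h7 => h6 ((a2 _).2 (a1.up h7 (sup_le ?_ ?_) inferInstance))⟩
      · rintro x ⟨-, h8 : φ a x = 0⟩
        simp [h8]
      · rintro x ⟨h8, h9 : φ b x = 0⟩
        simpa [h9] using h8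
    obtain ⟨r, rfl⟩ := ker H a4
    refine ⟨r, Submodule.comap (LinearMap.toSpanSingleton S S r) J, ⟨fun h => a5 ((a2 r).1 (by
      simpa using h)), fun a h => ?_⟩, fun a => Iff.rfl⟩
    obtain ⟨A, a7, a8⟩ := a6 (LinearMap.ker (φ (a * r))) inferInstance
      (fun x (hx : φ r x = 0) => by simp [hx]) fun h' => h ((a2 _).2 h')
    obtain ⟨e, a9, a10⟩ := a3 A a7
    obtain ⟨s, hs⟩ := gen _ r ((two e (a * r)).trans ((inf_le_inf_right _ a10).trans a8))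
    refine ⟨s * j', ?_⟩
    change (1 - s * j' * a) * r ∈ J
    convert J.mul_mem_left (s * j) a9 using 1
    rw [sub_mul, one_mul, sub_eq_iff_eq_add]
    conv_lhs => rw [← hs]
    simp only [mul_add, mul_assoc]
  · obtain ⟨F, a1, a2, a3⟩ := mx J h1
    obtain ⟨G, b1, b2, b3⟩ := mx J' h2
    obtain ⟨ρ, c1, c2, -, c3, c4⟩ := b1.rel b2 a1 a2
    obtain ⟨r, hr⟩ := ext ρ c1 c2
    refine ⟨r, fun a => ⟨fun h => (b3 _).2 (b1.up (c3 _ ((a3 a).1 h)) (fun x hx => ?_)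
      inferInstance), fun h => (a3 _).2 (a1.up (c4 _ ((b3 _).1 h)) (fun y hy => ?_)
      inferInstance)⟩⟩
    · obtain ⟨y, c5, c6⟩ := mem_pre.1 hx
      simpa [hr x y c6] using c5
    · obtain ⟨x, c5, c6⟩ := mem_im.1 hy
      simpa [hr x y c6] using c5
  · obtain ⟨p, e1, e3⟩ := proj j j' fun x y h => (hj x y h).1
    obtain ⟨p', e2, e4⟩ := proj j' j fun x y h => (hj y x (by rwa [add_comm])).2
    refine not_minimal reg (fun a ha => ?_) e1 e2 e3 e4 M ψ ψ'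
    obtain ⟨i, i', h1, h2⟩ := jj ((⊤ : Submodule k (Einf k).E).map (φ a)) inferInstance
      fun h => ha (hφ (LinearMap.ext fun x => by simpa using h.le ⟨x, trivial, rfl⟩))
    obtain ⟨g, hg⟩ := reg a
    obtain ⟨b, hb, -⟩ := proj i i' fun x y h => (h2 x y h).1
    refine ⟨b, g * i, hb ▸ hφ (LinearMap.ext fun x => ?_)⟩
    obtain ⟨w, -, hw⟩ := h1 x
    have := LinearMap.congr_fun (congrArg φ hg) w
    simp only [map_mul, Module.End.mul_apply] at this ⊢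
    rw [← hw, this]

variable (k) in
/-- The ring of definable endomorphisms. -/
def TT : Subring (Module.End k (Einf k).E) where
  carrier := {r | DL (Einf k) univ r}
  mul_mem' := fun {a b} (_ : DL _ _ a) (_ : DL _ _ b) => dl_mul
  one_mem' := dl_one
  add_mem' := fun {a b} (_ : DL _ _ a) (_ : DL _ _ b) => dl_add
  zero_mem' := dl_zero
  neg_mem' := fun {a} (h : DL _ _ a) => ⟨h.dm.neg⟩

theorem countable_closure (F : Type) [Field F] [Countable F] : Countable (AlgebraicClosure F) := by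
  rw [← Cardinal.mk_le_aleph0_iff]
  exact (Algebra.IsAlgebraic.cardinalMk_le_max F (AlgebraicClosure F)).trans
    (max_le Cardinal.mk_le_aleph0 le_rfl)

theorem final : ∃ (R : Type) (_ : Ring R), (∃ N : Zg.{v} Rᵐᵒᵖ, ∀ N', N' = N) ∧
    ∀ (M : Type v) [AddCommGroup M] [Module Rᵐᵒᵖ M] (n : ℕ) (φ ψ : PP Rᵐᵒᵖ n),
      ¬ IsMinimalFor M φ ψ := by
  have := countable_closure ℚ
  let e := RingEquiv.opOp (TT (AlgebraicClosure ℚ))
  refine ⟨(TT (AlgebraicClosure ℚ))ᵐᵒᵖ, inferInstance, main ((TT _).subtype.comp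
    e.symm.toRingHom) (fun a b h => e.symm.injective (Subtype.val_injective h))
    fun r => ⟨fun h => ⟨e ⟨r, h⟩, rfl⟩, ?_⟩⟩
  rintro ⟨a, rfl⟩
  exact (e.symm a).2

end Pool.Agent.Lib.MP_1684af_al
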